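import Mathlib

/-!
# Growth of submultiplicative sequences
-/

set_option autoImplicit false

namespace Pool.Agent.H17Dyn

open Filter Topology

lemma rpow_eq_exp {x : ℝ} (hx : 0 < x) (n : ℕ) :
    x ^ ((1 : ℝ) / (n : ℝ)) = Real.exp (Real.log x / n) := by
  rw [Real.rpow_def_of_pos hx]
  congr 1
  ring

theorem submult_tendsto (u : ℕ → ℕ) (h1 : ∀ n, 1 ≤ u n) (hs : ∀ m n, u (m + n) ≤ u m * u n) :
    ∃ lam : ℝ, 1 ≤ lam ∧ Tendsto (fun n : ℕ => (u n : ℝ) ^ ((1 : ℝ) / (n : ℝ))) atTop (𝓝 lam) ∧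
      ∀ n, lam ^ n ≤ u n := by
  have hpos : ∀ n, (0 : ℝ) < u n := fun n => by exact_mod_cast h1 n
  have h1' : ∀ n, (1 : ℝ) ≤ u n := fun n => by exact_mod_cast h1 n
  have hsub : Subadditive fun n => Real.log (u n) := by
    intro m n
    rw [← Real.log_mul (hpos m).ne' (hpos n).ne']
    exact Real.log_le_log (hpos _) (by exact_mod_cast hs m n)
  have hlog : ∀ n, 0 ≤ Real.log (u n) := fun n => Real.log_nonneg (h1' n)
  have hbdd : BddBelow (Set.range fun n : ℕ => Real.log (u n) / n) := by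
    refine ⟨0, ?_⟩
    rintro _ ⟨n, rfl⟩
    exact div_nonneg (hlog n) (Nat.cast_nonneg n)
  have ht := hsub.tendsto_lim hbdd
  have hl : 0 ≤ hsub.lim := ge_of_tendsto' ht fun n => div_nonneg (hlog n) (Nat.cast_nonneg n)
  refine ⟨Real.exp hsub.lim, Real.one_le_exp hl, ?_, ?_⟩
  · refine Tendsto.congr (fun n => (rpow_eq_exp (hpos n) n).symm) ?_
    exact (Real.continuous_exp.tendsto _).comp ht
  · intro n
    rcases eq_or_ne n 0 with rfl | hn
    · simpa using h1' 0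
    · have h2 := hsub.lim_le_div hbdd hn
      rw [← Real.exp_nat_mul]
      have hn' : (0 : ℝ) < n := by exact_mod_cast Nat.pos_of_ne_zero hn
      have h3 : (n : ℝ) * hsub.lim ≤ Real.log (u n) := by
        rw [le_div_iff₀ hn'] at h2
        linarith
      calc Real.exp (n * hsub.lim) ≤ Real.exp (Real.log (u n)) := Real.exp_le_exp.2 h3
        _ = u n := Real.exp_log (hpos n)

lemma ratio_root {u : ℕ → ℝ} (hpos : ∀ n, 0 < u n) {θ lam : ℝ} (hθ : 0 < θ)
    (h1 : Tendsto (fun n => u (n + 1) / u n) atTop (𝓝 θ))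
    (h2 : Tendsto (fun n : ℕ => u n ^ ((1 : ℝ) / (n : ℝ))) atTop (𝓝 lam)) : θ = lam := by
  have h3 : Tendsto (fun n => Real.log (u (n + 1) / u n)) atTop (𝓝 (Real.log θ)) :=
    (Real.continuousAt_log hθ.ne').tendsto.comp h1
  have h4 := h3.cesaro
  have h5 : ∀ n : ℕ, ∑ i ∈ Finset.range n, Real.log (u (i + 1) / u i) =
      Real.log (u n) - Real.log (u 0) := by
    intro n
    rw [← Finset.sum_range_sub (fun i => Real.log (u i)) n]
    exact Finset.sum_congr rfl fun i _ => Real.log_div (hpos _).ne' (hpos _).ne'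
  simp_rw [h5] at h4
  have h6 : Tendsto (fun n : ℕ => (n : ℝ)⁻¹ * Real.log (u 0)) atTop (𝓝 0) := by
    have := tendsto_inv_atTop_nhds_zero_nat (𝕜 := ℝ)
    simpa using this.mul_const (Real.log (u 0))
  have h7 : Tendsto (fun n : ℕ => Real.log (u n) / n) atTop (𝓝 (Real.log θ)) := by
    have := h4.add h6
    rw [add_zero] at this
    refine this.congr fun n => ?_
    rw [div_eq_inv_mul]
    ring
  have h8 : Tendsto (fun n : ℕ => u n ^ ((1 : ℝ) / (n : ℝ))) atTop (𝓝 (Real.exp (Real.log θ))) := by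
    refine Tendsto.congr (fun n => (rpow_eq_exp (hpos n) n).symm) ?_
    exact (Real.continuous_exp.tendsto _).comp h7
  rw [Real.exp_log hθ] at h8
  exact tendsto_nhds_unique h8 h2

/-- summability of the error terms -/
lemma summable_err {d e : ℕ → ℝ} (he0 : ∀ n, 0 ≤ e n) {lam mu : ℝ} (hlam : 1 ≤ lam)
    (hd : ∀ n, lam ^ n ≤ d n)
    (he : Tendsto (fun n : ℕ => e n ^ ((1 : ℝ) / (n : ℝ))) atTop (𝓝 mu)) (hmu : 0 ≤ mu)
    (h : mu < lam ^ 2) : Summable fun n => √(e n) / d (n + 1) := by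
  obtain ⟨ρ, hρ1, hρ2⟩ := exists_between h
  have hρ0 : 0 ≤ ρ := hmu.trans hρ1.le
  have hlam0 : 0 < lam := by linarith
  have hev : ∀ᶠ n : ℕ in atTop, e n ≤ ρ ^ n := by
    filter_upwards [he.eventually_lt_const hρ1, eventually_gt_atTop 0] with n hn hn0
    have hn' : (n : ℝ) ≠ 0 := by exact_mod_cast hn0.ne'
    have h1 : e n = (e n ^ ((1 : ℝ) / (n : ℝ))) ^ n := by
      rw [← Real.rpow_natCast, ← Real.rpow_mul (he0 n), one_div_mul_cancel hn', Real.rpow_one]
    rw [h1]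
    exact pow_le_pow_left₀ (Real.rpow_nonneg (he0 n) _) hn.le n
  have hr0 : 0 ≤ √ρ / lam := by positivity
  have hr1 : √ρ / lam < 1 := by
    rw [div_lt_one hlam0, Real.sqrt_lt' hlam0]
    exact hρ2
  refine Summable.of_norm_bounded_eventually (g := fun n => (√ρ / lam) ^ n)
    (summable_geometric_of_lt_one hr0 hr1) ?_
  rw [Nat.cofinite_eq_atTop]
  filter_upwards [hev] with n hn
  have hdpos : 0 < d (n + 1) := (pow_pos hlam0 _).trans_le (hd (n + 1))
  rw [Real.norm_of_nonneg (div_nonneg (Real.sqrt_nonneg _) hdpos.le), div_pow]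
  have h2 : √(e n) ≤ √ρ ^ n := by
    rw [Real.sqrt_le_left (by positivity), ← pow_mul, mul_comm, pow_mul, Real.sq_sqrt hρ0]
    exact hn
  have h3 : lam ^ n ≤ d (n + 1) := by
    refine le_trans ?_ (hd (n + 1))
    exact pow_le_pow_right₀ hlam (Nat.le_succ n)
  exact div_le_div₀ (by positivity) h2 (pow_pos hlam0 n) h3

end Pool.Agent.H17Dyn
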