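import Mathlib

/-!
# Logarithmic valuations of a polynomial ring
-/

set_option autoImplicit false

namespace Pool.Agent.H17Dyn

/-- logarithmic valuations of the polynomial ring, trivial on constants -/
structure IsLogVal {d : ℕ} {k : Type*} [Field k] (N : MvPolynomial (Fin d) k → ℝ) : Prop where
  mul : ∀ P Q, P ≠ 0 → Q ≠ 0 → N (P * Q) = N P + N Q
  add : ∀ P Q, P ≠ 0 → Q ≠ 0 → P + Q ≠ 0 → N (P + Q) ≤ max (N P) (N Q)
  const : ∀ c : k, c ≠ 0 → N (MvPolynomial.C c) = 0

end Pool.Agent.H17Dyn
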