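import Pool.Agent.H17Dyn.LineGen
import Pool.Agent.H17Dyn.Growth
import Pool.Agent.H17Dyn.LogVal

/-!
# Existence of an eigenvaluation
-/

set_option autoImplicit false
set_option linter.unusedSectionVars false

namespace Pool.Agent.H17Dyn

open Filter Topology

section Basic

variable {d : ℕ} {k : Type*} [Field k]

lemma adeg_mul_le (φ ψ : MvPolynomial (Fin d) k ≃ₐ[k] MvPolynomial (Fin d) k) :
    adeg (φ * ψ) ≤ adeg φ * adeg ψ := by
  refine Finset.sup_le fun i _ => ?_
  rw [AlgEquiv.mul_apply, mul_comm]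
  exact (totalDegree_apply_le φ _).trans (Nat.mul_le_mul_right _ (totalDegree_X_le ψ i))

lemma one_le_adeg [NeZero d] (φ : MvPolynomial (Fin d) k ≃ₐ[k] MvPolynomial (Fin d) k) :
    1 ≤ adeg φ :=
  (one_le_totalDegree_X φ 0).trans (totalDegree_X_le φ 0)

/-- the degrees of the iterates grow exponentially with a well defined rate -/
theorem exists_dyn [NeZero d] (φ : MvPolynomial (Fin d) k ≃ₐ[k] MvPolynomial (Fin d) k) :
    ∃ lam : ℝ, 1 ≤ lam ∧
      Tendsto (fun n : ℕ => (adeg (φ ^ n) : ℝ) ^ ((1 : ℝ) / (n : ℝ))) atTop (𝓝 lam) ∧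
      ∀ n, lam ^ n ≤ (adeg (φ ^ n) : ℝ) :=
  submult_tendsto (fun n => adeg (φ ^ n)) (fun n => one_le_adeg _) fun m n => by
    rw [pow_add]
    exact adeg_mul_le _ _

end Basic

section Eigen

variable {d : ℕ} [NeZero d] {k K : Type*} [Field k] [Infinite k] [CharZero k] [Field K]
  [IsAlgClosed K] [CharZero K] [Algebra k K] (L : LgData k K)

/-- the step estimate -/
lemma step_le (F G : MvPolynomial (Fin d) k ≃ₐ[k] MvPolynomial (Fin d) k) {Δ : ℝ} (hΔ : 0 ≤ Δ)
    (hfib : ∀ i0, ∃ Q : MvPolynomial (Fin d) k, Q ≠ 0 ∧ FibCond L F G i0 Q Δ)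
    (P : MvPolynomial (Fin d) k) :
    |((F (G P)).totalDegree : ℝ) / adeg (F * G) - (G P).totalDegree / adeg G| ≤
      (2 * √(2 * (adeg F + adeg F.symm * adeg F)) * P.totalDegree) * (√Δ / adeg (F * G)) := by
  classical
  rcases eq_or_ne P.totalDegree 0 with hP | hP
  · have h1 : (G P).totalDegree = 0 := by
      have := totalDegree_apply_le G P
      rw [hP, zero_mul] at this
      exact Nat.le_zero.1 this
    have h2 : (F (G P)).totalDegree = 0 := by
      have := totalDegree_apply_le F (G P)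
      rw [h1, zero_mul] at this
      exact Nat.le_zero.1 this
    rw [h1, h2, hP]
    simp
  -- notation
  set m : ℝ := (adeg F : ℝ) with hm
  set m' : ℝ := (adeg F.symm : ℝ) with hm'
  have hm0 : 0 ≤ m := Nat.cast_nonneg _
  have hm'0 : 0 ≤ m' := Nat.cast_nonneg _
  set S : ℝ := √(2 * (m + m' * m)) * √Δ with hS
  have hS0 : 0 ≤ S := by positivity
  have hS2 : S ^ 2 = 2 * (m + m' * m) * Δ := by
    rw [hS, mul_pow, Real.sq_sqrt (by positivity), Real.sq_sqrt hΔ]
  -- the index realising the degree of `G`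
  obtain ⟨i0, -, hi0⟩ := Finset.exists_mem_eq_sup (Finset.univ : Finset (Fin d))
    ⟨0, Finset.mem_univ _⟩ (fun i => (G (MvPolynomial.X i)).totalDegree)
  have hb : adeg G = (G (MvPolynomial.X i0)).totalDegree := hi0
  set b : ℝ := ((G (MvPolynomial.X i0)).totalDegree : ℝ) with hbdef
  set b' : ℝ := ((F (G (MvPolynomial.X i0))).totalDegree : ℝ) with hb'def
  have hbG : (adeg G : ℝ) = b := by rw [hb]
  have hb1 : 1 ≤ b := by
    rw [hbdef]
    exact_mod_cast one_le_totalDegree_X G i0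
  -- main estimate
  have key : ∀ Q : MvPolynomial (Fin d) k, Q.totalDegree ≠ 0 →
      |((F (G Q)).totalDegree : ℝ) - b' / b * (G Q).totalDegree| ≤ Q.totalDegree * S := by
    intro Q hQ
    obtain ⟨Q₀, hQ₀, hfib₀⟩ := hfib i0
    have hml := main_lemma_gen L F G Q hQ i0 hQ₀ hfib₀
    rw [← hbdef, ← hb'def, ← hm, ← hm'] at hml
    set a : ℝ := ((G Q).totalDegree : ℝ) with ha
    set a' : ℝ := ((F (G Q)).totalDegree : ℝ) with ha'
    set p : ℝ := (Q.totalDegree : ℝ) with hp
    have ha1 : 1 ≤ a := by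
      rw [ha]
      exact_mod_cast Nat.one_le_iff_ne_zero.2 (totalDegree_apply_ne_zero G hQ)
    have hp1 : 1 ≤ p := by
      rw [hp]
      exact_mod_cast Nat.one_le_iff_ne_zero.2 hQ
    have hapb : a ≤ p * b := by
      rw [ha, hp, ← hbG]
      exact_mod_cast totalDegree_apply_le G Q
    have h1 : (a' - b' / b * a) ^ 2 ≤ (p * S) ^ 2 := by
      have h2 : (a' - b' / b * a) ^ 2 = a ^ 2 * (a' / a - b' / b) ^ 2 := by
        field_simp
      have h3 : a ^ 2 * ((m + m' * m) * (2 / (a * b) * (p * Δ))) =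
          S ^ 2 * p * (a / b) := by
        rw [hS2]
        field_simp
      have h4 : a / b ≤ p := by
        rw [div_le_iff₀ (by linarith)]
        exact hapb
      calc (a' - b' / b * a) ^ 2 = a ^ 2 * (a' / a - b' / b) ^ 2 := h2
        _ ≤ a ^ 2 * ((m + m' * m) * (2 / (a * b) * (p * Δ))) :=
            mul_le_mul_of_nonneg_left hml (sq_nonneg a)
        _ = S ^ 2 * p * (a / b) := h3
        _ ≤ S ^ 2 * p * p := mul_le_mul_of_nonneg_left h4 (by positivity)
        _ = (p * S) ^ 2 := by ring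
    exact abs_le_of_sq_le_sq h1 (by positivity)
  -- the degree of `F G`
  obtain ⟨i1, -, hi1⟩ := Finset.exists_mem_eq_sup (Finset.univ : Finset (Fin d))
    ⟨0, Finset.mem_univ _⟩ (fun i => ((F * G) (MvPolynomial.X i)).totalDegree)
  have hD : adeg (F * G) = (F (G (MvPolynomial.X i1))).totalDegree := hi1
  set D : ℝ := (adeg (F * G) : ℝ) with hDdef
  have hD' : D = ((F (G (MvPolynomial.X i1))).totalDegree : ℝ) := by rw [hDdef, hD]
  have hb'D : b' ≤ D := by
    rw [hb'def, hDdef]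
    exact_mod_cast totalDegree_X_le (F * G) i0
  have hDpos : 0 < D := by
    have : (1 : ℝ) ≤ D := by
      rw [hDdef]
      exact_mod_cast one_le_adeg (F * G)
    linarith
  have hDb' : D - b' ≤ S := by
    have h1 := key (MvPolynomial.X i1) (by
      rw [MvPolynomial.totalDegree_X]
      exact one_ne_zero)
    rw [← hD', MvPolynomial.totalDegree_X, Nat.cast_one, one_mul] at h1
    have h2 : ((G (MvPolynomial.X i1)).totalDegree : ℝ) ≤ b := by
      rw [← hbG]
      exact_mod_cast totalDegree_X_le G i1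
    have h3 : b' / b * (G (MvPolynomial.X i1)).totalDegree ≤ b' := by
      have h4 : (0 : ℝ) ≤ b' / b := div_nonneg (Nat.cast_nonneg _) (by linarith)
      calc b' / b * (G (MvPolynomial.X i1)).totalDegree ≤ b' / b * b :=
            mul_le_mul_of_nonneg_left h2 h4
        _ = b' := div_mul_cancel₀ _ (by linarith)
    have h5 := (abs_le.1 h1).2
    linarith
  -- conclusion
  have h1 := key P hP
  set a : ℝ := ((G P).totalDegree : ℝ) with ha
  set a' : ℝ := ((F (G P)).totalDegree : ℝ) with ha'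
  set p : ℝ := (P.totalDegree : ℝ) with hp
  have hapb : a / b ≤ p := by
    rw [div_le_iff₀ (by linarith), ha, hp, ← hbG]
    exact_mod_cast totalDegree_apply_le G P
  have ha0 : 0 ≤ a / b := div_nonneg (Nat.cast_nonneg _) (by linarith)
  have h2 : |a' - D / b * a| ≤ 2 * p * S := by
    have h3 : a' - D / b * a = (a' - b' / b * a) - (D - b') * (a / b) := by
      field_simp
      ring
    rw [h3]
    refine (abs_sub _ _).trans ?_
    have h4 : |(D - b') * (a / b)| ≤ S * p := by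
      rw [abs_mul, abs_of_nonneg ha0, abs_of_nonneg (by linarith : 0 ≤ D - b')]
      exact mul_le_mul hDb' hapb ha0 hS0
    linarith
  rw [hbG]
  have h5 : a' / D - a / b = (a' - D / b * a) / D := by
    field_simp
  rw [h5, abs_div, abs_of_pos hDpos]
  have h6 : (2 * √(2 * (m + m' * m)) * p) * (√Δ / D) = 2 * p * S / D := by
    rw [hS]
    ring
  rw [h6]
  exact div_le_div_of_nonneg_right h2 hDpos.le

include L in
/-- **Existence of an eigenvaluation.** -/
theorem exists_eigen' (φ : MvPolynomial (Fin d) k ≃ₐ[k] MvPolynomial (Fin d) k) {lam : ℝ}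
    (hlam2 : Tendsto (fun n : ℕ => (adeg (φ ^ n) : ℝ) ^ ((1 : ℝ) / (n : ℝ))) atTop (𝓝 lam))
    {Δ : ℕ → ℝ} (hΔ : ∀ n, 0 ≤ Δ n) (n₀ : ℕ)
    (hfib : ∀ n, n₀ ≤ n → ∀ i0, ∃ Q : MvPolynomial (Fin d) k, Q ≠ 0 ∧
      FibCond L φ (φ ^ n) i0 Q (Δ n))
    (hsum : Summable fun n => √(Δ n) / (adeg (φ ^ (n + 1)) : ℝ)) :
    ∃ N : MvPolynomial (Fin d) k → ℝ, IsLogVal N ∧ (∀ P, 0 ≤ N P) ∧
      (∀ P, N (φ P) = lam * N P) ∧ (∃ i, N (MvPolynomial.X i) = 1) ∧
      ∀ P, Tendsto (fun n : ℕ => (((φ ^ n) P).totalDegree : ℝ) / (adeg (φ ^ n) : ℝ)) atTop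
        (𝓝 (N P)) := by
  classical
  set dg : ℕ → ℝ := fun n => (adeg (φ ^ n) : ℝ) with hd
  set r : ℕ → MvPolynomial (Fin d) k → ℝ := fun n P => (((φ ^ n) P).totalDegree : ℝ) / dg n with hr
  have hd1 : ∀ n, 1 ≤ dg n := fun n => by
    simp only [hd]
    exact_mod_cast one_le_adeg (φ ^ n)
  have hdpos : ∀ n, 0 < dg n := fun n => by linarith [hd1 n]
  have hstep : ∀ P n, n₀ ≤ n → dist (r n P) (r (n + 1) P) ≤
      (2 * √(2 * (adeg φ + adeg φ.symm * adeg φ)) * P.totalDegree) * (√(Δ n) / dg (n + 1)) := by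
    intro P n hn
    have h1 := step_le L φ (φ ^ n) (hΔ n) (hfib n hn) P
    rw [← pow_succ'] at h1
    rw [dist_comm, Real.dist_eq]
    refine le_trans (le_of_eq ?_) h1
    simp only [hr, hd, pow_succ' φ n, AlgEquiv.mul_apply]
  have hcau : ∀ P, ∃ x, Tendsto (fun n => r n P) atTop (𝓝 x) := fun P => by
    obtain ⟨x, hx⟩ := cauchySeq_tendsto_of_complete
      (cauchySeq_of_dist_le_of_summable (f := fun n => r (n + n₀) P) _
        (fun n => by
          have h1 := hstep P (n + n₀) (Nat.le_add_left _ _)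
          have h2 : n + 1 + n₀ = n + n₀ + 1 := add_right_comm _ _ _
          change dist (r (n + n₀) P) (r (n + 1 + n₀) P) ≤ _
          rw [h2]
          exact h1)
        (((summable_nat_add_iff n₀).2 hsum).mul_left
          (2 * √(2 * (adeg φ + adeg φ.symm * adeg φ)) * P.totalDegree)))
    exact ⟨x, (tendsto_add_atTop_iff_nat (f := fun n => r n P) n₀).1 hx⟩
  choose N hN using hcau
  have hφ0 : ∀ n (P : MvPolynomial (Fin d) k), P ≠ 0 → (φ ^ n) P ≠ 0 := fun n P hP =>
    (map_ne_zero_iff _ (φ ^ n).injective).2 hP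
  have hr0 : ∀ n P, 0 ≤ r n P := fun n P => div_nonneg (Nat.cast_nonneg _) (hdpos n).le
  have hN0 : ∀ P, 0 ≤ N P := fun P => ge_of_tendsto' (hN P) fun n => hr0 n P
  have hlog : IsLogVal N := by
    refine ⟨fun P Q hP hQ => ?_, fun P Q hP hQ hPQ => ?_, fun c hc => ?_⟩
    · refine tendsto_nhds_unique (hN (P * Q)) (((hN P).add (hN Q)).congr fun n => ?_)
      simp only [hr]
      rw [map_mul, MvPolynomial.totalDegree_mul_of_isDomain (hφ0 n P hP) (hφ0 n Q hQ)]
      push_cast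
      ring
    · refine le_of_tendsto_of_tendsto' (hN (P + Q)) ((hN P).max (hN Q)) fun n => ?_
      simp only [hr]
      rw [map_add, max_div_div_right (hdpos n).le]
      refine div_le_div_of_nonneg_right ?_ (hdpos n).le
      exact_mod_cast MvPolynomial.totalDegree_add _ _
    · refine tendsto_nhds_unique (hN (MvPolynomial.C c)) (tendsto_const_nhds.congr fun n => ?_)
      simp only [hr]
      rw [← MvPolynomial.algebraMap_eq, AlgEquiv.commutes, MvPolynomial.algebraMap_eq,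
        MvPolynomial.totalDegree_C, Nat.cast_zero, zero_div]
  -- an index with value one
  have hX : ∃ i, N (MvPolynomial.X i) = 1 := by
    have h1 : ∀ n, ∃ i, r n (MvPolynomial.X i) = 1 := by
      intro n
      obtain ⟨i, -, hi⟩ := Finset.exists_mem_eq_sup (Finset.univ : Finset (Fin d))
        ⟨0, Finset.mem_univ _⟩ (fun i => ((φ ^ n) (MvPolynomial.X i)).totalDegree)
      refine ⟨i, ?_⟩
      have h2 : adeg (φ ^ n) = ((φ ^ n) (MvPolynomial.X i)).totalDegree := hi
      simp only [hr, hd]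
      rw [← h2]
      exact div_self (hdpos n).ne'
    have h2 : ∃ i, ∃ᶠ n in atTop, r n (MvPolynomial.X i) = 1 := by
      by_contra hcon
      push Not at hcon
      have h3 : ∀ᶠ n in atTop, ∀ i : Fin d, r n (MvPolynomial.X i) ≠ 1 := by
        rw [eventually_all]
        exact hcon
      obtain ⟨n, hn⟩ := h3.exists
      obtain ⟨i, hi⟩ := h1 n
      exact hn i hi
    obtain ⟨i, hi⟩ := h2
    exact ⟨i, (isClosed_singleton (x := (1 : ℝ))).mem_of_frequently_of_tendsto
      (hi.mono fun n hn => hn) (hN (MvPolynomial.X i))⟩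
  -- the ratio of consecutive degrees
  have hrφ : ∀ n P, r n (φ P) = r (n + 1) P * (dg (n + 1) / dg n) := by
    intro n P
    have h1 : (φ ^ n) (φ P) = (φ ^ (n + 1)) P := by rw [pow_succ, AlgEquiv.mul_apply]
    simp only [hr]
    rw [h1]
    have := (hdpos n).ne'
    have := (hdpos (n + 1)).ne'
    field_simp
  obtain ⟨i, hi⟩ := hX
  have hratio : Tendsto (fun n => dg (n + 1) / dg n) atTop (𝓝 (N (φ (MvPolynomial.X i)))) := by
    have h1 : Tendsto (fun n => r (n + 1) (MvPolynomial.X i)) atTop (𝓝 1) := by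
      have := (hN (MvPolynomial.X i)).comp (tendsto_add_atTop_nat 1)
      rwa [hi] at this
    have h2 := (hN (φ (MvPolynomial.X i))).div h1 one_ne_zero
    rw [div_one] at h2
    refine h2.congr' ?_
    filter_upwards [h1.eventually_ne (one_ne_zero)] with n hn
    rw [Pi.div_apply, hrφ, mul_comm, mul_div_assoc, div_self hn, mul_one]
  have hθpos : 0 < N (φ (MvPolynomial.X i)) := by
    have hm' : (0 : ℝ) < adeg φ.symm := by
      exact_mod_cast one_le_adeg φ.symm
    have h1 : ∀ n, (adeg φ.symm : ℝ)⁻¹ ≤ dg (n + 1) / dg n := by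
      intro n
      have h2 : adeg (φ ^ n) ≤ adeg φ.symm * adeg (φ ^ (n + 1)) := by
        have h3 : φ ^ n = φ.symm * φ ^ (n + 1) := by
          rw [pow_succ']
          ext1
          rw [AlgEquiv.mul_apply, AlgEquiv.mul_apply, AlgEquiv.symm_apply_apply]
        conv_lhs => rw [h3]
        exact adeg_mul_le _ _
      rw [le_div_iff₀ (hdpos n), inv_mul_le_iff₀ hm']
      simp only [hd]
      exact_mod_cast h2
    exact lt_of_lt_of_le (inv_pos.2 hm') (ge_of_tendsto' hratio h1)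
  have hθ : N (φ (MvPolynomial.X i)) = lam := ratio_root hdpos hθpos hratio hlam2
  refine ⟨N, hlog, hN0, fun P => ?_, ⟨i, hi⟩, hN⟩
  have h1 : Tendsto (fun n => r (n + 1) P * (dg (n + 1) / dg n)) atTop
      (𝓝 (N P * N (φ (MvPolynomial.X i)))) :=
    ((hN P).comp (tendsto_add_atTop_nat 1)).mul hratio
  have h2 := tendsto_nhds_unique (hN (φ P)) (h1.congr fun n => (hrφ n P).symm)
  rw [h2, hθ, mul_comm]

include L in
theorem exists_eigen (φ : MvPolynomial (Fin d) k ≃ₐ[k] MvPolynomial (Fin d) k) {lam : ℝ}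
    (hlam2 : Tendsto (fun n : ℕ => (adeg (φ ^ n) : ℝ) ^ ((1 : ℝ) / (n : ℝ))) atTop (𝓝 lam))
    {Δ : ℕ → ℝ} (hΔ : ∀ n, 0 ≤ Δ n)
    (hfib : ∀ n i0, ∃ Q : MvPolynomial (Fin d) k, Q ≠ 0 ∧ FibCond L φ (φ ^ n) i0 Q (Δ n))
    (hsum : Summable fun n => √(Δ n) / (adeg (φ ^ (n + 1)) : ℝ)) :
    ∃ N : MvPolynomial (Fin d) k → ℝ, IsLogVal N ∧ (∀ P, 0 ≤ N P) ∧
      (∀ P, N (φ P) = lam * N P) ∧ ∃ i, N (MvPolynomial.X i) = 1 := by
  obtain ⟨N, h1, h2, h3, h4, -⟩ := exists_eigen' L φ hlam2 hΔ 0 (fun n _ => hfib n) hsum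
  exact ⟨N, h1, h2, h3, h4⟩

end Eigen

end Pool.Agent.H17Dyn
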