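import Pool.Agent.H17Dyn.RankBound

/-!
# The degree of the eigenvalue of an eigenvaluation
-/

set_option autoImplicit false

attribute [-instance] HahnSeries.powerSeriesAlgebra

namespace Pool.Agent.H17Dyn

section LinAlg

variable {V : Type*} [AddCommGroup V] [Module ℚ V]

lemma finrank_span_le {S : Set V} {n : ℕ}
    (h : ∀ f : Fin (n + 1) → V, (∀ i, f i ∈ S) → ¬ LinearIndependent ℚ f) :
    FiniteDimensional ℚ (Submodule.span ℚ S) ∧ Module.finrank ℚ (Submodule.span ℚ S) ≤ n := by
  obtain ⟨b, hbS, hspan, hli⟩ := exists_linearIndependent ℚ S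
  have hcard : b.encard < (n + 1 : ℕ) := by
    by_contra hcon
    push Not at hcon
    obtain ⟨t, htb, ht⟩ := Set.exists_subset_encard_eq hcon
    have htf : t.Finite := Set.finite_of_encard_eq_coe ht
    have : Fintype t := htf.fintype
    have hc : Fintype.card t = n + 1 := by
      have h1 := Set.encard_eq_coe_toFinset_card t
      rw [ht, Set.toFinset_card] at h1
      exact_mod_cast h1.symm
    let e : Fin (n + 1) ≃ t := (Fintype.equivFinOfCardEq hc).symm
    refine h (fun i => (e i : V)) (fun i => hbS (htb (e i).2)) ?_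
    have h2 := hli.comp (fun i : Fin (n + 1) => (⟨(e i : V), htb (e i).2⟩ : b)) (by
      intro i j hij
      apply e.injective
      apply Subtype.ext
      exact congrArg (fun z : b => (z : V)) hij)
    exact h2
  have hbf : b.Finite := Set.finite_of_encard_le_coe hcard.le
  have : Fintype b := hbf.fintype
  rw [← hspan]
  refine ⟨FiniteDimensional.span_of_finite ℚ hbf, ?_⟩
  rw [finrank_span_set_eq_card hli]
  have h1 := Set.encard_eq_coe_toFinset_card b
  rw [h1] at hcard
  have h2 : b.toFinset.card < n + 1 := by exact_mod_cast hcard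
  omega

lemma degree_of_stable (W : Submodule ℚ ℝ) [FiniteDimensional ℚ W] {θ : ℝ}
    (h : ∀ x ∈ W, θ * x ∈ W) {v : ℝ} (hv : v ∈ W) (hv0 : v ≠ 0) :
    IsAlgebraic ℚ θ ∧ (minpoly ℚ θ).natDegree ≤ Module.finrank ℚ W := by
  let T : W →ₗ[ℚ] W := (LinearMap.mulLeft ℚ θ).restrict h
  have hT : ∀ (p : Polynomial ℚ) (w : W), ((Polynomial.aeval T p w : W) : ℝ) =
      Polynomial.aeval θ p * w := by
    intro p
    induction p using Polynomial.induction_on' with
    | add p q hp hq =>
      intro w
      rw [map_add, LinearMap.add_apply, Submodule.coe_add, hp, hq, map_add]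
      ring
    | monomial n a =>
      have hpow : ∀ (n : ℕ) (w : W), (((T ^ n) w : W) : ℝ) = θ ^ n * w := by
        intro n
        induction n with
        | zero =>
          intro w
          simp
        | succ n ih =>
          intro w
          rw [pow_succ', Module.End.mul_apply]
          change θ * (((T ^ n) w : W) : ℝ) = _
          rw [ih]
          ring
      intro w
      rw [Polynomial.aeval_monomial, Polynomial.aeval_monomial, Module.End.mul_apply,
        Module.algebraMap_end_apply, Submodule.coe_smul, hpow, Rat.smul_def]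
      simp only [eq_ratCast]
      ring
  have h1 := LinearMap.aeval_self_charpoly T
  have h2 := hT T.charpoly ⟨v, hv⟩
  rw [h1, LinearMap.zero_apply] at h2
  have h3 : Polynomial.aeval θ T.charpoly = 0 := by
    have : Polynomial.aeval θ T.charpoly * v = 0 := h2.symm
    exact (mul_eq_zero.1 this).resolve_right hv0
  have hm : T.charpoly.Monic := LinearMap.charpoly_monic T
  refine ⟨⟨T.charpoly, hm.ne_zero, h3⟩, ?_⟩
  rw [← LinearMap.charpoly_natDegree T]
  exact Polynomial.natDegree_le_of_dvd (minpoly.dvd ℚ θ h3) hm.ne_zero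

end LinAlg

variable {d : ℕ} {k : Type*} [Field k] [IsAlgClosed k] [CharZero k]

/-- **The eigenvalue of a nontrivial eigenvaluation of an automorphism of affine `d`-space is an
algebraic number of degree at most `d - 1`, if it is different from `1`.** -/
theorem eigen_degree (φ : MvPolynomial (Fin d) k ≃ₐ[k] MvPolynomial (Fin d) k)
    {N : MvPolynomial (Fin d) k → ℝ} (hN : IsLogVal N) {θ : ℝ} (hθ : θ ≠ 1)
    (hφ : ∀ P, P ≠ 0 → N (φ P) = θ * N P) (hnt : ∃ P, P ≠ 0 ∧ N P ≠ 0) :
    IsAlgebraic ℚ θ ∧ (minpoly ℚ θ).natDegree ≤ d - 1 := by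
  rcases d with _ | n
  · -- no nontrivial valuations in dimension zero
    exfalso
    obtain ⟨P, hP, hNP⟩ := hnt
    obtain ⟨c, rfl⟩ := MvPolynomial.C_surjective (Fin 0) P
    refine hNP (hN.const c ?_)
    rintro rfl
    exact hP (map_zero _)
  · set S : Set ℝ := {x | ∃ P : MvPolynomial (Fin (n + 1)) k, P ≠ 0 ∧ N P = x} with hS
    obtain ⟨hfd, hfr⟩ := finrank_span_le (S := S) (n := n) (by
      intro f hf hli
      choose P hP0 hP using hf
      refine rank_bound φ hN hθ hφ P hP0 ?_
      have : (fun i => N (P i)) = f := funext hP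
      rw [this]
      exact hli)
    obtain ⟨P, hP, hNP⟩ := hnt
    have hst : ∀ x ∈ Submodule.span ℚ S, θ * x ∈ Submodule.span ℚ S := by
      intro x hx
      induction hx using Submodule.span_induction with
      | mem x hx =>
        obtain ⟨Q, hQ, rfl⟩ := hx
        rw [← hφ Q hQ]
        exact Submodule.subset_span ⟨φ Q, (map_ne_zero_iff _ φ.injective).2 hQ, rfl⟩
      | zero => rw [mul_zero]; exact Submodule.zero_mem _
      | add x y _ _ hx hy => rw [mul_add]; exact Submodule.add_mem _ hx hy
      | smul a x _ hx =>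
        rw [mul_smul_comm]
        exact Submodule.smul_mem _ a hx
    obtain ⟨h1, h2⟩ := degree_of_stable (Submodule.span ℚ S) hst
      (Submodule.subset_span ⟨P, hP, rfl⟩) hNP
    exact ⟨h1, h2.trans (by simpa using hfr)⟩

end Pool.Agent.H17Dyn
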