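import Pool.Agent.H17Dyn.Newton
import Pool.Agent.H17Dyn.LogVal

/-!
# Extension of a valuation to the field of fractions
-/

set_option autoImplicit false

namespace Pool.Agent.H17Dyn

variable {d : ℕ} {k : Type*} [Field k] {N : MvPolynomial (Fin d) k → ℝ}

open Classical in
/-- the extension of `N` to the field of fractions -/
noncomputable def fracN (N : MvPolynomial (Fin d) k → ℝ)
    (x : FractionRing (MvPolynomial (Fin d) k)) : ℝ :=
  N (Classical.choose (IsFractionRing.div_surjective (A := MvPolynomial (Fin d) k) x)) -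
    N (Classical.choose (Classical.choose_spec
      (IsFractionRing.div_surjective (A := MvPolynomial (Fin d) k) x)))

lemma fracN_div (hN : IsLogVal N) {a b : MvPolynomial (Fin d) k} (ha : a ≠ 0) (hb : b ≠ 0) :
    fracN N (algebraMap _ (FractionRing (MvPolynomial (Fin d) k)) a / algebraMap _ _ b) =
      N a - N b := by
  set x := algebraMap _ (FractionRing (MvPolynomial (Fin d) k)) a / algebraMap _ _ b with hx
  have hinj : Function.Injective
      (algebraMap (MvPolynomial (Fin d) k) (FractionRing (MvPolynomial (Fin d) k))) :=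
    IsFractionRing.injective _ _
  set a' := Classical.choose (IsFractionRing.div_surjective (A := MvPolynomial (Fin d) k) x)
    with ha'
  set b' := Classical.choose (Classical.choose_spec
      (IsFractionRing.div_surjective (A := MvPolynomial (Fin d) k) x)) with hb'
  have hspec := Classical.choose_spec (Classical.choose_spec
      (IsFractionRing.div_surjective (A := MvPolynomial (Fin d) k) x))
  have hb'0 : b' ≠ 0 := nonZeroDivisors.ne_zero hspec.1
  have h1 : algebraMap _ (FractionRing (MvPolynomial (Fin d) k)) a' / algebraMap _ _ b' = x :=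
    hspec.2
  have hb1 : algebraMap _ (FractionRing (MvPolynomial (Fin d) k)) b ≠ 0 := by
    simpa using hb
  have hb2 : algebraMap _ (FractionRing (MvPolynomial (Fin d) k)) b' ≠ 0 := by
    simpa using hb'0
  have h2 : a' * b = a * b' := by
    apply hinj
    rw [map_mul, map_mul]
    rw [hx, div_eq_div_iff hb2 hb1] at h1
    exact h1
  have ha'0 : a' ≠ 0 := by
    intro h
    rw [h, zero_mul] at h2
    exact mul_ne_zero ha hb'0 h2.symm
  have h3 := congrArg N h2
  rw [hN.mul _ _ ha'0 hb, hN.mul _ _ ha hb'0] at h3
  change N a' - N b' = _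
  linarith

lemma fracN_algebraMap (hN : IsLogVal N) {a : MvPolynomial (Fin d) k} (ha : a ≠ 0) :
    fracN N (algebraMap _ (FractionRing (MvPolynomial (Fin d) k)) a) = N a := by
  have h := fracN_div hN ha one_ne_zero
  rw [map_one, div_one] at h
  have h1 : N 1 = 0 := by
    have := hN.const 1 one_ne_zero
    rwa [map_one] at this
  rw [h, h1, sub_zero]

lemma exists_div (x : FractionRing (MvPolynomial (Fin d) k)) (hx : x ≠ 0) :
    ∃ a b : MvPolynomial (Fin d) k, a ≠ 0 ∧ b ≠ 0 ∧ x = algebraMap _ _ a / algebraMap _ _ b := by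
  obtain ⟨a, b, hb, h⟩ := IsFractionRing.div_surjective (A := MvPolynomial (Fin d) k) x
  refine ⟨a, b, ?_, nonZeroDivisors.ne_zero hb, h.symm⟩
  rintro rfl
  rw [map_zero, zero_div] at h
  exact hx h.symm

/-- the logarithmic absolute value on the field of fractions -/
noncomputable def fracLg (hN : IsLogVal N) {c : ℝ} (hc : 0 < c)
    (s : FractionRing (MvPolynomial (Fin d) k)) (hs0 : s ≠ 0) (hs : fracN N s = c) :
    LgData k (FractionRing (MvPolynomial (Fin d) k)) where
  lg x := fracN N x / c
  lg_mul := by
    intro x y hx hy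
    obtain ⟨a, b, ha, hb, rfl⟩ := exists_div x hx
    obtain ⟨a', b', ha', hb', rfl⟩ := exists_div y hy
    rw [div_mul_div_comm, ← map_mul, ← map_mul, fracN_div hN (mul_ne_zero ha ha')
      (mul_ne_zero hb hb'), fracN_div hN ha hb, fracN_div hN ha' hb', hN.mul _ _ ha ha',
      hN.mul _ _ hb hb']
    ring
  lg_add := by
    intro x y hx hy hxy
    obtain ⟨a, b, ha, hb, rfl⟩ := exists_div x hx
    obtain ⟨a', b', ha', hb', rfl⟩ := exists_div y hy
    have hb1 : algebraMap _ (FractionRing (MvPolynomial (Fin d) k)) b ≠ 0 := by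
      simpa using hb
    have hb2 : algebraMap _ (FractionRing (MvPolynomial (Fin d) k)) b' ≠ 0 := by
      simpa using hb'
    have h1 : algebraMap _ (FractionRing (MvPolynomial (Fin d) k)) a / algebraMap _ _ b +
        algebraMap _ _ a' / algebraMap _ _ b' =
        algebraMap _ _ (a * b' + b * a') / algebraMap _ _ (b * b') := by
      rw [div_add_div _ _ hb1 hb2]
      simp only [map_mul, map_add]
    rw [h1] at hxy ⊢
    have h2 : a * b' + b * a' ≠ 0 := by
      intro h
      rw [h, map_zero, zero_div] at hxy
      exact hxy rfl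
    rw [fracN_div hN h2 (mul_ne_zero hb hb'), fracN_div hN ha hb, fracN_div hN ha' hb',
      max_div_div_right hc.le]
    refine div_le_div_of_nonneg_right ?_ hc.le
    have h3 := hN.add _ _ (mul_ne_zero ha hb') (mul_ne_zero hb ha') h2
    rw [hN.mul _ _ ha hb', hN.mul _ _ hb ha'] at h3
    rw [hN.mul _ _ hb hb']
    rcases le_max_iff.1 h3 with h3 | h3
    · refine le_trans ?_ (le_max_left _ _)
      linarith
    · refine le_trans ?_ (le_max_right _ _)
      linarith
  lg_const := by
    intro e he
    rw [IsScalarTower.algebraMap_apply k (MvPolynomial (Fin d) k), MvPolynomial.algebraMap_eq,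
      fracN_algebraMap hN (by simpa using he), hN.const e he, zero_div]
  s := s
  s_ne := hs0
  lg_s := by rw [hs, div_self hc.ne']

end Pool.Agent.H17Dyn
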