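import Pool.Agent.H17Dyn.MainAt
import Pool.Agent.H17Dyn.Conv

/-!
# Zero free neighbourhoods of the eigenvaluation
-/

set_option autoImplicit false
set_option linter.unusedSectionVars false

attribute [-instance] HahnSeries.powerSeriesAlgebra

namespace Pool.Agent.H17Dyn

open LgData Filter Topology

variable {d : ℕ} {k : Type*} [Field k] [IsAlgClosed k] [CharZero k]

/-- a numerical form of the main inequality -/
lemma step_at {K : Type*} [Field K] [IsAlgClosed K] [CharZero K] [Algebra k K] (L : LgData k K)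
    {χ : ℝ →+ k} (hχ : Function.Injective χ) (hd : 2 ≤ d)
    (G : MvPolynomial (Fin d) k ≃ₐ[k] MvPolynomial (Fin d) k) {R : ℝ} (hR : 0 ≤ R)
    (hD : Deg2W G R) {i0 : Fin d} (hi0 : adeg G = (G (MvPolynomial.X i0)).totalDegree)
    {P : MvPolynomial (Fin d) k} {p : ℕ} (hp1 : 1 ≤ p) (hP : P.totalDegree ≤ p)
    {x0 : Fin d → K} (hx0 : ∀ i, L.le (x0 i) 2) :
    |L.fl 0 (MvPolynomial.aeval x0 (G P)) - (G P).totalDegree / adeg G *
      L.fl 0 (MvPolynomial.aeval x0 (G (MvPolynomial.X i0)))| ≤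
      5 * p ^ 2 * √(adeg G * R) := by
  have hdz : NeZero d := ⟨by omega⟩
  have hp1' : (1 : ℝ) ≤ p := by exact_mod_cast hp1
  rcases eq_or_ne P.totalDegree 0 with h0 | h0
  · have h1 : P = MvPolynomial.C (MvPolynomial.coeff 0 P) :=
      MvPolynomial.totalDegree_eq_zero_iff_eq_C.1 h0
    have h2 : G P = MvPolynomial.C (MvPolynomial.coeff 0 P) := by
      conv_lhs => rw [h1]
      rw [← MvPolynomial.algebraMap_eq, AlgEquiv.commutes]
    have h3 : L.fl 0 (MvPolynomial.aeval x0 (G P)) = 0 := by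
      rw [h2, MvPolynomial.algHom_C]
      exact le_antisymm (fl_le (le_const _) le_rfl) (le_fl _ _)
    rw [h3, h2, MvPolynomial.totalDegree_C, Nat.cast_zero, zero_div, zero_mul, sub_zero, abs_zero]
    positivity
  have hml := main_at L hχ hd G hD i0 h0 (by norm_num : (0 : ℝ) ≤ 2) hx0
  rw [← hi0] at hml
  set b : ℝ := (adeg G : ℝ) with hb
  set a : ℝ := ((G P).totalDegree : ℝ) with ha
  set t : ℝ := (P.totalDegree : ℝ) with ht
  set u := L.fl 0 (MvPolynomial.aeval x0 (G P)) with hu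
  set v := L.fl 0 (MvPolynomial.aeval x0 (G (MvPolynomial.X i0))) with hv
  have hb1 : 1 ≤ b := by
    rw [hb]
    exact_mod_cast one_le_adeg G
  have ha1 : 1 ≤ a := by
    rw [ha]
    exact_mod_cast Nat.one_le_iff_ne_zero.2 (totalDegree_apply_ne_zero G h0)
  have ht0 : 0 ≤ t := Nat.cast_nonneg _
  have htp : t ≤ p := Nat.cast_le.2 hP
  have hab : a ≤ p * b := by
    have h1 : ((G P).totalDegree : ℝ) ≤ P.totalDegree * adeg G := by
      exact_mod_cast totalDegree_apply_le G P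
    exact h1.trans (mul_le_mul_of_nonneg_right htp (by linarith))
  have h1 : (u - a / b * v) ^ 2 ≤ (5 * p ^ 2 * √(b * R)) ^ 2 := by
    have h2 : (u - a / b * v) ^ 2 = a ^ 2 * (u / a - v / b) ^ 2 := by
      field_simp
    have h3 : a ^ 2 * ((2 + (a + b) * 2) * (2 / (a * b) * (t * (R * 2)))) =
        (a / b) * (8 * (1 + a + b) * (t * R)) := by
      field_simp
      ring
    have h4 : a / b ≤ p := by
      rw [div_le_iff₀ (by linarith)]
      exact hab
    have h5 : 1 + a + b ≤ 3 * p * b := by nlinarith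
    have h6 : (5 * (p : ℝ) ^ 2 * √(b * R)) ^ 2 = 25 * p ^ 4 * (b * R) := by
      rw [mul_pow, Real.sq_sqrt (by positivity)]
      ring
    have h7 : (a / b) * (8 * (1 + a + b) * (t * R)) ≤ p * (8 * (3 * p * b) * (p * R)) := by
      have h8 : 0 ≤ a / b := by positivity
      gcongr
    have h9 : (p : ℝ) ^ 3 ≤ p ^ 4 := pow_le_pow_right₀ hp1' (by norm_num)
    have h10 : 0 ≤ b * R := by positivity
    calc (u - a / b * v) ^ 2 = a ^ 2 * (u / a - v / b) ^ 2 := h2
      _ ≤ a ^ 2 * ((2 + (a + b) * 2) * (2 / (a * b) * (t * (R * 2)))) :=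
          mul_le_mul_of_nonneg_left hml (sq_nonneg a)
      _ = (a / b) * (8 * (1 + a + b) * (t * R)) := h3
      _ ≤ p * (8 * (3 * p * b) * (p * R)) := h7
      _ = 24 * p ^ 3 * (b * R) := by ring
      _ ≤ 25 * p ^ 4 * (b * R) := by nlinarith [mul_nonneg h10 (pow_nonneg (by linarith : (0 : ℝ) ≤ p) 3)]
      _ = _ := h6.symm
  exact abs_le_of_sq_le_sq h1 (by positivity)

/-- growth bounds from a limit of roots -/
lemma eventually_le_pow {u : ℕ → ℝ} (hu : ∀ n, 0 ≤ u n) {lam lam' : ℝ}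
    (h : Tendsto (fun n : ℕ => u n ^ ((1 : ℝ) / (n : ℝ))) atTop (𝓝 lam)) (hlt : lam < lam') :
    ∀ᶠ n : ℕ in atTop, u n ≤ lam' ^ n := by
  filter_upwards [h.eventually_lt_const hlt, eventually_gt_atTop 0] with n hn hn0
  have hn' : (n : ℝ) ≠ 0 := by exact_mod_cast hn0.ne'
  have h1 : u n = (u n ^ ((1 : ℝ) / (n : ℝ))) ^ n := by
    rw [← Real.rpow_natCast, ← Real.rpow_mul (hu n), one_div_mul_cancel hn', Real.rpow_one]
  rw [h1]
  exact pow_le_pow_left₀ (Real.rpow_nonneg (hu n) _) hn.le n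

/-- choice of the constants -/
lemma exists_consts {lam ρ : ℝ} (hlam : 1 < lam) (hρ : ρ < lam) :
    ∃ lam' : ℝ, lam < lam' ∧ lam' ^ 3 * ρ < lam ^ 4 ∧ lam' * ρ < lam ^ 2 := by
  have hcont : Tendsto (fun t : ℝ => t ^ 3 * ρ) (𝓝[>] lam) (𝓝 (lam ^ 3 * ρ)) := by
    have : Continuous fun t : ℝ => t ^ 3 * ρ := by fun_prop
    exact (this.tendsto lam).mono_left nhdsWithin_le_nhds
  have hlt : lam ^ 3 * ρ < lam ^ 4 := by
    have : lam ^ 4 = lam ^ 3 * lam := by ring
    rw [this]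
    exact mul_lt_mul_of_pos_left hρ (by positivity)
  obtain ⟨lam', h1, h2⟩ := ((hcont.eventually_lt_const hlt).and self_mem_nhdsWithin).exists
  have h3 : lam < lam' := h2
  refine ⟨lam', h3, h1, ?_⟩
  by_contra hcon
  push Not at hcon
  have h4 : lam ^ 4 ≤ lam' ^ 3 * ρ := by
    calc lam ^ 4 = lam ^ 2 * lam ^ 2 := by ring
      _ ≤ lam' ^ 2 * (lam' * ρ) := by
          refine mul_le_mul ?_ hcon (by positivity) (by positivity)
          exact pow_le_pow_left₀ (by linarith) h3.le 2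
      _ = lam' ^ 3 * ρ := by ring
  linarith

universe w

/-- **Zero free neighbourhoods.** -/
theorem zero_free {χ : ℝ →+ k} (hχ : Function.Injective χ) (hd : 2 ≤ d)
    (φ : MvPolynomial (Fin d) k ≃ₐ[k] MvPolynomial (Fin d) k) {lam ρ : ℝ} (hlam1 : 1 < lam)
    (hlam2 : Tendsto (fun n : ℕ => (adeg (φ ^ n) : ℝ) ^ ((1 : ℝ) / (n : ℝ))) atTop (𝓝 lam))
    (hlam3 : ∀ n, lam ^ n ≤ (adeg (φ ^ n) : ℝ)) (hρ0 : 0 ≤ ρ) (hρ : ρ < lam) {n₀ : ℕ}
    (hD : ∀ n, n₀ ≤ n → Deg2W (φ ^ n) (ρ ^ n)) {N : MvPolynomial (Fin d) k → ℝ}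
    (hNφ : ∀ P, N (φ P) = lam * N P)
    (hN : ∀ P, Tendsto (fun n : ℕ => (((φ ^ n) P).totalDegree : ℝ) / (adeg (φ ^ n) : ℝ)) atTop
      (𝓝 (N P))) {i : Fin d} (hi : N (MvPolynomial.X i) = 1) :
    ∃ (W : Finset (MvPolynomial (Fin d) k)) (n₁ : ℕ), ∀ (K : Type w) [Field K] [IsAlgClosed K]
      [CharZero K] [Algebra k K] (L : LgData k K) (x : Fin d → K),
      (∀ P ∈ W, |L.fl 0 (MvPolynomial.aeval x P) - N P| ≤ 1 / 4) → ∀ n, n₁ ≤ n →
      MvPolynomial.aeval x ((φ ^ n) (MvPolynomial.X i)) ≠ 0 ∧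
      0 < L.lg (MvPolynomial.aeval x ((φ ^ n) (MvPolynomial.X i))) ∧
      L.lg (MvPolynomial.aeval x ((φ ^ n) (MvPolynomial.X i))) ≤ 2 * adeg (φ ^ n) := by
  classical
  have hdz : NeZero d := ⟨by omega⟩
  set dg : ℕ → ℝ := fun n => (adeg (φ ^ n) : ℝ) with hdg
  have hdg1 : ∀ n, 1 ≤ dg n := fun n => by
    simp only [hdg]
    exact_mod_cast one_le_adeg (φ ^ n)
  have hdgpos : ∀ n, 0 < dg n := fun n => by linarith [hdg1 n]
  obtain ⟨lam', hl1, hl2, hl3⟩ := exists_consts hlam1 hρ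
  have hlam0 : 0 < lam := by linarith
  have hlam'0 : 0 < lam' := by linarith
  -- the indices realising the degree
  have hidx : ∀ n, ∃ j : Fin d, adeg (φ ^ n) = ((φ ^ n) (MvPolynomial.X j)).totalDegree := by
    intro n
    obtain ⟨j, -, hj⟩ := Finset.exists_mem_eq_sup (Finset.univ : Finset (Fin d))
      ⟨0, Finset.mem_univ _⟩ (fun j => ((φ ^ n) (MvPolynomial.X j)).totalDegree)
    exact ⟨j, hj⟩
  choose idx hidx using hidx
  -- the errors
  set κ : ℝ := √(lam' * ρ) / lam with hκ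
  have hκ0 : 0 ≤ κ := by positivity
  have hκ1 : κ < 1 := by
    rw [hκ, div_lt_one hlam0, Real.sqrt_lt' hlam0]
    exact hl3
  set τ : ℝ := lam / lam' with hτ
  have hτ0 : 0 < τ := by positivity
  have hκτ : κ < τ := by
    have h1 : κ ^ 2 < τ ^ 2 := by
      rw [hκ, hτ, div_pow, div_pow, Real.sq_sqrt (by positivity),
        div_lt_div_iff₀ (by positivity) (by positivity)]
      calc lam' * ρ * lam' ^ 2 = lam' ^ 3 * ρ := by ring
        _ < lam ^ 4 := hl2
        _ = lam ^ 2 * lam ^ 2 := by ring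
    exact lt_of_pow_lt_pow_left₀ 2 hτ0.le h1
  obtain ⟨na, hna⟩ := eventually_atTop.1 (eventually_le_pow (fun n => (hdgpos n).le) hlam2 hl1)
  set E : ℕ → ℝ := fun n => √(dg n * ρ ^ n) with hE
  have hE0 : ∀ n, 0 ≤ E n := fun n => Real.sqrt_nonneg _
  have hEκ : ∀ n, na ≤ n → E n ≤ (κ * lam) ^ n := by
    intro n hn
    have h1 : κ * lam = √(lam' * ρ) := by
      rw [hκ]
      field_simp
    rw [h1, hE]
    simp only
    rw [Real.sqrt_le_left (by positivity), ← pow_mul, mul_comm n 2, pow_mul,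
      Real.sq_sqrt (by positivity), mul_pow]
    exact mul_le_mul_of_nonneg_right (hna n hn) (by positivity)
  set q : ℕ := adeg φ with hq
  have hq1 : 1 ≤ q := one_le_adeg φ
  set Cq : ℝ := 5 * (q : ℝ) ^ 2 with hCq
  have hCq0 : 0 ≤ Cq := by positivity
  -- the choice of the time `n₂`
  have hlim1 : Tendsto (fun n : ℕ => (κ / τ) ^ n) atTop (𝓝 0) :=
    tendsto_pow_atTop_nhds_zero_of_lt_one (by positivity) (by rwa [div_lt_one hτ0])
  have hlim2 : Tendsto (fun n : ℕ => κ ^ n) atTop (𝓝 0) :=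
    tendsto_pow_atTop_nhds_zero_of_lt_one hκ0 hκ1
  have hlim3 : Tendsto (fun n : ℕ => (1 / lam) ^ n) atTop (𝓝 0) :=
    tendsto_pow_atTop_nhds_zero_of_lt_one (by positivity) (by
      rw [div_lt_one hlam0]
      exact hlam1)
  have hκpos : (0 : ℝ) < 1 - κ := by linarith
  have hev : ∀ᶠ n : ℕ in atTop, (Cq / (1 - κ)) * (κ / τ) ^ n < 1 / 4 ∧ 5 * κ ^ n < 1 / 4 ∧
      (1 / lam) ^ n < 1 := by
    have e1 : Tendsto (fun n : ℕ => (Cq / (1 - κ)) * (κ / τ) ^ n) atTop (𝓝 0) := by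
      simpa using hlim1.const_mul (Cq / (1 - κ))
    have e2 : Tendsto (fun n : ℕ => 5 * κ ^ n) atTop (𝓝 0) := by
      simpa using hlim2.const_mul (5 : ℝ)
    exact (e1.eventually_lt_const (by norm_num)).and ((e2.eventually_lt_const (by norm_num)).and
      (hlim3.eventually_lt_const (by norm_num)))
  obtain ⟨n₂, hn₂, hn₂0, hn₂a⟩ := (hev.and ((eventually_ge_atTop n₀).and
    (eventually_ge_atTop na))).exists
  obtain ⟨hn₂1, hn₂2, hn₂3⟩ := hn₂
  set gs : ℝ := lam ^ n₂ / (4 * dg n₂) with hgs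
  have hgs0 : 0 < gs := div_pos (by positivity) (by linarith [hdgpos n₂])
  -- the choice of the time `n₁`
  have hev2 : ∀ᶠ n : ℕ in atTop, 5 * κ ^ n < gs / 4 ∧
      3 / 4 < (((φ ^ n) (MvPolynomial.X i)).totalDegree : ℝ) / dg n := by
    have e2 : Tendsto (fun n : ℕ => 5 * κ ^ n) atTop (𝓝 0) := by
      simpa using hlim2.const_mul (5 : ℝ)
    have e3 := hN (MvPolynomial.X i)
    rw [hi] at e3
    exact (e2.eventually_lt_const (by linarith)).and (e3.eventually_const_lt (by norm_num))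
  obtain ⟨n₁, hn₁⟩ := eventually_atTop.1 hev2
  have hNpow : ∀ n P, N ((φ ^ n) P) = lam ^ n * N P := by
    intro n
    induction n with
    | zero =>
      intro P
      simp
    | succ n ih =>
      intro P
      rw [pow_succ', AlgEquiv.mul_apply, hNφ, ih]
      ring
  have hNX : ∀ j, N (MvPolynomial.X j) ≤ 1 := by
    intro j
    refine le_of_tendsto' (hN (MvPolynomial.X j)) fun n => ?_
    rw [div_le_one (hdgpos n)]
    exact Nat.cast_le.2 (totalDegree_X_le (φ ^ n) j)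
  refine ⟨insert ((φ ^ n₂) (MvPolynomial.X i)) (Finset.univ.image fun j => MvPolynomial.X j),
    max n₁ (max n₂ na), ?_⟩
  intro K _ _ _ _ L x hx n hn
  have hx2 : ∀ j, L.le (x j) 2 := by
    intro j
    have h1 := hx (MvPolynomial.X j) (Finset.mem_insert_of_mem
      (Finset.mem_image_of_mem _ (Finset.mem_univ j)))
    rw [MvPolynomial.aeval_X] at h1
    refine (le_of_fl 0 (x j)).mono ?_
    have := (abs_le.1 h1).2
    linarith [hNX j]
  -- notation
  set σ : ℕ → ℝ := fun n => L.fl 0 (MvPolynomial.aeval x ((φ ^ n) (MvPolynomial.X (idx n))))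
    with hσ
  have hσ0 : ∀ n, 0 ≤ σ n := fun n => le_fl _ _
  have hstep : ∀ n, n₀ ≤ n → ∀ (P : MvPolynomial (Fin d) k) (p : ℕ), 1 ≤ p → P.totalDegree ≤ p →
      |L.fl 0 (MvPolynomial.aeval x ((φ ^ n) P)) - ((φ ^ n) P).totalDegree / dg n * σ n| ≤
      5 * p ^ 2 * E n := fun n hn P p hp1 hp =>
    step_at L hχ hd (φ ^ n) (pow_nonneg hρ0 n) (hD n hn) (hidx n) hp1 hp hx2
  set g : ℕ → ℝ := fun n => σ n / dg n with hg
  have hgstep : ∀ n, n₀ ≤ n → na ≤ n → g n - Cq * κ ^ n ≤ g (n + 1) := by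
    intro n hn hna'
    have h1 := hstep n hn (φ (MvPolynomial.X (idx (n + 1)))) q hq1 (totalDegree_X_le φ _)
    have h2 : (φ ^ n) (φ (MvPolynomial.X (idx (n + 1)))) =
        (φ ^ (n + 1)) (MvPolynomial.X (idx (n + 1))) := by
      rw [pow_succ, AlgEquiv.mul_apply]
    rw [h2, ← hidx (n + 1)] at h1
    have h3 : dg (n + 1) / dg n * σ n - Cq * E n ≤ σ (n + 1) := by
      have := (abs_le.1 h1).1
      have h4 : (((adeg (φ ^ (n + 1)) : ℕ) : ℝ)) = dg (n + 1) := rfl
      rw [h4] at this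
      have h5 : L.fl 0 (MvPolynomial.aeval x ((φ ^ (n + 1)) (MvPolynomial.X (idx (n + 1))))) =
        σ (n + 1) := rfl
      rw [h5] at this
      linarith
    have h6 : E n / dg (n + 1) ≤ κ ^ n := by
      rw [div_le_iff₀ (hdgpos _)]
      refine (hEκ n hna').trans ?_
      rw [mul_pow]
      refine mul_le_mul_of_nonneg_left ?_ (by positivity)
      refine le_trans ?_ (hlam3 (n + 1))
      exact pow_le_pow_right₀ hlam1.le (Nat.le_succ n)
    have h7 : g (n + 1) = σ (n + 1) / dg (n + 1) := rfl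
    have h8 : g n - Cq * (E n / dg (n + 1)) = (dg (n + 1) / dg n * σ n - Cq * E n) /
        dg (n + 1) := by
      have := (hdgpos n).ne'
      have := (hdgpos (n + 1)).ne'
      simp only [hg]
      field_simp
    have h9 : g n - Cq * (E n / dg (n + 1)) ≤ g (n + 1) := by
      rw [h8, h7]
      exact div_le_div_of_nonneg_right h3 (hdgpos _).le
    have h10 := mul_le_mul_of_nonneg_left h6 hCq0
    linarith
  have hglow : ∀ n, n₂ ≤ n → g n₂ - Cq * (κ ^ n₂ - κ ^ n) / (1 - κ) ≤ g n := by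
    intro n hn
    induction n, hn using Nat.le_induction with
    | base => simp
    | succ n hn ih =>
      have h1 := hgstep n (hn₂0.trans hn) (hn₂a.trans hn)
      have h2 : Cq * (κ ^ n₂ - κ ^ (n + 1)) / (1 - κ) = Cq * (κ ^ n₂ - κ ^ n) / (1 - κ) +
          Cq * κ ^ n := by
        field_simp
        ring
      rw [h2]
      linarith
  -- the value at `n₂`
  have hg2 : lam ^ n₂ / (2 * dg n₂) ≤ g n₂ := by
    have h1 := hstep n₂ hn₂0 (MvPolynomial.X i) 1 le_rfl (by rw [MvPolynomial.totalDegree_X])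
    have h2 := hx ((φ ^ n₂) (MvPolynomial.X i)) (Finset.mem_insert_self _ _)
    rw [hNpow, hi, mul_one] at h2
    have h3 := (abs_le.1 h2).1
    have h4 := (abs_le.1 h1).2
    have h5 : (((φ ^ n₂) (MvPolynomial.X i)).totalDegree : ℝ) / dg n₂ * σ n₂ ≤ σ n₂ := by
      have h6 : (((φ ^ n₂) (MvPolynomial.X i)).totalDegree : ℝ) / dg n₂ ≤ 1 := by
        rw [div_le_one (hdgpos _)]
        exact Nat.cast_le.2 (totalDegree_X_le (φ ^ n₂) i)
      calc _ ≤ 1 * σ n₂ := mul_le_mul_of_nonneg_right h6 (hσ0 _)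
        _ = σ n₂ := one_mul _
    have h6 : 5 * E n₂ ≤ lam ^ n₂ / 4 := by
      have h7 := hEκ n₂ hn₂a
      rw [mul_pow] at h7
      have h8 : 5 * (κ ^ n₂ * lam ^ n₂) ≤ lam ^ n₂ / 4 := by
        have h9 : (0 : ℝ) < lam ^ n₂ := by positivity
        nlinarith
      linarith
    have h7 : (1 : ℝ) ≤ lam ^ n₂ := one_le_pow₀ hlam1.le
    push_cast at h4
    have h8 : lam ^ n₂ / 2 ≤ σ n₂ := by linarith
    have h9 : g n₂ = σ n₂ / dg n₂ := rfl
    rw [h9, div_le_div_iff₀ (by linarith [hdgpos n₂]) (hdgpos n₂)]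
    nlinarith [hdgpos n₂]
  have hgn : ∀ n, n₂ ≤ n → gs ≤ g n := by
    intro n hn
    have h1 := hglow n hn
    have h2 : Cq * (κ ^ n₂ - κ ^ n) / (1 - κ) ≤ lam ^ n₂ / (4 * dg n₂) := by
      have h3 : Cq * (κ ^ n₂ - κ ^ n) / (1 - κ) ≤ Cq / (1 - κ) * κ ^ n₂ := by
        rw [div_mul_eq_mul_div]
        refine div_le_div_of_nonneg_right ?_ hκpos.le
        have : (0 : ℝ) ≤ κ ^ n := by positivity
        nlinarith
      have h4 : Cq / (1 - κ) * κ ^ n₂ ≤ 1 / 4 * τ ^ n₂ := by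
        rw [div_pow] at hn₂1
        have h5 : (0 : ℝ) < τ ^ n₂ := by positivity
        rw [← mul_div_assoc, div_lt_iff₀ h5] at hn₂1
        exact hn₂1.le
      have h6 : 1 / 4 * τ ^ n₂ ≤ lam ^ n₂ / (4 * dg n₂) := by
        rw [hτ, div_pow, ← mul_div_assoc, div_le_div_iff₀ (by positivity)
          (by linarith [hdgpos n₂])]
        have h7 := hna n₂ hn₂a
        have h8 : (0 : ℝ) < lam ^ n₂ := by positivity
        have h9 : dg n₂ ≤ lam' ^ n₂ := h7
        nlinarith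
      linarith
    have h10 : lam ^ n₂ / (2 * dg n₂) = gs + lam ^ n₂ / (4 * dg n₂) := by
      rw [hgs]
      have := (hdgpos n₂).ne'
      field_simp
      ring
    linarith
  -- conclusion
  have hnn1 : n₁ ≤ n := (le_max_left _ _).trans hn
  have hnn2 : n₂ ≤ n := (le_max_left _ _).trans ((le_max_right _ _).trans hn)
  have hnna : na ≤ n := (le_max_right _ _).trans ((le_max_right _ _).trans hn)
  obtain ⟨h1, h2⟩ := hn₁ n hnn1
  have h3 := hstep n (hn₂0.trans hnn2) (MvPolynomial.X i) 1 le_rfl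
    (by rw [MvPolynomial.totalDegree_X])
  have h4 := (abs_le.1 h3).1
  have h5 : gs * lam ^ n ≤ σ n := by
    have h6 := hgn n hnn2
    have h7 : g n = σ n / dg n := rfl
    rw [h7, le_div_iff₀ (hdgpos n)] at h6
    exact (mul_le_mul_of_nonneg_left (hlam3 n) hgs0.le).trans h6
  have h6 : 5 * E n ≤ gs / 4 * lam ^ n := by
    have h7 := hEκ n hnna
    rw [mul_pow] at h7
    have h9 : (0 : ℝ) < lam ^ n := by positivity
    nlinarith
  have h7 : 3 / 4 * σ n ≤ (((φ ^ n) (MvPolynomial.X i)).totalDegree : ℝ) / dg n * σ n :=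
    mul_le_mul_of_nonneg_right h2.le (hσ0 n)
  have h8 : 0 < gs * lam ^ n := by positivity
  have h9 : 0 < L.fl 0 (MvPolynomial.aeval x ((φ ^ n) (MvPolynomial.X i))) := by
    push_cast at h4
    linarith
  have h10 : MvPolynomial.aeval x ((φ ^ n) (MvPolynomial.X i)) ≠ 0 := by
    intro h11
    rw [h11, fl_zero] at h9
    exact lt_irrefl _ h9
  refine ⟨h10, ?_, ?_⟩
  · rw [fl_of_ne h10] at h9
    rcases lt_max_iff.1 h9 with h11 | h11
    · exact h11
    · exact absurd h11 (lt_irrefl _)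
  · refine (le_aeval (L := L) (by norm_num : (0 : ℝ) ≤ 2) hx2 _ h10).trans ?_
    rw [mul_comm]
    refine mul_le_mul_of_nonneg_left ?_ (by norm_num)
    exact_mod_cast totalDegree_X_le (φ ^ n) i

end Pool.Agent.H17Dyn
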