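import Pool.Agent.H17Dyn.Val

/-!
# Algebraically closed valued extensions
-/

set_option autoImplicit false

namespace Pool.Agent.H17Dyn

open LgData

universe u

section Norm

variable {k F : Type u} [Field k] [Field F] [Algebra k F]

open Classical in
/-- the absolute value attached to a logarithmic absolute value -/
noncomputable def lgAbs (L : LgData k F) : AbsoluteValue F ℝ where
  toFun x := if x = 0 then 0 else Real.exp (L.lg x)
  map_mul' x y := by
    rcases eq_or_ne x 0 with rfl | hx
    · simp
    rcases eq_or_ne y 0 with rfl | hy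
    · simp
    rw [if_neg (mul_ne_zero hx hy), if_neg hx, if_neg hy, L.lg_mul hx hy, Real.exp_add]
  nonneg' x := by
    split_ifs
    · exact le_rfl
    · exact (Real.exp_pos _).le
  eq_zero' x := by
    change ite _ _ _ = (0 : ℝ) ↔ _
    split_ifs with h
    · simp [h]
    · simp [h, (Real.exp_pos _).ne']
  add_le' x y := by
    rcases eq_or_ne (x + y) 0 with h | h
    · rw [if_pos h]
      split_ifs <;> positivity
    rcases eq_or_ne x 0 with rfl | hx
    · simp
    rcases eq_or_ne y 0 with rfl | hy
    · simp
    rw [if_neg h, if_neg hx, if_neg hy]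
    have h1 := Real.exp_le_exp.2 (L.lg_add hx hy h)
    have h2 : Real.exp (max (L.lg x) (L.lg y)) ≤ Real.exp (L.lg x) + Real.exp (L.lg y) := by
      rcases le_total (L.lg x) (L.lg y) with h3 | h3
      · rw [max_eq_right h3]
        linarith [Real.exp_pos (L.lg x)]
      · rw [max_eq_left h3]
        linarith [Real.exp_pos (L.lg y)]
    exact h1.trans h2

lemma lgAbs_of_ne (L : LgData k F) {x : F} (hx : x ≠ 0) : lgAbs L x = Real.exp (L.lg x) := by
  exact if_neg hx

lemma lgAbs_add_le (L : LgData k F) (x y : F) :
    lgAbs L (x + y) ≤ max (lgAbs L x) (lgAbs L y) := by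
  rcases eq_or_ne (x + y) 0 with h | h
  · rw [h, map_zero]
    exact le_max_of_le_left ((lgAbs L).nonneg x)
  rcases eq_or_ne x 0 with rfl | hx
  · simp
  rcases eq_or_ne y 0 with rfl | hy
  · simp
  rw [lgAbs_of_ne L h, lgAbs_of_ne L hx, lgAbs_of_ne L hy]
  have h1 := Real.exp_le_exp.2 (L.lg_add hx hy h)
  refine h1.trans (le_of_eq ?_)
  exact (Real.exp_monotone.map_max)

end Norm

section Compl

variable {M : Type u} [NormedField M]

lemma completion_ultra (h : ∀ x y : M, ‖x + y‖ ≤ max ‖x‖ ‖y‖) :
    IsUltrametricDist (UniformSpace.Completion M) := by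
  refine IsUltrametricDist.isUltrametricDist_of_forall_norm_add_le_max_norm fun x y => ?_
  induction x, y using UniformSpace.Completion.induction_on₂ with
  | hp => exact isClosed_le (by fun_prop) (by fun_prop)
  | ih a b =>
    rw [← UniformSpace.Completion.coe_add, UniformSpace.Completion.norm_coe,
      UniformSpace.Completion.norm_coe, UniformSpace.Completion.norm_coe]
    exact h a b

end Compl

/-- **Every logarithmically valued field has an algebraically closed extension.** -/
theorem exists_valued_field {k F : Type u} [Field k] [Field F] [CharZero F] [Algebra k F]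
    (L : LgData k F) :
    ∃ (K : Type u) (_ : Field K) (_ : IsAlgClosed K) (_ : CharZero K) (_ : Algebra k K)
      (_ : Algebra F K) (_ : IsScalarTower k F K) (L' : LgData k K),
      ∀ x : F, x ≠ 0 → L'.lg (algebraMap F K x) = L.lg x := by
  let v := lgAbs L
  let M := WithAbs v
  have hM : ∀ x y : M, ‖x + y‖ ≤ max ‖x‖ ‖y‖ := by
    intro x y
    exact lgAbs_add_le L _ _
  let C := UniformSpace.Completion M
  have hC : IsUltrametricDist C := completion_ultra hM
  have hnt : ∃ x : C, 1 < ‖x‖ := by
    refine ⟨((WithAbs.toAbs v L.s : M) : C), ?_⟩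
    rw [UniformSpace.Completion.norm_coe]
    change 1 < lgAbs L L.s
    rw [lgAbs_of_ne L L.s_ne, L.lg_s]
    exact Real.one_lt_exp_iff.2 one_pos
  let nC : NontriviallyNormedField C := { (inferInstance : NormedField C) with non_trivial := hnt }
  obtain ⟨K, fK, aK, hK⟩ : ∃ (K : Type u) (_ : Field K) (_ : Algebra C K), IsAlgClosure C K :=
    ⟨AlgebraicClosure C, inferInstance, inferInstance, inferInstance⟩
  have hK1 : IsAlgClosed K := hK.isAlgClosed
  have hK2 : Algebra.IsAlgebraic C K := hK.isAlgebraic
  let i : F →+* C := (UniformSpace.Completion.coeRingHom (α := M)).comp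
    ((WithAbs.equiv v).symm : F →+* M)
  have hi : ∀ x : F, ‖i x‖ = v x := by
    intro x
    exact UniformSpace.Completion.norm_coe _
  let aF : Algebra F K := ((algebraMap C K).comp i).toAlgebra
  let ak : Algebra k K := ((algebraMap F K).comp (algebraMap k F)).toAlgebra
  have hst : IsScalarTower k F K := IsScalarTower.of_algebraMap_eq fun _ => rfl
  have hcz : CharZero K := charZero_of_injective_algebraMap (algebraMap F K).injective
  have hspec : ∀ x : F, spectralNorm C K (algebraMap F K x) = v x := by
    intro x
    have h1 : algebraMap F K x = algebraMap C K (i x) := rfl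
    rw [h1, spectralNorm_extends, hi]
  have hpos : ∀ {y : K}, y ≠ 0 → 0 < spectralNorm C K y := fun {y} hy =>
    spectralNorm_zero_lt hy (Algebra.IsAlgebraic.isAlgebraic y)
  have hmul : ∀ x y : K, spectralNorm C K (x * y) = spectralNorm C K x * spectralNorm C K y := by
    intro x y
    exact map_mul (spectralMulAlgNorm C K) x y
  have hadd : ∀ x y : K, spectralNorm C K (x + y) ≤
      max (spectralNorm C K x) (spectralNorm C K y) := fun x y =>
    isNonarchimedean_spectralNorm x y
  refine ⟨K, fK, hK1, hcz, ak, aF, hst,
    { lg := fun y => Real.log (spectralNorm C K y)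
      lg_mul := ?_
      lg_add := ?_
      lg_const := ?_
      s := algebraMap F K L.s
      s_ne := ?_
      lg_s := ?_ }, ?_⟩
  · intro x y hx hy
    rw [hmul, Real.log_mul (hpos hx).ne' (hpos hy).ne']
  · intro x y hx hy hxy
    rw [le_max_iff]
    rcases le_max_iff.1 (hadd x y) with h | h
    · left
      exact Real.log_le_log (hpos hxy) h
    · right
      exact Real.log_le_log (hpos hxy) h
  · intro c hc
    have h1 : algebraMap k K c = algebraMap F K (algebraMap k F c) := rfl
    have h2 : algebraMap k F c ≠ 0 := (map_ne_zero_iff _ (algebraMap k F).injective).2 hc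
    rw [h1, hspec]
    change Real.log (lgAbs L _) = 0
    rw [lgAbs_of_ne L h2, L.lg_const hc, Real.exp_zero, Real.log_one]
  · exact (map_ne_zero_iff _ (algebraMap F K).injective).2 L.s_ne
  · change Real.log (spectralNorm C K (algebraMap F K L.s)) = 1
    rw [hspec]
    change Real.log (lgAbs L _) = 1
    rw [lgAbs_of_ne L L.s_ne, L.lg_s, Real.log_exp]
  · intro x hx
    change Real.log (spectralNorm C K (algebraMap F K x)) = _
    rw [hspec]
    change Real.log (lgAbs L _) = _
    rw [lgAbs_of_ne L hx, Real.log_exp]

end Pool.Agent.H17Dyn
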