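import Pool.Agent.H17Dyn.Laurent
import Pool.Agent.H17Dyn.Trap
import Pool.Agent.H17Dyn.ValField
import Pool.Agent.H17Dyn.FracLg

/-!
# Powers of the dynamical degree as short sums
-/

set_option autoImplicit false

attribute [-instance] HahnSeries.powerSeriesAlgebra

namespace Pool.Agent.H17Dyn

open Filter Topology LgData

universe u

variable {d : ℕ} {k : Type u} [Field k] [IsAlgClosed k] [CharZero k]

/-- **Powers of the dynamical degree are short sums of elements of a finite set.** -/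
theorem exists_finite_rep {χ : ℝ →+ k} (hχ : Function.Injective χ) (hd : 2 ≤ d)
    (φ : MvPolynomial (Fin d) k ≃ₐ[k] MvPolynomial (Fin d) k) {lam ρ : ℝ} (hlam1 : 1 < lam)
    (hlam2 : Tendsto (fun n : ℕ => (adeg (φ ^ n) : ℝ) ^ ((1 : ℝ) / (n : ℝ))) atTop (𝓝 lam))
    (hlam3 : ∀ n, lam ^ n ≤ (adeg (φ ^ n) : ℝ)) (hρ0 : 0 ≤ ρ) (hρ : ρ < lam) {n₀ : ℕ}
    (hD : ∀ n, n₀ ≤ n → Deg2W (φ ^ n) (ρ ^ n)) {N : MvPolynomial (Fin d) k → ℝ}
    (hlog : IsLogVal N) (hN0 : ∀ P, 0 ≤ N P) (hNφ : ∀ P, N (φ P) = lam * N P)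
    (hN : ∀ P, Tendsto (fun n : ℕ => (((φ ^ n) P).totalDegree : ℝ) / (adeg (φ ^ n) : ℝ)) atTop
      (𝓝 (N P))) {i : Fin d} (hi : N (MvPolynomial.X i) = 1) :
    ∃ (S : Finset ℝ) (n₁ : ℕ), ∀ n, n₁ ≤ n → ∃ m : Multiset ℝ, (∀ s ∈ m, s ∈ S) ∧
      m.card ≤ adeg (φ ^ n) ∧ m.sum = lam ^ n := by
  obtain ⟨W, n₁, hW⟩ := zero_free hχ hd φ hlam1 hlam2 hlam3 hρ0 hρ hD hNφ hN hi
  have hX0 : algebraMap (MvPolynomial (Fin d) k) (FractionRing (MvPolynomial (Fin d) k))
      (MvPolynomial.X i) ≠ 0 := by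
    have := MvPolynomial.X_ne_zero (R := k) i
    simpa using this
  have hX1 : fracN N (algebraMap (MvPolynomial (Fin d) k)
      (FractionRing (MvPolynomial (Fin d) k)) (MvPolynomial.X i)) = 1 := by
    rw [fracN_algebraMap hlog (MvPolynomial.X_ne_zero i), hi]
  have hchF : CharZero (FractionRing (MvPolynomial (Fin d) k)) := by
    refine charZero_of_injective_algebraMap
      (R := k) (A := FractionRing (MvPolynomial (Fin d) k)) ?_
    exact (algebraMap k (FractionRing (MvPolynomial (Fin d) k))).injective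
  obtain ⟨K, iK1, iK2, iK3, iK4, iK5, iK6, L, hL⟩ :=
    exists_valued_field (fracLg hlog one_pos _ hX0 hX1)
  set x : Fin d → K := fun j => algebraMap (FractionRing (MvPolynomial (Fin d) k)) K
    (algebraMap (MvPolynomial (Fin d) k) (FractionRing (MvPolynomial (Fin d) k))
      (MvPolynomial.X j)) with hx
  have hxa : ∀ P : MvPolynomial (Fin d) k, MvPolynomial.aeval x P =
      algebraMap (FractionRing (MvPolynomial (Fin d) k)) K
        (algebraMap (MvPolynomial (Fin d) k) (FractionRing (MvPolynomial (Fin d) k)) P) := by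
    intro P
    have h1 : MvPolynomial.aeval x = ((IsScalarTower.toAlgHom k
        (FractionRing (MvPolynomial (Fin d) k)) K).comp
        (IsScalarTower.toAlgHom k (MvPolynomial (Fin d) k)
          (FractionRing (MvPolynomial (Fin d) k)))) := by
      apply MvPolynomial.algHom_ext
      intro j
      simp [hx]
    rw [h1]
    rfl
  have hxl : ∀ P : MvPolynomial (Fin d) k, P ≠ 0 →
      MvPolynomial.aeval x P ≠ 0 ∧ L.lg (MvPolynomial.aeval x P) = N P := by
    intro P hP
    have h1 : algebraMap (MvPolynomial (Fin d) k) (FractionRing (MvPolynomial (Fin d) k)) P ≠ 0 := by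
      simpa using hP
    rw [hxa]
    refine ⟨by simpa using hP, ?_⟩
    rw [hL _ h1]
    change fracN N _ / 1 = _
    rw [div_one, fracN_algebraMap hlog hP]
  have hfl : ∀ P : MvPolynomial (Fin d) k, L.fl 0 (MvPolynomial.aeval x P) = N P := by
    intro P
    rcases eq_or_ne P 0 with rfl | hP
    · rw [map_zero, fl_zero]
      refine tendsto_nhds_unique (tendsto_const_nhds.congr fun n => ?_) (hN 0)
      simp
    · obtain ⟨h1, h2⟩ := hxl P hP
      rw [fl_of_ne h1, h2, max_eq_left (hN0 P)]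
  obtain ⟨a, ha, S, hS⟩ := exists_laurent L W x
  refine ⟨S, n₁, fun n hn => ?_⟩
  have hclose : ∀ x', Equ L W x x' → ∀ P ∈ W,
      |L.fl 0 (MvPolynomial.aeval x' P) - N P| ≤ 1 / 4 := by
    intro x' hx' P hP
    rw [hx' P hP, hfl, sub_self, abs_zero]
    norm_num
  have hne : ∀ x', Equ L W x x' →
      MvPolynomial.aeval x' ((φ ^ n) (MvPolynomial.X i)) ≠ 0 := fun x' hx' =>
    (hW K L x' (hclose x' hx') n hn).1
  obtain ⟨m, h1, h2, h3⟩ := hS _ (hne a ha.1)
  refine ⟨m, h1, h2.trans ?_, ?_⟩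
  · exact Finset.le_sup (f := fun i => ((φ ^ n) (MvPolynomial.X i)).totalDegree)
      (Finset.mem_univ i)
  · have hpow : ∀ n : ℕ, ∀ P, N ((φ ^ n) P) = lam ^ n * N P := by
      intro n
      induction n with
      | zero => simp
      | succ n ih =>
        intro P
        rw [pow_succ, AlgEquiv.mul_apply, ih, hNφ]
        ring
    rw [h3, (ha.2 _ hne).lg_eq.2, (hxl _ ((map_ne_zero_iff _ (φ ^ n).injective).2
      (MvPolynomial.X_ne_zero i))).2, hpow, hi, mul_one]

end Pool.Agent.H17Dyn
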