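import Mathlib

/-!
# Weak Perron numbers from short representations
-/

set_option autoImplicit false

namespace Pool.Agent.H17Dyn

open Filter Topology

open scoped IntermediateField

lemma isIntegral_of_rep {lam : ℝ} (hlam : 1 < lam) {S : Finset ℝ} {n₁ : ℕ}
    (h : ∀ n, n₁ ≤ n → ∃ m : Multiset ℝ, (∀ s ∈ m, s ∈ S) ∧ m.sum = lam ^ n) :
    IsIntegral ℤ lam := by
  set A : Submodule ℤ ℝ := Submodule.span ℤ (S : Set ℝ) with hA
  have hAfg : A.FG := ⟨S, rfl⟩
  set B : Submodule ℤ ℝ := Submodule.span ℤ (Set.range fun n : ℕ => lam ^ (n₁ + n)) with hB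
  have hBA : B ≤ A := by
    rw [hB, Submodule.span_le]
    rintro _ ⟨n, rfl⟩
    obtain ⟨m, h1, h2⟩ := h (n₁ + n) (by omega)
    change lam ^ (n₁ + n) ∈ A
    rw [← h2]
    exact multiset_sum_mem _ fun s hs => Submodule.subset_span (h1 s hs)
  have hBfg : B.FG := by
    have : IsNoetherian ℤ A := isNoetherian_of_fg_of_noetherian A hAfg
    exact Submodule.FG.of_le hAfg hBA
  refine isIntegral_of_smul_mem_submodule (M := ℝ) B ?_ hBfg lam ?_
  · intro hbot
    have h1 : lam ^ (n₁ + 0) ∈ B := Submodule.subset_span ⟨0, rfl⟩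
    rw [hbot, Submodule.mem_bot] at h1
    have : 0 < lam ^ (n₁ + 0) := by positivity
    exact this.ne' h1
  · intro y hy
    induction hy using Submodule.span_induction with
    | mem y hy =>
      obtain ⟨n, rfl⟩ := hy
      refine Submodule.subset_span ⟨n + 1, ?_⟩
      simp only [smul_eq_mul]
      ring
    | zero => simp
    | add y z _ _ h1 h2 =>
      rw [smul_add]
      exact B.add_mem h1 h2
    | smul c y _ h1 =>
      rw [smul_comm]
      exact B.smul_mem c h1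

theorem weak_perron_of_rep {lam : ℝ} (hlam : 1 < lam) {dg : ℕ → ℕ}
    (hdg : Tendsto (fun n : ℕ => (dg n : ℝ) ^ ((1 : ℝ) / (n : ℝ))) atTop (𝓝 lam))
    {S : Finset ℝ} {n₁ : ℕ}
    (h : ∀ n, n₁ ≤ n → ∃ m : Multiset ℝ, (∀ s ∈ m, s ∈ S) ∧ m.card ≤ dg n ∧
      m.sum = lam ^ n) :
    IsIntegral ℤ lam ∧ ∀ μ : ℂ, Polynomial.aeval μ (minpoly ℤ lam) = 0 → ‖μ‖ ≤ lam := by
  have hint : IsIntegral ℤ lam := isIntegral_of_rep hlam fun n hn => by
    obtain ⟨m, h1, -, h3⟩ := h n hn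
    exact ⟨m, h1, h3⟩
  refine ⟨hint, fun μ hμ => ?_⟩
  have hintQ : IsIntegral ℚ lam := hint.tower_top
  have hmin : minpoly ℚ lam = (minpoly ℤ lam).map (algebraMap ℤ ℚ) :=
    minpoly.isIntegrallyClosed_eq_field_fractions' ℚ hint
  have hroot : μ ∈ (minpoly ℚ lam).aroots ℂ := by
    rw [Polynomial.mem_aroots]
    refine ⟨minpoly.ne_zero hintQ, ?_⟩
    rw [hmin, Polynomial.aeval_map_algebraMap]
    exact hμ
  let σ : ℚ⟮lam⟯ →ₐ[ℚ] ℂ := (IntermediateField.algHomAdjoinIntegralEquiv ℚ hintQ).symm ⟨μ, hroot⟩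
  have hσ : σ (IntermediateField.AdjoinSimple.gen ℚ lam) = μ :=
    IntermediateField.algHomAdjoinIntegralEquiv_symm_apply_gen ℚ hintQ ⟨μ, hroot⟩
  obtain ⟨Ψ, hΨ⟩ := LinearMap.exists_extend (p := Subalgebra.toSubmodule ℚ⟮lam⟯.toSubalgebra)
    σ.toLinearMap
  have hΨn : ∀ n : ℕ, Ψ (lam ^ n) = μ ^ n := by
    intro n
    have h1 := congrArg (fun f => f ((IntermediateField.AdjoinSimple.gen ℚ lam) ^ n)) hΨ
    simp only [LinearMap.comp_apply, Submodule.subtype_apply] at h1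
    have h2 : σ.toLinearMap ((IntermediateField.AdjoinSimple.gen ℚ lam) ^ n) = μ ^ n := by
      rw [AlgHom.toLinearMap_apply, map_pow, hσ]
    rw [← h2, ← h1]
    rfl
  set C : ℝ := 1 + ∑ s ∈ S, ‖Ψ s‖ with hC
  have hC1 : 1 ≤ C := by
    rw [hC]
    have := Finset.sum_nonneg (s := S) (f := fun s => ‖Ψ s‖) fun s _ => norm_nonneg _
    linarith
  have hCs : ∀ s ∈ S, ‖Ψ s‖ ≤ C := by
    intro s hs
    have := Finset.single_le_sum (s := S) (f := fun s => ‖Ψ s‖) (fun s _ => norm_nonneg _) hs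
    rw [hC]
    linarith
  have hbd : ∀ n, n₁ ≤ n → ‖μ‖ ^ n ≤ C * dg n := by
    intro n hn
    obtain ⟨m, h1, h2, h3⟩ := h n hn
    rw [← norm_pow, ← hΨn n, ← h3, map_multiset_sum]
    have h4 : ∀ m : Multiset ℝ, (∀ s ∈ m, s ∈ S) → ‖(m.map Ψ).sum‖ ≤ m.card * C := by
      intro m
      induction m using Multiset.induction_on with
      | empty => simp
      | cons s m ih =>
        intro hm
        rw [Multiset.map_cons, Multiset.sum_cons, Multiset.card_cons]
        push_cast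
        have h5 := ih fun t ht => hm t (Multiset.mem_cons_of_mem ht)
        have h6 := hCs s (hm s (Multiset.mem_cons_self s m))
        calc ‖Ψ s + (m.map Ψ).sum‖ ≤ ‖Ψ s‖ + ‖(m.map Ψ).sum‖ := norm_add_le _ _
          _ ≤ C + m.card * C := add_le_add h6 h5
          _ = (m.card + 1) * C := by ring
    refine (h4 m h1).trans ?_
    rw [mul_comm]
    refine mul_le_mul_of_nonneg_left ?_ (by linarith)
    exact_mod_cast h2
  have hlim : Tendsto (fun n : ℕ => C ^ ((1 : ℝ) / (n : ℝ)) * (dg n : ℝ) ^ ((1 : ℝ) / (n : ℝ)))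
      atTop (𝓝 (1 * lam)) := by
    refine Tendsto.mul ?_ hdg
    have h1 : Tendsto (fun n : ℕ => (1 : ℝ) / (n : ℝ)) atTop (𝓝 0) := tendsto_one_div_atTop_nhds_zero_nat
    have h2 := (Real.continuous_const_rpow (a := C) (by linarith)).tendsto 0
    rw [Real.rpow_zero] at h2
    exact h2.comp h1
  rw [one_mul] at hlim
  refine ge_of_tendsto hlim ?_
  filter_upwards [eventually_ge_atTop n₁, eventually_gt_atTop 0] with n hn hn0
  have hn' : (n : ℝ) ≠ 0 := by exact_mod_cast hn0.ne'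
  rw [← Real.mul_rpow (by linarith) (Nat.cast_nonneg _)]
  have h1 : ‖μ‖ = (‖μ‖ ^ n) ^ ((1 : ℝ) / (n : ℝ)) := by
    rw [← Real.rpow_natCast, ← Real.rpow_mul (norm_nonneg _), mul_one_div_cancel hn',
      Real.rpow_one]
  rw [h1]
  exact Real.rpow_le_rpow (by positivity) (hbd n hn) (by positivity)

end Pool.Agent.H17Dyn
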