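import Pool.Agent.H17Dyn.General
import Pool.Agent.H17Dyn.FinRep
import Pool.Agent.H17Dyn.WeakPerronAlg

/-!
# Weak Perron numbers as dynamical degrees
-/

set_option autoImplicit false

attribute [-instance] HahnSeries.powerSeriesAlgebra

namespace Pool.Agent.H17Dyn

open Filter Topology ENNReal

universe u

variable {d : ℕ} {k : Type u} [Field k] [IsAlgClosed k] [CharZero k]

/-- **Weak Perron numbers**, the general criterion. -/
theorem weak_perron_of_deg2 {χ : ℝ →+ k} (hχ : Function.Injective χ) (hd : 2 ≤ d)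
    (φ : MvPolynomial (Fin d) k ≃ₐ[k] MvPolynomial (Fin d) k) {lam ρ : ℝ} (hlam1 : 1 < lam)
    (hlam2 : Tendsto (fun n : ℕ => (adeg (φ ^ n) : ℝ) ^ ((1 : ℝ) / (n : ℝ))) atTop (𝓝 lam))
    (hlam3 : ∀ n, lam ^ n ≤ (adeg (φ ^ n) : ℝ)) (hρ0 : 0 ≤ ρ) (hρ : ρ < lam) {n₀ : ℕ}
    (hD : ∀ n, n₀ ≤ n → Deg2W (φ ^ n) (ρ ^ n)) :
    IsIntegral ℤ lam ∧ (minpoly ℤ lam).natDegree ≤ d - 1 ∧
      ∀ μ : ℂ, Polynomial.aeval μ (minpoly ℤ lam) = 0 → ‖μ‖ ≤ lam := by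
  have hdz : NeZero d := ⟨by omega⟩
  have hm : (0 : ℝ) ≤ adeg φ := Nat.cast_nonneg _
  have hρlam : ρ < lam ^ 2 := by nlinarith
  have hsum : Summable fun n : ℕ => √((adeg φ : ℝ) * ρ ^ n) / (adeg (φ ^ (n + 1)) : ℝ) := by
    have hlim : Tendsto (fun n : ℕ => (ρ ^ n) ^ ((1 : ℝ) / (n : ℝ))) atTop (𝓝 ρ) := by
      refine tendsto_const_nhds.congr' ?_
      filter_upwards [eventually_gt_atTop 0] with n hn0
      have hn' : (n : ℝ) ≠ 0 := by exact_mod_cast hn0.ne'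
      rw [← Real.rpow_natCast, ← Real.rpow_mul hρ0, mul_one_div_cancel hn', Real.rpow_one]
    have h2 := (summable_err (e := fun n : ℕ => ρ ^ n)
      (d := fun n : ℕ => (adeg (φ ^ n) : ℝ)) (fun n => pow_nonneg hρ0 n) hlam1.le hlam3 hlim
      hρ0 hρlam).mul_left √(adeg φ : ℝ)
    refine h2.congr fun n => ?_
    rw [mul_div_assoc', ← Real.sqrt_mul hm]
  obtain ⟨N, hN, hN0, hNφ, ⟨i, hi⟩, hNlim⟩ := exists_eigen' (hahnLg k one_pos) φ hlam2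
    (Δ := fun n => (adeg φ : ℝ) * ρ ^ n) (fun n => by positivity) n₀
    (fun n hn i0 => ⟨1, one_ne_zero, fibCond_gen hχ hd φ (φ ^ n) (hD n hn) i0⟩) hsum
  obtain ⟨S, n₁, hS⟩ := exists_finite_rep hχ hd φ hlam1 hlam2 hlam3 hρ0 hρ hD hN hN0 hNφ hNlim hi
  obtain ⟨h1, h2⟩ := weak_perron_of_rep hlam1 hlam2 hS
  refine ⟨h1, ?_, h2⟩
  have h3 := (eigen_degree φ hN hlam1.ne' (fun P _ => hNφ P)
    ⟨MvPolynomial.X i, MvPolynomial.X_ne_zero i, by rw [hi]; exact one_ne_zero⟩).2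
  rw [minpoly.isIntegrallyClosed_eq_field_fractions' ℚ h1,
    Polynomial.natDegree_map_eq_of_injective (algebraMap ℤ ℚ).injective_int] at h3
  exact h3

lemma one_weak_perron (hd : 2 ≤ d) : IsIntegral ℤ (1 : ℝ) ∧ (minpoly ℤ (1 : ℝ)).natDegree ≤ d - 1 ∧
      ∀ μ : ℂ, Polynomial.aeval μ (minpoly ℤ (1 : ℝ)) = 0 → ‖μ‖ ≤ (1 : ℝ) := by
  have hdvd : minpoly ℤ (1 : ℝ) ∣ Polynomial.X - 1 := by
    refine minpoly.isIntegrallyClosed_dvd isIntegral_one ?_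
    rw [map_sub, Polynomial.aeval_X, map_one, sub_self]
  have hdeg : (Polynomial.X - 1 : Polynomial ℤ).natDegree = 1 := by
    rw [← Polynomial.C_1]
    exact Polynomial.natDegree_X_sub_C 1
  refine ⟨isIntegral_one, ?_, fun μ hμ => ?_⟩
  · have h1 := Polynomial.natDegree_le_of_dvd hdvd (by
      intro h
      rw [h, Polynomial.natDegree_zero] at hdeg
      exact zero_ne_one hdeg)
    rw [hdeg] at h1
    omega
  · obtain ⟨q, hq⟩ := hdvd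
    have h1 := congrArg (Polynomial.aeval μ) hq
    rw [map_mul, hμ, zero_mul, map_sub, Polynomial.aeval_X, map_one] at h1
    rw [sub_eq_zero.1 h1]
    simp

/-- **Automorphisms with `λ₂ < λ₁`.** -/
theorem weak_perron {χ : ℝ →+ k} (hχ : Function.Injective χ) (hd : 2 ≤ d)
    (φ : MvPolynomial (Fin d) k ≃ₐ[k] MvPolynomial (Fin d) k) :
    ∃ lam : ℝ, 1 ≤ lam ∧
      Tendsto (fun n : ℕ => (adeg (φ ^ n) : ℝ) ^ ((1 : ℝ) / (n : ℝ))) atTop (𝓝 lam) ∧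
      (dynDeg2 φ < ENNReal.ofReal lam →
        IsIntegral ℤ lam ∧ (minpoly ℤ lam).natDegree ≤ d - 1 ∧
          ∀ μ : ℂ, Polynomial.aeval μ (minpoly ℤ lam) = 0 → ‖μ‖ ≤ lam) := by
  have : NeZero d := ⟨by omega⟩
  obtain ⟨lam, hlam1, hlam2, hlam3⟩ := exists_dyn φ
  refine ⟨lam, hlam1, hlam2, fun h => ?_⟩
  rcases eq_or_lt_of_le hlam1 with h1 | h1
  · rw [← h1]
    exact one_weak_perron hd
  obtain ⟨ρ', hρ1, hρ2⟩ := exists_between h
  have hρtop : ρ' ≠ ⊤ := hρ2.ne_top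
  set ρ : ℝ := ρ'.toReal with hρ
  have hρ0 : 0 ≤ ρ := ENNReal.toReal_nonneg
  have hρ' : ENNReal.ofReal ρ = ρ' := ENNReal.ofReal_toReal hρtop
  have hρlam : ρ < lam := by
    rw [← hρ'] at hρ2
    exact (ENNReal.ofReal_lt_ofReal_iff (by positivity)).1 hρ2
  have hev : ∀ᶠ n : ℕ in atTop, Deg2W (φ ^ n) (ρ ^ n) := by
    filter_upwards [eventually_lt_of_limsup_lt hρ1, eventually_gt_atTop 0] with n hn hn0
    refine (deg2Le_of_deg2 (by positivity) ?_).weak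
    have hn' : (n : ℝ) ≠ 0 := by exact_mod_cast hn0.ne'
    have h1 : (deg2 (φ ^ n) : ℝ≥0∞) =
        ((deg2 (φ ^ n) : ℝ≥0∞) ^ ((1 : ℝ) / (n : ℝ))) ^ n := by
      rw [← ENNReal.rpow_natCast, ← ENNReal.rpow_mul, one_div_mul_cancel hn', ENNReal.rpow_one]
    rw [h1, ENNReal.ofReal_pow hρ0, hρ']
    exact pow_le_pow_left₀ bot_le hn.le n
  obtain ⟨n₀, hn₀⟩ := eventually_atTop.1 hev
  exact weak_perron_of_deg2 hχ hd φ h1 hlam2 hlam3 hρ0 hρlam hn₀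

end Pool.Agent.H17Dyn
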