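import Pool.Agent.H17Dyn.RankBound
import Pool.Agent.H17Dyn.Conv

/-!
# Fat valuations

A logarithmic valuation is `s`-fat if differentiation increases it by at most `s`. Eigenvaluations
which are limits of degrees of iterates of an automorphism are fat, because the Jacobian
determinant of an automorphism is constant.
-/

set_option autoImplicit false

attribute [-instance] HahnSeries.powerSeriesAlgebra

namespace Pool.Agent.H17Dyn

open Filter Topology

variable {d : ℕ} {k : Type*} [Field k]

/-- differentiation increases `N` by at most `s` -/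
def Fat (s : ℝ) (N : MvPolynomial (Fin d) k → ℝ) : Prop :=
  ∀ (j : Fin d) (P : MvPolynomial (Fin d) k), MvPolynomial.pderiv j P ≠ 0 →
    N (MvPolynomial.pderiv j P) ≤ N P + s

lemma jac_update (j : Fin d) (Q : MvPolynomial (Fin d) k) :
    jac (Function.update (fun i : Fin d => (MvPolynomial.X i : MvPolynomial (Fin d) k)) j Q) =
      MvPolynomial.pderiv j Q := by
  have h : (Matrix.of fun i l => MvPolynomial.pderiv i
      (Function.update (fun i : Fin d => (MvPolynomial.X i : MvPolynomial (Fin d) k)) j Q l)) =
      (1 : Matrix (Fin d) (Fin d) (MvPolynomial (Fin d) k)).updateCol j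
        (fun i => MvPolynomial.pderiv i Q) := by
    ext i l : 2
    rw [Matrix.of_apply, Matrix.updateCol_apply]
    by_cases h : l = j
    · subst h
      rw [if_pos rfl, Function.update_self]
    · rw [if_neg h, Function.update_of_ne h, MvPolynomial.pderiv_X, Matrix.one_apply,
        Pi.single_apply]
      simp only [eq_comm]
  rw [jac, h, ← Matrix.cramer_apply, Matrix.cramer_one]
  rfl

lemma totalDegree_pderiv_le (i : Fin d) (P : MvPolynomial (Fin d) k) :
    (MvPolynomial.pderiv i P).totalDegree ≤ P.totalDegree := by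
  classical
  rw [MvPolynomial.totalDegree]
  refine Finset.sup_le fun m hm => ?_
  have h1 : MvPolynomial.coeff (m + Finsupp.single i 1) P ≠ 0 := by
    intro h
    rw [MvPolynomial.mem_support_iff, MvPolynomial.coeff_pderiv, h, zero_mul] at hm
    exact hm rfl
  have h2 := MvPolynomial.le_totalDegree (MvPolynomial.mem_support_iff.2 h1)
  rw [Finsupp.sum_add_index' (fun _ => rfl) (fun _ _ _ => rfl)] at h2
  omega

lemma totalDegree_jac_le (P : Fin d → MvPolynomial (Fin d) k) :
    (jac P).totalDegree ≤ ∑ i, (P i).totalDegree := by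
  classical
  rw [jac, Matrix.det_apply]
  refine MvPolynomial.totalDegree_finsetSum_le fun σ _ => ?_
  refine (MvPolynomial.totalDegree_smul_le _ _).trans ?_
  refine (MvPolynomial.totalDegree_finsetProd _ _).trans ?_
  exact Finset.sum_le_sum fun i _ => totalDegree_pderiv_le _ _

/-- the Jacobian determinant of an automorphism is constant: the degree of an image of a
derivative -/
lemma totalDegree_apply_pderiv_le (G : MvPolynomial (Fin d) k ≃ₐ[k] MvPolynomial (Fin d) k)
    (j : Fin d) (Q : MvPolynomial (Fin d) k) :
    (G (MvPolynomial.pderiv j Q)).totalDegree ≤ (G Q).totalDegree + d * adeg G := by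
  classical
  rcases eq_or_ne (MvPolynomial.pderiv j Q) 0 with h0 | h0
  · rw [h0, map_zero, MvPolynomial.totalDegree_zero]
    exact Nat.zero_le _
  set P := Function.update (fun i : Fin d => (MvPolynomial.X i : MvPolynomial (Fin d) k)) j Q
    with hP
  have h1 := jac_apply G P
  rw [hP, jac_update] at h1
  have hu := isUnit_jac G
  have h2 : (G (MvPolynomial.pderiv j Q)).totalDegree =
      (jac (fun i => G (P i))).totalDegree := by
    rw [hP, h1, MvPolynomial.totalDegree_mul_of_isDomain
      ((map_ne_zero_iff _ G.injective).2 h0) hu.ne_zero]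
    obtain ⟨e, he, he'⟩ := MvPolynomial.isUnit_iff_eq_C_of_isReduced.1 hu
    rw [he', MvPolynomial.totalDegree_C, add_zero]
  rw [h2]
  refine (totalDegree_jac_le _).trans ?_
  have h3 : ∀ i ∈ (Finset.univ : Finset (Fin d)), (G (P i)).totalDegree ≤
      (if i = j then (G Q).totalDegree else 0) + adeg G := by
    intro i _
    by_cases h : i = j
    · subst h
      rw [if_pos rfl, hP, Function.update_self]
      exact Nat.le_add_right _ _
    · rw [if_neg h, zero_add, hP, Function.update_of_ne h]
      exact totalDegree_X_le G i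
  refine (Finset.sum_le_sum h3).trans ?_
  rw [Finset.sum_add_distrib, Finset.sum_ite_eq' Finset.univ j, if_pos (Finset.mem_univ j)]
  simp

/-- **Limits of degrees of iterates are fat.** -/
theorem fat_of_tendsto (hd : 1 ≤ d) (φ : MvPolynomial (Fin d) k ≃ₐ[k] MvPolynomial (Fin d) k)
    {N : MvPolynomial (Fin d) k → ℝ}
    (hN : ∀ P, Tendsto (fun n : ℕ => (((φ ^ n) P).totalDegree : ℝ) / (adeg (φ ^ n) : ℝ)) atTop
      (𝓝 (N P))) : Fat (d : ℝ) N := by
  have hdz : NeZero d := ⟨by omega⟩
  intro j P _
  refine le_of_tendsto_of_tendsto' (hN _) ((hN P).add tendsto_const_nhds) fun n => ?_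
  have h1 : (1 : ℝ) ≤ adeg (φ ^ n) := by
    exact_mod_cast one_le_adeg (φ ^ n)
  have h2 : (((φ ^ n) (MvPolynomial.pderiv j P)).totalDegree : ℝ) ≤
      ((φ ^ n) P).totalDegree + d * adeg (φ ^ n) := by
    exact_mod_cast totalDegree_apply_pderiv_le (φ ^ n) j P
  rw [div_le_iff₀ (by linarith), add_mul, div_mul_cancel₀ _ (by linarith)]
  exact h2

end Pool.Agent.H17Dyn
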