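import Mathlib

/-!
# Derivations of Hahn series fields
-/

set_option autoImplicit false

attribute [-instance] HahnSeries.powerSeriesAlgebra

namespace Pool.Agent.H17Dyn

open HahnSeries hiding pow_add

variable {k : Type*} [Field k]

/-- the coefficientwise multiplication by an additive function -/
noncomputable def hmul (χ : ℝ → k) (h : HahnSeries ℝ k) : HahnSeries ℝ k where
  coeff g := χ g * h.coeff g
  isPWO_support' := h.isPWO_support.mono fun g hg => by
    rw [Function.mem_support] at hg
    exact right_ne_zero_of_mul hg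

lemma coeff_hmul (χ : ℝ → k) (h : HahnSeries ℝ k) (g : ℝ) :
    (hmul χ h).coeff g = χ g * h.coeff g := rfl

lemma support_hmul (χ : ℝ → k) (h : HahnSeries ℝ k) : (hmul χ h).support ⊆ h.support := by
  intro g hg
  rw [mem_support, coeff_hmul] at hg
  exact right_ne_zero_of_mul hg

/-- the derivation `t^g ↦ χ(g) t^g` -/
noncomputable def hder (χ : ℝ →+ k) : Derivation k (HahnSeries ℝ k) (HahnSeries ℝ k) :=
  Derivation.mk'
    { toFun := hmul χ
      map_add' := fun x y => by
        ext g
        rw [coeff_hmul, coeff_add, coeff_add, coeff_hmul, coeff_hmul]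
        ring
      map_smul' := fun c x => by
        ext g
        rw [coeff_hmul, RingHom.id_apply, coeff_smul, coeff_smul, coeff_hmul, smul_eq_mul,
          smul_eq_mul]
        ring }
    (by
      intro x y
      change hmul χ (x * y) = x • hmul χ y + y • hmul χ x
      ext g
      rw [smul_eq_mul, smul_eq_mul, mul_comm y, coeff_hmul, coeff_add, coeff_mul,
        coeff_mul_right' y.isPWO_support (support_hmul _ _),
        coeff_mul_left' x.isPWO_support (support_hmul _ _), Finset.mul_sum,
        ← Finset.sum_add_distrib]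
      refine Finset.sum_congr rfl fun ij hij => ?_
      rw [Finset.mem_antidiagonal] at hij
      rw [← hij.2.2, map_add, coeff_hmul, coeff_hmul]
      ring)

lemma hder_apply (χ : ℝ →+ k) (h : HahnSeries ℝ k) : hder χ h = hmul χ h := rfl

lemma coeff_hder (χ : ℝ →+ k) (h : HahnSeries ℝ k) (g : ℝ) :
    (hder χ h).coeff g = χ g * h.coeff g := rfl

lemma hder_comm (χ χ' : ℝ →+ k) (h : HahnSeries ℝ k) :
    hder χ (hder χ' h) = hder χ' (hder χ h) := by
  ext g
  rw [coeff_hder, coeff_hder, coeff_hder, coeff_hder]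
  ring

lemma coeff_zero_hder (χ : ℝ →+ k) (h : HahnSeries ℝ k) : (hder χ h).coeff 0 = 0 := by
  rw [coeff_hder, map_zero, zero_mul]

/-- all coefficients below `g` vanish -/
def Above (g : ℝ) (h : HahnSeries ℝ k) : Prop := ∀ a < g, h.coeff a = 0

lemma above_order (h : HahnSeries ℝ k) : Above h.order h := fun _ ha => coeff_eq_zero_of_lt_order ha

lemma Above.hder {g : ℝ} {h : HahnSeries ℝ k} (hh : Above g h) (χ : ℝ →+ k) :
    Above g (hder χ h) := by
  intro a ha
  rw [coeff_hder, hh a ha, mul_zero]

lemma Above.mul {g g' : ℝ} {h h' : HahnSeries ℝ k} (hh : Above g h) (hh' : Above g' h') :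
    Above (g + g') (h * h') ∧ (h * h').coeff (g + g') = h.coeff g * h'.coeff g' := by
  constructor
  · intro a ha
    rw [coeff_mul]
    refine Finset.sum_eq_zero fun ij hij => ?_
    rw [Finset.mem_antidiagonal] at hij
    rcases lt_or_ge ij.1 g with h1 | h1
    · rw [hh _ h1, zero_mul]
    · have h2 : ij.2 < g' := by linarith [hij.2.2]
      rw [hh' _ h2, mul_zero]
  · rw [coeff_mul]
    by_cases hne : h.coeff g ≠ 0 ∧ h'.coeff g' ≠ 0
    · rw [Finset.sum_eq_single (g, g')]
      · intro ij hij hne'
        rw [Finset.mem_antidiagonal] at hij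
        rcases lt_trichotomy ij.1 g with h1 | h1 | h1
        · rw [hh _ h1, zero_mul]
        · exact absurd (Prod.ext h1 (by linarith [hij.2.2])) hne'
        · have h2 : ij.2 < g' := by linarith [hij.2.2]
          rw [hh' _ h2, mul_zero]
      · intro hnm
        exfalso
        apply hnm
        rw [Finset.mem_antidiagonal]
        exact ⟨hne.1, hne.2, rfl⟩
    · have h0 : h.coeff g * h'.coeff g' = 0 := by
        rw [not_and_or, not_not, not_not] at hne
        rcases hne with h1 | h1
        · rw [h1, zero_mul]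
        · rw [h1, mul_zero]
      rw [h0]
      refine Finset.sum_eq_zero fun ij hij => ?_
      rw [Finset.mem_antidiagonal] at hij
      rcases lt_trichotomy ij.1 g with h1 | h1 | h1
      · rw [hh _ h1, zero_mul]
      · have h2 : ij.2 = g' := by linarith [hij.2.2]
        rw [h1, h2, h0]
      · have h2 : ij.2 < g' := by linarith [hij.2.2]
        rw [hh' _ h2, mul_zero]

lemma above_prod {ι : Type*} (s : Finset ι) (g : ι → ℝ) (h : ι → HahnSeries ℝ k)
    (hh : ∀ i ∈ s, Above (g i) (h i)) : Above (∑ i ∈ s, g i) (∏ i ∈ s, h i) ∧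
      (∏ i ∈ s, h i).coeff (∑ i ∈ s, g i) = ∏ i ∈ s, (h i).coeff (g i) := by
  classical
  induction s using Finset.induction_on with
  | empty =>
    simp only [Finset.prod_empty, Finset.sum_empty]
    refine ⟨fun a ha => ?_, by rw [coeff_one, if_pos rfl]⟩
    rw [coeff_one, if_neg ha.ne]
  | insert a s ha ih =>
    rw [Finset.prod_insert ha, Finset.sum_insert ha, Finset.prod_insert ha]
    obtain ⟨h1, h2⟩ := ih fun i hi => hh i (Finset.mem_insert_of_mem hi)
    obtain ⟨h3, h4⟩ := (hh a (Finset.mem_insert_self a s)).mul h1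
    exact ⟨h3, by rw [h4, h2]⟩

/-- the leading coefficient of a Jacobian determinant -/
lemma above_det {d : ℕ} (χ : Fin d → ℝ →+ k) (g : Fin d → ℝ) (h : Fin d → HahnSeries ℝ k)
    (hh : ∀ i, Above (g i) (h i)) :
    Above (∑ i, g i) (Matrix.of fun i j => hder (χ i) (h j)).det ∧
      (Matrix.of fun i j => hder (χ i) (h j)).det.coeff (∑ i, g i) =
        (Matrix.of fun i j => χ i (g j)).det * ∏ j, (h j).coeff (g j) := by
  classical
  have h1 : ∀ σ : Equiv.Perm (Fin d), Above (∑ i, g i) (∏ i, hder (χ (σ i)) (h i)) ∧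
      (∏ i, hder (χ (σ i)) (h i)).coeff (∑ i, g i) =
        ∏ i, (hder (χ (σ i)) (h i)).coeff (g i) := fun σ =>
    above_prod Finset.univ g _ fun i _ => (hh i).hder _
  have hdet : (Matrix.of fun i j => hder (χ i) (h j)).det =
      ∑ σ : Equiv.Perm (Fin d), ((Equiv.Perm.sign σ : ℤ)) • ∏ i, hder (χ (σ i)) (h i) := by
    rw [Matrix.det_apply]
    rfl
  have hcoeff : ∀ (a : ℝ), (Matrix.of fun i j => hder (χ i) (h j)).det.coeff a =
      ∑ σ : Equiv.Perm (Fin d), ((Equiv.Perm.sign σ : ℤ)) •
        (∏ i, hder (χ (σ i)) (h i)).coeff a := by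
    intro a
    rw [hdet]
    have : ∀ f : Equiv.Perm (Fin d) → HahnSeries ℝ k,
        (∑ σ, f σ).coeff a = ∑ σ, (f σ).coeff a := fun f =>
      map_sum (HahnSeries.coeff.addMonoidHom a) f Finset.univ
    rw [this]
    refine Finset.sum_congr rfl fun σ _ => ?_
    exact map_zsmul (HahnSeries.coeff.addMonoidHom a) _ _
  constructor
  · intro a ha
    rw [hcoeff]
    refine Finset.sum_eq_zero fun σ _ => ?_
    rw [(h1 σ).1 a ha, smul_zero]
  · rw [hcoeff, Matrix.det_apply, Finset.sum_mul]
    refine Finset.sum_congr rfl fun σ _ => ?_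
    rw [(h1 σ).2]
    simp only [coeff_hder, Finset.prod_mul_distrib, Matrix.of_apply]
    rw [smul_mul_assoc]
    rfl

end Pool.Agent.H17Dyn
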