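import Pool.Agent.H17Dyn.Val
import Pool.Agent.Cayley.HahnClosed

/-!
# The Hahn series model
-/

set_option autoImplicit false

attribute [-instance] HahnSeries.powerSeriesAlgebra

namespace Pool.Agent.H17Dyn

section Hahn

variable (k : Type*) [Field k]

/-- the logarithmic absolute value of Hahn series, with a scaling factor -/
noncomputable def hahnLg {c : ℝ} (hc : 0 < c) : LgData k (HahnSeries ℝ k) where
  lg x := -x.order / c
  lg_mul := by
    intro x y hx hy
    rw [HahnSeries.order_mul hx hy]
    ring
  lg_add := by
    intro x y hx hy hxy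
    have h := HahnSeries.min_order_le_order_add hxy
    rcases min_le_iff.1 h with h | h
    · exact (div_le_div_of_nonneg_right (neg_le_neg h) hc.le).trans (le_max_left _ _)
    · exact (div_le_div_of_nonneg_right (neg_le_neg h) hc.le).trans (le_max_right _ _)
  lg_const := by
    intro c hc
    rw [HahnSeries.algebraMap_apply, Algebra.algebraMap_self_apply, HahnSeries.order_C, neg_zero,
      zero_div]
  s := HahnSeries.single (-c) 1
  s_ne := by
    rw [Ne, HahnSeries.single_eq_zero_iff]
    exact one_ne_zero
  lg_s := by
    rw [HahnSeries.order_single one_ne_zero, neg_neg, div_self hc.ne']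

instance hahnClosed [IsAlgClosed k] : IsAlgClosed (HahnSeries ℝ k) :=
  Pool.Agent.Cayley.isAlgClosed_hahnSeries fun n hn g => ⟨g / n, by
    rw [nsmul_eq_mul]
    field_simp⟩

instance hahnCharZero [CharZero k] : CharZero (HahnSeries ℝ k) :=
  charZero_of_injective_algebraMap (algebraMap k (HahnSeries ℝ k)).injective

end Hahn

end Pool.Agent.H17Dyn
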