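import Mathlib

/-!
# Jacobian determinants of commuting derivations
-/

set_option autoImplicit false

namespace Pool.Agent.H17Dyn

open Finset

section General

variable {k A : Type*} [CommRing k] [CommRing A] [Algebra k A]

lemma deriv_prod (D : Derivation k A A) {ι : Type*} [DecidableEq ι] (s : Finset ι) (f : ι → A) :
    D (∏ i ∈ s, f i) = ∑ i ∈ s, D (f i) * ∏ j ∈ s.erase i, f j := by
  induction s using Finset.induction_on with
  | empty => simp
  | insert a s ha ih =>
    rw [prod_insert ha, Derivation.leibniz, ih, sum_insert ha, erase_insert ha, smul_eq_mul,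
      smul_eq_mul, mul_sum, add_comm]
    congr 1
    · ring
    · refine sum_congr rfl fun i hi => ?_
      have hne : a ≠ i := fun h => ha (h ▸ hi)
      rw [erase_insert_of_ne hne, prod_insert (fun h => ha (mem_of_mem_erase h))]
      ring

/-- **Piola identity**: a Jacobian determinant is a divergence. -/
lemma piola {n : ℕ} (D : Fin (n + 1) → Derivation k A A)
    (hc : ∀ i j a, D i (D j a) = D j (D i a)) (f : Fin (n + 1) → A) :
    (Matrix.of fun i j => D i (f j)).det =
      ∑ σ : Equiv.Perm (Fin (n + 1)), ((Equiv.Perm.sign σ : ℤ) : A) *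
        D (σ 0) (f 0 * ∏ l ∈ univ.erase (0 : Fin (n + 1)), D (σ l) (f l)) := by
  classical
  have h1 : ∀ σ : Equiv.Perm (Fin (n + 1)),
      ((Equiv.Perm.sign σ : ℤ) : A) *
        D (σ 0) (f 0 * ∏ l ∈ univ.erase (0 : Fin (n + 1)), D (σ l) (f l)) =
      ((Equiv.Perm.sign σ : ℤ) : A) * ∏ l, D (σ l) (f l) +
      ∑ l ∈ univ.erase (0 : Fin (n + 1)), ((Equiv.Perm.sign σ : ℤ) : A) *
        (f 0 * (D (σ 0) (D (σ l) (f l)) *
          ∏ l' ∈ (univ.erase (0 : Fin (n + 1))).erase l, D (σ l') (f l'))) := by
    intro σ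
    rw [Derivation.leibniz, deriv_prod, smul_eq_mul, smul_eq_mul, mul_add, add_comm,
      ← mul_prod_erase univ _ (mem_univ (0 : Fin (n + 1))), ← mul_sum, ← mul_sum]
    ring
  rw [Matrix.det_apply', sum_congr rfl fun σ _ => h1 σ, sum_add_distrib, sum_comm]
  have h2 : ∑ l ∈ univ.erase (0 : Fin (n + 1)), ∑ σ : Equiv.Perm (Fin (n + 1)),
      ((Equiv.Perm.sign σ : ℤ) : A) * (f 0 * (D (σ 0) (D (σ l) (f l)) *
          ∏ l' ∈ (univ.erase (0 : Fin (n + 1))).erase l, D (σ l') (f l'))) = 0 := by
    refine sum_eq_zero fun l hl => ?_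
    have hl0 : l ≠ 0 := ne_of_mem_erase hl
    refine sum_involution (fun σ _ => σ * Equiv.swap 0 l) ?_ ?_ (fun _ _ => mem_univ _) ?_
    · intro σ _
      have e0 : (σ * Equiv.swap 0 l) 0 = σ l := by
        rw [Equiv.Perm.mul_apply, Equiv.swap_apply_left]
      have el : (σ * Equiv.swap 0 l) l = σ 0 := by
        rw [Equiv.Perm.mul_apply, Equiv.swap_apply_right]
      have ep : ∏ l' ∈ (univ.erase (0 : Fin (n + 1))).erase l,
          D ((σ * Equiv.swap 0 l) l') (f l') =
          ∏ l' ∈ (univ.erase (0 : Fin (n + 1))).erase l, D (σ l') (f l') := by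
        refine prod_congr rfl fun l' hl' => ?_
        have h3 : l' ≠ l := ne_of_mem_erase hl'
        have h4 : l' ≠ 0 := ne_of_mem_erase (mem_of_mem_erase hl')
        rw [Equiv.Perm.mul_apply, Equiv.swap_apply_of_ne_of_ne h4 h3]
      rw [e0, el, ep, hc (σ l) (σ 0), Equiv.Perm.sign_mul, Equiv.Perm.sign_swap hl0.symm]
      push_cast
      ring
    · intro σ _ _ h
      have h5 : Equiv.swap 0 l = (1 : Equiv.Perm (Fin (n + 1))) := by
        have := mul_left_cancel (a := σ) (b := Equiv.swap 0 l) (c := 1) (by rw [mul_one]; exact h)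
        exact this
      exact hl0 ((Equiv.swap_eq_one_iff.1 h5).symm)
    · intro σ _
      rw [mul_assoc, Equiv.swap_mul_self, mul_one]
  rw [h2, add_zero]
  rfl

/-- a functional killing all derivatives kills Jacobian determinants -/
lemma piola_zero {n : ℕ} (D : Fin (n + 1) → Derivation k A A)
    (hc : ∀ i j a, D i (D j a) = D j (D i a)) (f : Fin (n + 1) → A) (ℓ : A →+ k)
    (hℓ : ∀ i a, ℓ (D i a) = 0) : ℓ (Matrix.of fun i j => D i (f j)).det = 0 := by
  rw [piola D hc, map_sum]
  refine sum_eq_zero fun σ _ => ?_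
  rw [← zsmul_eq_mul, map_zsmul, hℓ, smul_zero]

end General

section Chain

variable {k A : Type*} [Field k] [CommRing A] [Algebra k A] {σ : Type*} [Fintype σ]

/-- the chain rule -/
lemma chain_rule (D : Derivation k A A) (τ : MvPolynomial σ k →ₐ[k] A) (f : MvPolynomial σ k) :
    D (τ f) = ∑ l, τ (MvPolynomial.pderiv l f) * D (τ (MvPolynomial.X l)) := by
  classical
  induction f using MvPolynomial.induction_on with
  | C a =>
    have h1 : τ (MvPolynomial.C a) = algebraMap k A a := by
      rw [← MvPolynomial.algebraMap_eq, AlgHom.commutes]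
    rw [h1, Derivation.map_algebraMap]
    simp
  | add p q hp hq =>
    rw [map_add, map_add, hp, hq, ← Finset.sum_add_distrib]
    refine Finset.sum_congr rfl fun l _ => ?_
    rw [map_add, map_add]
    ring
  | mul_X p i hp =>
    rw [map_mul, Derivation.leibniz, hp, smul_eq_mul, smul_eq_mul, Finset.mul_sum]
    have h2 : ∀ l, τ (MvPolynomial.pderiv l (p * MvPolynomial.X i)) * D (τ (MvPolynomial.X l)) =
        τ (MvPolynomial.X i) * (τ (MvPolynomial.pderiv l p) * D (τ (MvPolynomial.X l))) +
        (if l = i then τ p * D (τ (MvPolynomial.X l)) else 0) := by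
      intro l
      rw [MvPolynomial.pderiv_mul, map_add, map_mul, map_mul, MvPolynomial.pderiv_X]
      by_cases h : l = i
      · subst h
        rw [if_pos rfl, Pi.single_eq_same, map_one]
        ring
      · rw [if_neg h, Pi.single_eq_of_ne (fun h' => h h'.symm), map_zero]
        ring
    rw [Finset.sum_congr rfl fun l _ => h2 l, Finset.sum_add_distrib]
    simp [add_comm]

/-- the Jacobian matrix -/
noncomputable def jac {d : ℕ} (P : Fin d → MvPolynomial (Fin d) k) : MvPolynomial (Fin d) k :=
  (Matrix.of fun i j => MvPolynomial.pderiv i (P j)).det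

/-- the chain rule for Jacobian determinants -/
lemma det_chain {d : ℕ} (D : Fin d → Derivation k A A) (τ : MvPolynomial (Fin d) k →ₐ[k] A)
    (P : Fin d → MvPolynomial (Fin d) k) :
    (Matrix.of fun i j => D i (τ (P j))).det =
      τ (jac P) * (Matrix.of fun i j => D i (τ (MvPolynomial.X j))).det := by
  have h1 : (Matrix.of fun i j => D i (τ (P j))) =
      (Matrix.of fun i j => D i (τ (MvPolynomial.X j))) *
        (Matrix.of fun i j => MvPolynomial.pderiv i (P j)).map τ := by
    ext i j
    rw [Matrix.mul_apply, Matrix.of_apply, chain_rule]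
    refine Finset.sum_congr rfl fun l _ => ?_
    rw [Matrix.of_apply, Matrix.map_apply, Matrix.of_apply]
    ring
  rw [h1, Matrix.det_mul, jac, mul_comm]
  congr 1
  exact (AlgHom.map_det τ _).symm

end Chain

end Pool.Agent.H17Dyn
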