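import Pool.Agent.H17Dyn.FracLg
import Pool.Agent.H17Dyn.Piola
import Pool.Agent.H17Dyn.HDer
import Pool.Agent.H17Dyn.Hahn
import Pool.Agent.Cayley.Fibre
import Pool.Agent.Cayley.Chars

/-!
# The rational rank of an eigenvaluation
-/

set_option autoImplicit false

attribute [-instance] HahnSeries.powerSeriesAlgebra

namespace Pool.Agent.H17Dyn

open HahnSeries hiding pow_add
open Pool.Agent.Cayley

section Prelim

variable {d : ℕ} {k : Type*} [Field k]

lemma tb_of_algInd {η : Fin d → FractionRing (MvPolynomial (Fin d) k)}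
    (hη : AlgebraicIndependent k η) : IsTranscendenceBasis k η := by
  apply hη.isTranscendenceBasis_of_lift_trdeg_le_of_finite
  have h1 := trdeg_add_eq k (MvPolynomial (Fin d) k)
    (A := FractionRing (MvPolynomial (Fin d) k))
  have h2 : Algebra.IsAlgebraic (MvPolynomial (Fin d) k)
      (FractionRing (MvPolynomial (Fin d) k)) :=
    IsLocalization.isAlgebraic _ (nonZeroDivisors (MvPolynomial (Fin d) k))
  have h3 : Algebra.trdeg (MvPolynomial (Fin d) k)
      (FractionRing (MvPolynomial (Fin d) k)) = 0 := trdeg_eq_zero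
  rw [h3, add_zero, MvPolynomial.trdeg_of_isDomain] at h1
  rw [← h1]
  simp

lemma jac_X : jac (fun i : Fin d => (MvPolynomial.X i : MvPolynomial (Fin d) k)) = 1 := by
  have h : (Matrix.of fun i j : Fin d => MvPolynomial.pderiv i
      (MvPolynomial.X j : MvPolynomial (Fin d) k)) = 1 := by
    ext i j : 2
    rw [Matrix.of_apply, MvPolynomial.pderiv_X, Matrix.one_apply, Pi.single_apply]
    simp only [eq_comm]
  rw [jac, h, Matrix.det_one]

lemma jac_apply (φ : MvPolynomial (Fin d) k ≃ₐ[k] MvPolynomial (Fin d) k)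
    (P : Fin d → MvPolynomial (Fin d) k) :
    jac (fun i => φ (P i)) = φ (jac P) * jac (fun i => φ (MvPolynomial.X i)) :=
  det_chain (fun i => MvPolynomial.pderiv i)
    (φ : MvPolynomial (Fin d) k →ₐ[k] MvPolynomial (Fin d) k) P

lemma isUnit_jac (φ : MvPolynomial (Fin d) k ≃ₐ[k] MvPolynomial (Fin d) k) :
    IsUnit (jac (fun i => φ (MvPolynomial.X i))) := by
  have h := jac_apply φ (fun i => φ.symm (MvPolynomial.X i))
  simp only [AlgEquiv.apply_symm_apply] at h
  rw [jac_X] at h
  exact IsUnit.of_mul_eq_one _ ((mul_comm _ _).trans h.symm)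

lemma order_of_above {g : ℝ} {h : HahnSeries ℝ k} (h1 : Above g h) (h2 : h.coeff g ≠ 0) :
    h ≠ 0 ∧ h.order = g := by
  have h0 : h ≠ 0 := by
    rintro rfl
    exact h2 rfl
  refine ⟨h0, le_antisymm (order_le_of_coeff_ne_zero h2) ?_⟩
  by_contra hcon
  push Not at hcon
  exact (coeff_order_eq_zero.not.2 h0) (h1 _ hcon)

end Prelim

section Rank

variable {n : ℕ} {k : Type*} [Field k] [IsAlgClosed k] [CharZero k]

lemma coords_eq_zero {V : Type*} [AddCommGroup V] [Module ℚ V] {m : ℕ} {v : Fin m → V}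
    {l : Fin m → V →ₗ[ℚ] ℚ} (hl : ∀ i j, l i (v j) = if i = j then 1 else 0) {x : V}
    (hx : x ∈ Submodule.span ℚ (Set.range v)) (h : ∀ i, l i x = 0) : x = 0 := by
  obtain ⟨c, rfl⟩ := (Submodule.mem_span_range_iff_exists_fun ℚ).1 hx
  refine Finset.sum_eq_zero fun i _ => ?_
  have h1 := h i
  rw [map_sum] at h1
  simp only [map_smul, hl, smul_eq_mul, mul_ite, mul_one, mul_zero] at h1
  rw [Finset.sum_ite_eq Finset.univ i c, if_pos (Finset.mem_univ i)] at h1
  rw [h1, zero_smul]

/-- **The rational rank of an eigenvaluation of an automorphism is smaller than the dimension.** -/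
theorem rank_bound (φ : MvPolynomial (Fin (n + 1)) k ≃ₐ[k] MvPolynomial (Fin (n + 1)) k)
    {N : MvPolynomial (Fin (n + 1)) k → ℝ} (hN : IsLogVal N) {θ : ℝ} (hθ : θ ≠ 1)
    (hφ : ∀ P, P ≠ 0 → N (φ P) = θ * N P) (P : Fin (n + 1) → MvPolynomial (Fin (n + 1)) k)
    (hP0 : ∀ i, P i ≠ 0) : ¬ LinearIndependent ℚ (fun i => N (P i)) := by
  classical
  intro hind
  have hφ0 : ∀ Q : MvPolynomial (Fin (n + 1)) k, Q ≠ 0 → φ Q ≠ 0 := fun Q hQ =>
    (map_ne_zero_iff _ φ.injective).2 hQ
  have hinjRF : Function.Injective (algebraMap (MvPolynomial (Fin (n + 1)) k)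
      (FractionRing (MvPolynomial (Fin (n + 1)) k))) := IsFractionRing.injective _ _
  have hRF0 : ∀ Q : MvPolynomial (Fin (n + 1)) k, Q ≠ 0 → algebraMap _
      (FractionRing (MvPolynomial (Fin (n + 1)) k)) Q ≠ 0 := fun Q hQ =>
    (map_ne_zero_iff _ hinjRF).2 hQ
  have hN0 : N (P 0) ≠ 0 := hind.ne_zero 0
  have hc : 0 < |N (P 0)| := abs_pos.2 hN0
  set c := |N (P 0)| with hcdef
  obtain ⟨s, hs0, hs⟩ : ∃ s : FractionRing (MvPolynomial (Fin (n + 1)) k), s ≠ 0 ∧
      fracN N s = c := by
    rcases abs_choice (N (P 0)) with h | h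
    · refine ⟨algebraMap _ _ (P 0), hRF0 _ (hP0 0), ?_⟩
      rw [fracN_algebraMap hN (hP0 0), hcdef, h]
    · refine ⟨algebraMap (MvPolynomial (Fin (n + 1)) k) _ 1 / algebraMap _ _ (P 0), ?_, ?_⟩
      · rw [map_one]
        exact div_ne_zero one_ne_zero (hRF0 _ (hP0 0))
      · rw [fracN_div hN one_ne_zero (hP0 0), hcdef, h]
        have h1 : N 1 = 0 := by
          have := hN.const 1 one_ne_zero
          rwa [map_one] at this
        rw [h1, zero_sub]
  set LK := fracLg hN hc s hs0 hs with hLKdef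
  set LH := hahnLg k hc with hLHdef
  have hLK : ∀ Q : MvPolynomial (Fin (n + 1)) k, Q ≠ 0 → LK.lg (algebraMap _ _ Q) = N Q / c :=
    fun Q hQ => by
      change fracN N _ / c = _
      rw [fracN_algebraMap hN hQ]
  have hLH : ∀ h : HahnSeries ℝ k, LH.lg h = -h.order / c := fun h => rfl
  -- the two families
  set η : Fin (n + 1) → FractionRing (MvPolynomial (Fin (n + 1)) k) :=
    fun i => algebraMap _ _ (P i) with hηdef
  set y : Fin (n + 1) → HahnSeries ℝ k := fun i => single (-N (P i)) 1 with hydef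
  have hη0 : ∀ i, η i ≠ 0 := fun i => hRF0 _ (hP0 i)
  have hy0 : ∀ i, y i ≠ 0 := fun i => by
    rw [hydef, Ne, single_eq_zero_iff]
    exact one_ne_zero
  have hlgη : ∀ i, LK.lg (η i) = N (P i) / c := fun i => hLK _ (hP0 i)
  have hlgy : ∀ i, LH.lg (y i) = N (P i) / c := fun i => by
    rw [hLH, hydef, order_single one_ne_zero, neg_neg]
  have hinj : ExpInj fun i => LK.lg (η i) := by
    have h1 := expInj_of_linearIndependent hind
    intro e e' h
    apply h1
    simp only [hlgη] at h ⊢
    have h2 : ∀ e : Fin (n + 1) →₀ ℕ, ∑ i, (e i : ℝ) * (N (P i) / c) =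
        (∑ i, (e i : ℝ) * N (P i)) / c := by
      intro e
      rw [Finset.sum_div]
      exact Finset.sum_congr rfl fun i _ => by ring
    rw [h2, h2, div_left_inj' hc.ne'] at h
    exact h
  have hinj' : ExpInj fun i => LH.lg (y i) := by
    have : (fun i => LH.lg (y i)) = fun i => LK.lg (η i) := by
      funext i
      rw [hlgη, hlgy]
    rw [this]
    exact hinj
  have hη : AlgebraicIndependent k η := algInd_of_expInj hη0 hinj
  have hy : AlgebraicIndependent k y := algInd_of_expInj hy0 hinj'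
  -- the intermediate field
  let _ : Algebra (IntermediateField.adjoin k (Set.range η)) (HahnSeries ℝ k) :=
    (baseHom hη hy).toRingHom.toAlgebra
  have hmap : ∀ a : IntermediateField.adjoin k (Set.range η),
      algebraMap (IntermediateField.adjoin k (Set.range η)) (HahnSeries ℝ k) a =
        baseHom hη hy a := fun a => rfl
  have _ : IsScalarTower k (IntermediateField.adjoin k (Set.range η)) (HahnSeries ℝ k) :=
    IsScalarTower.of_algebraMap_eq fun r => ((baseHom hη hy).commutes r).symm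
  have _ : Algebra.IsAlgebraic (IntermediateField.adjoin k (Set.range η))
      (FractionRing (MvPolynomial (Fin (n + 1)) k)) := (tb_of_algInd hη).isAlgebraic_field
  have hmemE : ∀ A : MvPolynomial (Fin (n + 1)) k,
      MvPolynomial.aeval η A ∈ IntermediateField.adjoin k (Set.range η) := by
    intro A
    have := IntermediateField.algebra_adjoin_le_adjoin k (Set.range η)
    apply this
    rw [Algebra.adjoin_range_eq_range_aeval]
    exact ⟨A, rfl⟩
  -- description of the elements of the base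
  have hEdiv : ∀ a : IntermediateField.adjoin k (Set.range η), a ≠ 0 →
      ∃ A B : MvPolynomial (Fin (n + 1)) k, A ≠ 0 ∧ B ≠ 0 ∧
        algebraMap _ (FractionRing (MvPolynomial (Fin (n + 1)) k)) a =
          MvPolynomial.aeval η A / MvPolynomial.aeval η B ∧
        algebraMap (IntermediateField.adjoin k (Set.range η)) (HahnSeries ℝ k) a =
          MvPolynomial.aeval y A / MvPolynomial.aeval y B := by
    intro a ha
    obtain ⟨A, B, hAB⟩ := (IntermediateField.mem_adjoin_range_iff k η _).mp a.2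
    have ha' : (a : FractionRing (MvPolynomial (Fin (n + 1)) k)) ≠ 0 := by
      simpa using ha
    have hA : A ≠ 0 := by
      rintro rfl
      rw [map_zero, zero_div] at hAB
      exact ha' hAB
    have hB : B ≠ 0 := by
      rintro rfl
      rw [map_zero, div_zero] at hAB
      exact ha' hAB
    refine ⟨A, B, hA, hB, hAB, ?_⟩
    have h3 : a = ⟨_, hmemE A⟩ / ⟨_, hmemE B⟩ := Subtype.ext hAB
    rw [h3, map_div₀, hmap, hmap, baseHom_aeval hη hy A ⟨_, hmemE A⟩ rfl,
      baseHom_aeval hη hy B ⟨_, hmemE B⟩ rfl]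
  have hE : ∀ a : IntermediateField.adjoin k (Set.range η), a ≠ 0 →
      LH.lg (algebraMap (IntermediateField.adjoin k (Set.range η)) (HahnSeries ℝ k) a) =
        LK.lg (algebraMap _ (FractionRing (MvPolynomial (Fin (n + 1)) k)) a) := by
    intro a ha
    obtain ⟨A, B, hA, hB, h1, h2⟩ := hEdiv a ha
    rw [h1, h2]
    have hA1 := (mono_lg hη0 hinj hA).1
    have hB1 := (mono_lg hη0 hinj hB).1
    have hA2 := (mono_lg hy0 hinj' hA).1
    have hB2 := (mono_lg hy0 hinj' hB).1
    have e1 : LH.lg (MvPolynomial.aeval y A / MvPolynomial.aeval y B) +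
        LH.lg (MvPolynomial.aeval y B) = LH.lg (MvPolynomial.aeval y A) := by
      rw [← LH.lg_mul (div_ne_zero hA2 hB2) hB2, div_mul_cancel₀ _ hB2]
    have e2 : LK.lg (MvPolynomial.aeval η A / MvPolynomial.aeval η B) +
        LK.lg (MvPolynomial.aeval η B) = LK.lg (MvPolynomial.aeval η A) := by
      rw [← LK.lg_mul (div_ne_zero hA1 hB1) hB1, div_mul_cancel₀ _ hB1]
    have e3 := mono_lg_eq (L := LK) (L' := LH) hη0 hy0 hinj
      (fun i => by rw [hlgη, hlgy]) hA
    have e4 := mono_lg_eq (L := LK) (L' := LH) hη0 hy0 hinj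
      (fun i => by rw [hlgη, hlgy]) hB
    linarith
  -- values of the base
  set S : Submodule ℚ ℝ := Submodule.span ℚ (Set.range fun i => N (P i) / c) with hS
  have hSE : ∀ a : IntermediateField.adjoin k (Set.range η), a ≠ 0 →
      LK.lg (algebraMap _ (FractionRing (MvPolynomial (Fin (n + 1)) k)) a) ∈ S := by
    intro a ha
    obtain ⟨A, B, hA, hB, h1, -⟩ := hEdiv a ha
    rw [h1]
    obtain ⟨hA1, e, -, -, he⟩ := mono_lg hη0 hinj hA
    obtain ⟨hB1, e', -, -, he'⟩ := mono_lg hη0 hinj hB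
    have e2 : LK.lg (MvPolynomial.aeval η A / MvPolynomial.aeval η B) +
        LK.lg (MvPolynomial.aeval η B) = LK.lg (MvPolynomial.aeval η A) := by
      rw [← LK.lg_mul (div_ne_zero hA1 hB1) hB1, div_mul_cancel₀ _ hB1]
    have e3 : LK.lg (MvPolynomial.aeval η A / MvPolynomial.aeval η B) =
        ∑ i, (e i : ℝ) * LK.lg (η i) - ∑ i, (e' i : ℝ) * LK.lg (η i) := by linarith
    rw [e3]
    have hmem : ∀ e : Fin (n + 1) →₀ ℕ, ∑ i, (e i : ℝ) * LK.lg (η i) ∈ S := by
      intro e
      refine S.sum_mem fun i _ => ?_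
      have : (e i : ℝ) * LK.lg (η i) = (e i : ℚ) • (N (P i) / c) := by
        rw [hlgη, Rat.smul_def]
        push_cast
        ring
      rw [this]
      exact S.smul_mem _ (Submodule.subset_span ⟨i, rfl⟩)
    exact S.sub_mem (hmem e) (hmem e')
  -- the embedding
  set P' : Fin (n + 1) → MvPolynomial (Fin (n + 1)) k := fun i => φ (P i) with hP'
  have hP'0 : ∀ i, P' i ≠ 0 := fun i => hφ0 _ (hP0 i)
  -- the Jacobian of `P` does not vanish
  obtain ⟨τ₀⟩ : Nonempty (FractionRing (MvPolynomial (Fin (n + 1)) k)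
      →ₐ[IntermediateField.adjoin k (Set.range η)] HahnSeries ℝ k) :=
    ⟨IsAlgClosed.lift⟩
  -- the functionals
  have hindneg : LinearIndependent ℚ (fun i => -N (P i)) := by
    have := hind.map' (-LinearMap.id) (by
      rw [LinearMap.ker_eq_bot]
      intro x y h
      simpa using h)
    exact this
  choose l hl using fun i : Fin (n + 1) =>
    exists_functional hindneg (fun j => if i = j then (1 : ℚ) else 0)
  set χ : Fin (n + 1) → ℝ →+ k := fun i => (algebraMap ℚ k : ℚ →+ k).comp (l i).toAddMonoidHom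
    with hχ
  have hχy : ∀ i j, χ i (-N (P j)) = if i = j then 1 else 0 := by
    intro i j
    change algebraMap ℚ k (l i (-N (P j))) = _
    rw [hl]
    split_ifs <;> simp
  -- consequences of the chain rule for any embedding over the base
  have hmain : ∀ τ : FractionRing (MvPolynomial (Fin (n + 1)) k)
      →ₐ[IntermediateField.adjoin k (Set.range η)] HahnSeries ℝ k,
      ∃ τR : MvPolynomial (Fin (n + 1)) k →ₐ[k] HahnSeries ℝ k,
        (∀ Q, τR Q = τ (algebraMap _ _ Q)) ∧ (∀ i, τR (P i) = y i) := by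
    intro τ
    refine ⟨(τ.restrictScalars k).comp (IsScalarTower.toAlgHom k _ _), fun Q => rfl, fun i => ?_⟩
    change τ (η i) = y i
    have h1 : η i ∈ IntermediateField.adjoin k (Set.range η) :=
      IntermediateField.subset_adjoin k _ ⟨i, rfl⟩
    have h2 := τ.commutes ⟨η i, h1⟩
    rw [hmap, baseHom_gen hη hy i _ rfl] at h2
    exact h2
  -- the determinant for `P`
  have hdetP : (Matrix.of fun i j => hder (χ i) (y j)).det ≠ 0 ∧
      (Matrix.of fun i j => hder (χ i) (y j)).det.order = ∑ i, -N (P i) := by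
    have h1 := above_det χ (fun j => -N (P j)) y (fun j => by
      intro a ha
      rw [hydef, coeff_single_of_ne ha.ne])
    refine order_of_above h1.1 ?_
    rw [h1.2]
    have h2 : (Matrix.of fun i j => χ i (-N (P j))) = (1 : Matrix (Fin (n + 1)) (Fin (n + 1)) k) := by
      ext i j
      rw [Matrix.of_apply, hχy, Matrix.one_apply]
    rw [h2, Matrix.det_one, one_mul]
    refine Finset.prod_ne_zero_iff.2 fun j _ => ?_
    rw [hydef, coeff_single_same]
    exact one_ne_zero
  have hchain : ∀ (τR : MvPolynomial (Fin (n + 1)) k →ₐ[k] HahnSeries ℝ k)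
      (Q : Fin (n + 1) → MvPolynomial (Fin (n + 1)) k),
      (Matrix.of fun i j => hder (χ i) (τR (Q j))).det =
        τR (jac Q) * (Matrix.of fun i j => hder (χ i) (τR (MvPolynomial.X j))).det :=
    fun τR Q => det_chain (fun i => hder (χ i)) τR Q
  have hjacP : jac P ≠ 0 := by
    intro h0
    obtain ⟨τR, -, hτy⟩ := hmain τ₀
    have h1 := hchain τR P
    simp only [hτy] at h1
    rw [h0, map_zero, zero_mul] at h1
    exact hdetP.1 h1
  have hjacP' : jac P' = φ (jac P) * jac (fun i => φ (MvPolynomial.X i)) := jac_apply φ P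
  have hu := isUnit_jac φ
  have hjacP'0 : jac P' ≠ 0 := by
    rw [hjacP']
    exact mul_ne_zero (hφ0 _ hjacP) hu.ne_zero
  have hNjac : N (jac P') = θ * N (jac P) := by
    rw [hjacP', hN.mul _ _ (hφ0 _ hjacP) hu.ne_zero, hφ _ hjacP]
    obtain ⟨e, he, he'⟩ := MvPolynomial.isUnit_iff_eq_C_of_isReduced.1 hu
    rw [he', hN.const e he.ne_zero, add_zero]
  -- the embedding
  let fam : Fin (n + 1 + 2) → FractionRing (MvPolynomial (Fin (n + 1)) k) :=
    Fin.cons (algebraMap _ _ (jac P)) (Fin.cons (algebraMap _ _ (jac P'))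
      (fun i => algebraMap _ _ (P' i)))
  have hfam : ∀ i, fam i ≠ 0 := by
    intro i
    refine Fin.cases ?_ (fun i => ?_) i
    · exact hRF0 _ hjacP
    · refine Fin.cases ?_ (fun i => ?_) i
      · exact hRF0 _ hjacP'0
      · exact hRF0 _ (hP'0 i)
  obtain ⟨τ, hτ⟩ := exists_lift_lg_family LK LH hE fam hfam
  obtain ⟨τR, hτR, hτy⟩ := hmain τ
  have horder : ∀ Q : MvPolynomial (Fin (n + 1)) k, Q ≠ 0 →
      LH.lg (τ (algebraMap _ _ Q)) = LK.lg (algebraMap _ _ Q) → τR Q ≠ 0 ∧
      (τR Q).order = -N Q := by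
    intro Q hQ h
    rw [← hτR, hLH, hLK Q hQ, div_left_inj' hc.ne'] at h
    refine ⟨?_, by linarith⟩
    rw [hτR]
    exact (map_ne_zero τ).2 (hRF0 _ hQ)
  have hoJ := horder (jac P) hjacP (hτ 0)
  have hoJ' := horder (jac P') hjacP'0 (hτ 1)
  have hoP' : ∀ i, τR (P' i) ≠ 0 ∧ (τR (P' i)).order = -N (P' i) := fun i =>
    horder (P' i) (hP'0 i) (hτ i.succ.succ)
  set Θ := (Matrix.of fun i j => hder (χ i) (τR (MvPolynomial.X j))).det with hΘ
  have hc1 := hchain τR P
  simp only [hτy] at hc1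
  have hc2 := hchain τR P'
  rw [← hΘ] at hc1 hc2
  have hΘ0 : Θ ≠ 0 := by
    intro h
    rw [h, mul_zero] at hc1
    exact hdetP.1 hc1
  -- first computation of the order of `Θ`
  have ho1 : Θ.order = (∑ i, -N (P i)) + N (jac P) := by
    have h1 := hdetP.2
    rw [hc1, order_mul hoJ.1 hΘ0, hoJ.2] at h1
    linarith
  -- the slope `θ` is nonzero
  have hθ0 : θ ≠ 0 := by
    rintro rfl
    have h1 : φ.symm (P 0) ≠ 0 := (map_ne_zero_iff _ φ.symm.injective).2 (hP0 0)
    have h2 := hφ (φ.symm (P 0)) h1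
    rw [AlgEquiv.apply_symm_apply, zero_mul] at h2
    exact hN0 h2
  -- the values of `P'` lie in the span
  have hspan : ∀ i, -N (P' i) ∈ Submodule.span ℚ (Set.range fun i => -N (P i)) := by
    intro i
    have h1 := lg_mem_span LK S hSE (hRF0 _ (hP'0 i))
    rw [hLK _ (hP'0 i), hS] at h1
    obtain ⟨w, hw⟩ := (Submodule.mem_span_range_iff_exists_fun ℚ).1 h1
    rw [Submodule.mem_span_range_iff_exists_fun ℚ]
    refine ⟨w, ?_⟩
    have h2 : ∀ j, w j • -N (P j) = -(c * (w j • (N (P j) / c))) := by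
      intro j
      rw [Rat.smul_def, Rat.smul_def]
      field_simp
    simp only [h2, Finset.sum_neg_distrib, ← Finset.mul_sum]
    rw [hw, mul_div_cancel₀ _ hc.ne']
  -- the matrix of the values of `P'`
  have hdetℚ : (Matrix.of fun i j => l i (-N (P' j))).det ≠ 0 := by
    intro h0
    obtain ⟨v, hv0, hv⟩ := Matrix.exists_mulVec_eq_zero_iff.2 h0
    have h1 : ∑ j, v j • -N (P' j) = 0 := by
      refine coords_eq_zero hl (Submodule.sum_mem _ fun j _ => Submodule.smul_mem _ _ (hspan j)) ?_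
      intro i
      rw [map_sum]
      have h2 := congrFun hv i
      simp only [Matrix.mulVec, dotProduct, Matrix.of_apply, Pi.zero_apply] at h2
      rw [← h2]
      exact Finset.sum_congr rfl fun j _ => by rw [map_smul, smul_eq_mul, mul_comm]
    have h3 : ∑ j, v j • -N (P j) = 0 := by
      have h4 : ∀ j, v j • -N (P' j) = θ * (v j • -N (P j)) := by
        intro j
        rw [hP', hφ _ (hP0 j), Rat.smul_def, Rat.smul_def]
        ring
      simp only [h4, ← Finset.mul_sum] at h1
      exact (mul_eq_zero.1 h1).resolve_left hθ0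
    exact hv0 (funext (Fintype.linearIndependent_iff.1 hindneg v h3))
  have hdetk : (Matrix.of fun i j => χ i (-N (P' j))).det ≠ 0 := by
    have h1 : (Matrix.of fun i j => χ i (-N (P' j))) =
        (algebraMap ℚ k).mapMatrix (Matrix.of fun i j => l i (-N (P' j))) := by
      ext i j
      rfl
    rw [h1, ← RingHom.map_det]
    exact (map_ne_zero_iff _ (algebraMap ℚ k).injective).2 hdetℚ
  -- second computation
  have hdetP' : (Matrix.of fun i j => hder (χ i) (τR (P' j))).det ≠ 0 ∧
      (Matrix.of fun i j => hder (χ i) (τR (P' j))).det.order = ∑ i, -N (P' i) := by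
    have h1 := above_det χ (fun j => -N (P' j)) (fun j => τR (P' j)) (fun j => by
      rw [← (hoP' j).2]
      exact above_order _)
    refine order_of_above h1.1 ?_
    rw [h1.2]
    refine mul_ne_zero hdetk (Finset.prod_ne_zero_iff.2 fun j _ => ?_)
    rw [← (hoP' j).2]
    exact coeff_order_eq_zero.not.2 (hoP' j).1
  have ho2 : Θ.order = (∑ i, -N (P' i)) + N (jac P') := by
    have h1 := hdetP'.2
    rw [hc2, order_mul hoJ'.1 hΘ0, hoJ'.2] at h1
    linarith
  have ho3 : (∑ i, -N (P' i)) + N (jac P') = θ * ((∑ i, -N (P i)) + N (jac P)) := by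
    rw [hNjac, mul_add, Finset.mul_sum]
    congr 1
    refine Finset.sum_congr rfl fun i _ => ?_
    rw [hP', hφ _ (hP0 i)]
    ring
  have hA : Θ.order = 0 := by
    have h1 : Θ.order = θ * Θ.order := by
      conv_lhs => rw [ho2, ho3, ← ho1]
    have h2 : (1 - θ) * Θ.order = 0 := by linarith
    exact (mul_eq_zero.1 h2).resolve_left (sub_ne_zero.2 hθ.symm)
  -- the Piola identity
  have hpiola : Θ.coeff 0 = 0 := by
    have := piola_zero (k := k) (A := HahnSeries ℝ k) (fun i => hder (χ i))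
      (fun i j a => hder_comm _ _ a) (fun j => τR (MvPolynomial.X j))
      (HahnSeries.coeff.addMonoidHom 0) (fun i a => coeff_zero_hder _ _)
    exact this
  rw [← hA] at hpiola
  exact coeff_order_eq_zero.not.2 hΘ0 hpiola

end Rank

end Pool.Agent.H17Dyn
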