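import Pool.Agent.H17Dyn.ElimBound

/-!
# Polynomial automorphisms: degrees and action on points
-/

set_option autoImplicit false

namespace Pool.Agent.H17Dyn

open LgData

section Deg

variable {d : ℕ} {k : Type*} [Field k]

lemma totalDegree_aeval_le {σ τ : Type*} [Fintype σ] (f : σ → MvPolynomial τ k) (D : ℕ)
    (hf : ∀ i, (f i).totalDegree ≤ D) (P : MvPolynomial σ k) :
    (MvPolynomial.aeval f P).totalDegree ≤ P.totalDegree * D := by
  rw [MvPolynomial.aeval_def, MvPolynomial.eval₂_eq']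
  refine MvPolynomial.totalDegree_finsetSum_le fun e he => ?_
  refine (MvPolynomial.totalDegree_mul _ _).trans ?_
  have h1 : (algebraMap k (MvPolynomial τ k) (MvPolynomial.coeff e P)).totalDegree = 0 := by
    rw [MvPolynomial.algebraMap_eq, MvPolynomial.totalDegree_C]
  rw [h1, zero_add]
  refine (MvPolynomial.totalDegree_finsetProd _ _).trans ?_
  have h2 : ∑ i, (f i ^ e i).totalDegree ≤ ∑ i, e i * D :=
    Finset.sum_le_sum fun i _ => (MvPolynomial.totalDegree_pow _ _).trans
      (Nat.mul_le_mul_left _ (hf i))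
  refine h2.trans ?_
  rw [← Finset.sum_mul]
  exact Nat.mul_le_mul_right _ (sum_le_totalDegree he)

/-- the degree of an automorphism of the polynomial ring -/
noncomputable def adeg (φ : MvPolynomial (Fin d) k ≃ₐ[k] MvPolynomial (Fin d) k) : ℕ :=
  Finset.univ.sup (fun i : Fin d => (φ (MvPolynomial.X i)).totalDegree)

variable (φ : MvPolynomial (Fin d) k ≃ₐ[k] MvPolynomial (Fin d) k)

lemma totalDegree_X_le (i : Fin d) : (φ (MvPolynomial.X i)).totalDegree ≤ adeg φ :=
  Finset.le_sup (f := fun i : Fin d => (φ (MvPolynomial.X i)).totalDegree) (Finset.mem_univ i)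

lemma apply_eq_aeval (P : MvPolynomial (Fin d) k) :
    φ P = MvPolynomial.aeval (fun i => φ (MvPolynomial.X i)) P := by
  have h : (φ : MvPolynomial (Fin d) k →ₐ[k] MvPolynomial (Fin d) k) =
      MvPolynomial.aeval (fun i => φ (MvPolynomial.X i)) := by
    apply MvPolynomial.algHom_ext
    intro i
    simp
  exact congrArg (fun f : MvPolynomial (Fin d) k →ₐ[k] MvPolynomial (Fin d) k => f P) h

lemma totalDegree_apply_le (P : MvPolynomial (Fin d) k) :
    (φ P).totalDegree ≤ P.totalDegree * adeg φ := by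
  rw [apply_eq_aeval]
  exact totalDegree_aeval_le _ _ (totalDegree_X_le φ) P

lemma totalDegree_apply_ne_zero {P : MvPolynomial (Fin d) k} (hP : P.totalDegree ≠ 0) :
    (φ P).totalDegree ≠ 0 := by
  intro h
  apply hP
  have h1 := (MvPolynomial.totalDegree_eq_zero_iff_eq_C).1 h
  have h2 : P = MvPolynomial.C (MvPolynomial.coeff 0 (φ P)) := by
    apply φ.injective
    rw [← MvPolynomial.algebraMap_eq, AlgEquiv.commutes, MvPolynomial.algebraMap_eq]
    exact h1
  rw [h2, MvPolynomial.totalDegree_C]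

lemma one_le_totalDegree_X (i : Fin d) : 1 ≤ (φ (MvPolynomial.X i)).totalDegree :=
  Nat.one_le_iff_ne_zero.2 (totalDegree_apply_ne_zero φ (by
    rw [MvPolynomial.totalDegree_X]
    exact one_ne_zero))

end Deg

section Points

variable {d : ℕ} {k : Type*} [Field k] {B : Type*} [CommRing B] [Algebra k B]

/-- the action of an automorphism on points -/
noncomputable def pt (φ : MvPolynomial (Fin d) k ≃ₐ[k] MvPolynomial (Fin d) k)
    (x : Fin d → B) : Fin d → B :=
  fun i => MvPolynomial.aeval x (φ (MvPolynomial.X i))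

lemma aeval_pt (φ : MvPolynomial (Fin d) k ≃ₐ[k] MvPolynomial (Fin d) k) (x : Fin d → B)
    (P : MvPolynomial (Fin d) k) :
    MvPolynomial.aeval (pt φ x) P = MvPolynomial.aeval x (φ P) := by
  have h : MvPolynomial.aeval (R := k) (pt φ x) = (MvPolynomial.aeval (R := k) x).comp
      (φ : MvPolynomial (Fin d) k →ₐ[k] MvPolynomial (Fin d) k) := by
    apply MvPolynomial.algHom_ext
    intro i
    simp [pt]
  exact congrArg (fun f : MvPolynomial (Fin d) k →ₐ[k] B => f P) h

lemma pt_symm_pt (φ : MvPolynomial (Fin d) k ≃ₐ[k] MvPolynomial (Fin d) k) (x : Fin d → B) :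
    pt φ.symm (pt φ x) = x := by
  funext i
  rw [pt, aeval_pt, AlgEquiv.apply_symm_apply, MvPolynomial.aeval_X]

lemma pt_pt_symm (φ : MvPolynomial (Fin d) k ≃ₐ[k] MvPolynomial (Fin d) k) (x : Fin d → B) :
    pt φ (pt φ.symm x) = x := by
  funext i
  rw [pt, aeval_pt, AlgEquiv.symm_apply_apply, MvPolynomial.aeval_X]

end Points

section Sizes

variable {d : ℕ} {k K : Type*} [Field k] [Field K] [Algebra k K] {L : LgData k K} {m : ℝ}

lemma le_aeval (hm : 0 ≤ m) {x : Fin d → K} (hx : ∀ i, L.le (x i) m)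
    (P : MvPolynomial (Fin d) k) : L.le (MvPolynomial.aeval x P) (P.totalDegree * m) := by
  have h1 : MvPolynomial.aeval x P = (dirPoly x (0 : Fin d → k) P).eval 0 := by
    rw [eval_dirPoly]
    congr 2
    ext i
    simp
  rw [h1, ← Polynomial.coeff_zero_eq_eval_zero]
  refine ((bd_dirPoly hm hx 0 le_rfl).2 0 (Nat.zero_le _)).mono (le_of_eq ?_)
  simp

lemma aeval_large {δ : Fin d → K} (hδ : ∀ i, L.le (δ i) 0) {q : Fin d → k}
    {A : MvPolynomial (Fin d) k} (hA : MvPolynomial.eval q (topForm A) ≠ 0) :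
    MvPolynomial.aeval (fun i => δ i + algebraMap k K (q i) * L.s) A ≠ 0 ∧
      L.lg (MvPolynomial.aeval (fun i => δ i + algebraMap k K (q i) * L.s) A) =
        A.totalDegree := by
  have hb := bd_dirPoly (L := L) le_rfl hδ q (A := A) le_rfl
  have hc := coeff_dirPoly_top δ q A le_rfl
  have h := hb.eval_large (y := L.s) (by
    rw [hc]
    exact (map_ne_zero_iff _ (algebraMap k K).injective).2 hA) (by
    rw [hc]
    exact L.lg_const hA) L.s_ne (by rw [L.lg_s]; exact one_pos)
  rw [eval_dirPoly, L.lg_s, mul_one] at h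
  exact h

lemma le_diff (hm : 0 ≤ m) {x : Fin d → K} (hx : ∀ i, L.le (x i) m) (q : Fin d → k)
    {P : MvPolynomial (Fin d) k} {D : ℕ} (hD : P.totalDegree ≤ D) {α : K}
    (hα : L.le α (-(D * m))) :
    L.le (MvPolynomial.aeval (fun i => x i + algebraMap k K (q i) * α) P -
      MvPolynomial.aeval x P) 0 := by
  have hb := bd_dirPoly (L := L) hm hx q hD
  have h1 : MvPolynomial.aeval x P = (dirPoly x q P).coeff 0 := by
    rw [Polynomial.coeff_zero_eq_eval_zero, eval_dirPoly]
    congr 2
    ext i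
    simp
  rw [← eval_dirPoly, h1, Polynomial.eval_eq_sum_range' (Nat.lt_succ_of_le hb.1),
    Finset.sum_range_succ', pow_zero, mul_one, add_sub_cancel_right]
  refine le_sum fun j hj => ?_
  have hj' : j + 1 ≤ D := Finset.mem_range.1 hj
  refine ((hb.2 (j + 1) hj').mul (hα.pow (j + 1))).mono ?_
  push_cast
  have h2 : (0 : ℝ) ≤ j := Nat.cast_nonneg j
  have h3 : (0 : ℝ) ≤ (D : ℝ) * m := by positivity
  nlinarith [mul_nonneg h2 h3, mul_nonneg h2 hm]

end Sizes

end Pool.Agent.H17Dyn
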