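import Pool.Agent.H17Dyn.Dense

/-!
# Closed subfields
-/

set_option autoImplicit false
set_option linter.unusedSectionVars false

namespace Pool.Agent.H17Dyn

open LgData Polynomial

variable {k K : Type*} [Field k] [Field K] [Algebra k K] {L : LgData k K}

lemma subset_cl (S : Set K) : S ⊆ Cl L S := by
  intro y hy T
  refine ⟨y, hy, ?_⟩
  rw [sub_self]
  exact le_zero _

lemma cl_mono {S S' : Set K} (h : S ⊆ S') : Cl L S ⊆ Cl L S' := by
  intro y hy T
  obtain ⟨f, hf, h1⟩ := hy T
  exact ⟨f, h hf, h1⟩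

lemma cl_cl (S : Set K) : Cl L (Cl L S) ⊆ Cl L S := by
  intro y hy T
  obtain ⟨f, hf, h1⟩ := hy T
  obtain ⟨g, hg, h2⟩ := hf T
  refine ⟨g, hg, ?_⟩
  have : y - g = (y - f) + (f - g) := by ring
  rw [this]
  exact h1.add h2

lemma Full.mono {S S' : Set K} (h : S ⊆ S') (hS : Full L S) : Full L S' := by
  intro y hy
  obtain ⟨g, hg, h1⟩ := hS y hy
  exact ⟨g, h hg, h1⟩

variable (L) in
/-- the closure of a subring -/
def clRing (S : Subring K) : Subring K where
  carrier := Cl L S
  mul_mem' := by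
    intro x y hx hy T
    obtain ⟨f, hf, h1⟩ := hx (max 0 T + max 0 (L.fl 0 y))
    obtain ⟨g, hg, h2⟩ := hy (max 0 T + max 0 (L.fl 0 f))
    refine ⟨f * g, S.mul_mem hf hg, ?_⟩
    have h3 : x * y - f * g = (x - f) * y + f * (y - g) := by ring
    have h4 : 0 ≤ L.fl 0 y := le_fl _ _
    have h5 : 0 ≤ L.fl 0 f := le_fl _ _
    have h6 : T ≤ max 0 T := le_max_right _ _
    rw [h3]
    refine le.add ((h1.mul (le_of_fl 0 y)).mono ?_) (((le_of_fl 0 f).mul h2).mono ?_)
    · rw [max_eq_right h4]
      linarith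
    · rw [max_eq_right h5]
      linarith
  one_mem' := subset_cl _ S.one_mem
  add_mem' := by
    intro x y hx hy T
    obtain ⟨f, hf, h1⟩ := hx T
    obtain ⟨g, hg, h2⟩ := hy T
    refine ⟨f + g, S.add_mem hf hg, ?_⟩
    have : x + y - (f + g) = (x - f) + (y - g) := by ring
    rw [this]
    exact h1.add h2
  zero_mem' := subset_cl _ S.zero_mem
  neg_mem' := by
    intro x hx T
    obtain ⟨f, hf, h1⟩ := hx T
    refine ⟨-f, S.neg_mem hf, ?_⟩
    have : -x - -f = -(x - f) := by ring
    rw [this]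
    exact h1.neg

/-- the geometric series -/
lemma geom_mem {S : Subring K} {w : K} (hw : w ∈ clRing L S) {ε : ℝ} (hε : 0 < ε)
    (h : L.le w (-ε)) : (1 - w)⁻¹ ∈ clRing L S := by
  have h1 := lg_add_eq' (L := L) (x := 1) (y := -w) one_ne_zero h.neg
    (by rw [L.lg_one]; linarith)
  rw [L.lg_one, ← sub_eq_add_neg] at h1
  refine cl_cl _ fun T => ?_
  obtain ⟨n, hn⟩ := exists_nat_gt (T / ε)
  refine ⟨∑ j ∈ Finset.range n, w ^ j, Subring.sum_mem _ fun j _ => Subring.pow_mem _ hw _, ?_⟩
  have h2 : (1 - w)⁻¹ - ∑ j ∈ Finset.range n, w ^ j = w ^ n * (1 - w)⁻¹ := by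
    have h3 := geom_sum_mul_neg w n
    have h4 := h1.1
    field_simp
    rw [mul_comm, h3]
    ring
  rw [h2]
  have h5 : L.le (1 - w)⁻¹ 0 := by
    intro _
    rw [lg_inv h1.1, h1.2, neg_zero]
  refine ((h.pow n).mul h5).mono ?_
  rw [div_lt_iff₀ hε] at hn
  linarith

variable (L) in
/-- the closure of a subring whose elements are invertible in the closure -/
def clField (S : Subring K) (hinv : ∀ g ∈ S, g ≠ 0 → g⁻¹ ∈ clRing L S) : Subfield K :=
  { clRing L S with
    inv_mem' := by
      intro y hy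
      change y⁻¹ ∈ clRing L S
      rcases eq_or_ne y 0 with rfl | hy0
      · rw [inv_zero]
        exact Subring.zero_mem _
      obtain ⟨g, hg, h1⟩ := hy (-(L.lg y - 1))
      rw [neg_neg] at h1
      have h2 := lg_add_eq' (L := L) (x := y) (y := -(y - g)) hy0 h1.neg (by linarith)
      have h3 : y + -(y - g) = g := by ring
      rw [h3] at h2
      have hgi := hinv g hg h2.1
      have hyc : y ∈ clRing L S := hy
      have hw : 1 - y * g⁻¹ ∈ clRing L S :=
        Subring.sub_mem _ (Subring.one_mem _) (Subring.mul_mem _ hyc hgi)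
      have h4 : 1 - y * g⁻¹ = -(y - g) * g⁻¹ := by
        have := h2.1
        field_simp
        ring
      have h5 : L.le (1 - y * g⁻¹) (-1) := by
        rw [h4]
        have h6 : L.le g⁻¹ (-L.lg g) := fun _ => (lg_inv h2.1).le
        refine (h1.neg.mul h6).mono ?_
        rw [h2.2]
        linarith
      have h6 := geom_mem hw one_pos h5
      have h7 : y⁻¹ = g⁻¹ * (1 - (1 - y * g⁻¹))⁻¹ := by
        have := h2.1
        rw [sub_sub_cancel, mul_inv, inv_inv]
        field_simp
      rw [h7]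
      exact Subring.mul_mem _ hgi h6 }

variable (L) in
/-- closed subfields over which the valued field is immediate -/
structure Good (E : Subfield K) : Prop where
  closed : Cl L (E : Set K) ⊆ E
  full : Full L (E : Set K)

section

variable [CharZero k] [IsAlgClosed K] [CharZero K]

lemma Good.root {E : Subfield K} (hE : Good L E) {q : K[X]}
    (hq : q ∈ (Polynomial.mapRingHom E.subtype).range) (hq0 : q ≠ 0) {r : K}
    (hr : q.eval r = 0) : r ∈ E := by
  obtain ⟨Q, rfl⟩ := hq
  rw [Polynomial.coe_mapRingHom] at hr hq0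
  refine hE.closed (mem_cl_of_root hE.full Q.natDegree Q r ?_ le_rfl hr)
  rintro rfl
  exact hq0 (Polynomial.map_zero _)

omit [CharZero k] [IsAlgClosed K] [CharZero K] in
lemma Good.closer {E : Subfield K} (hE : Good L E) {z r : K} (hz : z ∉ E) (hr : r ∈ E) :
    ∃ c ∈ E, L.lg (z - c) < L.lg (z - r) := by
  have h1 : z - r ≠ 0 := by
    intro h
    rw [sub_eq_zero.1 h] at hz
    exact hz hr
  obtain ⟨g, hg, h2 | h2⟩ := hE.full (z - r) h1
  · exfalso
    apply hz
    have : z = r + g := by
      rw [sub_sub, sub_eq_zero] at h2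
      exact h2
    rw [this]
    exact E.add_mem hr hg
  · refine ⟨r + g, E.add_mem hr hg, ?_⟩
    rw [← sub_sub]
    exact h2

/-- the ring generated by an element -/
noncomputable def genRing (E : Subfield K) (z : K) : Subring K := (Polynomial.eval₂RingHom E.subtype z).range

omit [IsAlgClosed K] [CharZero K] in
lemma mem_genRing {E : Subfield K} {z y : K} :
    y ∈ genRing E z ↔ ∃ Q : E[X], (Q.map E.subtype).eval z = y := by
  constructor
  · rintro ⟨Q, rfl⟩
    exact ⟨Q, by rw [eval_map]; rfl⟩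
  · rintro ⟨Q, rfl⟩
    exact ⟨Q, by rw [eval_map]; rfl⟩

omit [IsAlgClosed K] [CharZero K] in
lemma subset_genRing (E : Subfield K) (z : K) : (E : Set K) ⊆ genRing E z := by
  intro y hy
  exact mem_genRing.2 ⟨C ⟨y, hy⟩, by simp⟩

omit [IsAlgClosed K] [CharZero K] in
lemma self_mem_genRing (E : Subfield K) (z : K) : z ∈ genRing E z :=
  mem_genRing.2 ⟨X, by simp⟩

omit [CharZero k] [IsAlgClosed K] [CharZero K] in
lemma Good.inv_sub {E : Subfield K} (hE : Good L E) {z r : K} (hz : z ∉ E) (hr : r ∈ E) :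
    (z - r)⁻¹ ∈ clRing L (genRing E z) := by
  obtain ⟨c, hc, h1⟩ := hE.closer hz hr
  have hzc : z - c ≠ 0 := by
    intro h
    rw [sub_eq_zero.1 h] at hz
    exact hz hc
  have hzr : z - r ≠ 0 := by
    intro h
    rw [sub_eq_zero.1 h] at hz
    exact hz hr
  have h2 := lg_add_eq' (L := L) (x := z - r) (y := -(z - c)) (r := L.lg (z - c)) hzr
    (by rw [← neg_sub]; intro _; rw [neg_sub, L.lg_neg]) h1
  have h3 : z - r + -(z - c) = c - r := by ring
  rw [h3] at h2
  have hcr : (c - r)⁻¹ ∈ genRing E z := subset_genRing E z (E.inv_mem (E.sub_mem hc hr))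
  have hw : (c - z) * (c - r)⁻¹ ∈ genRing E z :=
    Subring.mul_mem _ (Subring.sub_mem _ (subset_genRing E z hc) (self_mem_genRing E z)) hcr
  have h4 : L.le ((c - z) * (c - r)⁻¹) (-(L.lg (z - r) - L.lg (z - c))) := by
    intro h5
    rw [L.lg_mul (left_ne_zero_of_mul h5) (right_ne_zero_of_mul h5), lg_inv h2.1, h2.2,
      L.lg_sub_comm]
    linarith
  have h5 := geom_mem (L := L) (S := genRing E z) (subset_cl _ hw) (by linarith) h4
  have h6 : (z - r)⁻¹ = (c - r)⁻¹ * (1 - (c - z) * (c - r)⁻¹)⁻¹ := by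
    have h7 := h2.1
    have h8 : 1 - (c - z) * (c - r)⁻¹ = (z - r) * (c - r)⁻¹ := by
      field_simp
      ring
    rw [h8, mul_inv, inv_inv]
    field_simp
  rw [h6]
  exact Subring.mul_mem _ (subset_cl _ hcr) h5

lemma Good.hinv {E : Subfield K} (hE : Good L E) (z : K) :
    ∀ g ∈ genRing E z, g ≠ 0 → g⁻¹ ∈ clRing L (genRing E z) := by
  intro g hg hg0
  obtain ⟨Q, rfl⟩ := mem_genRing.1 hg
  by_cases hz : z ∈ E
  · refine subset_cl _ (subset_genRing E z (E.inv_mem ?_))
    have h1 := Polynomial.eval₂_at_apply (p := Q) E.subtype ⟨z, hz⟩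
    rw [eval_map]
    have h2 : E.subtype ⟨z, hz⟩ = z := rfl
    rw [h2] at h1
    rw [h1]
    exact (Q.eval ⟨z, hz⟩).2
  · set q := Q.map E.subtype with hq
    have hq0 : q ≠ 0 := by
      intro h
      rw [h, eval_zero] at hg0
      exact hg0 rfl
    have h1 : q = C q.leadingCoeff * (q.roots.map fun z => X - C z).prod :=
      (IsAlgClosed.splits q).eq_prod_roots
    have h2 : q.eval z = q.leadingCoeff * (q.roots.map fun r => z - r).prod := by
      conv_lhs => rw [h1]
      rw [eval_mul, eval_C, eval_multiset_prod, Multiset.map_map]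
      simp
    rw [h2, mul_inv]
    refine Subring.mul_mem _ ?_ ?_
    · refine subset_cl _ (subset_genRing E z (E.inv_mem ?_))
      rw [hq, leadingCoeff_map]
      exact Q.leadingCoeff.2
    · have h3 : ∀ r ∈ q.roots, r ∈ E := by
        intro r hr
        exact hE.root ⟨Q, rfl⟩ hq0 (isRoot_of_mem_roots hr)
      have h4 : ∀ m : Multiset K, (∀ r ∈ m, r ∈ E) →
          ((m.map fun r => z - r).prod)⁻¹ ∈ clRing L (genRing E z) := by
        intro m
        induction m using Multiset.induction_on with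
        | empty =>
          intro _
          simp
        | cons r m ih =>
          intro hm
          rw [Multiset.map_cons, Multiset.prod_cons, mul_inv]
          exact Subring.mul_mem _ (hE.inv_sub hz (hm r (Multiset.mem_cons_self r m)))
            (ih fun s hs => hm s (Multiset.mem_cons_of_mem hs))
      exact h4 _ h3

/-- the closed subfield generated by an element -/
noncomputable def Good.adj {E : Subfield K} (hE : Good L E) (z : K) : Subfield K :=
  clField L (genRing E z) (hE.hinv z)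

lemma Good.mem_adj {E : Subfield K} (hE : Good L E) {z y : K} :
    y ∈ hE.adj z ↔ y ∈ Cl L (genRing E z : Set K) := Iff.rfl

lemma Good.le_adj {E : Subfield K} (hE : Good L E) (z : K) : (E : Set K) ⊆ hE.adj z :=
  (subset_genRing E z).trans (subset_cl _)

lemma Good.good_adj {E : Subfield K} (hE : Good L E) (z : K) : Good L (hE.adj z) :=
  ⟨cl_cl _, hE.full.mono (hE.le_adj z)⟩

end

end Pool.Agent.H17Dyn
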