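import Pool.Agent.H17Dyn.PolyDir

/-!
# Elimination: size and number of the common zeros of two plane curves
-/

set_option autoImplicit false

namespace Pool.Agent.H17Dyn

open LgData Polynomial

section Hom

variable {k : Type*} [Field k]

lemma eval_homog_two {F : MvPolynomial (Fin 2) k} {N : ℕ} (hF : F.IsHomogeneous N) {x y : k}
    (hx : x ≠ 0) : MvPolynomial.eval ![x, y] F = x ^ N * MvPolynomial.eval ![1, y / x] F := by
  rw [MvPolynomial.eval_eq', MvPolynomial.eval_eq', Finset.mul_sum]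
  refine Finset.sum_congr rfl fun d hd => ?_
  have hdeg : d 0 + d 1 = N := by
    have h1 : d.degree = N := by
      rw [Finsupp.degree_eq_weight_one]
      exact hF (MvPolynomial.mem_support_iff.1 hd)
    rw [← h1, Finsupp.degree_eq_sum, Fin.sum_univ_two]
  simp only [Fin.prod_univ_two, Matrix.cons_val_zero, Matrix.cons_val_one, one_pow, one_mul]
  rw [← hdeg, pow_add, div_pow]
  field_simp

lemma dehomog_ne_zero [Infinite k] {F : MvPolynomial (Fin 2) k} {N : ℕ} (hF : F.IsHomogeneous N)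
    (h0 : F ≠ 0) : MvPolynomial.aeval ![(1 : k[X]), X] F ≠ 0 := by
  intro hp
  have hev : ∀ ξ : k, MvPolynomial.eval ![1, ξ] F = 0 := by
    intro ξ
    have h1 : (Polynomial.evalRingHom ξ).comp
        (MvPolynomial.aeval (R := k) ![(1 : k[X]), X]).toRingHom = MvPolynomial.eval ![1, ξ] := by
      apply MvPolynomial.ringHom_ext
      · intro c
        simp
      · intro i
        fin_cases i <;> simp
    have h2 := congrArg (fun f : MvPolynomial (Fin 2) k →+* k => f F) h1
    simp only [RingHom.comp_apply, AlgHom.toRingHom_eq_coe, RingHom.coe_coe, hp, map_zero] at h2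
    exact h2.symm
  obtain ⟨q, hq⟩ := exists_eval_ne_zero (P := MvPolynomial.X 0 * F)
    (mul_ne_zero (MvPolynomial.X_ne_zero _) h0)
  rw [map_mul, MvPolynomial.eval_X] at hq
  have hq0 : q 0 ≠ 0 := left_ne_zero_of_mul hq
  have hqF : MvPolynomial.eval q F ≠ 0 := right_ne_zero_of_mul hq
  have hqe : q = ![q 0, q 1] := by
    ext i
    fin_cases i <;> rfl
  rw [hqe, eval_homog_two hF hq0, hev, mul_zero] at hqF
  exact hqF rfl

end Hom

section EPoly

variable {k : Type*} [Field k] {B : Type*} [CommRing B] [Algebra k B]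

/-- the elimination polynomial `κ - g(t, w + ξ t)` -/
noncomputable def ePoly (g : MvPolynomial (Fin 2) k) (ξ : k) (κ w : B) : B[X] :=
  C κ - dirPoly ![0, w] ![1, ξ] g

lemma map_ePoly {B' : Type*} [CommRing B'] [Algebra k B'] (f : B →ₐ[k] B')
    (g : MvPolynomial (Fin 2) k) (ξ : k) (κ w : B) :
    (ePoly g ξ κ w).map (f : B →+* B') = ePoly g ξ (f κ) (f w) := by
  rw [ePoly, Polynomial.map_sub, Polynomial.map_C, map_dirPoly, ePoly]
  congr 2
  ext i
  fin_cases i <;> simp

lemma eval_ePoly (g : MvPolynomial (Fin 2) k) (ξ : k) (κ w t : B) :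
    (ePoly g ξ κ w).eval t = κ - MvPolynomial.aeval ![t, w + algebraMap k B ξ * t] g := by
  rw [ePoly, Polynomial.eval_sub, Polynomial.eval_C, eval_dirPoly]
  congr 3
  ext i
  fin_cases i <;> simp

lemma natDegree_ePoly_le (g : MvPolynomial (Fin 2) k) (ξ : k) (κ w : B) :
    (ePoly g ξ κ w).natDegree ≤ g.totalDegree := by
  refine (Polynomial.natDegree_sub_le _ _).trans (max_le (by simp) ?_)
  exact natDegree_dirPoly_le _ _ _

lemma coeff_ePoly_top (g : MvPolynomial (Fin 2) k) (ξ : k) (κ w : B) (hg : g.totalDegree ≠ 0) :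
    (ePoly g ξ κ w).coeff g.totalDegree =
      -algebraMap k B (MvPolynomial.eval ![1, ξ] (topForm g)) := by
  rw [ePoly, Polynomial.coeff_sub, Polynomial.coeff_C, if_neg hg, zero_sub,
    coeff_dirPoly_top _ _ _ le_rfl]
  rfl

lemma natDegree_ePoly [Nontrivial B] (g : MvPolynomial (Fin 2) k) (ξ : k) (κ w : B)
    (hξ' : g.totalDegree ≠ 0 → MvPolynomial.eval ![1, ξ] (topForm g) ≠ 0) :
    (ePoly g ξ κ w).natDegree = g.totalDegree := by
  rcases eq_or_ne g.totalDegree 0 with h0 | h0
  · have := natDegree_ePoly_le g ξ κ w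
    rw [h0] at this ⊢
    exact Nat.le_zero.1 this
  · have hξ := hξ' h0
    refine Polynomial.natDegree_eq_of_le_of_coeff_ne_zero (natDegree_ePoly_le g ξ κ w) ?_
    rw [coeff_ePoly_top _ _ _ _ h0, neg_ne_zero]
    exact (map_ne_zero_iff _ (algebraMap k B).injective).2 hξ

end EPoly

section Multiset

variable {k K : Type*} [Field k] [Field K] [Algebra k K] {L : LgData k K}

lemma lg_multiset_prod (t : Multiset K) (ht : ∀ x ∈ t, x ≠ 0) :
    L.lg t.prod = (t.map L.lg).sum := by
  induction t using Multiset.induction_on with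
  | empty => simpa using L.lg_one
  | cons a t ih =>
    rw [Multiset.prod_cons, Multiset.map_cons, Multiset.sum_cons,
      L.lg_mul (ht a (Multiset.mem_cons_self a t)) ?_,
      ih fun x hx => ht x (Multiset.mem_cons_of_mem hx)]
    exact Multiset.prod_ne_zero fun h => ht 0 (Multiset.mem_cons_of_mem h) rfl

lemma le_multiset_prod (t : Multiset K) {r : ℝ} (ht : ∀ x ∈ t, L.le x r) :
    L.le t.prod (t.card * r) := by
  induction t using Multiset.induction_on with
  | empty => simpa using le_one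
  | cons a t ih =>
    rw [Multiset.prod_cons, Multiset.card_cons]
    refine ((ht a (Multiset.mem_cons_self a t)).mul
      (ih fun x hx => ht x (Multiset.mem_cons_of_mem hx))).mono (le_of_eq ?_)
    push_cast
    ring

/-- the size of the value of a split polynomial -/
lemma lg_eval_split {f : K[X]} (hf : f.Splits) (hf0 : f ≠ 0) {u : K}
    (hu : ∀ r ∈ f.roots, u - r ≠ 0) :
    f.eval u ≠ 0 ∧ L.lg (f.eval u) = L.lg f.leadingCoeff +
      (f.roots.map fun r => L.lg (u - r)).sum := by
  rw [hf.eval_eq_prod_roots]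
  have h1 : ∀ x ∈ f.roots.map (fun r => u - r), x ≠ 0 := by
    intro x hx
    obtain ⟨r, hr, rfl⟩ := Multiset.mem_map.1 hx
    exact hu r hr
  have h2 : (f.roots.map (fun r => u - r)).prod ≠ 0 :=
    Multiset.prod_ne_zero fun h => h1 0 h rfl
  have h3 : f.leadingCoeff ≠ 0 := leadingCoeff_ne_zero.2 hf0
  refine ⟨mul_ne_zero h3 h2, ?_⟩
  rw [L.lg_mul h3 h2, lg_multiset_prod _ h1, Multiset.map_map]
  rfl

lemma le_det {n : Type*} [Fintype n] [DecidableEq n] (M : Matrix n n K) {r : ℝ}
    (h : ∀ i j, L.le (M i j) r) : L.le M.det (Fintype.card n * r) := by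
  rw [Matrix.det_apply']
  refine le_sum fun σ _ => ?_
  have h1 : L.le (∏ i, M (σ i) i) (∑ _i : n, r) := le_prod fun i _ => h _ _
  have h2 : L.le (((Equiv.Perm.sign σ : ℤˣ) : ℤ) : K) 0 := by
    rcases Int.units_eq_one_or (Equiv.Perm.sign σ) with h | h
    · rw [h]
      simpa using le_one
    · rw [h]
      simpa using (le_one (L := L)).neg
  refine (h2.mul h1).mono (le_of_eq ?_)
  simp

end Multiset

section Main

variable {k K : Type*} [Field k] [Field K] [Algebra k K] (L : LgData k K)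

/-- the evaluation `k[S][w] → K` -/
noncomputable def psi (u : K) : Polynomial (Polynomial k) →ₐ[k] K :=
  { Polynomial.eval₂RingHom ((aeval L.s : k[X] →ₐ[k] K) : k[X] →+* K) u with
    commutes' := by
      intro c
      change Polynomial.eval₂ _ u (algebraMap k (Polynomial (Polynomial k)) c) = _
      rw [Polynomial.algebraMap_apply, Polynomial.eval₂_C, Polynomial.algebraMap_apply]
      simp }

lemma psi_apply (u : K) (R : Polynomial (Polynomial k)) :
    psi L u R = (R.map ((aeval L.s : k[X] →ₐ[k] K) : k[X] →+* K)).eval u :=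
  (Polynomial.eval_map _ _).symm

lemma psi_C (u : K) (p : k[X]) : psi L u (C p) = aeval L.s p := by
  rw [psi_apply]
  simp

lemma psi_X (u : K) : psi L u X = u := by
  rw [psi_apply]
  simp

/-- the resultant with respect to `t` -/
noncomputable def elimR (g1 g2 : MvPolynomial (Fin 2) k) (p1 p2 : k[X]) (ξ : k) :
    Polynomial (Polynomial k) :=
  resultant (ePoly g1 ξ (C p1) X) (ePoly g2 ξ (C p2) X) g1.totalDegree g2.totalDegree

/-- the resultant as a polynomial over `K` -/
noncomputable def elimK (g1 g2 : MvPolynomial (Fin 2) k) (p1 p2 : k[X]) (ξ : k) : K[X] :=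
  (elimR g1 g2 p1 p2 ξ).map ((aeval L.s : k[X] →ₐ[k] K) : k[X] →+* K)

variable (g1 g2 : MvPolynomial (Fin 2) k) (p1 p2 : k[X]) (ξ : k)

lemma eval_elimK (u : K) : (elimK L g1 g2 p1 p2 ξ).eval u =
    resultant (ePoly g1 ξ (aeval L.s p1) u) (ePoly g2 ξ (aeval L.s p2) u)
      g1.totalDegree g2.totalDegree := by
  rw [elimK, ← psi_apply, elimR]
  have h := resultant_map_map (ePoly g1 ξ (C p1) X) (ePoly g2 ξ (C p2) X)
    g1.totalDegree g2.totalDegree ((psi L u : Polynomial (Polynomial k) →ₐ[k] K) :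
      Polynomial (Polynomial k) →+* K)
  rw [map_ePoly, map_ePoly, psi_C, psi_C, psi_X] at h
  exact h.symm

lemma aeval_s_injective :
    Function.Injective ((aeval L.s : k[X] →ₐ[k] K) : k[X] →+* K) := by
  rw [injective_iff_map_eq_zero]
  intro p hp
  by_contra h
  exact (lg_aeval_s (L := L) h).1 hp

lemma lg_lc_elimK (h0 : elimK L g1 g2 p1 p2 ξ ≠ 0) :
    0 ≤ L.lg (elimK L g1 g2 p1 p2 ξ).leadingCoeff := by
  have h1 : elimR g1 g2 p1 p2 ξ ≠ 0 := by
    rintro h
    rw [elimK, h, Polynomial.map_zero] at h0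
    exact h0 rfl
  rw [elimK, leadingCoeff_map_of_injective (aeval_s_injective L)]
  have := (lg_aeval_s (L := L) (leadingCoeff_ne_zero.2 h1)).2
  change 0 ≤ L.lg (aeval L.s (elimR g1 g2 p1 p2 ξ).leadingCoeff)
  rw [this]
  positivity

variable {L g1 g2 p1 p2 ξ}

/-- the point on the line -/
lemma aeval_line (g : MvPolynomial (Fin 2) k) (κ u t : K) (ξ : k) :
    (ePoly g ξ κ u).eval t = 0 ↔
      MvPolynomial.aeval ![t, u + algebraMap k K ξ * t] g = κ := by
  rw [eval_ePoly, sub_eq_zero, eq_comm]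

section Z

variable [IsAlgClosed K] {Z : Finset (Fin 2 → K)}
  (hZ : ∀ z, z ∈ Z ↔ MvPolynomial.aeval z g1 = aeval L.s p1 ∧
    MvPolynomial.aeval z g2 = aeval L.s p2)
  (hξ1 : g1.totalDegree ≠ 0 → MvPolynomial.eval ![1, ξ] (topForm g1) ≠ 0)
  (hξ2 : g2.totalDegree ≠ 0 → MvPolynomial.eval ![1, ξ] (topForm g2) ≠ 0)
include hZ

lemma exists_root_not_both (u : K) :
    ePoly g1 ξ (aeval L.s p1) u ≠ 0 ∨ ePoly g2 ξ (aeval L.s p2) u ≠ 0 := by
  classical
  by_contra hcon
  push Not at hcon
  obtain ⟨h1, h2⟩ := hcon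
  have hinf : Infinite K := IsAlgClosed.instInfinite
  have hmem : ∀ t : K, ![t, u + algebraMap k K ξ * t] ∈ Z := by
    intro t
    rw [hZ]
    constructor
    · rw [← aeval_line, h1, eval_zero]
    · rw [← aeval_line, h2, eval_zero]
  have hinj : Function.Injective fun t : K => (⟨_, hmem t⟩ : Z) := by
    intro t t' h
    have := congrFun (congrArg Subtype.val h) 0
    simpa using this
  exact not_finite_iff_infinite.2 hinf (Finite.of_injective _ hinj)

include hξ1 hξ2

lemma eval_elimK_eq_zero_iff (u : K) : (elimK L g1 g2 p1 p2 ξ).eval u = 0 ↔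
    ∃ z ∈ Z, z 1 - algebraMap k K ξ * z 0 = u := by
  have h1 := natDegree_ePoly g1 ξ (aeval L.s p1) u hξ1
  have h2 := natDegree_ePoly g2 ξ (aeval L.s p2) u hξ2
  have h3 : (elimK L g1 g2 p1 p2 ξ).eval u =
      resultant (ePoly g1 ξ (aeval L.s p1) u) (ePoly g2 ξ (aeval L.s p2) u) := by
    rw [eval_elimK, h1, h2]
  rw [h3, resultant_eq_zero_iff, and_iff_right (exists_root_not_both hZ u),
    Polynomial.isCoprime_iff_aeval_ne_zero_of_isAlgClosed K K]
  push Not
  constructor
  · rintro ⟨t, ht1, ht2⟩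
    rw [Polynomial.coe_aeval_eq_eval] at ht1 ht2
    refine ⟨![t, u + algebraMap k K ξ * t], ?_, by simp⟩
    rw [hZ]
    exact ⟨(aeval_line _ _ _ _ _).1 ht1, (aeval_line _ _ _ _ _).1 ht2⟩
  · rintro ⟨z, hz, hu⟩
    refine ⟨z 0, ?_⟩
    have hz' : z = ![z 0, u + algebraMap k K ξ * z 0] := by
      ext i
      fin_cases i
      · rfl
      · simp [← hu]
    rw [hZ] at hz
    rw [Polynomial.coe_aeval_eq_eval, aeval_line, aeval_line, ← hz']
    exact hz

lemma elimK_ne_zero : elimK L g1 g2 p1 p2 ξ ≠ 0 := by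
  classical
  intro h0
  have hinf : Infinite K := IsAlgClosed.instInfinite
  have hsurj : ∀ u : K, ∃ z : Z, z.1 1 - algebraMap k K ξ * z.1 0 = u := by
    intro u
    obtain ⟨z, hz, hu⟩ := (eval_elimK_eq_zero_iff hZ hξ1 hξ2 u).1 (by rw [h0, eval_zero])
    exact ⟨⟨z, hz⟩, hu⟩
  exact not_finite_iff_infinite.2 hinf (Finite.of_surjective _ hsurj)

end Z

end Main

end Pool.Agent.H17Dyn
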