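import Pool.Agent.H17Dyn.Closure
import Pool.Agent.H17Dyn.Elim

/-!
# Coefficient fields and monomial sections
-/

set_option autoImplicit false
set_option linter.unusedSectionVars false

namespace Pool.Agent.H17Dyn

open LgData Polynomial

variable {k K : Type*} [Field k] [Field K] [Algebra k K] {L : LgData k K}

/-- a subfield on which the absolute value is trivial -/
def Triv (L : LgData k K) (M : Subfield K) : Prop :=
  (∀ c : k, algebraMap k K c ∈ M) ∧ ∀ c ∈ M, c ≠ 0 → L.lg c = 0

lemma triv_algebraic {M : Subfield K} (hM : Triv L M) {s : K} (hs : IsAlgebraic M s)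
    (hs0 : s ≠ 0) : L.lg s = 0 := by
  have key : ∀ s : K, IsAlgebraic M s → s ≠ 0 → L.lg s ≤ 0 := by
    intro s hs hs0
    obtain ⟨q, hq0, hq⟩ := hs
    by_contra hcon
    push Not at hcon
    set f : K[X] := q.map (algebraMap M K) with hf
    have hfd : f.natDegree = q.natDegree := natDegree_map _
    have hcoef : ∀ n, L.le (f.coeff n) 0 := by
      intro n h
      rw [hf, coeff_map] at h ⊢
      exact (hM.2 _ (q.coeff n).2 h).le
    have hbd : Bd L 0 q.natDegree f := ⟨hfd.le, fun j _ => by
      rw [mul_zero]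
      exact hcoef j⟩
    have hl0 : f.coeff q.natDegree ≠ 0 := by
      rw [hf, coeff_map]
      exact (map_ne_zero_iff _ (algebraMap M K).injective).2 (leadingCoeff_ne_zero.2 hq0)
    have hl1 : L.lg (f.coeff q.natDegree) = 0 := by
      rw [hf, coeff_map] at hl0 ⊢
      exact hM.2 _ (q.coeff _).2 hl0
    have h1 := hbd.eval_large hl0 hl1 hs0 hcon
    apply h1.1
    rw [hf, eval_map_algebraMap]
    exact hq
  have h1 := key s hs hs0
  have h2 := key s⁻¹ hs.inv (inv_ne_zero hs0)
  rw [lg_inv hs0] at h2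
  linarith

/-- **Existence of a coefficient field.** -/
theorem exists_coeff_field [IsAlgClosed K] (L : LgData k K) :
    ∃ M : Subfield K, Triv L M ∧
      ∀ y, y ≠ 0 → L.lg y = 0 → ∃ c ∈ M, y - c = 0 ∨ L.lg (y - c) < 0 := by
  have hF0 : Triv L (algebraMap k K).fieldRange := by
    refine ⟨fun c => ⟨c, rfl⟩, ?_⟩
    rintro _ ⟨c, rfl⟩ hc
    exact L.lg_const fun h => hc (by rw [h, map_zero])
  obtain ⟨M, -, hM⟩ := zorn_le_nonempty₀ {M : Subfield K | Triv L M} (by
    intro c hc hchain F hF
    refine ⟨sSup c, ?_, fun F' hF' => le_sSup hF'⟩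
    have hdir : DirectedOn (· ≤ ·) c := hchain.directedOn
    refine ⟨fun x => ?_, fun x hx hx0 => ?_⟩
    · exact (Subfield.mem_sSup_of_directedOn ⟨F, hF⟩ hdir).2 ⟨F, hF, (hc hF).1 x⟩
    · obtain ⟨F', hF', hx'⟩ := (Subfield.mem_sSup_of_directedOn ⟨F, hF⟩ hdir).1 hx
      exact (hc hF').2 x hx' hx0) _ hF0
  have hMT : Triv L M := hM.prop
  refine ⟨M, hMT, fun y hy0 hy => ?_⟩
  -- the field is algebraically closed in `K`
  have halg : ∀ r : K, IsAlgebraic M r → r ∈ M := by
    intro r hr
    have h1 : Triv L (algebraicClosure M K).toSubfield := by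
      refine ⟨fun c => ?_, fun c hc hc0 => ?_⟩
      · have h2 : algebraMap k K c = algebraMap M K ⟨_, hMT.1 c⟩ := rfl
        rw [h2]
        exact (algebraicClosure M K).algebraMap_mem _
      · exact triv_algebraic hMT (mem_algebraicClosure_iff.1 hc) hc0
    have h2 : M ≤ (algebraicClosure M K).toSubfield := by
      intro c hc
      have h3 : c = algebraMap M K ⟨c, hc⟩ := rfl
      rw [h3]
      exact (algebraicClosure M K).algebraMap_mem _
    exact hM.le_of_ge h1 h2 (mem_algebraicClosure_iff.2 hr)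
  by_contra hcon
  push Not at hcon
  have hyc : ∀ c ∈ M, y - c ≠ 0 ∧ L.lg (y - c) = 0 := by
    intro c hc
    obtain ⟨h1, h2⟩ := hcon c hc
    refine ⟨h1, le_antisymm ?_ h2⟩
    have h3 : L.le (y - c) 0 := le.sub (fun _ => hy.le) (fun h => (hMT.2 c hc h).le)
    exact h3 h1
  have hpoly : ∀ p : M[X], p ≠ 0 → aeval y p ≠ 0 ∧ L.lg (aeval y p) = 0 := by
    intro p hp
    set f : K[X] := p.map (algebraMap M K) with hf
    have hf0 : f ≠ 0 := (Polynomial.map_ne_zero_iff (algebraMap M K).injective).2 hp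
    have hroots : ∀ r ∈ f.roots, r ∈ M := by
      intro r hr
      refine halg r ⟨p, hp, ?_⟩
      have h1 : f.eval r = 0 := isRoot_of_mem_roots hr
      rw [← eval_map_algebraMap]
      exact h1
    have h1 := lg_eval_split (L := L) (IsAlgClosed.splits f) hf0 (u := y) fun r hr =>
      (hyc r (hroots r hr)).1
    have h2 : f.eval y = aeval y p := by rw [hf, eval_map_algebraMap]
    rw [h2] at h1
    refine ⟨h1.1, ?_⟩
    rw [h1.2, Multiset.map_congr rfl fun r hr => (hyc r (hroots r hr)).2]
    have h3 : L.lg f.leadingCoeff = 0 := by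
      have h4 : f.leadingCoeff ≠ 0 := leadingCoeff_ne_zero.2 hf0
      rw [hf, leadingCoeff_map] at h4 ⊢
      exact hMT.2 _ p.leadingCoeff.2 h4
    rw [h3]
    simp
  have hT : Triv L (IntermediateField.adjoin M {y}).toSubfield := by
    refine ⟨fun c => ?_, fun c hc hc0 => ?_⟩
    · have h2 : algebraMap k K c = algebraMap M K ⟨_, hMT.1 c⟩ := rfl
      rw [h2]
      exact (IntermediateField.adjoin M {y}).algebraMap_mem _
    · obtain ⟨r, s, h1⟩ := (IntermediateField.mem_adjoin_simple_iff M c).1 hc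
      have hr0 : r ≠ 0 := by
        rintro rfl
        rw [map_zero, zero_div] at h1
        exact hc0 h1
      have hs0 : s ≠ 0 := by
        rintro rfl
        rw [map_zero, div_zero] at h1
        exact hc0 h1
      rw [h1, lg_div (hpoly r hr0).1 (hpoly s hs0).1, (hpoly r hr0).2, (hpoly s hs0).2, sub_zero]
  have h2 : M ≤ (IntermediateField.adjoin M {y}).toSubfield := by
    intro c hc
    have h3 : c = algebraMap M K ⟨c, hc⟩ := rfl
    rw [h3]
    exact (IntermediateField.adjoin M {y}).algebraMap_mem _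
  have h3 : y ∈ M := hM.le_of_ge hT h2 (IntermediateField.mem_adjoin_simple_self M y)
  have h4 := (hcon y h3).1
  rw [sub_self] at h4
  exact h4 rfl

variable (L) in
/-- the value group as an additive homomorphism -/
noncomputable def lgHom : Additive Kˣ →+ ℝ where
  toFun a := L.lg (a.toMul : K)
  map_zero' := by
    change L.lg ((1 : Kˣ) : K) = 0
    rw [Units.val_one, L.lg_one]
  map_add' a b := by
    change L.lg ((a.toMul * b.toMul : Kˣ) : K) = _
    rw [Units.val_mul, L.lg_mul (Units.ne_zero _) (Units.ne_zero _)]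

/-- **Existence of a monomial section.** -/
theorem exists_section [IsAlgClosed K] (L : LgData k K) :
    ∃ T : (lgHom L).range → K, (∀ γ, T γ ≠ 0) ∧ (∀ γ, L.lg (T γ) = γ) ∧
      (∀ γ δ, T (γ + δ) = T γ * T δ) ∧ T 0 = 1 := by
  set U := (lgHom L).ker with hU
  have hdiv : ∀ {n : ℤ}, n ≠ 0 → ∀ u : U, ∃ w : U, n • w = u := by
    have hnat : ∀ {n : ℕ}, n ≠ 0 → ∀ u : U, ∃ w : U, n • w = u := by
      rintro n hn ⟨u, hu⟩
      obtain ⟨z, hz⟩ := IsAlgClosed.exists_pow_nat_eq (u.toMul : K) (Nat.pos_of_ne_zero hn)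
      have hz0 : z ≠ 0 := by
        rintro rfl
        rw [zero_pow hn] at hz
        exact Units.ne_zero _ hz.symm
      have hlu : L.lg (u.toMul : K) = 0 := hu
      have hlz : L.lg z = 0 := by
        rw [← hz, lg_pow hz0] at hlu
        have : (n : ℝ) ≠ 0 := Nat.cast_ne_zero.2 hn
        exact (mul_eq_zero.1 hlu).resolve_left this
      refine ⟨⟨Additive.ofMul (Units.mk0 z hz0), hlz⟩, ?_⟩
      apply Subtype.ext
      change n • Additive.ofMul (Units.mk0 z hz0) = u
      rw [← ofMul_pow]
      apply Additive.toMul.injective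
      apply Units.ext
      change ((Units.mk0 z hz0 ^ n : Kˣ) : K) = _
      rw [Units.val_pow_eq_pow_val, Units.val_mk0, hz]
    intro n hn u
    obtain ⟨w, hw⟩ := hnat (Int.natAbs_ne_zero.2 hn) u
    rcases Int.natAbs_eq n with h | h
    · refine ⟨w, ?_⟩
      rw [h, natCast_zsmul]
      exact hw
    · refine ⟨-w, ?_⟩
      rw [h, neg_smul_neg, natCast_zsmul]
      exact hw
  let inst : DivisibleBy U ℤ :=
    { div := fun u n => by
        classical exact if h : n = 0 then 0 else (hdiv h u).choose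
      div_zero := fun u => by simp
      div_cancel := fun {n} u hn => by
        simp only [dif_neg hn]
        exact (hdiv hn u).choose_spec }
  obtain ⟨r, hr⟩ := (Module.Baer.of_divisible U).extension_property_addMonoidHom U.subtype
    U.subtype_injective (AddMonoidHom.id U)
  have hr' : ∀ u : U, r (u : Additive Kˣ) = u := fun u =>
    congrArg (fun f : U →+ U => f u) hr
  choose a ha using fun γ : (lgHom L).range => γ.2
  set t : (lgHom L).range → Additive Kˣ := fun γ => a γ - (r (a γ) : Additive Kˣ) with ht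
  have hlt : ∀ γ, lgHom L (t γ) = γ := by
    intro γ
    have h1 : lgHom L (r (a γ) : Additive Kˣ) = 0 := (r (a γ)).2
    rw [ht]
    simp only
    rw [map_sub, h1, sub_zero, ha]
  have hadd : ∀ γ δ, t (γ + δ) = t γ + t δ := by
    intro γ δ
    have h1 : a (γ + δ) - (a γ + a δ) ∈ U := by
      rw [hU, AddMonoidHom.mem_ker, map_sub, map_add, ha, ha, ha, AddSubgroup.coe_add, sub_self]
    have h2 := congrArg (fun u : U => (u : Additive Kˣ)) (hr' ⟨_, h1⟩)
    simp only [map_sub, map_add, AddSubgroup.coe_sub, AddSubgroup.coe_add] at h2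
    simp only [ht]
    have h3 : a (γ + δ) - (r (a (γ + δ)) : Additive Kˣ) - (a γ - (r (a γ) : Additive Kˣ) +
        (a δ - (r (a δ) : Additive Kˣ))) = (a (γ + δ) - (a γ + a δ)) -
        ((r (a (γ + δ)) : Additive Kˣ) - ((r (a γ) : Additive Kˣ) +
        (r (a δ) : Additive Kˣ))) := by abel
    rw [← sub_eq_zero, h3, h2, sub_self]
  refine ⟨fun γ => ((t γ).toMul : K), fun γ => Units.ne_zero _, hlt, fun γ δ => ?_, ?_⟩
  · change (((t (γ + δ)).toMul : Kˣ) : K) = _
    rw [hadd, toMul_add, Units.val_mul]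
  · change (((t 0).toMul : Kˣ) : K) = _
    have h1 := hadd 0 0
    rw [add_zero] at h1
    have h2 : t 0 = 0 := by
      have := left_eq_add.1 h1
      exact this
    rw [h2]
    rfl

end Pool.Agent.H17Dyn
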