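import Mathlib

/-!
# Positivity of ultrametric kernels

For a symmetric function `Y` on a finite set with `Y p r ≤ max (Y p q) (Y q r)` and `Y ≤ T`, the
kernel `T - Y` is positive semidefinite.
-/

set_option autoImplicit false

namespace Pool.Agent.H17Dyn

open MeasureTheory

variable {ι : Type*} [Fintype ι]

/-- the indicator of a symmetric and transitive relation is positive semidefinite -/
lemma per_psd (r : ι → ι → Prop) [DecidableRel r] (hs : ∀ p q, r p q → r q p)
    (ht : ∀ p q z, r p q → r q z → r p z) (u : ι → ℝ) :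
    0 ≤ ∑ p, ∑ q, u p * u q * (if r p q then 1 else 0) := by
  classical
  -- sizes of classes
  set n : ι → ℝ := fun p => ∑ z, (if r z p then (1 : ℝ) else 0) with hn
  have hnpos : ∀ p, 0 ≤ n p := fun p => Finset.sum_nonneg fun z _ => by split_ifs <;> norm_num
  have key : ∀ p q, (if r p q then (1 : ℝ) else 0) =
      ∑ z, (n z)⁻¹ * ((if r z p then 1 else 0) * (if r z q then 1 else 0)) := by
    intro p q
    by_cases h : r p q
    · have hpp : r p p := ht p q p h (hs p q h)
      have hcl : ∀ z, r z p → n z = n p := by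
        intro z hz
        refine Finset.sum_congr rfl fun w _ => ?_
        by_cases hw : r w z
        · rw [if_pos hw, if_pos (ht w z p hw hz)]
        · rw [if_neg hw, if_neg fun h' => hw (ht w p z h' (hs z p hz))]
      have hnp : n p ≠ 0 := by
        have h1 : (1 : ℝ) ≤ n p := by
          have := Finset.single_le_sum (f := fun z => if r z p then (1 : ℝ) else 0)
            (fun z _ => by split_ifs <;> norm_num) (Finset.mem_univ p)
          simp only [hpp, if_true] at this
          exact this
        linarith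
      have h2 : ∀ z, (n z)⁻¹ * ((if r z p then (1 : ℝ) else 0) * (if r z q then 1 else 0)) =
          (n p)⁻¹ * (if r z p then 1 else 0) := by
        intro z
        by_cases hz : r z p
        · rw [if_pos hz, if_pos (ht z p q hz h), hcl z hz, one_mul]
        · rw [if_neg hz]
          ring
      rw [if_pos h, Finset.sum_congr rfl fun z _ => h2 z, ← Finset.mul_sum]
      exact (inv_mul_cancel₀ hnp).symm
    · rw [if_neg h, Finset.sum_eq_zero]
      intro z _
      by_cases hz : r z p
      · by_cases hz' : r z q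
        · exact absurd (ht p z q (hs z p hz) hz') h
        · rw [if_neg hz']
          ring
      · rw [if_neg hz]
        ring
  have hsum : ∑ p, ∑ q, u p * u q * (if r p q then 1 else 0) =
      ∑ z, (n z)⁻¹ * (∑ p, u p * (if r z p then 1 else 0)) ^ 2 := by
    have e1 : ∀ p q, u p * u q * (if r p q then (1 : ℝ) else 0) =
        ∑ z, u p * u q * ((n z)⁻¹ * ((if r z p then 1 else 0) * (if r z q then 1 else 0))) := by
      intro p q
      rw [← Finset.mul_sum, ← key p q]
    rw [Finset.sum_congr rfl fun p _ => Finset.sum_congr rfl fun q _ => e1 p q,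
      Finset.sum_congr rfl fun p _ => Finset.sum_comm, Finset.sum_comm]
    refine Finset.sum_congr rfl fun z _ => ?_
    rw [sq, Finset.sum_mul_sum, Finset.mul_sum]
    refine Finset.sum_congr rfl fun p _ => ?_
    rw [Finset.mul_sum]
    refine Finset.sum_congr rfl fun q _ => ?_
    ring
  rw [hsum]
  exact Finset.sum_nonneg fun z _ => mul_nonneg (inv_nonneg.2 (hnpos z)) (sq_nonneg _)

/-- `T - Y` as an integral -/
lemma sub_eq_integral {y M T : ℝ} (h1 : M ≤ y) (h2 : y ≤ T) :
    T - y = ∫ t in Set.Ioc M T, (if y ≤ t then (1 : ℝ) else 0) := by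
  have h3 : (fun t : ℝ => if y ≤ t then (1 : ℝ) else 0) = (Set.Ici y).indicator 1 := by
    ext t
    simp [Set.indicator_apply]
  rw [h3, integral_indicator_one measurableSet_Ici, Measure.real,
    Measure.restrict_apply measurableSet_Ici]
  rcases eq_or_lt_of_le h1 with rfl | h1'
  · have : Set.Ici M ∩ Set.Ioc M T = Set.Ioc M T := by
      ext t
      simp only [Set.mem_inter_iff, Set.mem_Ici, Set.mem_Ioc]
      constructor
      · rintro ⟨_, h⟩
        exact h
      · intro h
        exact ⟨h.1.le, h⟩
    rw [this, Real.volume_Ioc, ENNReal.toReal_ofReal (by linarith)]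
  · have : Set.Ici y ∩ Set.Ioc M T = Set.Icc y T := by
      ext t
      simp only [Set.mem_inter_iff, Set.mem_Ici, Set.mem_Ioc, Set.mem_Icc]
      constructor
      · rintro ⟨h, h'⟩
        exact ⟨h, h'.2⟩
      · intro h
        exact ⟨h.1, h1'.trans_le h.1, h.2⟩
    rw [this, Real.volume_Icc, ENNReal.toReal_ofReal (by linarith)]

theorem kernel_psd (Y : ι → ι → ℝ) (T : ℝ) (hs : ∀ p q, Y p q = Y q p)
    (hu : ∀ p q z, Y p z ≤ max (Y p q) (Y q z)) (hT : ∀ p q, Y p q ≤ T) (u : ι → ℝ) :
    0 ≤ ∑ p, ∑ q, u p * u q * (T - Y p q) := by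
  classical
  obtain ⟨M, hM⟩ : ∃ M, ∀ p q, M ≤ Y p q := by
    obtain ⟨M, hM⟩ := (Set.finite_range fun pq : ι × ι => Y pq.1 pq.2).bddBelow
    exact ⟨M, fun p q => hM ⟨(p, q), rfl⟩⟩
  have hint : ∀ p q, Integrable (fun t : ℝ => u p * u q * (if Y p q ≤ t then (1 : ℝ) else 0))
      (volume.restrict (Set.Ioc M T)) := by
    intro p q
    have h3 : (fun t : ℝ => if Y p q ≤ t then (1 : ℝ) else 0) = (Set.Ici (Y p q)).indicator 1 := by
      ext t
      simp [Set.indicator_apply]
    refine Integrable.const_mul ?_ _
    rw [h3]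
    exact (integrable_const (1 : ℝ)).indicator measurableSet_Ici
  have h1 : ∑ p, ∑ q, u p * u q * (T - Y p q) =
      ∫ t in Set.Ioc M T, ∑ p, ∑ q, u p * u q * (if Y p q ≤ t then (1 : ℝ) else 0) := by
    rw [integral_finsetSum _ fun p _ => integrable_finsetSum _ fun q _ => hint p q]
    refine Finset.sum_congr rfl fun p _ => ?_
    rw [integral_finsetSum _ fun q _ => hint p q]
    refine Finset.sum_congr rfl fun q _ => ?_
    rw [integral_const_mul, ← sub_eq_integral (hM p q) (hT p q)]
  rw [h1]
  refine integral_nonneg fun t => ?_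
  exact per_psd (fun p q => Y p q ≤ t) (fun p q h => by rw [hs]; exact h)
    (fun p q z h h' => (hu p q z).trans (max_le h h')) u

/-- Cauchy-Schwarz for an ultrametric kernel, tested against a point -/
theorem kernel_cs (Y : ι → ι → ℝ) (T : ℝ) (hs : ∀ p q, Y p q = Y q p)
    (hu : ∀ p q z, Y p z ≤ max (Y p q) (Y q z)) (hT : ∀ p q, Y p q ≤ T) (u : ι → ℝ)
    (hu0 : ∑ p, u p = 0) (o : ι) :
    (∑ p, u p * Y p o) ^ 2 ≤ (T - Y o o) * (-∑ p, ∑ q, u p * u q * Y p q) := by
  classical
  have hB : ∀ x : ℝ, 0 ≤ (T - Y o o) * (x * x) + (-2 * ∑ p, u p * Y p o) * x +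
      (-∑ p, ∑ q, u p * u q * Y p q) := by
    intro x
    have h := kernel_psd Y T hs hu hT (fun p => u p + x * (if p = o then 1 else 0))
    have e1 : ∑ p, ∑ q, (u p + x * (if p = o then 1 else 0)) *
        (u q + x * (if q = o then 1 else 0)) * (T - Y p q) =
        (∑ p, ∑ q, u p * u q * (T - Y p q)) + x * (∑ p, u p * (T - Y p o)) +
        x * (∑ q, u q * (T - Y o q)) + x * x * (T - Y o o) := by
      have : ∀ p q, (u p + x * (if p = o then 1 else 0)) *
        (u q + x * (if q = o then 1 else 0)) * (T - Y p q) =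
        u p * u q * (T - Y p q) + (if q = o then x * (u p * (T - Y p q)) else 0) +
        (if p = o then x * (u q * (T - Y p q)) else 0) +
        (if q = o then (if p = o then x * x * (T - Y p q) else 0) else 0) := by
        intro p q
        split_ifs <;> ring
      simp_rw [this, Finset.sum_add_distrib]
      congr 1
      · congr 1
        · congr 1
          · simp [Finset.mul_sum]
        · rw [Finset.sum_comm]
          simp [Finset.mul_sum]
      · simp
    have e2 : ∑ p, ∑ q, u p * u q * (T - Y p q) = -∑ p, ∑ q, u p * u q * Y p q := by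
      have : ∀ p q, u p * u q * (T - Y p q) = T * (u p * u q) - u p * u q * Y p q := by
        intro p q
        ring
      simp_rw [this, Finset.sum_sub_distrib, ← Finset.mul_sum, hu0]
      simp
    have e3 : ∑ p, u p * (T - Y p o) = -∑ p, u p * Y p o := by
      have : ∀ p, u p * (T - Y p o) = T * u p - u p * Y p o := by
        intro p
        ring
      simp_rw [this, Finset.sum_sub_distrib, ← Finset.mul_sum, hu0]
      simp
    have e4 : ∑ q, u q * (T - Y o q) = -∑ p, u p * Y p o := by
      rw [← e3]
      exact Finset.sum_congr rfl fun q _ => by rw [hs o q]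
    rw [e1, e2, e3, e4] at h
    linarith
  have hd := discrim_le_zero (K := ℝ) hB
  rw [discrim] at hd
  nlinarith [hd]

end Pool.Agent.H17Dyn
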