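import Pool.Agent.H17Dyn.Val
import Pool.Agent.H17Dyn.Kernel

/-!
# The energy inequality for two finite families of points
-/

set_option autoImplicit false

namespace Pool.Agent.H17Dyn

open LgData

variable {k K : Type*} [Field k] [Field K] [Algebra k K] {L : LgData k K}

lemma exists_radius {a : ℕ} (α : Fin a → K) (i : Fin a) :
    ∃ ρ : ℝ, ρ ≤ 0 ∧ ∑ i', L.fl ρ (α i - α i') = 0 := by
  set C : ℝ := ∑ i', |L.lg (α i - α i')| with hC
  have hC0 : 0 ≤ C := Finset.sum_nonneg fun _ _ => abs_nonneg _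
  have hcont : Continuous fun ρ : ℝ => ∑ i', L.fl ρ (α i - α i') :=
    continuous_finsetSum _ fun i' _ => fl_continuous _
  have h0 : 0 ≤ ∑ i', L.fl 0 (α i - α i') := Finset.sum_nonneg fun i' _ => le_fl _ _
  have h1 : ∑ i', L.fl (-C) (α i - α i') ≤ 0 := by
    have h2 : ∀ i' ∈ (Finset.univ : Finset (Fin a)), L.fl (-C) (α i - α i') ≤
        |L.lg (α i - α i')| + (if i' = i then -C else 0) := by
      intro i' _
      by_cases h : i' = i
      · subst h
        rw [sub_self, fl_zero, if_pos rfl]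
        have := abs_nonneg (L.lg (0 : K))
        linarith
      · rw [if_neg h, add_zero]
        rcases eq_or_ne (α i - α i') 0 with h0 | h0
        · rw [h0, fl_zero]
          have := abs_nonneg (L.lg (0 : K))
          linarith
        · rw [fl_of_ne h0]
          refine max_le (le_abs_self _) ?_
          have := abs_nonneg (L.lg (α i - α i'))
          linarith
    refine (Finset.sum_le_sum h2).trans ?_
    rw [Finset.sum_add_distrib]
    simp [hC]
  have hivt := intermediate_value_Icc (by linarith : -C ≤ 0) hcont.continuousOn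
  obtain ⟨ρ, hρ, hρ0⟩ := hivt ⟨h1, h0⟩
  exact ⟨ρ, hρ.2, hρ0⟩

lemma radius_le {a : ℕ} {α : Fin a → K} {i : Fin a} {ρ : ℝ}
    (hρ : ∑ i', L.fl ρ (α i - α i') = 0) {z : K} (hz : ∀ i', z ≠ α i')
    (h : 0 ≤ ∑ i', L.lg (z - α i')) : ρ ≤ L.lg (z - α i) := by
  by_contra hcon
  push Not at hcon
  have hlt : ∑ i', L.lg (z - α i') < ∑ i', L.fl ρ (α i - α i') := by
    refine Finset.sum_lt_sum (fun i' _ => ?_) ⟨i, Finset.mem_univ i, ?_⟩
    · have h1 : z - α i' = (z - α i) + (α i - α i') := by ring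
      have h2 : L.le (z - α i') (L.fl ρ (α i - α i')) := by
        rw [h1]
        refine le.add ?_ (le_of_fl _ _)
        intro _
        exact hcon.le.trans (le_fl _ _)
      exact h2 (sub_ne_zero.2 (hz i'))
    · rw [sub_self, fl_zero]
      exact hcon
  linarith

/-- **Energy inequality.** -/
theorem energy {a b : ℕ} (ha : 0 < a) (hb : 0 < b) (α : Fin a → K) (β : Fin b → K) {T M : ℝ}
    (hT : 0 ≤ T) (hM : 0 ≤ M)
    (hα0 : ∀ i, α i ≠ 0) (hαT : ∀ i, L.lg (α i) ≤ T) (hαM : ∀ i, -M ≤ L.lg (α i))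
    (hβ0 : ∀ j, β j ≠ 0) (hβT : ∀ j, L.lg (β j) ≤ T) (hβM : ∀ j, -M ≤ L.lg (β j))
    (hα : 0 ≤ ∑ i, L.lg (α i)) (hβ : 0 ≤ ∑ j, L.lg (β j))
    (hne : ∀ i j, α i ≠ β j)
    (h1 : ∀ j, 0 ≤ ∑ i, L.lg (β j - α i)) (h2 : ∀ i, 0 ≤ ∑ j, L.lg (α i - β j)) :
    ((∑ i, L.lg (α i)) / a - (∑ j, L.lg (β j)) / b) ^ 2 ≤
      (T + M) * (2 / (a * b) * ∑ i, ∑ j, L.lg (α i - β j)) := by
  choose ρ hρ0 hρ using fun i => exists_radius (L := L) α i
  choose σ hσ0 hσ using fun j => exists_radius (L := L) β j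
  -- the points
  let z : Option (Fin a ⊕ Fin b) → K := fun p => p.elim 0 (Sum.elim α β)
  let r : Option (Fin a ⊕ Fin b) → ℝ := fun p => p.elim (-M) (Sum.elim ρ σ)
  let Y : Option (Fin a ⊕ Fin b) → Option (Fin a ⊕ Fin b) → ℝ :=
    fun p q => L.fl (max (r p) (r q)) (z p - z q)
  have hr0 : ∀ p, r p ≤ 0 := by
    rintro (_ | i | j)
    · simpa [r] using hM
    · exact hρ0 i
    · exact hσ0 j
  have hzT : ∀ p, L.le (z p) T := by
    rintro (_ | i | j)
    · exact le_zero _
    · exact fun _ => hαT i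
    · exact fun _ => hβT j
  have hs : ∀ p q, Y p q = Y q p := by
    intro p q
    change L.fl _ _ = L.fl _ _
    rw [max_comm, ← fl_neg, neg_sub]
  have hu : ∀ p q w, Y p w ≤ max (Y p q) (Y q w) := by
    intro p q w
    change L.fl _ _ ≤ _
    refine fl_le ?_ ?_
    · have : z p - z w = (z p - z q) + (z q - z w) := by ring
      rw [this]
      exact ((le_of_fl _ _).mono (le_max_left _ _)).add ((le_of_fl _ _).mono (le_max_right _ _))
    · refine max_le ?_ ?_
      · exact ((le_max_left _ _).trans (le_fl _ _)).trans (le_max_left _ _)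
      · exact ((le_max_right _ _).trans (le_fl _ _)).trans (le_max_right _ _)
  have hTY : ∀ p q, Y p q ≤ T := by
    intro p q
    refine fl_le ((hzT p).sub (hzT q)) ?_
    exact max_le ((hr0 p).trans hT) ((hr0 q).trans hT)
  let u : Option (Fin a ⊕ Fin b) → ℝ :=
    fun p => p.elim 0 (Sum.elim (fun _ => (a : ℝ)⁻¹) (fun _ => -(b : ℝ)⁻¹))
  have ha' : (a : ℝ) ≠ 0 := by exact_mod_cast ha.ne'
  have hb' : (b : ℝ) ≠ 0 := by exact_mod_cast hb.ne'
  have hsplit : ∀ f : Option (Fin a ⊕ Fin b) → ℝ, ∑ p, f p = f none + (∑ i, f (some (Sum.inl i)) +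
      ∑ j, f (some (Sum.inr j))) := by
    intro f
    rw [Fintype.sum_option, Fintype.sum_sum_type]
  have hu0 : ∑ p, u p = 0 := by
    rw [hsplit]
    simp only [u, Option.elim, Sum.elim_inl, Sum.elim_inr, Finset.sum_const, Finset.card_univ,
      Fintype.card_fin, nsmul_eq_mul, mul_neg]
    rw [mul_inv_cancel₀ ha', mul_inv_cancel₀ hb']
    ring
  have hcs := kernel_cs Y T hs hu hTY u hu0 none
  -- the pairing with the origin
  have hY0α : ∀ i, Y (some (Sum.inl i)) none = L.lg (α i) := by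
    intro i
    change L.fl (max (ρ i) (-M)) (α i - 0) = _
    rw [sub_zero, fl_of_ne (hα0 i), max_eq_left]
    refine max_le ?_ (hαM i)
    have := radius_le (z := 0) (hρ i) (fun i' => (hα0 i').symm)
      (by simpa only [zero_sub, L.lg_neg] using hα)
    rwa [zero_sub, L.lg_neg] at this
  have hY0β : ∀ j, Y (some (Sum.inr j)) none = L.lg (β j) := by
    intro j
    change L.fl (max (σ j) (-M)) (β j - 0) = _
    rw [sub_zero, fl_of_ne (hβ0 j), max_eq_left]
    refine max_le ?_ (hβM j)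
    have := radius_le (z := 0) (hσ j) (fun i' => (hβ0 i').symm)
      (by simpa only [zero_sub, L.lg_neg] using hβ)
    rwa [zero_sub, L.lg_neg] at this
  have hY00 : Y none none = -M := by
    change L.fl (max (-M) (-M)) (0 - 0) = _
    rw [sub_zero, fl_zero, max_self]
  have hpair : ∑ p, u p * Y p none = (∑ i, L.lg (α i)) / a - (∑ j, L.lg (β j)) / b := by
    rw [hsplit]
    simp only [hY0α, hY0β, u, Option.elim, Sum.elim_inl, Sum.elim_inr, zero_mul, zero_add,
      neg_mul, Finset.sum_neg_distrib, ← Finset.mul_sum]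
    field_simp
    ring
  -- the energies
  have hYαβ : ∀ i j, Y (some (Sum.inl i)) (some (Sum.inr j)) = L.lg (α i - β j) := by
    intro i j
    change L.fl (max (ρ i) (σ j)) (α i - β j) = _
    rw [fl_of_ne (sub_ne_zero.2 (hne i j)), max_eq_left]
    refine max_le ?_ ?_
    · rw [L.lg_sub_comm]
      exact radius_le (hρ i) (fun i' => (hne i' j).symm) (h1 j)
    · exact radius_le (hσ j) (fun j' => hne i j') (h2 i)
  have hself1 : 0 ≤ ∑ i, ∑ i', Y (some (Sum.inl i)) (some (Sum.inl i')) := by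
    refine Finset.sum_nonneg fun i _ => ?_
    rw [← hρ i]
    exact Finset.sum_le_sum fun i' _ => fl_mono (le_max_left _ _) _
  have hself2 : 0 ≤ ∑ j, ∑ j', Y (some (Sum.inr j)) (some (Sum.inr j')) := by
    refine Finset.sum_nonneg fun i _ => ?_
    rw [← hσ i]
    exact Finset.sum_le_sum fun i' _ => fl_mono (le_max_left _ _) _
  have hen : -∑ p, ∑ q, u p * u q * Y p q ≤ 2 / (a * b) * ∑ i, ∑ j, L.lg (α i - β j) := by
    have e1 : ∑ p, ∑ q, u p * u q * Y p q =
        (a : ℝ)⁻¹ * (a : ℝ)⁻¹ * (∑ i, ∑ i', Y (some (Sum.inl i)) (some (Sum.inl i'))) +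
        (b : ℝ)⁻¹ * (b : ℝ)⁻¹ * (∑ j, ∑ j', Y (some (Sum.inr j)) (some (Sum.inr j'))) -
        2 / (a * b) * ∑ i, ∑ j, L.lg (α i - β j) := by
      rw [hsplit]
      simp only [hsplit]
      have e2 : ∀ i j, Y (some (Sum.inr j)) (some (Sum.inl i)) = L.lg (α i - β j) := by
        intro i j
        rw [hs, hYαβ]
      simp only [u, Option.elim, Sum.elim_inl, Sum.elim_inr, zero_mul, mul_zero, zero_add,
        Finset.sum_const_zero, hYαβ, e2]
      simp only [Finset.sum_add_distrib]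
      rw [Finset.sum_comm (f := fun (x : Fin b) (i : Fin a) =>
        -(b : ℝ)⁻¹ * (a : ℝ)⁻¹ * L.lg (α i - β x))]
      simp only [← Finset.mul_sum]
      field_simp
      ring
    rw [e1]
    have h3 : 0 ≤ (a : ℝ)⁻¹ * (a : ℝ)⁻¹ *
        (∑ i, ∑ i', Y (some (Sum.inl i)) (some (Sum.inl i'))) :=
      mul_nonneg (by positivity) hself1
    have h4 : 0 ≤ (b : ℝ)⁻¹ * (b : ℝ)⁻¹ *
        (∑ j, ∑ j', Y (some (Sum.inr j)) (some (Sum.inr j'))) :=
      mul_nonneg (by positivity) hself2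
    linarith
  rw [hpair, hY00, sub_neg_eq_add] at hcs
  exact hcs.trans (mul_le_mul_of_nonneg_left hen (by linarith))

end Pool.Agent.H17Dyn
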