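import Pool.Agent.H17Dyn.Elim

/-!
# Roots, generic values
-/

set_option autoImplicit false

namespace Pool.Agent.H17Dyn

open LgData Polynomial

variable {k K : Type*} [Field k] [Field K] [Algebra k K] {L : LgData k K}

/-- the roots of a polynomial with constant leading coefficient -/
lemma split_data [IsAlgClosed K] {f : K[X]} {n : ℕ} (hn : f.natDegree = n) (h0 : f ≠ 0)
    (hlc : L.lg f.leadingCoeff = 0) :
    ∃ α : Fin n → K, (∀ u, f.eval u = 0 ↔ ∃ i, α i = u) ∧
      (∀ u, f.eval u ≠ 0 → L.lg (f.eval u) = ∑ i, L.lg (u - α i)) ∧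
      (f.Separable → Function.Injective α) := by
  classical
  obtain ⟨l, hl⟩ : ∃ l : List K, (l : Multiset K) = f.roots := Quotient.exists_rep f.roots
  have hlen : l.length = n := by
    rw [← hn, (IsAlgClosed.splits f).natDegree_eq_card_roots, ← hl, Multiset.coe_card]
  subst hlen
  have hmap : Finset.univ.val.map l.get = f.roots := by
    rw [Fin.univ_val_map, List.ofFn_get, hl]
  have hroot : ∀ u, f.eval u = 0 ↔ ∃ i, l.get i = u := by
    intro u
    rw [← IsRoot.def, ← mem_roots h0, ← hmap, Multiset.mem_map]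
    simp
  refine ⟨l.get, hroot, ?_, ?_⟩
  · intro u hu
    have h1 := lg_eval_split (L := L) (IsAlgClosed.splits f) h0 (u := u) (by
      intro r hr h
      apply hu
      rw [sub_eq_zero.1 h]
      exact isRoot_of_mem_roots hr)
    rw [h1.2, hlc, zero_add, ← hmap, Multiset.map_map]
    rfl
  · intro hsep
    have hnd : f.roots.Nodup := nodup_roots hsep
    rw [← hl] at hnd
    exact List.nodup_iff_injective_get.1 (Multiset.coe_nodup.1 hnd)

/-- generic level values are not critical -/
lemma exists_crit [IsAlgClosed K] [CharZero K] {f : K[X]} (hf : 0 < f.natDegree) :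
    ∃ T : Finset k, ∀ c : k, c ∉ T → (f - C (algebraMap k K c)).Separable := by
  classical
  refine ⟨(f.derivative.roots.toFinset.image f.eval).preimage (algebraMap k K)
    (algebraMap k K).injective.injOn, fun c hc => ?_⟩
  have hd : f.derivative ≠ 0 := by
    intro h
    have := derivative_eq_zero.1 h
    omega
  rw [separable_def, isCoprime_iff_aeval_ne_zero_of_isAlgClosed K K]
  intro t
  by_contra hcon
  push Not at hcon
  obtain ⟨h1, h2⟩ := hcon
  apply hc
  rw [Finset.mem_preimage, Finset.mem_image]
  refine ⟨t, ?_, ?_⟩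
  · rw [Multiset.mem_toFinset, mem_roots hd, IsRoot.def]
    simpa [coe_aeval_eq_eval] using h2
  · rw [coe_aeval_eq_eval, eval_sub, eval_C, sub_eq_zero] at h1
    exact h1

/-- a pigeonhole argument: generic pairs of level values -/
lemma exists_levels [Infinite k] (f g : K[X]) (hf : 0 < f.natDegree) (hg : 0 < g.natDegree)
    (T : Finset k) :
    ∃ c c' : k, c' ∉ T ∧
      (∀ t, g.eval t = algebraMap k K c' → L.big (f.eval t - algebraMap k K c)) ∧
      (∀ t, f.eval t = algebraMap k K c → L.big (g.eval t - algebraMap k K c')) := by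
  classical
  set a := f.natDegree with ha
  set b := g.natDegree with hb
  obtain ⟨S, hST, hScard⟩ : ∃ S : Finset k, (∀ c ∈ S, c ∉ T) ∧ S.card = a + b + 1 := by
    obtain ⟨S, hS, hcard⟩ := (T.finite_toSet.infinite_compl).exists_subset_card_eq (a + b + 1)
    exact ⟨S, fun c hc hcT => hS (Finset.mem_coe.2 hc) hcT, hcard⟩
  have hfc : ∀ (h : K[X]) (c : k), 0 < h.natDegree → h - C (algebraMap k K c) ≠ 0 := by
    intro h c hpos h0
    have := natDegree_sub_C (p := h) (a := algebraMap k K c)
    rw [h0, natDegree_zero] at this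
    omega
  have hcardroots : ∀ (h : K[X]) (c : k), (h - C (algebraMap k K c)).roots.toFinset.card ≤
      h.natDegree := by
    intro h c
    refine (Multiset.toFinset_card_le _).trans ((card_roots' _).trans ?_)
    rw [natDegree_sub_C]
  have hone : ∀ x : K, (S.filter fun c => ¬ L.big (x - algebraMap k K c)).card ≤ 1 := by
    intro x
    rw [Finset.card_le_one]
    intro c hc c' hc'
    exact small_unique (Finset.mem_filter.1 hc).2 (Finset.mem_filter.1 hc').2
  -- first kind of bad pairs
  set bad1 : Finset (k × k) := S.biUnion fun c' =>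
    (g - C (algebraMap k K c')).roots.toFinset.biUnion fun t =>
      (S.filter fun c => ¬ L.big (f.eval t - algebraMap k K c)) ×ˢ {c'} with hbad1
  set bad2 : Finset (k × k) := S.biUnion fun c =>
    (f - C (algebraMap k K c)).roots.toFinset.biUnion fun t =>
      {c} ×ˢ (S.filter fun c' => ¬ L.big (g.eval t - algebraMap k K c')) with hbad2
  have hc1 : bad1.card ≤ S.card * b := by
    refine Finset.card_biUnion_le_card_mul _ _ _ fun c' _ => ?_
    refine (Finset.card_biUnion_le_card_mul _ _ 1 fun t _ => ?_).trans ?_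
    · rw [Finset.card_product, Finset.card_singleton, mul_one]
      exact hone _
    · rw [mul_one]
      exact hcardroots g c'
  have hc2 : bad2.card ≤ S.card * a := by
    refine Finset.card_biUnion_le_card_mul _ _ _ fun c _ => ?_
    refine (Finset.card_biUnion_le_card_mul _ _ 1 fun t _ => ?_).trans ?_
    · rw [Finset.card_product, Finset.card_singleton, one_mul]
      exact hone _
    · rw [mul_one]
      exact hcardroots f c
  have hlt : (bad1 ∪ bad2).card < (S ×ˢ S).card := by
    refine (Finset.card_union_le _ _).trans_lt ?_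
    rw [Finset.card_product]
    refine (add_le_add hc1 hc2).trans_lt ?_
    rw [← mul_add, hScard]
    refine Nat.mul_lt_mul_of_pos_left ?_ ?_ <;> omega
  obtain ⟨⟨c, c'⟩, hcc, hnb⟩ := Finset.exists_mem_notMem_of_card_lt_card hlt
  rw [Finset.mem_product] at hcc
  rw [Finset.mem_union, not_or] at hnb
  refine ⟨c, c', hST c' hcc.2, ?_, ?_⟩
  · intro t ht
    by_contra hcon
    apply hnb.1
    rw [hbad1, Finset.mem_biUnion]
    refine ⟨c', hcc.2, Finset.mem_biUnion.2 ⟨t, ?_, ?_⟩⟩
    · rw [Multiset.mem_toFinset, mem_roots (hfc g c' hg), IsRoot.def, eval_sub, eval_C, ht,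
        sub_self]
    · rw [Finset.mem_product]
      exact ⟨Finset.mem_filter.2 ⟨hcc.1, hcon⟩, Finset.mem_singleton_self _⟩
  · intro t ht
    by_contra hcon
    apply hnb.2
    rw [hbad2, Finset.mem_biUnion]
    refine ⟨c, hcc.1, Finset.mem_biUnion.2 ⟨t, ?_, ?_⟩⟩
    · rw [Multiset.mem_toFinset, mem_roots (hfc f c hf), IsRoot.def, eval_sub, eval_C, ht,
        sub_self]
    · rw [Finset.mem_product]
      exact ⟨Finset.mem_singleton_self _, Finset.mem_filter.2 ⟨hcc.2, hcon⟩⟩

end Pool.Agent.H17Dyn
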