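import Pool.Agent.H17Dyn.Aut
import Pool.Agent.H17Dyn.Energy
import Pool.Agent.H17Dyn.Roots

/-!
# The main inequality, in general form
-/

set_option autoImplicit false
set_option linter.unusedSectionVars false

namespace Pool.Agent.H17Dyn

open LgData

variable {d : ℕ} {k K : Type*} [Field k] [Infinite k] [CharZero k] [Field K] [IsAlgClosed K] [Algebra k K]
  (L : LgData k K)

omit [Infinite k] [CharZero k] [IsAlgClosed K] in
/-- data of one restricted polynomial: `A` restricted to the line `x₀ + y q'`, where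
`x₀ = F(s q)` -/
lemma line_data (F : MvPolynomial (Fin d) k ≃ₐ[k] MvPolynomial (Fin d) k)
    (q q' : Fin d → k) (A : MvPolynomial (Fin d) k) (hA : A.totalDegree ≠ 0)
    (hqA : MvPolynomial.eval q (topForm (F A)) ≠ 0)
    (hq'A : MvPolynomial.eval q' (topForm A) ≠ 0)
    (xs : Fin d → K) (hxs : xs = fun i => algebraMap k K (q i) * L.s) (c : k) :
    (dirPoly (pt F xs) q' A).natDegree = A.totalDegree ∧
    ((dirPoly (pt F xs) q' A) - Polynomial.C (algebraMap k K c)).natDegree = A.totalDegree ∧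
    ((dirPoly (pt F xs) q' A) - Polynomial.C (algebraMap k K c)) ≠ 0 ∧
    L.lg ((dirPoly (pt F xs) q' A) - Polynomial.C (algebraMap k K c)).leadingCoeff = 0 ∧
    (((dirPoly (pt F xs) q' A) - Polynomial.C (algebraMap k K c)).eval 0 ≠ 0 ∧
      L.lg (((dirPoly (pt F xs) q' A) - Polynomial.C (algebraMap k K c)).eval 0) =
        (F A).totalDegree) ∧
    (∀ y, ((dirPoly (pt F xs) q' A) - Polynomial.C (algebraMap k K c)).eval y = 0 →
      L.le y (adeg F) ∧ -(adeg F.symm * adeg F : ℝ) ≤ L.lg y) := by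
  set x0 := pt F xs with hx0
  set m : ℝ := (adeg F : ℝ) with hm
  have hm0 : 0 ≤ m := Nat.cast_nonneg _
  have hxs1 : ∀ i, L.le (xs i) 1 := by
    intro i
    rw [hxs]
    refine ((le_const (q i)).mul (fun _ => L.lg_s.le)).mono (le_of_eq (zero_add _))
  have hx0m : ∀ i, L.le (x0 i) m := by
    intro i
    refine (le_aeval zero_le_one hxs1 (F (MvPolynomial.X i))).mono ?_
    rw [mul_one, hm]
    exact_mod_cast totalDegree_X_le F i
  have hbd : Bd L m A.totalDegree (dirPoly x0 q' A) := bd_dirPoly hm0 hx0m q' le_rfl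
  have hcoef : (dirPoly x0 q' A).coeff A.totalDegree =
      algebraMap k K (MvPolynomial.eval q' (topForm A)) := coeff_dirPoly_top _ _ _ le_rfl
  have hcne : algebraMap k K (MvPolynomial.eval q' (topForm A)) ≠ 0 := by simpa using hq'A
  have hnd : (dirPoly x0 q' A).natDegree = A.totalDegree :=
    Polynomial.natDegree_eq_of_le_of_coeff_ne_zero hbd.1 (by rw [hcoef]; exact hcne)
  set f := dirPoly x0 q' A - Polynomial.C (algebraMap k K c) with hf
  have hfnd : f.natDegree = A.totalDegree := by rw [hf, Polynomial.natDegree_sub_C, hnd]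
  have hfcoef : f.coeff A.totalDegree = algebraMap k K (MvPolynomial.eval q' (topForm A)) := by
    rw [hf, Polynomial.coeff_sub, Polynomial.coeff_C, if_neg hA, sub_zero, hcoef]
  have hf0 : f ≠ 0 := by
    intro h
    rw [h, Polynomial.natDegree_zero] at hfnd
    exact hA hfnd.symm
  have hlc : L.lg f.leadingCoeff = 0 := by
    rw [Polynomial.leadingCoeff, hfnd, hfcoef]
    exact L.lg_const hq'A
  have hfbd : Bd L m A.totalDegree f :=
    hbd.sub ((Bd.C (le_const c)).mono hm0 (Nat.zero_le _))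
  have hFApos : (0 : ℝ) < (F A).totalDegree := by
    exact_mod_cast Nat.pos_of_ne_zero (totalDegree_apply_ne_zero F hA)
  refine ⟨hnd, hfnd, hf0, hlc, ?_, ?_⟩
  · -- the value at `0`
    have h1 : (dirPoly x0 q' A).eval 0 = MvPolynomial.aeval xs (F A) := by
      rw [eval_dirPoly, ← aeval_pt]
      congr 2
      ext i
      simp [hx0]
    have h2 := aeval_large (L := L) (δ := fun _ => (0 : K)) (fun _ => le_zero _) hqA
    simp only [zero_add] at h2
    rw [← hxs] at h2
    rw [hf, Polynomial.eval_sub, h1, Polynomial.eval_C, sub_eq_add_neg]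
    have h3 := lg_add_eq' h2.1 (le_const (L := L) c).neg (by rw [h2.2]; exact hFApos)
    rw [h2.2] at h3
    exact h3
  · intro y hy
    refine ⟨hfbd.root_le (by rw [hfcoef]; exact hcne) (by rw [hfcoef]; exact L.lg_const hq'A) hy,
      ?_⟩
    by_contra hcon
    push Not at hcon
    -- `x₀ + y q' = F(s q + δ)` with small `δ`
    set δ : Fin d → K := fun i =>
      MvPolynomial.aeval (fun i => x0 i + algebraMap k K (q' i) * y)
        (F.symm (MvPolynomial.X i)) - MvPolynomial.aeval x0 (F.symm (MvPolynomial.X i)) with hδ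
    have hδ0 : ∀ i, L.le (δ i) 0 := fun i =>
      le_diff hm0 hx0m q' (totalDegree_X_le F.symm i) (fun _ => hcon.le)
    have hpt : pt F.symm (fun i => x0 i + algebraMap k K (q' i) * y) =
        fun i => δ i + algebraMap k K (q i) * L.s := by
      funext i
      have h1 : MvPolynomial.aeval x0 (F.symm (MvPolynomial.X i)) = xs i :=
        congrFun (pt_symm_pt F xs) i
      simp only [hδ, h1, pt, hxs]
      ring
    have h2 := aeval_large (L := L) hδ0 hqA
    rw [← hpt, ← aeval_pt, pt_pt_symm, ← eval_dirPoly] at h2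
    have h3 : (dirPoly x0 q' A).eval y = algebraMap k K c := by
      rw [hf, Polynomial.eval_sub, Polynomial.eval_C, sub_eq_zero] at hy
      exact hy
    rw [h3] at h2
    have h4 := le_const (L := L) c h2.1
    rw [h2.2] at h4
    linarith

/-- the estimate for the points of a line on a level set -/
def FibCond (L : LgData k K) (F G : MvPolynomial (Fin d) k ≃ₐ[k] MvPolynomial (Fin d) k)
    (i0 : Fin d) (Q : MvPolynomial (Fin d) k) (Δ : ℝ) : Prop :=
  ∀ (q q' : Fin d → k) (c : k) (b : ℕ) (β : Fin b → K), MvPolynomial.eval q' Q ≠ 0 →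
    MvPolynomial.eval q' (topForm (G (MvPolynomial.X i0))) ≠ 0 →
    b = (G (MvPolynomial.X i0)).totalDegree → Function.Injective β →
    (∀ y, (dirPoly (pt F (fun i => algebraMap k K (q i) * L.s)) q'
      (G (MvPolynomial.X i0))).eval y = algebraMap k K c ↔ ∃ j, β j = y) →
    ∃ H : Fin b → ℝ, (∀ j, 0 ≤ H j) ∧
      (∀ j i, L.le (pt G (fun i => pt F (fun i => algebraMap k K (q i) * L.s) i +
        algebraMap k K (q' i) * β j) i) (H j)) ∧ ∑ j, H j ≤ Δ

/-- **The main inequality**, in general form. -/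
theorem main_lemma_gen [CharZero K]
    (F G : MvPolynomial (Fin d) k ≃ₐ[k] MvPolynomial (Fin d) k)
    (P : MvPolynomial (Fin d) k) (hP : P.totalDegree ≠ 0) (i0 : Fin d)
    {Q : MvPolynomial (Fin d) k} (hQ : Q ≠ 0) {Δ : ℝ} (hfib : FibCond L F G i0 Q Δ) :
    (((F (G P)).totalDegree : ℝ) / (G P).totalDegree -
      (F (G (MvPolynomial.X i0))).totalDegree / (G (MvPolynomial.X i0)).totalDegree) ^ 2 ≤
    ((adeg F : ℝ) + adeg F.symm * adeg F) * (2 / ((G P).totalDegree *
      (G (MvPolynomial.X i0)).totalDegree) * (P.totalDegree * Δ)) := by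
  classical
  set A := G P with hA
  set B := G (MvPolynomial.X i0) with hB
  have hA0 : A.totalDegree ≠ 0 := totalDegree_apply_ne_zero G hP
  have hB0 : B.totalDegree ≠ 0 := Nat.one_le_iff_ne_zero.1 (one_le_totalDegree_X G i0)
  have hFA0 : (F A).totalDegree ≠ 0 := totalDegree_apply_ne_zero F hA0
  have hFB0 : (F B).totalDegree ≠ 0 := totalDegree_apply_ne_zero F hB0
  have hne : ∀ Q : MvPolynomial (Fin d) k, Q.totalDegree ≠ 0 → topForm Q ≠ 0 := fun Q hQ =>
    topForm_ne_zero fun h => hQ (by rw [h, MvPolynomial.totalDegree_zero])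
  obtain ⟨q, hq⟩ := exists_eval_ne_zero (mul_ne_zero (hne _ hFA0) (hne _ hFB0))
  rw [map_mul] at hq
  obtain ⟨q', hq'⟩ := exists_eval_ne_zero (mul_ne_zero (mul_ne_zero (hne _ hA0) (hne _ hB0))
    hQ)
  rw [map_mul, map_mul] at hq'
  have hqA := left_ne_zero_of_mul hq
  have hqB := right_ne_zero_of_mul hq
  have hq'A := left_ne_zero_of_mul (left_ne_zero_of_mul hq')
  have hq'B := right_ne_zero_of_mul (left_ne_zero_of_mul hq')
  have hq'0 := right_ne_zero_of_mul hq'
  set xs : Fin d → K := fun i => algebraMap k K (q i) * L.s with hxs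
  set m : ℝ := (adeg F : ℝ) with hm
  have hm0 : 0 ≤ m := Nat.cast_nonneg _
  -- generic levels
  have hdA := line_data L F q q' A hA0 hqA hq'A xs hxs
  have hdB := line_data L F q q' B hB0 hqB hq'B xs hxs
  set fA := dirPoly (pt F xs) q' A with hfA
  set fB := dirPoly (pt F xs) q' B with hfB
  have hAnd := (hdA 0).1
  have hBnd := (hdB 0).1
  obtain ⟨T, hT⟩ := exists_crit (k := k) (f := fB) (by rw [hBnd]; exact Nat.pos_of_ne_zero hB0)
  obtain ⟨c, c', hc'T, hlev1, hlev2⟩ := exists_levels (L := L) fA fB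
    (by rw [hAnd]; exact Nat.pos_of_ne_zero hA0) (by rw [hBnd]; exact Nat.pos_of_ne_zero hB0) T
  obtain ⟨-, hA2, hA3, hA4, hA5, hA6⟩ := hdA c
  obtain ⟨-, hB2, hB3, hB4, hB5, hB6⟩ := hdB c'
  obtain ⟨α, hα1, hα2, -⟩ := split_data (L := L) hA2 hA3 hA4
  obtain ⟨β, hβ1, hβ2, hβ3⟩ := split_data (L := L) hB2 hB3 hB4
  have hβinj := hβ3 (hT c' hc'T)
  -- facts about the roots
  have hα0 : ∀ i, α i ≠ 0 := fun i h => hA5.1 ((hα1 0).2 ⟨i, h⟩)
  have hβ0 : ∀ j, β j ≠ 0 := fun j h => hB5.1 ((hβ1 0).2 ⟨j, h⟩)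
  have hαr : ∀ i, (fA - Polynomial.C (algebraMap k K c)).eval (α i) = 0 := fun i =>
    (hα1 _).2 ⟨i, rfl⟩
  have hβr : ∀ j, (fB - Polynomial.C (algebraMap k K c')).eval (β j) = 0 := fun j =>
    (hβ1 _).2 ⟨j, rfl⟩
  have hsα : ∑ i, L.lg (α i) = (F A).totalDegree := by
    rw [← hA5.2, hα2 0 hA5.1]
    exact Finset.sum_congr rfl fun i _ => by rw [zero_sub, L.lg_neg]
  have hsβ : ∑ j, L.lg (β j) = (F B).totalDegree := by
    rw [← hB5.2, hβ2 0 hB5.1]
    exact Finset.sum_congr rfl fun i _ => by rw [zero_sub, L.lg_neg]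
  have hbigA : ∀ j, L.big ((fA - Polynomial.C (algebraMap k K c)).eval (β j)) := by
    intro j
    have h1 := hβr j
    rw [Polynomial.eval_sub, Polynomial.eval_C, sub_eq_zero] at h1
    rw [Polynomial.eval_sub, Polynomial.eval_C]
    exact hlev1 _ h1
  have hbigB : ∀ i, L.big ((fB - Polynomial.C (algebraMap k K c')).eval (α i)) := by
    intro i
    have h1 := hαr i
    rw [Polynomial.eval_sub, Polynomial.eval_C, sub_eq_zero] at h1
    rw [Polynomial.eval_sub, Polynomial.eval_C]
    exact hlev2 _ h1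
  have hαβ : ∀ i j, α i ≠ β j := fun i j h => (hbigA j).1 (h ▸ hαr i)
  have h1 : ∀ j, L.lg ((fA - Polynomial.C (algebraMap k K c)).eval (β j)) =
      ∑ i, L.lg (β j - α i) := fun j => hα2 _ (hbigA j).1
  have h2 : ∀ i, L.lg ((fB - Polynomial.C (algebraMap k K c')).eval (α i)) =
      ∑ j, L.lg (α i - β j) := fun i => hβ2 _ (hbigB i).1
  have hen := energy (L := L) (Nat.pos_of_ne_zero hA0) (Nat.pos_of_ne_zero hB0) α β
    (T := m) (M := adeg F.symm * m) hm0 (by positivity) hα0 (fun i => (hA6 _ (hαr i)).1 (hα0 i))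
    (fun i => (hA6 _ (hαr i)).2) hβ0 (fun j => (hB6 _ (hβr j)).1 (hβ0 j))
    (fun j => (hB6 _ (hβr j)).2) (by rw [hsα]; positivity) (by rw [hsβ]; positivity) hαβ
    (fun j => by rw [← h1]; exact (hbigA j).2) (fun i => by rw [← h2]; exact (hbigB i).2)
  rw [hsα, hsβ] at hen
  refine hen.trans ?_
  refine mul_le_mul_of_nonneg_left ?_ (by positivity)
  refine mul_le_mul_of_nonneg_left ?_ (by positivity)
  -- the fiber bound
  obtain ⟨H, hH0, hH1, hH2⟩ := hfib q q' c' _ β hq'0 hq'B rfl hβinj (by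
    intro y
    rw [← hβ1 y, Polynomial.eval_sub, Polynomial.eval_C, sub_eq_zero])
  rw [Finset.sum_comm]
  have hj : ∀ j, ∑ i, L.lg (α i - β j) ≤ P.totalDegree * H j := by
    intro j
    have h5 : ∑ i, L.lg (α i - β j) = ∑ i, L.lg (β j - α i) :=
      Finset.sum_congr rfl fun i _ => L.lg_sub_comm _ _
    rw [h5, ← h1]
    have h6 : L.le ((fA - Polynomial.C (algebraMap k K c)).eval (β j)) (P.totalDegree * H j) := by
      rw [Polynomial.eval_sub, Polynomial.eval_C, hfA, eval_dirPoly, hA, ← aeval_pt]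
      refine le.sub ?_ ((le_const c).mono (mul_nonneg (Nat.cast_nonneg _) (hH0 j)))
      exact le_aeval (hH0 j) (hH1 j) P
    exact h6 (hbigA j).1
  refine (Finset.sum_le_sum fun j _ => hj j).trans ?_
  rw [← Finset.mul_sum]
  exact mul_le_mul_of_nonneg_left hH2 (Nat.cast_nonneg _)

end Pool.Agent.H17Dyn
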