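import Pool.Agent.H17Dyn.Simple
import Pool.Agent.H17Dyn.LineGen

/-!
# The second degree of an automorphism and the fibre estimate
-/

set_option autoImplicit false
set_option linter.unusedSectionVars false

attribute [-instance] HahnSeries.powerSeriesAlgebra

namespace Pool.Agent.H17Dyn

open LgData Polynomial

section Defs

variable {d : ℕ} {k : Type*} [Field k]

/-- the pairs `(u, v)` such that the automorphism maps `a + u b + v c` into `{l₁ = l₂ = 0}` -/
def planeSet (G : MvPolynomial (Fin d) k ≃ₐ[k] MvPolynomial (Fin d) k) (a b c : Fin d → k)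
    (l₁ l₂ : MvPolynomial (Fin d) k) : Set (k × k) :=
  {w | MvPolynomial.eval (fun i => a i + w.1 * b i + w.2 * c i) (G l₁) = 0 ∧
    MvPolynomial.eval (fun i => a i + w.1 * b i + w.2 * c i) (G l₂) = 0}

/-- the second degree of `G` is at most `D` -/
def Deg2Le (G : MvPolynomial (Fin d) k ≃ₐ[k] MvPolynomial (Fin d) k) (D : ℝ) : Prop :=
  ∀ (a b c : Fin d → k) (l₁ l₂ : MvPolynomial (Fin d) k), l₁.totalDegree ≤ 1 →
    l₂.totalDegree ≤ 1 → (planeSet G a b c l₁ l₂).Finite →
    ((planeSet G a b c l₁ l₂).ncard : ℝ) ≤ D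

/-- the second degree of `G` is at most `D`, for independent directions and forms -/
def Deg2W (G : MvPolynomial (Fin d) k ≃ₐ[k] MvPolynomial (Fin d) k) (D : ℝ) : Prop :=
  ∀ (b c : Fin d → k) (i1 i2 : Fin d), b i1 * c i2 - b i2 * c i1 ≠ 0 →
    ∀ (i0 : Fin d) (u : Fin d → k) (j : Fin d), j ≠ i0 → u j ≠ 0 → ∀ (c₁ c₂ : k),
    (planeSet G 0 b c (MvPolynomial.X i0 - MvPolynomial.C c₁)
      (∑ i, MvPolynomial.C (u i) * MvPolynomial.X i - MvPolynomial.C c₂)).Finite →
    ((planeSet G 0 b c (MvPolynomial.X i0 - MvPolynomial.C c₁)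
      (∑ i, MvPolynomial.C (u i) * MvPolynomial.X i - MvPolynomial.C c₂)).ncard : ℝ) ≤ D

end Defs

section Res

variable {d : ℕ} {k : Type*} [Field k]

/-- the resultant of the restrictions of `B - c'` and `M - c` to a line -/
noncomputable def resPoly {T : Type*} [CommRing T] [Algebra k T] (x : Fin d → T) (q : Fin d → k)
    (B M : MvPolynomial (Fin d) k) (c' c : T) : T :=
  resultant (dirPoly x q B - C c') (dirPoly x q M - C c) B.totalDegree M.totalDegree

lemma map_resPoly {T T' : Type*} [CommRing T] [Algebra k T] [CommRing T'] [Algebra k T']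
    (f : T →ₐ[k] T') (x : Fin d → T) (q : Fin d → k) (B M : MvPolynomial (Fin d) k) (c' c : T) :
    f (resPoly x q B M c' c) = resPoly (fun i => f (x i)) q B M (f c') (f c) := by
  have h := resultant_map_map (dirPoly x q B - C c') (dirPoly x q M - C c) B.totalDegree
    M.totalDegree (f : T →+* T')
  rw [Polynomial.map_sub, Polynomial.map_sub, map_dirPoly, map_dirPoly, Polynomial.map_C,
    Polynomial.map_C] at h
  exact h.symm

lemma natDegree_dirPoly_sub {T : Type*} [Field T] [Algebra k T] (x : Fin d → T) {q : Fin d → k}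
    {B : MvPolynomial (Fin d) k} (hB : B.totalDegree ≠ 0)
    (hq : MvPolynomial.eval q (topForm B) ≠ 0) (c : T) :
    (dirPoly x q B - C c).natDegree = B.totalDegree ∧ dirPoly x q B - C c ≠ 0 ∧
      (dirPoly x q B - C c).leadingCoeff =
        algebraMap k T (MvPolynomial.eval q (topForm B)) := by
  have hcoef : (dirPoly x q B - C c).coeff B.totalDegree =
      algebraMap k T (MvPolynomial.eval q (topForm B)) := by
    rw [coeff_sub, coeff_C, if_neg hB, sub_zero, coeff_dirPoly_top _ _ _ le_rfl]
    rfl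
  have hne : algebraMap k T (MvPolynomial.eval q (topForm B)) ≠ 0 :=
    (map_ne_zero_iff _ (algebraMap k T).injective).2 hq
  have hnd : (dirPoly x q B - C c).natDegree = B.totalDegree := by
    refine natDegree_eq_of_le_of_coeff_ne_zero ?_ (by rw [hcoef]; exact hne)
    rw [natDegree_sub_C]
    exact natDegree_dirPoly_le _ _ _
  refine ⟨hnd, ?_, ?_⟩
  · intro h
    rw [h, natDegree_zero] at hnd
    exact hB hnd.symm
  · rw [leadingCoeff, hnd, hcoef]

lemma resPoly_eq {T : Type*} [Field T] [IsAlgClosed T] [Algebra k T] (x : Fin d → T)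
    {q : Fin d → k} {B : MvPolynomial (Fin d) k} (hB : B.totalDegree ≠ 0)
    (hq : MvPolynomial.eval q (topForm B) ≠ 0) (M : MvPolynomial (Fin d) k) (c' c : T) :
    resPoly x q B M c' c = algebraMap k T (MvPolynomial.eval q (topForm B) ^ M.totalDegree) *
      ((dirPoly x q B - C c').roots.map fun y =>
        MvPolynomial.aeval (fun i => x i + algebraMap k T (q i) * y) M - c).prod := by
  obtain ⟨h1, h2, h3⟩ := natDegree_dirPoly_sub x hB hq c'
  have h4 := resultant_eq_prod_eval (dirPoly x q B - C c') (dirPoly x q M - C c) M.totalDegree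
    (by
      rw [natDegree_sub_C]
      exact natDegree_dirPoly_le _ _ _) (IsAlgClosed.splits _)
  rw [h1, h3] at h4
  rw [resPoly, h4, map_pow]
  congr 2
  refine Multiset.map_congr rfl fun y _ => ?_
  rw [eval_sub, eval_C, eval_dirPoly]

lemma roots_eq_of_enum {T : Type*} [Field T] {f : T[X]} {b : ℕ} (hf0 : f ≠ 0)
    (hnd : f.natDegree = b) {β : Fin b → T} (hinj : Function.Injective β)
    (hβ : ∀ y, f.eval y = 0 ↔ ∃ j, β j = y) : f.roots = Finset.univ.val.map β := by
  have hnodup : (Finset.univ.val.map β).Nodup := Multiset.Nodup.map hinj Finset.univ.nodup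
  have hle : Finset.univ.val.map β ≤ f.roots := by
    rw [Multiset.le_iff_subset hnodup]
    intro y hy
    obtain ⟨j, -, rfl⟩ := Multiset.mem_map.1 hy
    rw [mem_roots hf0, IsRoot.def, hβ]
    exact ⟨j, rfl⟩
  refine (Multiset.eq_of_le_of_card_le hle ?_).symm
  rw [Multiset.card_map]
  have h1 := card_roots' f
  rw [hnd] at h1
  simpa using h1

/-- the value of the resultant, with enumerated roots -/
lemma resPoly_eq_enum {T : Type*} [Field T] [IsAlgClosed T] [Algebra k T] (x : Fin d → T)
    {q : Fin d → k} {B : MvPolynomial (Fin d) k} (hB : B.totalDegree ≠ 0)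
    (hq : MvPolynomial.eval q (topForm B) ≠ 0) (M : MvPolynomial (Fin d) k) (c' c : T) {b : ℕ}
    (hb : b = B.totalDegree) {β : Fin b → T} (hinj : Function.Injective β)
    (hβ : ∀ y, (dirPoly x q B).eval y = c' ↔ ∃ j, β j = y) :
    resPoly x q B M c' c = algebraMap k T (MvPolynomial.eval q (topForm B) ^ M.totalDegree) *
      ∏ j, (MvPolynomial.aeval (fun i => x i + algebraMap k T (q i) * β j) M - c) := by
  obtain ⟨h1, h2, h3⟩ := natDegree_dirPoly_sub x hB hq c'
  rw [resPoly_eq x hB hq, roots_eq_of_enum h2 (h1.trans hb.symm) hinj (by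
    intro y
    rw [eval_sub, eval_C, sub_eq_zero]
    exact hβ y), Multiset.map_map]
  rfl

/-- the linear form with coefficients `u` -/
noncomputable def linPoly (u : Fin d → k) : MvPolynomial (Fin d) k :=
  ∑ i, MvPolynomial.C (u i) * MvPolynomial.X i

lemma aeval_linPoly {K : Type*} [Field K] [Algebra k K] (u : Fin d → k) (z : Fin d → K) :
    MvPolynomial.aeval z (linPoly u) = linForm u z := by
  rw [linPoly, map_sum, linForm]
  refine Finset.sum_congr rfl fun i _ => ?_
  rw [map_mul, MvPolynomial.algHom_C, MvPolynomial.aeval_X]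

lemma totalDegree_linPoly_sub_le (u : Fin d → k) (c : k) :
    (linPoly u - MvPolynomial.C c).totalDegree ≤ 1 := by
  refine (MvPolynomial.totalDegree_sub _ _).trans (max_le ?_ ?_)
  · refine MvPolynomial.totalDegree_finsetSum_le fun i _ => ?_
    refine (MvPolynomial.totalDegree_mul _ _).trans ?_
    rw [MvPolynomial.totalDegree_C, MvPolynomial.totalDegree_X]
  · rw [MvPolynomial.totalDegree_C]
    exact Nat.zero_le _

lemma Deg2Le.weak {G : MvPolynomial (Fin d) k ≃ₐ[k] MvPolynomial (Fin d) k} {D : ℝ}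
    (h : Deg2Le G D) : Deg2W G D := by
  intro b c i1 i2 _ i0 u j _ _ c₁ c₂ hfin
  refine h 0 b c _ _ ?_ (totalDegree_linPoly_sub_le u c₂) hfin
  refine (MvPolynomial.totalDegree_sub _ _).trans (max_le ?_ ?_)
  · rw [MvPolynomial.totalDegree_X]
  · rw [MvPolynomial.totalDegree_C]
    exact Nat.zero_le _

lemma aeval_pt_linPoly {K : Type*} [Field K] [Algebra k K]
    (G : MvPolynomial (Fin d) k ≃ₐ[k] MvPolynomial (Fin d) k) (u : Fin d → k) (x : Fin d → K) :
    MvPolynomial.aeval x (G (linPoly u)) = linForm u (pt G x) := by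
  rw [← aeval_pt, aeval_linPoly]

end Res

end Pool.Agent.H17Dyn
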