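import Pool.Agent.H17Dyn.Deg2
import Pool.Agent.H17Dyn.Aut

/-!
# The second degree of an automorphism of affine three-space
-/

set_option autoImplicit false

attribute [-instance] HahnSeries.powerSeriesAlgebra

namespace Pool.Agent.H17Dyn

open Polynomial

variable {k : Type*} [Field k]

lemma natDegree_aeval_le_one {d : ℕ} (Y : Fin d → k[X]) (hY : ∀ i, (Y i).natDegree ≤ 1)
    (P : MvPolynomial (Fin d) k) : (MvPolynomial.aeval Y P).natDegree ≤ P.totalDegree := by
  rw [MvPolynomial.aeval_def, MvPolynomial.eval₂_eq']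
  refine natDegree_sum_le_of_forall_le _ _ fun e he => ?_
  refine natDegree_mul_le.trans ?_
  rw [Polynomial.algebraMap_apply, Algebra.algebraMap_self, RingHom.id_apply, natDegree_C, zero_add]
  refine (natDegree_prod_le _ _).trans ?_
  have h2 : ∑ i, (Y i ^ e i).natDegree ≤ ∑ i, e i := by
    refine Finset.sum_le_sum fun i _ => natDegree_pow_le.trans ?_
    calc e i * (Y i).natDegree ≤ e i * 1 := Nat.mul_le_mul_left _ (hY i)
      _ = e i := mul_one _
  have h3 := MvPolynomial.le_totalDegree he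
  rw [Finsupp.sum_fintype _ _ fun _ => rfl] at h3
  exact h2.trans h3

lemma third (i j : Fin 3) (h : i ≠ j) : ∃ l : Fin 3, l ≠ i ∧ l ≠ j ∧ ∀ m, m = i ∨ m = j ∨ m = l := by
  revert i j
  decide

lemma sum_three {M : Type*} [AddCommMonoid M] {i j l : Fin 3} (h1 : i ≠ j) (h2 : l ≠ i)
    (h3 : l ≠ j) (h : ∀ m, m = i ∨ m = j ∨ m = l) (f : Fin 3 → M) : ∑ m, f m = f i + f j + f l := by
  have hu : (Finset.univ : Finset (Fin 3)) = {i, j, l} := by
    ext m
    simp only [Finset.mem_univ, Finset.mem_insert, Finset.mem_singleton, true_iff]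
    exact h m
  rw [hu, Finset.sum_insert, Finset.sum_insert, Finset.sum_singleton, add_assoc]
  · rw [Finset.mem_singleton]
    exact h3.symm
  · rw [Finset.mem_insert, Finset.mem_singleton]
    rintro (h4 | h4)
    · exact h1 h4
    · exact h2 h4.symm

/-- **In dimension three the second degree is the degree of the inverse.** -/
theorem deg2W_three [Infinite k] (G : MvPolynomial (Fin 3) k ≃ₐ[k] MvPolynomial (Fin 3) k) :
    Deg2W G (adeg G.symm : ℝ) := by
  classical
  intro b c i1 i2 hD i0 u j hj huj c₁ c₂ hfin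
  set PS := planeSet G 0 b c (MvPolynomial.X i0 - MvPolynomial.C c₁)
      (∑ i, MvPolynomial.C (u i) * MvPolynomial.X i - MvPolynomial.C c₂) with hPS
  have hi12 : i1 ≠ i2 := by
    rintro rfl
    exact hD (sub_self _)
  obtain ⟨i3, h31, h32, h3⟩ := third i1 i2 hi12
  obtain ⟨l, hl0, hlj, hl⟩ := third i0 j hj.symm
  set D : k := b i1 * c i2 - b i2 * c i1 with hDd
  -- points of the plane
  set xx : k × k → Fin 3 → k := fun w i => w.1 * b i + w.2 * c i with hxx
  have hae : ∀ (x : Fin 3 → k) (P : MvPolynomial (Fin 3) k),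
      MvPolynomial.eval x P = MvPolynomial.aeval x P := fun x P => by
    rw [MvPolynomial.aeval_def, Algebra.algebraMap_self, MvPolynomial.eval₂_id]
  have hmem : ∀ w, w ∈ PS ↔ pt G (xx w) i0 = c₁ ∧ ∑ i, u i * pt G (xx w) i = c₂ := by
    intro w
    have h1 : (fun i => (0 : Fin 3 → k) i + w.1 * b i + w.2 * c i) = xx w := by
      funext i
      simp [hxx]
    rw [hPS, planeSet, Set.mem_ofPred_eq, h1, hae, hae, ← aeval_pt, ← aeval_pt, map_sub,
      map_sub, MvPolynomial.aeval_X, MvPolynomial.aeval_C, MvPolynomial.aeval_C, map_sum,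
      sub_eq_zero, sub_eq_zero]
    simp only [map_mul, MvPolynomial.aeval_C, MvPolynomial.aeval_X, Algebra.algebraMap_self,
      RingHom.id_apply]
  -- the line
  set Y : Fin 3 → k[X] := fun i => if i = i0 then C c₁ else
    if i = j then C (u j)⁻¹ * (C (c₂ - u i0 * c₁) - C (u l) * X) else X with hY
  have hYi0 : Y i0 = C c₁ := by simp [hY]
  have hYj : Y j = C (u j)⁻¹ * (C (c₂ - u i0 * c₁) - C (u l) * X) := by simp [hY, hj]
  have hYl : Y l = X := by simp [hY, hl0, hlj]
  have hYd : ∀ i, (Y i).natDegree ≤ 1 := by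
    intro i
    rcases hl i with rfl | rfl | rfl
    · rw [hYi0, natDegree_C]
      exact Nat.zero_le _
    · rw [hYj]
      refine (natDegree_C_mul_le _ _).trans ?_
      refine (natDegree_sub_le _ _).trans (max_le ?_ ?_)
      · rw [natDegree_C]
        exact Nat.zero_le _
      · exact (natDegree_C_mul_le _ _).trans natDegree_X_le
    · rw [hYl]
      exact natDegree_X_le
  set yy : k → Fin 3 → k := fun τ i => (Y i).eval τ with hyy
  have hF1 : ∀ y : Fin 3 → k, y i0 = c₁ → ∑ i, u i * y i = c₂ → y = yy (y l) := by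
    intro y h1 h2
    rw [sum_three hj.symm hl0 hlj hl] at h2
    funext i
    rcases hl i with rfl | rfl | rfl
    · simp only [hyy]
      rw [hYi0, eval_C, h1]
    · simp only [hyy]
      rw [hYj, eval_mul, eval_C, eval_sub, eval_C, eval_mul, eval_C, eval_X]
      rw [eq_inv_mul_iff_mul_eq₀ huj, ← h2, h1]
      ring
    · simp only [hyy]
      rw [hYl, eval_X]
  have hF2 : ∀ τ, yy τ i0 = c₁ ∧ ∑ i, u i * yy τ i = c₂ ∧ yy τ l = τ := by
    intro τ
    have h1 : yy τ i0 = c₁ := by
      simp only [hyy]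
      rw [hYi0, eval_C]
    have h2 : yy τ l = τ := by
      simp only [hyy]
      rw [hYl, eval_X]
    refine ⟨h1, ?_, h2⟩
    rw [sum_three hj.symm hl0 hlj hl, h1, h2]
    simp only [hyy]
    rw [hYj, eval_mul, eval_C, eval_sub, eval_C, eval_mul, eval_C, eval_X]
    field_simp
    ring
  -- the restriction of the plane equation
  set Z : Fin 3 → k[X] := fun i => MvPolynomial.aeval Y (G.symm (MvPolynomial.X i)) with hZ
  have hZe : ∀ τ i, (Z i).eval τ = pt G.symm (yy τ) i := by
    intro τ i
    have h1 : (Polynomial.aeval τ : k[X] →ₐ[k] k).comp (MvPolynomial.aeval Y) =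
        MvPolynomial.aeval (yy τ) := by
      apply MvPolynomial.algHom_ext
      intro i
      simp [hyy, Polynomial.coe_aeval_eq_eval]
    have h2 := congrArg (fun f => f (G.symm (MvPolynomial.X i))) h1
    simp only [AlgHom.comp_apply] at h2
    rw [pt, ← h2, Polynomial.coe_aeval_eq_eval]
  have hZd : ∀ i, (Z i).natDegree ≤ adeg G.symm := fun i =>
    (natDegree_aeval_le_one Y hYd _).trans (totalDegree_X_le G.symm i)
  set R : k[X] := C D * Z i3 - C (b i3) * (C (c i2) * Z i1 - C (c i1) * Z i2) -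
    C (c i3) * (C (b i1) * Z i2 - C (b i2) * Z i1) with hR
  have hRd : R.natDegree ≤ adeg G.symm := by
    have hC : ∀ (a : k) {p : k[X]}, p.natDegree ≤ adeg G.symm →
        (C a * p).natDegree ≤ adeg G.symm := fun a p hp => (natDegree_C_mul_le _ _).trans hp
    have hS : ∀ {p q : k[X]}, p.natDegree ≤ adeg G.symm → q.natDegree ≤ adeg G.symm →
        (p - q).natDegree ≤ adeg G.symm := fun hp hq => (natDegree_sub_le _ _).trans (max_le hp hq)
    exact hS (hS (hC _ (hZd _)) (hC _ (hS (hC _ (hZd _)) (hC _ (hZd _)))))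
      (hC _ (hS (hC _ (hZd _)) (hC _ (hZd _))))
  have hRe : ∀ τ, R.eval τ = D * pt G.symm (yy τ) i3 -
      b i3 * (c i2 * pt G.symm (yy τ) i1 - c i1 * pt G.symm (yy τ) i2) -
      c i3 * (b i1 * pt G.symm (yy τ) i2 - b i2 * pt G.symm (yy τ) i1) := by
    intro τ
    rw [hR]
    simp only [eval_sub, eval_mul, eval_C, hZe]
  -- the parameter of the image of a point
  set g : k × k → k := fun w => pt G (xx w) l with hg
  have hgy : ∀ w ∈ PS, pt G (xx w) = yy (g w) := fun w hw =>
    hF1 _ ((hmem w).1 hw).1 ((hmem w).1 hw).2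
  have hgx : ∀ w ∈ PS, xx w = pt G.symm (yy (g w)) := fun w hw => by
    rw [← hgy w hw, pt_symm_pt]
  have hxinj : ∀ w w', xx w = xx w' → w = w' := by
    intro w w' h
    have e1 : w.1 * b i1 + w.2 * c i1 = w'.1 * b i1 + w'.2 * c i1 := congrFun h i1
    have e2 : w.1 * b i2 + w.2 * c i2 = w'.1 * b i2 + w'.2 * c i2 := congrFun h i2
    have h1 : D * (w.1 - w'.1) = 0 := by
      rw [hDd]
      linear_combination c i2 * e1 - c i1 * e2
    have h2 : D * (w.2 - w'.2) = 0 := by
      rw [hDd]
      linear_combination b i1 * e2 - b i2 * e1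
    exact Prod.ext (sub_eq_zero.1 ((mul_eq_zero.1 h1).resolve_left hD))
      (sub_eq_zero.1 ((mul_eq_zero.1 h2).resolve_left hD))
  have hginj : Set.InjOn g PS := by
    intro w hw w' hw' h
    apply hxinj
    rw [hgx w hw, hgx w' hw', h]
  have hgR : ∀ w ∈ PS, R.eval (g w) = 0 := by
    intro w hw
    rw [hRe, ← hgx w hw, hDd]
    simp only [hxx]
    ring
  have hR0 : R ≠ 0 := by
    intro h0
    set h : k → k × k := fun τ =>
      ((c i2 * pt G.symm (yy τ) i1 - c i1 * pt G.symm (yy τ) i2) / D,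
        (b i1 * pt G.symm (yy τ) i2 - b i2 * pt G.symm (yy τ) i1) / D) with hh
    have hx : ∀ τ, xx (h τ) = pt G.symm (yy τ) := by
      intro τ
      funext i
      rcases h3 i with rfl | rfl | rfl
      · simp only [hxx, hh]
        field_simp
        rw [hDd]
        ring
      · simp only [hxx, hh]
        field_simp
        rw [hDd]
        ring
      · have h5 := hRe τ
        rw [h0, eval_zero] at h5
        simp only [hxx, hh]
        field_simp
        linear_combination h5
    have hy : ∀ τ, pt G (xx (h τ)) = yy τ := fun τ => by rw [hx, pt_pt_symm]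
    have hmem' : ∀ τ, h τ ∈ PS := fun τ => by
      rw [hmem, hy]
      exact ⟨(hF2 τ).1, (hF2 τ).2.1⟩
    have hinj : Function.Injective h := by
      intro τ τ' hττ
      have h6 := hy τ
      rw [hττ, hy τ'] at h6
      rw [← (hF2 τ).2.2, ← (hF2 τ').2.2, h6]
    exact Set.infinite_range_of_injective hinj (hfin.subset (by
      rintro _ ⟨τ, rfl⟩
      exact hmem' τ))
  have h1 : PS.ncard ≤ ((R.roots.toFinset : Finset k) : Set k).ncard := by
    refine Set.ncard_le_ncard_of_injOn g (fun w hw => ?_) hginj (Finset.finite_toSet _)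
    rw [Finset.mem_coe, Multiset.mem_toFinset, mem_roots hR0]
    exact hgR w hw
  rw [Set.ncard_coe_finset] at h1
  have h2 : PS.ncard ≤ adeg G.symm :=
    h1.trans ((Multiset.toFinset_card_le _).trans ((card_roots' R).trans hRd))
  exact_mod_cast h2

end Pool.Agent.H17Dyn
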