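import Pool.Agent.H17Dyn.Val

/-!
# Immediate extensions: algebraic elements are limits
-/

set_option autoImplicit false
set_option linter.unusedSectionVars false

namespace Pool.Agent.H17Dyn

open LgData Polynomial

variable {k K : Type*} [Field k] [Field K] [Algebra k K] (L : LgData k K)

/-- the closure of a set -/
def Cl (S : Set K) : Set K := {y | ∀ T : ℝ, ∃ f ∈ S, L.le (y - f) (-T)}

/-- every element can be approximated by an element of the set -/
def Full (S : Set K) : Prop := ∀ y : K, y ≠ 0 → ∃ g ∈ S, y - g = 0 ∨ L.lg (y - g) < L.lg y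

/-- polynomials which are close to `1` -/
def Sm (ε : ℝ) (f : K[X]) : Prop := f.coeff 0 = 1 ∧ ∀ n, 1 ≤ n → L.le (f.coeff n) (-ε)

variable {L} {ε : ℝ}

lemma Sm.one : Sm L ε (1 : K[X]) := by
  refine ⟨by simp, fun n hn => ?_⟩
  rw [coeff_one, if_neg (by omega)]
  exact le_zero _

lemma Sm.linear {w : K} (hw : L.le w (-ε)) : Sm L ε (1 - C w * X) := by
  refine ⟨by simp, fun n hn => ?_⟩
  rw [coeff_sub, coeff_one, if_neg (by omega), zero_sub, coeff_C_mul, coeff_X]
  split_ifs with h
  · rw [mul_one]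
    exact hw.neg
  · rw [mul_zero, neg_zero]
    exact le_zero _

lemma Sm.mul (hε : 0 ≤ ε) {f g : K[X]} (hf : Sm L ε f) (hg : Sm L ε g) : Sm L ε (f * g) := by
  refine ⟨by rw [mul_coeff_zero, hf.1, hg.1, mul_one], fun n hn => ?_⟩
  rw [coeff_mul]
  refine le_sum fun p hp => ?_
  have hp' := Finset.HasAntidiagonal.mem_antidiagonal.1 hp
  rcases Nat.eq_zero_or_pos p.1 with h1 | h1
  · have h2 : 1 ≤ p.2 := by omega
    rw [h1, hf.1, one_mul]
    exact hg.2 _ h2
  · rcases Nat.eq_zero_or_pos p.2 with h2 | h2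
    · rw [h2, hg.1, mul_one]
      exact hf.2 _ h1
    · exact ((hf.2 _ h1).mul (hg.2 _ h2)).mono (by linarith)

/-- restriction of a split polynomial to a disc without roots -/
lemma comp_multiset (hε : 0 ≤ ε) (a h : K) (m : Multiset K)
    (hm : ∀ z ∈ m, z ≠ a ∧ L.le (h / (z - a)) (-ε)) :
    ∃ S : K[X], Sm L ε S ∧ ((m.map fun z => X - C z).prod).comp (C a + C h * X) =
      C (((m.map fun z => X - C z).prod).eval a) * S := by
  induction m using Multiset.induction_on with
  | empty => exact ⟨1, Sm.one, by simp⟩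
  | cons z m ih =>
    obtain ⟨S, hS1, hS2⟩ := ih fun z hz => hm z (Multiset.mem_cons_of_mem hz)
    obtain ⟨hz1, hz2⟩ := hm z (Multiset.mem_cons_self z m)
    refine ⟨(1 - C (h / (z - a)) * X) * S, (Sm.linear hz2).mul hε hS1, ?_⟩
    rw [Multiset.map_cons, Multiset.prod_cons, mul_comp, hS2, eval_mul, C_mul]
    have h1 : (X - C z).comp (C a + C h * X) =
        C ((X - C z).eval a) * (1 - C (h / (z - a)) * X) := by
      have h2 : z - a ≠ 0 := sub_ne_zero.2 hz1
      have h3 : (a - z) * (h / (z - a)) = -h := by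
        field_simp
        ring
      rw [sub_comp, X_comp, C_comp, eval_sub, eval_X, eval_C, mul_sub, mul_one, ← mul_assoc,
        ← C_mul, h3, C_neg, C_sub]
      ring
    rw [h1]
    ring

lemma comp_split [IsAlgClosed K] (hε : 0 ≤ ε) {Q : K[X]} (a h : K)
    (hm : ∀ z ∈ Q.roots, z ≠ a ∧ L.le (h / (z - a)) (-ε)) :
    ∃ S : K[X], Sm L ε S ∧ Q.comp (C a + C h * X) = C (Q.eval a) * S := by
  obtain ⟨S, hS1, hS2⟩ := comp_multiset hε a h Q.roots hm
  refine ⟨S, hS1, ?_⟩
  have h1 : Q = C Q.leadingCoeff * (Q.roots.map fun z => X - C z).prod :=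
    (IsAlgClosed.splits Q).eq_prod_roots
  conv_lhs => rw [h1]
  rw [mul_comp, C_comp, hS2, ← mul_assoc, ← C_mul]
  congr 2
  conv_rhs => rw [h1]
  rw [eval_mul, eval_C]

lemma exists_gap (m : Multiset K) (a : K) (s : ℝ) (hm : ∀ z ∈ m, ¬ L.le (z - a) s) :
    ∃ s' : ℝ, s < s' ∧ ∀ z ∈ m, z ≠ a ∧ s' ≤ L.lg (z - a) := by
  induction m using Multiset.induction_on with
  | empty => exact ⟨s + 1, by linarith, fun z hz => absurd hz (Multiset.notMem_zero z)⟩
  | cons z m ih =>
    obtain ⟨s', h1, h2⟩ := ih fun z hz => hm z (Multiset.mem_cons_of_mem hz)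
    have h3 := hm z (Multiset.mem_cons_self z m)
    unfold LgData.le at h3
    push Not at h3
    refine ⟨min s' (L.lg (z - a)), lt_min h1 h3.2, fun w hw => ?_⟩
    rcases Multiset.mem_cons.1 hw with rfl | hw
    · exact ⟨sub_ne_zero.1 h3.1, min_le_right _ _⟩
    · exact ⟨(h2 w hw).1, (min_le_left _ _).trans (h2 w hw).2⟩

lemma lg_div {x y : K} (hx : x ≠ 0) (hy : y ≠ 0) : L.lg (x / y) = L.lg x - L.lg y := by
  have h := L.lg_mul (div_ne_zero hx hy) hy
  rw [div_mul_cancel₀ _ hy] at h
  linarith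

lemma lg_inv {x : K} (hx : x ≠ 0) : L.lg x⁻¹ = -L.lg x := by
  rw [← one_div, lg_div one_ne_zero hx, L.lg_one, zero_sub]

section CharZero

variable [CharZero k]

lemma lg_natCast {n : ℕ} (hn : n ≠ 0) : (n : K) ≠ 0 ∧ L.lg (n : K) = 0 := by
  have h1 : (n : K) = algebraMap k K n := by simp
  have h2 : (n : k) ≠ 0 := by exact_mod_cast hn
  rw [h1]
  exact ⟨(map_ne_zero_iff _ (algebraMap k K).injective).2 h2, L.lg_const h2⟩

lemma le_div_natCast {n : ℕ} (hn : n ≠ 0) {x : K} {r : ℝ} (hx : L.le x r) :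
    L.le (x / n) r := by
  intro h
  have hx0 : x ≠ 0 := by
    rintro rfl
    simp at h
  rw [lg_div hx0 (lg_natCast (L := L) hn).1, (lg_natCast (L := L) hn).2, sub_zero]
  exact hx hx0

/-- a non-archimedean Gauss-Lucas theorem -/
lemma gauss_lucas [IsAlgClosed K] [CharZero K] {Q : K[X]} {y y' : K} (hy : Q.eval y = 0)
    (hy' : Q.eval y' = 0) (hne : y' ≠ y) (hQ : Q ≠ 0) :
    ∃ z ∈ (derivative Q).roots, L.le (z - y) (L.lg (y' - y)) := by
  by_contra hcon
  push Not at hcon
  obtain ⟨s', hs', hroots⟩ := exists_gap (L := L) (derivative Q).roots y (L.lg (y' - y)) hcon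
  set h := y' - y with hh
  have hh0 : h ≠ 0 := sub_ne_zero.2 hne
  set ε : ℝ := s' - L.lg h with hε
  have hε0 : 0 < ε := by linarith
  obtain ⟨S, hS1, hS2⟩ := comp_split (L := L) hε0.le (Q := derivative Q) y h (by
    intro z hz
    obtain ⟨h1, h2⟩ := hroots z hz
    refine ⟨h1, fun _ => ?_⟩
    rw [lg_div hh0 (sub_ne_zero.2 h1)]
    linarith)
  have hQ' : derivative Q ≠ 0 := by
    intro h0
    have h1 := derivative_eq_zero.1 h0
    rw [natDegree_eq_zero] at h1
    obtain ⟨c, rfl⟩ := h1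
    rw [eval_C] at hy
    rw [hy, C_0] at hQ
    exact hQ rfl
  have hQy : (derivative Q).eval y ≠ 0 := by
    intro h0
    exact (hroots y ((mem_roots hQ').2 h0)).1 rfl
  set R := Q.comp (C y + C h * X) with hR
  set c := h * (derivative Q).eval y with hc
  have hc0 : c ≠ 0 := mul_ne_zero hh0 hQy
  have hdR : derivative R = C c * S := by
    rw [hR, derivative_comp, hS2, derivative_add, derivative_C, zero_add, derivative_C_mul,
      derivative_X, mul_one, ← mul_assoc, ← C_mul]
  have hR0 : R.coeff 0 = 0 := by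
    rw [coeff_zero_eq_eval_zero, hR, eval_comp]
    simpa using hy
  have hR1 : R.eval 1 = 0 := by
    rw [hR, eval_comp]
    simp only [eval_add, eval_C, eval_mul, eval_X, mul_one]
    rw [hh, add_sub_cancel]
    exact hy'
  have hcoef : ∀ n : ℕ, R.coeff (n + 1) = c * (S.coeff n / ((n + 1 : ℕ) : K)) := by
    intro n
    have h1 := coeff_derivative R n
    rw [hdR, coeff_C_mul] at h1
    have h2 : ((n + 1 : ℕ) : K) ≠ 0 := Nat.cast_ne_zero.2 (Nat.succ_ne_zero n)
    rw [← mul_div_assoc, h1, eq_div_iff h2]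
    push_cast
    ring
  have hnd : R.natDegree ≠ 0 := by
    intro h0
    have h1 := hcoef 0
    rw [hS1.1, coeff_eq_zero_of_natDegree_lt (by omega)] at h1
    have h2 : c * (1 / ((0 + 1 : ℕ) : K)) = c := by simp
    rw [h2] at h1
    exact hc0 h1.symm
  obtain ⟨m, hm⟩ := Nat.exists_eq_succ_of_ne_zero hnd
  have hsum : R.eval 1 = c * (1 + ∑ i ∈ Finset.range m,
      S.coeff (i + 1) / ((i + 1 + 1 : ℕ) : K)) := by
    rw [eval_eq_sum_range, hm, Finset.sum_range_succ', Finset.sum_range_succ']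
    simp only [one_pow, mul_one]
    rw [hR0, add_zero, hcoef 0, hS1.1, Finset.sum_congr rfl fun i _ => hcoef (i + 1),
      ← Finset.mul_sum, zero_add, Nat.cast_one, div_one]
    ring
  have hsmall : L.le (∑ i ∈ Finset.range m, S.coeff (i + 1) / ((i + 1 + 1 : ℕ) : K)) (-ε) :=
    le_sum fun i _ => le_div_natCast (Nat.succ_ne_zero _) (hS1.2 _ (Nat.succ_le_succ (Nat.zero_le _)))
  have h1 := lg_add_eq' (L := L) one_ne_zero hsmall (by rw [L.lg_one]; linarith)
  rw [hsum] at hR1
  exact (mul_ne_zero hc0 h1.1) hR1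

/-- Newton's method -/
lemma newton_step [IsAlgClosed K] {Q₂ : K[X]} {f y : K} (hf : Q₂.eval f ≠ 0) (hyf : y - f ≠ 0)
    (hε : 0 < ε) (hroots : ∀ z ∈ Q₂.roots, z ≠ f ∧ L.le ((y - f) / (z - f)) (-ε)) :
    L.le (f - ((X - C y) * Q₂).eval f / (derivative ((X - C y) * Q₂)).eval f - y)
      (L.lg (y - f) - ε) := by
  obtain ⟨S, hS1, hS2⟩ := comp_split (L := L) hε.le (Q := Q₂) f (y - f) hroots
  set h := y - f with hh
  have hder : h * (derivative Q₂).eval f = Q₂.eval f * S.coeff 1 := by
    have h1 : (Q₂.comp (C f + C h * X)).coeff 1 = (C (Q₂.eval f) * S).coeff 1 := by rw [hS2]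
    rw [coeff_C_mul] at h1
    rw [← h1]
    have h2 := coeff_derivative (Q₂.comp (C f + C h * X)) 0
    rw [zero_add, Nat.cast_zero, zero_add, mul_one] at h2
    rw [← h2, derivative_comp, coeff_zero_eq_eval_zero, eval_mul, eval_comp]
    simp
  have hnum : ((X - C y) * Q₂).eval f = -h * Q₂.eval f := by
    rw [eval_mul, eval_sub, eval_X, eval_C, hh]
    ring
  have hden : (derivative ((X - C y) * Q₂)).eval f = Q₂.eval f * (1 - S.coeff 1) := by
    rw [derivative_mul, derivative_X_sub_C, one_mul, eval_add, eval_mul, eval_sub, eval_X,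
      eval_C]
    have : (f - y) * (derivative Q₂).eval f = -(h * (derivative Q₂).eval f) := by
      rw [hh]
      ring
    rw [this, hder]
    ring
  have h1 := lg_add_eq' (L := L) (x := 1) (y := -S.coeff 1) one_ne_zero
    (hS1.2 1 le_rfl).neg (by rw [L.lg_one]; linarith)
  rw [L.lg_one, ← sub_eq_add_neg] at h1
  rw [hnum, hden]
  have h2 : f - -h * Q₂.eval f / (Q₂.eval f * (1 - S.coeff 1)) - y =
      h * (S.coeff 1 / (1 - S.coeff 1)) := by
    have h3 := h1.1
    have h4 : f - y = -h := by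
      rw [hh]
      ring
    have h5 : f - -h * Q₂.eval f / (Q₂.eval f * (1 - S.coeff 1)) - y =
      (f - y) + h / (1 - S.coeff 1) := by
      field_simp
      ring
    rw [h5, h4]
    field_simp
    ring
  rw [h2]
  have h6 : L.le (S.coeff 1 / (1 - S.coeff 1)) (-ε) := by
    intro h7
    have h8 : S.coeff 1 ≠ 0 := by
      intro h9
      rw [h9, zero_div] at h7
      exact h7 rfl
    rw [lg_div h8 h1.1, h1.2, sub_zero]
    exact hS1.2 1 le_rfl h8
  exact (LgData.le.mul (fun _ => le_rfl) h6).mono (by linarith)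

/-- **Algebraic elements over a full subfield are limits.** -/
theorem mem_cl_of_root [IsAlgClosed K] [CharZero K] {F : Subfield K} (hF : Full L (F : Set K))
    (n : ℕ) : ∀ (Q : F[X]) (y : K), Q ≠ 0 → Q.natDegree ≤ n →
      (Q.map F.subtype).eval y = 0 → y ∈ Cl L (F : Set K) := by
  induction n with
  | zero =>
    intro Q y hQ hn hy
    exfalso
    rw [Nat.le_zero, natDegree_eq_zero] at hn
    obtain ⟨c, rfl⟩ := hn
    rw [map_C, eval_C] at hy
    apply hQ
    rw [(map_eq_zero _).1 hy, C_0]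
  | succ n ih =>
    intro Q y hQ hn hy
    by_contra hcl
    have hcl' : ∃ T : ℝ, ∀ f ∈ F, ¬ L.le (y - f) (-T) := by
      by_contra hcon
      push Not at hcon
      exact hcl hcon
    obtain ⟨T, hT⟩ := hcl'
    have hT' : ∀ f ∈ F, y - f ≠ 0 ∧ -T < L.lg (y - f) := by
      intro f hf
      have := hT f hf
      unfold LgData.le at this
      push Not at this
      exact this
    set B : Set ℝ := {s | ∃ f ∈ F, s = L.lg (y - f)} with hB
    have hBne : B.Nonempty := ⟨_, 0, F.zero_mem, rfl⟩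
    have hBb : BddBelow B := by
      refine ⟨-T, ?_⟩
      rintro s ⟨f, hf, rfl⟩
      exact (hT' f hf).2.le
    set b := sInf B with hb
    have himp : ∀ f ∈ F, ∃ f' ∈ F, L.lg (y - f') < L.lg (y - f) := by
      intro f hf
      obtain ⟨g, hg, h1 | h1⟩ := hF (y - f) (hT' f hf).1
      · exfalso
        refine (hT' (f + g) (F.add_mem hf hg)).1 ?_
        rw [← h1]
        ring
      · refine ⟨f + g, F.add_mem hf hg, ?_⟩
        have : y - (f + g) = y - f - g := by ring
        rw [this]
        exact h1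
    have hlt : ∀ f ∈ F, b < L.lg (y - f) := by
      intro f hf
      obtain ⟨f', hf', h1⟩ := himp f hf
      exact (csInf_le hBb ⟨f', hf', rfl⟩).trans_lt h1
    have hfar : ∀ (R : F[X]) (z : K), R ≠ 0 → R.natDegree ≤ n → (R.map F.subtype).eval z = 0 →
        ¬ L.le (z - y) b := by
      intro R z hR hRn hz hle
      obtain ⟨f, hf, h1⟩ := ih R z hR hRn hz (-b)
      have h2 : L.le (y - f) b := by
        have h3 : y - f = -(z - y) + (z - f) := by ring
        rw [h3]
        exact hle.neg.add (by simpa using h1)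
      exact absurd (h2 (hT' f hf).1) (not_le.2 (hlt f hf))
    set QK := Q.map F.subtype with hQK
    have hQK0 : QK ≠ 0 := (Polynomial.map_ne_zero_iff F.subtype.injective).2 hQ
    have hd0 : derivative Q ≠ 0 := by
      intro h0
      have h1 := derivative_eq_zero.1 h0
      rw [natDegree_eq_zero] at h1
      obtain ⟨c, rfl⟩ := h1
      rw [hQK, map_C, eval_C] at hy
      apply hQ
      rw [(map_eq_zero _).1 hy, C_0]
    have hdn : (derivative Q).natDegree ≤ n := (natDegree_derivative_le Q).trans (by omega)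
    have hdK : derivative QK = (derivative Q).map F.subtype := by
      rw [hQK, derivative_map]
    have hdy : (derivative QK).eval y ≠ 0 := by
      intro h0
      rw [hdK] at h0
      refine hfar _ y hd0 hdn h0 ?_
      rw [sub_self]
      exact le_zero _
    obtain ⟨Q₂, hQ₂⟩ : (X - C y) ∣ QK := dvd_iff_isRoot.2 hy
    have hQ₂y : Q₂.eval y ≠ 0 := by
      rw [hQ₂, derivative_mul, derivative_X_sub_C, one_mul, eval_add, eval_mul, eval_sub, eval_X,
        eval_C, sub_self, zero_mul, add_zero] at hdy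
      exact hdy
    have hQ₂0 : Q₂ ≠ 0 := by
      rintro rfl
      exact hQ₂y eval_zero
    by_cases hcase : ∃ y' ∈ Q₂.roots, L.le (y' - y) b
    · obtain ⟨y', hy'1, hy'2⟩ := hcase
      have hy'3 : Q₂.eval y' = 0 := isRoot_of_mem_roots hy'1
      have hne : y' ≠ y := by
        rintro rfl
        exact hQ₂y hy'3
      obtain ⟨z, hz1, hz2⟩ := gauss_lucas (L := L) (Q := QK) hy (y' := y')
        (by rw [hQ₂, eval_mul, hy'3, mul_zero]) hne hQK0
      refine hfar (derivative Q) z hd0 hdn ?_ (hz2.mono (hy'2 (sub_ne_zero.2 hne)))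
      rw [← hdK]
      exact isRoot_of_mem_roots hz1
    · push Not at hcase
      obtain ⟨b', hb', hgap⟩ := exists_gap (L := L) Q₂.roots y b hcase
      obtain ⟨s, ⟨f, hf, rfl⟩, hs⟩ := exists_lt_of_csInf_lt hBne
        (show sInf B < (b + b') / 2 by rw [← hb]; linarith)
      have hyf := (hT' f hf).1
      have hzf : ∀ z ∈ Q₂.roots, z ≠ f ∧ L.lg (z - f) = L.lg (z - y) := by
        intro z hz
        obtain ⟨h1, h2⟩ := hgap z hz
        have h3 := lg_add_eq' (L := L) (x := z - y) (y := y - f) (r := L.lg (y - f))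
          (sub_ne_zero.2 h1) (fun _ => le_rfl) (by linarith)
        rw [sub_add_sub_cancel] at h3
        exact ⟨sub_ne_zero.1 h3.1, h3.2⟩
      set ε : ℝ := b' - L.lg (y - f) with hε
      have hε0 : 0 < ε := by linarith
      have hstep := newton_step (L := L) (Q₂ := Q₂) (f := f) (y := y) (ε := ε) (by
          intro h0
          exact (hzf f ((mem_roots hQ₂0).2 h0)).1 rfl) hyf hε0 (by
        intro z hz
        obtain ⟨h1, h2⟩ := hzf z hz
        refine ⟨h1, fun _ => ?_⟩
        rw [lg_div hyf (sub_ne_zero.2 h1), h2]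
        have := (hgap z hz).2
        linarith)
      rw [← hQ₂] at hstep
      set f' := f - QK.eval f / (derivative QK).eval f with hf'
      have hev : ∀ P : F[X], (P.map F.subtype).eval f ∈ F := by
        intro P
        have h1 := Polynomial.eval₂_at_apply (p := P) F.subtype ⟨f, hf⟩
        rw [eval_map]
        have h2 : F.subtype ⟨f, hf⟩ = f := rfl
        rw [h2] at h1
        rw [h1]
        exact (P.eval ⟨f, hf⟩).2
      have hf'F : f' ∈ F := by
        refine F.sub_mem hf (F.div_mem (hev Q) ?_)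
        rw [hdK]
        exact hev _
      have h1 := (hT' f' hf'F).1
      have h2 := hlt f' hf'F
      have h3 := hstep (by
        rw [← neg_sub]
        exact neg_ne_zero.2 h1)
      rw [L.lg_sub_comm] at h3
      linarith

end CharZero

end Pool.Agent.H17Dyn
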