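import Pool.Agent.H17Dyn.MainLemma
import Pool.Agent.H17Dyn.Hahn

/-!
# The degree of the inverse, and the Hahn series model
-/

set_option autoImplicit false

attribute [-instance] HahnSeries.powerSeriesAlgebra

namespace Pool.Agent.H17Dyn

open LgData

section Gabber

variable {k K : Type*} [Field k] [Infinite k] [Field K] [IsAlgClosed K] [CharZero K] [Algebra k K]
  (L : LgData k K)

include L in
/-- an inequality between the degrees of an automorphism and of its inverse in dimension three -/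
theorem adeg_symm_le (φ : MvPolynomial (Fin 3) k ≃ₐ[k] MvPolynomial (Fin 3) k) :
    adeg φ.symm ≤ adeg φ ^ 2 := by
  classical
  obtain ⟨i0, -, hi0⟩ := Finset.exists_mem_eq_sup (Finset.univ : Finset (Fin 3))
    ⟨0, Finset.mem_univ _⟩ (fun i => (φ.symm (MvPolynomial.X i)).totalDegree)
  set B := φ.symm (MvPolynomial.X i0) with hB
  have hdeg : adeg φ.symm = B.totalDegree := hi0
  have hB0 : B.totalDegree ≠ 0 := Nat.one_le_iff_ne_zero.1 (one_le_totalDegree_X φ.symm i0)
  have hBne : topForm B ≠ 0 :=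
    topForm_ne_zero fun h => hB0 (by rw [h, MvPolynomial.totalDegree_zero])
  obtain ⟨q, hq⟩ := exists_eval_ne_zero (mul_ne_zero hBne
    (MvPolynomial.X_ne_zero (R := k) (0 : Fin 3)))
  rw [map_mul, MvPolynomial.eval_X] at hq
  have hqB := left_ne_zero_of_mul hq
  have hq0 := right_ne_zero_of_mul hq
  set f : Polynomial K := dirPoly (fun i => Polynomial.aeval L.s ((0 : Fin 3 → Polynomial k) i)) q B
    with hf
  have hx0 : ∀ i, L.le (Polynomial.aeval L.s ((0 : Fin 3 → Polynomial k) i)) 0 := by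
    intro i
    rw [Pi.zero_apply, map_zero]
    exact le_zero _
  have hbd : Bd L 0 B.totalDegree f := bd_dirPoly le_rfl hx0 q le_rfl
  have hcoef : f.coeff B.totalDegree = algebraMap k K (MvPolynomial.eval q (topForm B)) :=
    coeff_dirPoly_top _ _ _ le_rfl
  have hnd : f.natDegree = B.totalDegree :=
    Polynomial.natDegree_eq_of_le_of_coeff_ne_zero hbd.1 (by rw [hcoef]; simpa using hqB)
  obtain ⟨T, hT⟩ := exists_crit (k := k) (f := f) (by rw [hnd]; exact Nat.pos_of_ne_zero hB0)
  obtain ⟨c, hc⟩ := T.finite_toSet.infinite_compl.nonempty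
  have hcT : c ∉ T := fun h => hc (Finset.mem_coe.2 h)
  have h1 : (f - Polynomial.C (algebraMap k K c)).natDegree = B.totalDegree := by
    rw [Polynomial.natDegree_sub_C, hnd]
  have h2 : (f - Polynomial.C (algebraMap k K c)) ≠ 0 := by
    intro h
    rw [h, Polynomial.natDegree_zero] at h1
    exact hB0 h1.symm
  have h3 : L.lg (f - Polynomial.C (algebraMap k K c)).leadingCoeff = 0 := by
    rw [Polynomial.leadingCoeff, h1, Polynomial.coeff_sub, Polynomial.coeff_C, if_neg hB0,
      sub_zero, hcoef]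
    exact L.lg_const hqB
  obtain ⟨β, hβ1, -, hβ3⟩ := split_data (L := L) h1 h2 h3
  have h4 := (fiber_bound (L := L) φ.symm 0 le_rfl hx0 q hq0 i0 c β (hβ3 (hT c hcT)) (by
    intro y
    rw [← hβ1 y, Polynomial.eval_sub, Polynomial.eval_C, sub_eq_zero])).2
  rw [hdeg]
  exact h4

end Gabber

section Final

variable {k : Type*} [Field k] [IsAlgClosed k] [CharZero k]

theorem adeg_symm_le' (φ : MvPolynomial (Fin 3) k ≃ₐ[k] MvPolynomial (Fin 3) k) :
    adeg φ.symm ≤ adeg φ ^ 2 :=
  adeg_symm_le (hahnLg k one_pos) φ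

theorem main_lemma' (F G : MvPolynomial (Fin 3) k ≃ₐ[k] MvPolynomial (Fin 3) k)
    (P : MvPolynomial (Fin 3) k) (hP : P.totalDegree ≠ 0) (i0 : Fin 3) :
    (((F (G P)).totalDegree : ℝ) / (G P).totalDegree -
      (F (G (MvPolynomial.X i0))).totalDegree / (G (MvPolynomial.X i0)).totalDegree) ^ 2 ≤
    ((adeg F : ℝ) + adeg F.symm * adeg F) * (2 / ((G P).totalDegree *
      (G (MvPolynomial.X i0)).totalDegree) * (P.totalDegree * (2 * adeg G.symm * adeg F))) :=
  main_lemma (hahnLg k one_pos) F G P hP i0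

end Final

end Pool.Agent.H17Dyn
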