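import Pool.Agent.H17Dyn.Conv
import Pool.Agent.H17Dyn.Gabber
import Pool.Agent.H17Dyn.Degree

/-!
# Dynamical degrees of automorphisms of affine three-space
-/

set_option autoImplicit false

attribute [-instance] HahnSeries.powerSeriesAlgebra

namespace Pool.Agent.H17Dyn

open Filter Topology

variable {k : Type*} [Field k] [IsAlgClosed k] [CharZero k]

lemma natDegree_minpoly_le_one {x : ℝ} (hx : x = 1) :
    IsAlgebraic ℚ x ∧ (minpoly ℚ x).natDegree ≤ 1 := by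
  subst hx
  have h : (1 : ℝ) = algebraMap ℚ ℝ 1 := by simp
  rw [h]
  exact ⟨isAlgebraic_algebraMap 1, by rw [minpoly.eq_X_sub_C, Polynomial.natDegree_X_sub_C]⟩

/-- the case `λ(φ⁻¹) < λ(φ)²` -/
lemma dim3_lt (φ : MvPolynomial (Fin 3) k ≃ₐ[k] MvPolynomial (Fin 3) k) {lam mu : ℝ}
    (hlam1 : 1 ≤ lam)
    (hlam2 : Tendsto (fun n : ℕ => (adeg (φ ^ n) : ℝ) ^ ((1 : ℝ) / (n : ℝ))) atTop (𝓝 lam))
    (hlam3 : ∀ n, lam ^ n ≤ (adeg (φ ^ n) : ℝ)) (hmu1 : 1 ≤ mu)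
    (hmu2 : Tendsto (fun n : ℕ => (adeg (φ.symm ^ n) : ℝ) ^ ((1 : ℝ) / (n : ℝ))) atTop (𝓝 mu))
    (h : mu < lam ^ 2) : IsAlgebraic ℚ lam ∧ (minpoly ℚ lam).natDegree ≤ 2 := by
  rcases eq_or_ne lam 1 with h1 | h1
  · have := natDegree_minpoly_le_one h1
    exact ⟨this.1, this.2.trans (by norm_num)⟩
  have hsymm : ∀ n, (φ ^ n).symm = φ.symm ^ n := fun n => by
    have : (φ ^ n)⁻¹ = φ⁻¹ ^ n := (inv_pow φ n).symm
    exact this
  have hsum : Summable fun n : ℕ => √(2 * (adeg (φ ^ n).symm : ℝ) * adeg φ) /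
      (adeg (φ ^ (n + 1)) : ℝ) := by
    have h2 := (summable_err (e := fun n : ℕ => (adeg (φ.symm ^ n) : ℝ))
      (d := fun n : ℕ => (adeg (φ ^ n) : ℝ)) (fun n => Nat.cast_nonneg _) hlam1 hlam3 hmu2
      (by linarith) h).mul_left √(2 * (adeg φ : ℝ))
    refine h2.congr fun n => ?_
    rw [hsymm, mul_div_assoc', ← Real.sqrt_mul (by positivity)]
    congr 2
    ring
  obtain ⟨N, hN, hN0, hNφ, i, hi⟩ := exists_eigen (hahnLg k one_pos) φ hlam2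
    (Δ := fun n => 2 * (adeg (φ ^ n).symm : ℝ) * adeg φ) (fun n => by positivity)
    (fun n i0 => ⟨_, MvPolynomial.X_ne_zero _, fibCond_three _ φ (φ ^ n) i0⟩) hsum
  have := eigen_degree φ hN h1 (fun P _ => hNφ P)
    ⟨MvPolynomial.X i, MvPolynomial.X_ne_zero i, by rw [hi]; exact one_ne_zero⟩
  simpa using this

/-- the inequality `λ(φ⁻¹) ≤ λ(φ)²` -/
lemma mu_le_lam_sq (φ : MvPolynomial (Fin 3) k ≃ₐ[k] MvPolynomial (Fin 3) k) {lam mu : ℝ}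
    (hlam2 : Tendsto (fun n : ℕ => (adeg (φ ^ n) : ℝ) ^ ((1 : ℝ) / (n : ℝ))) atTop (𝓝 lam))
    (hmu2 : Tendsto (fun n : ℕ => (adeg (φ.symm ^ n) : ℝ) ^ ((1 : ℝ) / (n : ℝ))) atTop (𝓝 mu)) :
    mu ≤ lam ^ 2 := by
  have hsymm : ∀ n, φ.symm ^ n = (φ ^ n).symm := fun n => by
    have : φ⁻¹ ^ n = (φ ^ n)⁻¹ := inv_pow φ n
    exact this
  refine le_of_tendsto_of_tendsto' hmu2 (hlam2.pow 2) fun n => ?_
  have h1 : (adeg (φ.symm ^ n) : ℝ) ≤ (adeg (φ ^ n) : ℝ) ^ 2 := by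
    rw [hsymm]
    exact_mod_cast adeg_symm_le' (φ ^ n)
  calc (adeg (φ.symm ^ n) : ℝ) ^ ((1 : ℝ) / (n : ℝ))
      ≤ ((adeg (φ ^ n) : ℝ) ^ 2) ^ ((1 : ℝ) / (n : ℝ)) :=
        Real.rpow_le_rpow (Nat.cast_nonneg _) h1 (by positivity)
    _ = ((adeg (φ ^ n) : ℝ) ^ ((1 : ℝ) / (n : ℝ))) ^ 2 := by
        rw [← Real.rpow_natCast, ← Real.rpow_natCast, ← Real.rpow_mul (Nat.cast_nonneg _),
          ← Real.rpow_mul (Nat.cast_nonneg _), mul_comm]

/-- **Dynamical degrees in dimension three.** -/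
theorem dim3 (φ : MvPolynomial (Fin 3) k ≃ₐ[k] MvPolynomial (Fin 3) k) :
    ∃ lam mu : ℝ, 1 ≤ lam ∧ 1 ≤ mu ∧
      Tendsto (fun n : ℕ => (adeg (φ ^ n) : ℝ) ^ ((1 : ℝ) / (n : ℝ))) atTop (𝓝 lam) ∧
      Tendsto (fun n : ℕ => (adeg (φ.symm ^ n) : ℝ) ^ ((1 : ℝ) / (n : ℝ))) atTop (𝓝 mu) ∧
      mu ≤ lam ^ 2 ∧ lam ≤ mu ^ 2 ∧ IsAlgebraic ℚ lam ∧ (minpoly ℚ lam).natDegree ≤ 4 ∧
      (mu ≠ lam ^ 2 → (minpoly ℚ lam).natDegree ≤ 2) ∧
      (mu = lam ^ 2 → (minpoly ℚ (lam ^ 2)).natDegree ≤ 2) := by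
  obtain ⟨lam, hlam1, hlam2, hlam3⟩ := exists_dyn φ
  obtain ⟨mu, hmu1, hmu2, hmu3⟩ := exists_dyn φ.symm
  have h1 : mu ≤ lam ^ 2 := mu_le_lam_sq φ hlam2 hmu2
  have h2 : lam ≤ mu ^ 2 := mu_le_lam_sq φ.symm hmu2 (by simpa using hlam2)
  refine ⟨lam, mu, hlam1, hmu1, hlam2, hmu2, h1, h2, ?_⟩
  rcases eq_or_lt_of_le h1 with h3 | h3
  · -- the exceptional case
    have key : IsAlgebraic ℚ mu ∧ (minpoly ℚ mu).natDegree ≤ 2 := by
      rcases eq_or_ne mu 1 with h4 | h4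
      · have := natDegree_minpoly_le_one h4
        exact ⟨this.1, this.2.trans (by norm_num)⟩
      · refine dim3_lt φ.symm hmu1 hmu2 hmu3 hlam1 (by simpa using hlam2) ?_
        have h5 : 1 < mu := lt_of_le_of_ne hmu1 (Ne.symm h4)
        have h6 : lam ≠ 1 := by
          rintro rfl
          apply h4
          rw [h3]
          norm_num
        have h7 : 1 < lam := lt_of_le_of_ne hlam1 (Ne.symm h6)
        rw [h3]
        nlinarith [mul_pos (by linarith : (0 : ℝ) < lam) (by linarith : (0 : ℝ) < lam - 1),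
          pow_pos (by linarith : (0 : ℝ) < lam) 2, pow_pos (by linarith : (0 : ℝ) < lam) 3]
    have hpoly : Polynomial.aeval lam ((minpoly ℚ mu).comp (Polynomial.X ^ 2)) = 0 := by
      rw [Polynomial.aeval_comp]
      simp only [map_pow, Polynomial.aeval_X]
      rw [← h3]
      exact minpoly.aeval ℚ mu
    have hne : (minpoly ℚ mu).comp (Polynomial.X ^ 2) ≠ 0 := by
      intro h0
      have hnd := congrArg Polynomial.natDegree h0
      rw [Polynomial.natDegree_comp, Polynomial.natDegree_X_pow, Polynomial.natDegree_zero] at hnd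
      have := minpoly.natDegree_pos key.1.isIntegral
      omega
    refine ⟨⟨_, hne, hpoly⟩, ?_, fun h => absurd h3 h, fun _ => by rw [← h3]; exact key.2⟩
    refine (Polynomial.natDegree_le_of_dvd (minpoly.dvd ℚ lam hpoly) hne).trans ?_
    rw [Polynomial.natDegree_comp, Polynomial.natDegree_X_pow]
    have := key.2
    omega
  · have key := dim3_lt φ hlam1 hlam2 hlam3 hmu1 hmu2 h3
    exact ⟨key.1, key.2.trans (by norm_num), fun _ => key.2, fun h => absurd h h3.ne⟩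

end Pool.Agent.H17Dyn
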