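import Pool.Agent.H17Dyn.FatMain
import Pool.Agent.H17Dyn.Trap

/-!
# Comparison of values along the orbit of a fat valuation
-/

set_option autoImplicit false
set_option linter.unusedSectionVars false

attribute [-instance] HahnSeries.powerSeriesAlgebra

namespace Pool.Agent.H17Dyn

open LgData Filter Topology

universe u

variable {d : ℕ} {k : Type u} [Field k] [IsAlgClosed k] [CharZero k]

/-- a numerical form of the main inequality for fat valuations -/
lemma step_fat {χ : ℝ →+ k} (hχ : Function.Injective χ) (hd : 2 ≤ d)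
    (G : MvPolynomial (Fin d) k ≃ₐ[k] MvPolynomial (Fin d) k) {R : ℝ} (hR : 0 ≤ R)
    (hD : Deg2W G R) {i0 : Fin d} (hi0 : adeg G = (G (MvPolynomial.X i0)).totalDegree)
    {w : MvPolynomial (Fin d) k → ℝ} (hw : IsLogVal w) {s : ℝ} (hs : 0 ≤ s) (hfat : Fat s w)
    {i : Fin d} (hi : w (MvPolynomial.X i) = 1) (hwm : ∀ j, w (MvPolynomial.X j) ≤ 2)
    {P : MvPolynomial (Fin d) k} (hP0 : P ≠ 0) {p : ℕ} (hp1 : 1 ≤ p) (hP : P.totalDegree ≤ p) :
    |max (w (G P)) 0 - (G P).totalDegree / adeg G *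
      max (w (G (MvPolynomial.X i0))) 0| ≤ 2 * √(2 + s) * p * √R := by
  have hdz : NeZero d := ⟨by omega⟩
  have hp1' : (1 : ℝ) ≤ p := by exact_mod_cast hp1
  rcases eq_or_ne P.totalDegree 0 with h0 | h0
  · have h1 : P = MvPolynomial.C (MvPolynomial.coeff 0 P) :=
      MvPolynomial.totalDegree_eq_zero_iff_eq_C.1 h0
    have hc : MvPolynomial.coeff 0 P ≠ 0 := by
      intro h
      rw [h, map_zero] at h1
      exact hP0 h1
    have h2 : G P = MvPolynomial.C (MvPolynomial.coeff 0 P) := by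
      conv_lhs => rw [h1]
      rw [← MvPolynomial.algebraMap_eq, AlgEquiv.commutes]
    rw [h2, hw.const _ hc, MvPolynomial.totalDegree_C, Nat.cast_zero, zero_div, zero_mul, sub_zero,
      max_self, abs_zero]
    positivity
  have hml := main_fat hχ hd G hD i0 h0 hw hs hfat hi (by norm_num : (0 : ℝ) ≤ 2) hwm
  rw [← hi0] at hml
  set b : ℝ := (adeg G : ℝ) with hb
  set a : ℝ := ((G P).totalDegree : ℝ) with ha
  set t : ℝ := (P.totalDegree : ℝ) with ht
  set u := max (w (G P)) 0 with hu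
  set v := max (w (G (MvPolynomial.X i0))) 0 with hv
  have hb1 : 1 ≤ b := by
    rw [hb]
    exact_mod_cast one_le_adeg G
  have ha1 : 1 ≤ a := by
    rw [ha]
    exact_mod_cast Nat.one_le_iff_ne_zero.2 (totalDegree_apply_ne_zero G h0)
  have ht0 : 0 ≤ t := Nat.cast_nonneg _
  have htp : t ≤ p := Nat.cast_le.2 hP
  have hab : a ≤ p * b := by
    have h1 : ((G P).totalDegree : ℝ) ≤ P.totalDegree * adeg G := by
      exact_mod_cast totalDegree_apply_le G P
    exact h1.trans (mul_le_mul_of_nonneg_right htp (by linarith))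
  have h1 : (u - a / b * v) ^ 2 ≤ (2 * √(2 + s) * p * √R) ^ 2 := by
    have h2 : (u - a / b * v) ^ 2 = a ^ 2 * (u / a - v / b) ^ 2 := by
      field_simp
    have h3 : a ^ 2 * ((2 + s) * (2 / (a * b) * (t * (R * 2)))) =
        (a / b) * (4 * (2 + s) * (t * R)) := by
      field_simp
      ring
    have h4 : a / b ≤ p := by
      rw [div_le_iff₀ (by linarith)]
      exact hab
    have h6 : (2 * √(2 + s) * p * √R) ^ 2 = 4 * (2 + s) * p ^ 2 * R := by
      rw [mul_pow, mul_pow, mul_pow, Real.sq_sqrt hR, Real.sq_sqrt (by linarith)]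
      ring
    have h7 : (a / b) * (4 * (2 + s) * (t * R)) ≤ p * (4 * (2 + s) * (p * R)) := by
      have h8 : 0 ≤ a / b := by positivity
      gcongr
    calc (u - a / b * v) ^ 2 = a ^ 2 * (u / a - v / b) ^ 2 := h2
      _ ≤ a ^ 2 * ((2 + s) * (2 / (a * b) * (t * (R * 2)))) :=
          mul_le_mul_of_nonneg_left hml (sq_nonneg a)
      _ = (a / b) * (4 * (2 + s) * (t * R)) := h3
      _ ≤ p * (4 * (2 + s) * (p * R)) := h7
      _ = _ := by rw [h6]; ring
  exact abs_le_of_sq_le_sq h1 (by positivity)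

/-- choice of the constants -/
lemma exists_consts' {lam r : ℝ} (hlam : 1 < lam) (hr0 : 0 ≤ r) (hr : r < lam) :
    ∃ lam' : ℝ, lam < lam' ∧ lam' * r < lam ^ 2 := by
  rcases eq_or_lt_of_le hr0 with h | h
  · refine ⟨lam + 1, by linarith, ?_⟩
    rw [← h, mul_zero]
    positivity
  · obtain ⟨lam', h1, h2⟩ := exists_between (show lam < lam ^ 2 / r by
      rw [lt_div_iff₀ h]
      nlinarith)
    exact ⟨lam', h1, (lt_div_iff₀ h).1 h2⟩

/-- **Comparison of values along orbits.** -/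
theorem compare {χ : ℝ →+ k} (hχ : Function.Injective χ) (hd : 2 ≤ d)
    (φ : MvPolynomial (Fin d) k ≃ₐ[k] MvPolynomial (Fin d) k) {lam ρ : ℝ} (hlam1 : 1 < lam)
    (hlam2 : Tendsto (fun n : ℕ => (adeg (φ ^ n) : ℝ) ^ ((1 : ℝ) / (n : ℝ))) atTop (𝓝 lam))
    (hlam3 : ∀ n, lam ^ n ≤ (adeg (φ ^ n) : ℝ)) (hρ0 : 0 ≤ ρ) (hρ : ρ < lam ^ 2) {n₀ : ℕ}
    (hD : ∀ n, n₀ ≤ n → Deg2W (φ ^ n) (ρ ^ n)) {N : MvPolynomial (Fin d) k → ℝ}
    (hNφ : ∀ P, N (φ P) = lam * N P)
    (hN : ∀ P, Tendsto (fun n : ℕ => (((φ ^ n) P).totalDegree : ℝ) / (adeg (φ ^ n) : ℝ)) atTop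
      (𝓝 (N P))) {i : Fin d} (hi : N (MvPolynomial.X i) = 1) {s : ℝ} (hs : 0 ≤ s)
    (C : Finset (MvPolynomial (Fin d) k × MvPolynomial (Fin d) k))
    (hC : ∀ p ∈ C, p.1 ≠ 0 ∧ p.2 ≠ 0 ∧ N p.1 < N p.2) :
    ∃ W : Finset (MvPolynomial (Fin d) k), ∀ w : MvPolynomial (Fin d) k → ℝ, IsLogVal w →
      Fat s w → (∀ P ∈ W, P ≠ 0 → max (w P) 0 = N P) →
      ∀ n, ∀ p ∈ C, w ((φ ^ n) p.1) < w ((φ ^ n) p.2) := by
  classical
  have hdz : NeZero d := ⟨by omega⟩
  set dg : ℕ → ℝ := fun n => (adeg (φ ^ n) : ℝ) with hdg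
  have hdg1 : ∀ n, 1 ≤ dg n := fun n => by
    simp only [hdg]
    exact_mod_cast one_le_adeg (φ ^ n)
  have hdgpos : ∀ n, 0 < dg n := fun n => by linarith [hdg1 n]
  set r : ℝ := √ρ with hr
  have hr0 : 0 ≤ r := Real.sqrt_nonneg _
  have hlam0 : 0 < lam := by linarith
  have hrlam : r < lam := by
    rw [hr, Real.sqrt_lt' hlam0]
    exact hρ
  have hrn : ∀ n : ℕ, √(ρ ^ n) = r ^ n := by
    intro n
    rw [Real.sqrt_eq_iff_mul_self_eq (by positivity) (by positivity), ← pow_two, ← pow_mul,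
      mul_comm n 2, pow_mul, hr, Real.sq_sqrt hρ0]
  obtain ⟨lam', hl1, hl3⟩ := exists_consts' hlam1 hr0 hrlam
  have hlam'0 : 0 < lam' := by linarith
  -- the indices realising the degree
  have hidx : ∀ n, ∃ j : Fin d, adeg (φ ^ n) = ((φ ^ n) (MvPolynomial.X j)).totalDegree := by
    intro n
    obtain ⟨j, -, hj⟩ := Finset.exists_mem_eq_sup (Finset.univ : Finset (Fin d))
      ⟨0, Finset.mem_univ _⟩ (fun j => ((φ ^ n) (MvPolynomial.X j)).totalDegree)
    exact ⟨j, hj⟩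
  choose idx hidx using hidx
  -- the errors
  set κ : ℝ := r / lam with hκ
  have hκ0 : 0 ≤ κ := by positivity
  have hκ1 : κ < 1 := by
    rw [hκ, div_lt_one hlam0]
    exact hrlam
  have hκlam : ∀ n : ℕ, r ^ n = κ ^ n * lam ^ n := by
    intro n
    rw [← mul_pow, hκ, div_mul_cancel₀ _ hlam0.ne']
  set τ : ℝ := lam / lam' with hτ
  have hτ0 : 0 < τ := by positivity
  have hκτ : κ < τ := by
    rw [hκ, hτ, div_lt_div_iff₀ hlam0 hlam'0]
    nlinarith
  obtain ⟨na, hna⟩ := eventually_atTop.1 (eventually_le_pow (fun n => (hdgpos n).le) hlam2 hl1)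
  set q : ℕ := adeg φ with hq
  have hq1 : 1 ≤ q := one_le_adeg φ
  set C₁ : ℝ := 2 * √(2 + s) with hC₁
  have hC₁0 : 0 ≤ C₁ := by positivity
  set Cq : ℝ := C₁ * q with hCq
  have hCq0 : 0 ≤ Cq := by positivity
  -- the choice of the time `n₂`
  have hlim1 : Tendsto (fun n : ℕ => (κ / τ) ^ n) atTop (𝓝 0) :=
    tendsto_pow_atTop_nhds_zero_of_lt_one (by positivity) (by rwa [div_lt_one hτ0])
  have hlim2 : Tendsto (fun n : ℕ => κ ^ n) atTop (𝓝 0) :=
    tendsto_pow_atTop_nhds_zero_of_lt_one hκ0 hκ1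
  have hκpos : (0 : ℝ) < 1 - κ := by linarith
  have hev : ∀ᶠ n : ℕ in atTop, (Cq / (1 - κ)) * (κ / τ) ^ n < 1 / 4 ∧ C₁ * κ ^ n < 1 / 2 := by
    have e1 : Tendsto (fun n : ℕ => (Cq / (1 - κ)) * (κ / τ) ^ n) atTop (𝓝 0) := by
      simpa using hlim1.const_mul (Cq / (1 - κ))
    have e2 : Tendsto (fun n : ℕ => C₁ * κ ^ n) atTop (𝓝 0) := by
      simpa using hlim2.const_mul C₁
    exact (e1.eventually_lt_const (by norm_num)).and (e2.eventually_lt_const (by norm_num))
  obtain ⟨n₂, ⟨hn₂1, hn₂2⟩, hn₂0, hn₂a⟩ := (hev.and ((eventually_ge_atTop n₀).and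
    (eventually_ge_atTop na))).exists
  set gs : ℝ := lam ^ n₂ / (4 * dg n₂) with hgs
  have hgs0 : 0 < gs := div_pos (by positivity) (by linarith [hdgpos n₂])
  -- the choice of the time `n₁`
  set pm : MvPolynomial (Fin d) k × MvPolynomial (Fin d) k → ℕ := fun p =>
    1 + p.1.totalDegree + p.2.totalDegree with hpm
  set η : MvPolynomial (Fin d) k × MvPolynomial (Fin d) k → ℝ := fun p =>
    (N p.2 - N p.1) / 4 with hη
  have hev2 : ∀ᶠ n : ℕ in atTop, ∀ p ∈ C, C₁ * pm p / gs * κ ^ n < η p ∧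
      (((φ ^ n) p.1).totalDegree : ℝ) / dg n < N p.1 + η p ∧
      N p.2 - η p < (((φ ^ n) p.2).totalDegree : ℝ) / dg n := by
    rw [Filter.eventually_all_finset]
    intro p hp
    have hηp : 0 < η p := by
      have := (hC p hp).2.2
      simp only [hη]
      linarith
    have e1 : Tendsto (fun n : ℕ => C₁ * pm p / gs * κ ^ n) atTop (𝓝 0) := by
      simpa using hlim2.const_mul (C₁ * pm p / gs)
    exact (e1.eventually_lt_const hηp).and (((hN p.1).eventually_lt_const (by linarith)).and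
      ((hN p.2).eventually_const_lt (by linarith)))
  obtain ⟨n₁, hn₁⟩ := eventually_atTop.1 hev2
  have hNpow : ∀ n P, N ((φ ^ n) P) = lam ^ n * N P := by
    intro n
    induction n with
    | zero =>
      intro P
      simp
    | succ n ih =>
      intro P
      rw [pow_succ', AlgEquiv.mul_apply, hNφ, ih]
      ring
  have hNX : ∀ j, N (MvPolynomial.X j) ≤ 1 := by
    intro j
    refine le_of_tendsto' (hN (MvPolynomial.X j)) fun n => ?_
    rw [div_le_one (hdgpos n)]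
    exact Nat.cast_le.2 (totalDegree_X_le (φ ^ n) j)
  set nm := max n₁ n₂ with hnm
  refine ⟨insert ((φ ^ n₂) (MvPolynomial.X i)) ((Finset.univ.image fun j => MvPolynomial.X j) ∪
    (Finset.range nm).biUnion fun n => C.image (fun p => (φ ^ n) p.1) ∪
      C.image (fun p => (φ ^ n) p.2)), ?_⟩
  intro w hw hfat hW
  have hφ0 : ∀ n {P : MvPolynomial (Fin d) k}, P ≠ 0 → (φ ^ n) P ≠ 0 := fun n P hP =>
    (map_ne_zero_iff _ (φ ^ n).injective).2 hP
  have hWX : ∀ j, max (w (MvPolynomial.X j)) 0 = N (MvPolynomial.X j) := fun j =>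
    hW _ (Finset.mem_insert_of_mem (Finset.mem_union_left _
      (Finset.mem_image_of_mem _ (Finset.mem_univ j)))) (MvPolynomial.X_ne_zero j)
  have hwm : ∀ j, w (MvPolynomial.X j) ≤ 2 := by
    intro j
    have h1 := hWX j
    have h2 := le_max_left (w (MvPolynomial.X j)) 0
    linarith [hNX j]
  have hwi : w (MvPolynomial.X i) = 1 := by
    have h1 := hWX i
    rw [hi] at h1
    rcases le_total (w (MvPolynomial.X i)) 0 with h2 | h2
    · rw [max_eq_right h2] at h1
      exact absurd h1 zero_ne_one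
    · rwa [max_eq_left h2] at h1
  intro n p hp
  obtain ⟨hp1, hp2, hp12⟩ := hC p hp
  rcases lt_or_ge n nm with hn | hn
  · -- small times
    have h1 : (φ ^ n) p.1 ∈ (Finset.range nm).biUnion fun n => C.image (fun p => (φ ^ n) p.1) ∪
      C.image (fun p => (φ ^ n) p.2) := Finset.mem_biUnion.2 ⟨n, Finset.mem_range.2 hn,
        Finset.mem_union_left _ (Finset.mem_image_of_mem (fun p : MvPolynomial (Fin d) k ×
          MvPolynomial (Fin d) k => (φ ^ n) p.1) hp)⟩
    have h2 : (φ ^ n) p.2 ∈ (Finset.range nm).biUnion fun n => C.image (fun p => (φ ^ n) p.1) ∪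
      C.image (fun p => (φ ^ n) p.2) := Finset.mem_biUnion.2 ⟨n, Finset.mem_range.2 hn,
        Finset.mem_union_right _ (Finset.mem_image_of_mem (fun p : MvPolynomial (Fin d) k ×
          MvPolynomial (Fin d) k => (φ ^ n) p.2) hp)⟩
    have h3 := hW _ (Finset.mem_insert_of_mem (Finset.mem_union_right _ h1)) (hφ0 n hp1)
    have h4 := hW _ (Finset.mem_insert_of_mem (Finset.mem_union_right _ h2)) (hφ0 n hp2)
    rw [hNpow] at h3 h4
    have h5 : lam ^ n * N p.1 < lam ^ n * N p.2 := mul_lt_mul_of_pos_left hp12 (by positivity)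
    have h6 := le_max_left (w ((φ ^ n) p.1)) 0
    have h7 := le_max_right (w ((φ ^ n) p.1)) 0
    have h8 : max (w ((φ ^ n) p.2)) 0 = w ((φ ^ n) p.2) := by
      rcases le_total (w ((φ ^ n) p.2)) 0 with h9 | h9
      · rw [max_eq_right h9] at h4
        linarith
      · exact max_eq_left h9
    rw [h8] at h4
    linarith
  -- large times
  set σ : ℕ → ℝ := fun n => max (w ((φ ^ n) (MvPolynomial.X (idx n)))) 0 with hσ
  have hσ0 : ∀ n, 0 ≤ σ n := fun n => le_max_right _ _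
  have hstep : ∀ n, n₀ ≤ n → ∀ (P : MvPolynomial (Fin d) k) (p : ℕ), P ≠ 0 → 1 ≤ p →
      P.totalDegree ≤ p →
      |max (w ((φ ^ n) P)) 0 - ((φ ^ n) P).totalDegree / dg n * σ n| ≤
      C₁ * p * (κ ^ n * lam ^ n) := by
    intro n hn P p hP0 hp1 hp
    have h1 := step_fat hχ hd (φ ^ n) (pow_nonneg hρ0 n) (hD n hn) (hidx n) hw hs hfat hwi hwm
      hP0 hp1 hp
    rwa [hrn, hκlam] at h1
  set g : ℕ → ℝ := fun n => σ n / dg n with hg
  have hgstep : ∀ n, n₀ ≤ n → g n - Cq * κ ^ n ≤ g (n + 1) := by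
    intro n hn
    have h1 := hstep n hn (φ (MvPolynomial.X (idx (n + 1)))) q
      ((map_ne_zero_iff _ φ.injective).2 (MvPolynomial.X_ne_zero _)) hq1 (totalDegree_X_le φ _)
    have h2 : (φ ^ n) (φ (MvPolynomial.X (idx (n + 1)))) =
        (φ ^ (n + 1)) (MvPolynomial.X (idx (n + 1))) := by
      rw [pow_succ, AlgEquiv.mul_apply]
    rw [h2, ← hidx (n + 1)] at h1
    have h3 : dg (n + 1) / dg n * σ n - Cq * (κ ^ n * lam ^ n) ≤ σ (n + 1) := by
      have := (abs_le.1 h1).1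
      have h4 : (((adeg (φ ^ (n + 1)) : ℕ) : ℝ)) = dg (n + 1) := rfl
      rw [h4] at this
      have h5 : max (w ((φ ^ (n + 1)) (MvPolynomial.X (idx (n + 1))))) 0 = σ (n + 1) := rfl
      rw [h5] at this
      rw [hCq]
      linarith
    have h6 : κ ^ n * lam ^ n / dg (n + 1) ≤ κ ^ n := by
      rw [div_le_iff₀ (hdgpos _)]
      refine mul_le_mul_of_nonneg_left ?_ (by positivity)
      refine le_trans ?_ (hlam3 (n + 1))
      exact pow_le_pow_right₀ hlam1.le (Nat.le_succ n)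
    have h7 : g (n + 1) = σ (n + 1) / dg (n + 1) := rfl
    have h8 : g n - Cq * (κ ^ n * lam ^ n / dg (n + 1)) =
        (dg (n + 1) / dg n * σ n - Cq * (κ ^ n * lam ^ n)) / dg (n + 1) := by
      have := (hdgpos n).ne'
      have := (hdgpos (n + 1)).ne'
      simp only [hg]
      field_simp
    have h9 : g n - Cq * (κ ^ n * lam ^ n / dg (n + 1)) ≤ g (n + 1) := by
      rw [h8, h7]
      exact div_le_div_of_nonneg_right h3 (hdgpos _).le
    have h10 := mul_le_mul_of_nonneg_left h6 hCq0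
    linarith
  have hglow : ∀ n, n₂ ≤ n → g n₂ - Cq * (κ ^ n₂ - κ ^ n) / (1 - κ) ≤ g n := by
    intro n hn
    induction n, hn using Nat.le_induction with
    | base => simp
    | succ n hn ih =>
      have h1 := hgstep n (hn₂0.trans hn)
      have h2 : Cq * (κ ^ n₂ - κ ^ (n + 1)) / (1 - κ) = Cq * (κ ^ n₂ - κ ^ n) / (1 - κ) +
          Cq * κ ^ n := by
        field_simp
        ring
      rw [h2]
      linarith
  -- the value at `n₂`
  have hg2 : lam ^ n₂ / (2 * dg n₂) ≤ g n₂ := by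
    have h1 := hstep n₂ hn₂0 (MvPolynomial.X i) 1 (MvPolynomial.X_ne_zero i) le_rfl
      (by rw [MvPolynomial.totalDegree_X])
    have h2 := hW ((φ ^ n₂) (MvPolynomial.X i)) (Finset.mem_insert_self _ _)
      (hφ0 _ (MvPolynomial.X_ne_zero i))
    rw [hNpow, hi, mul_one] at h2
    rw [h2] at h1
    have h4 := (abs_le.1 h1).2
    have h5 : (((φ ^ n₂) (MvPolynomial.X i)).totalDegree : ℝ) / dg n₂ * σ n₂ ≤ σ n₂ := by
      have h6 : (((φ ^ n₂) (MvPolynomial.X i)).totalDegree : ℝ) / dg n₂ ≤ 1 := by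
        rw [div_le_one (hdgpos _)]
        exact Nat.cast_le.2 (totalDegree_X_le (φ ^ n₂) i)
      calc _ ≤ 1 * σ n₂ := mul_le_mul_of_nonneg_right h6 (hσ0 _)
        _ = σ n₂ := one_mul _
    have h6 : (0 : ℝ) < lam ^ n₂ := by positivity
    have h7 : C₁ * (κ ^ n₂ * lam ^ n₂) ≤ lam ^ n₂ / 2 := by nlinarith
    push_cast at h4
    have h8 : lam ^ n₂ / 2 ≤ σ n₂ := by linarith
    have h9 : g n₂ = σ n₂ / dg n₂ := rfl
    rw [h9, div_le_div_iff₀ (by linarith [hdgpos n₂]) (hdgpos n₂)]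
    nlinarith [hdgpos n₂]
  have hgn : ∀ n, n₂ ≤ n → gs ≤ g n := by
    intro n hn
    have h1 := hglow n hn
    have h2 : Cq * (κ ^ n₂ - κ ^ n) / (1 - κ) ≤ lam ^ n₂ / (4 * dg n₂) := by
      have h3 : Cq * (κ ^ n₂ - κ ^ n) / (1 - κ) ≤ Cq / (1 - κ) * κ ^ n₂ := by
        rw [div_mul_eq_mul_div]
        refine div_le_div_of_nonneg_right ?_ hκpos.le
        have : (0 : ℝ) ≤ κ ^ n := by positivity
        nlinarith
      have h4 : Cq / (1 - κ) * κ ^ n₂ ≤ 1 / 4 * τ ^ n₂ := by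
        rw [div_pow] at hn₂1
        have h5 : (0 : ℝ) < τ ^ n₂ := by positivity
        rw [← mul_div_assoc, div_lt_iff₀ h5] at hn₂1
        exact hn₂1.le
      have h6 : 1 / 4 * τ ^ n₂ ≤ lam ^ n₂ / (4 * dg n₂) := by
        rw [hτ, div_pow, ← mul_div_assoc, div_le_div_iff₀ (by positivity)
          (by linarith [hdgpos n₂])]
        have h7 := hna n₂ hn₂a
        have h8 : (0 : ℝ) < lam ^ n₂ := by positivity
        have h9 : dg n₂ ≤ lam' ^ n₂ := h7
        nlinarith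
      linarith
    have h10 : lam ^ n₂ / (2 * dg n₂) = gs + lam ^ n₂ / (4 * dg n₂) := by
      rw [hgs]
      have := (hdgpos n₂).ne'
      field_simp
      ring
    linarith
  -- conclusion
  have hnn1 : n₁ ≤ n := (le_max_left _ _).trans hn
  have hnn2 : n₂ ≤ n := (le_max_right _ _).trans hn
  obtain ⟨h1, h2, h3⟩ := hn₁ n hnn1 p hp
  have h5 : gs * lam ^ n ≤ σ n := by
    have h6 := hgn n hnn2
    have h7 : g n = σ n / dg n := rfl
    rw [h7, le_div_iff₀ (hdgpos n)] at h6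
    exact (mul_le_mul_of_nonneg_left (hlam3 n) hgs0.le).trans h6
  have hlamn : (0 : ℝ) < lam ^ n := by positivity
  have hσpos : 0 < σ n := lt_of_lt_of_le (by positivity) h5
  have herr : C₁ * pm p * (κ ^ n * lam ^ n) ≤ η p * σ n := by
    have h6 : C₁ * pm p / gs * κ ^ n * (gs * lam ^ n) ≤ η p * σ n := by
      refine mul_le_mul h1.le h5 (by positivity) ?_
      have : 0 ≤ C₁ * pm p / gs * κ ^ n := by positivity
      linarith
    have h7 : C₁ * pm p / gs * κ ^ n * (gs * lam ^ n) = C₁ * pm p * (κ ^ n * lam ^ n) := by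
      field_simp
    rwa [h7] at h6
  have e1 := hstep n (hn₂0.trans hnn2) p.1 (pm p) hp1 (by simp only [hpm]; omega)
    (by simp only [hpm]; omega)
  have e2 := hstep n (hn₂0.trans hnn2) p.2 (pm p) hp2 (by simp only [hpm]; omega)
    (by simp only [hpm]; omega)
  have e3 := (abs_le.1 e1).2
  have e4 := (abs_le.1 e2).1
  have e5 := mul_lt_mul_of_pos_right h2 hσpos
  have e6 := mul_lt_mul_of_pos_right h3 hσpos
  have e7 : 4 * η p = N p.2 - N p.1 := by
    simp only [hη]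
    ring
  have e8 : max (w ((φ ^ n) p.1)) 0 < max (w ((φ ^ n) p.2)) 0 := by
    have e9 : (N p.1 + η p) * σ n + η p * σ n = (N p.2 - η p) * σ n - η p * σ n := by
      have : N p.2 = N p.1 + 4 * η p := by linarith
      rw [this]
      ring
    linarith
  have e9 := le_max_left (w ((φ ^ n) p.1)) 0
  have e10 := le_max_right (w ((φ ^ n) p.1)) 0
  rcases le_total (w ((φ ^ n) p.2)) 0 with h9 | h9
  · rw [max_eq_right h9] at e8
    linarith
  · rw [max_eq_left h9] at e8
    linarith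

end Pool.Agent.H17Dyn
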