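import Pool.Agent.H17Dyn.WeakPerronAlg

/-!
# Weak Perron numbers from recurrent sequences with short representations
-/

set_option autoImplicit false

namespace Pool.Agent.H17Dyn

open Filter Topology Polynomial

/-- comparison of exponential growth rates -/
lemma norm_le_of_pow_le {lam : ℝ} {dg : ℕ → ℕ}
    (hdg : Tendsto (fun n : ℕ => (dg n : ℝ) ^ ((1 : ℝ) / (n : ℝ))) atTop (𝓝 lam)) {μ : ℂ}
    {C : ℝ} (hC : 1 ≤ C) {n₁ : ℕ} (hbd : ∀ n, n₁ ≤ n → ‖μ‖ ^ n ≤ C * dg n) : ‖μ‖ ≤ lam := by
  have hlim : Tendsto (fun n : ℕ => C ^ ((1 : ℝ) / (n : ℝ)) * (dg n : ℝ) ^ ((1 : ℝ) / (n : ℝ)))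
      atTop (𝓝 (1 * lam)) := by
    refine Tendsto.mul ?_ hdg
    have h1 : Tendsto (fun n : ℕ => (1 : ℝ) / (n : ℝ)) atTop (𝓝 0) :=
      tendsto_one_div_atTop_nhds_zero_nat
    have h2 := (Real.continuous_const_rpow (a := C) (by linarith)).tendsto 0
    rw [Real.rpow_zero] at h2
    exact h2.comp h1
  rw [one_mul] at hlim
  refine ge_of_tendsto hlim ?_
  filter_upwards [eventually_ge_atTop n₁, eventually_gt_atTop 0] with n hn hn0
  have hn' : (n : ℝ) ≠ 0 := by exact_mod_cast hn0.ne'
  rw [← Real.mul_rpow (by linarith) (Nat.cast_nonneg _)]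
  have h1 : ‖μ‖ = (‖μ‖ ^ n) ^ ((1 : ℝ) / (n : ℝ)) := by
    rw [← Real.rpow_natCast, ← Real.rpow_mul (norm_nonneg _), mul_one_div_cancel hn',
      Real.rpow_one]
  rw [h1]
  exact Real.rpow_le_rpow (by positivity) (hbd n hn) (by positivity)

section Rec

variable {p : ℚ[X]} (a : ℕ → ℝ)

/-- the linear functional `X ^ n ↦ a n` -/
noncomputable def seqFun : ℚ[X] →ₗ[ℚ] ℝ where
  toFun f := f.sum fun n c => (c : ℝ) * a n
  map_add' f g := by
    refine Polynomial.sum_add_index f g _ (fun n => by simp) (fun n c c' => ?_)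
    push_cast
    ring
  map_smul' c f := by
    rw [RingHom.id_apply, Polynomial.sum_smul_index _ _ _ (fun n => by simp), Polynomial.sum,
      Polynomial.sum, Finset.smul_sum]
    refine Finset.sum_congr rfl fun n _ => ?_
    rw [Rat.smul_def]
    push_cast
    ring

lemma seqFun_X_pow (n : ℕ) : seqFun a (X ^ n) = a n := by
  change Polynomial.sum (X ^ n : ℚ[X]) (fun n c => ((c : ℚ) : ℝ) * a n) = _
  rw [← Polynomial.monomial_one_right_eq_X_pow, Polynomial.sum_monomial_index]
  · simp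
  · simp

lemma seqFun_mul_X_pow (f : ℚ[X]) (m : ℕ) :
    seqFun a (f * X ^ m) = seqFun (fun n => a (n + m)) f := by
  induction f using Polynomial.induction_on' with
  | add f g hf hg => rw [add_mul, map_add, map_add, hf, hg]
  | monomial n c =>
    have h1 : monomial n c * X ^ m = c • (X ^ (n + m) : ℚ[X]) := by
      rw [← Polynomial.C_mul_X_pow_eq_monomial, mul_assoc, ← pow_add, Polynomial.smul_eq_C_mul]
    have h2 : monomial n c = c • (X ^ n : ℚ[X]) := by
      rw [← Polynomial.C_mul_X_pow_eq_monomial, Polynomial.smul_eq_C_mul]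
    rw [h1, h2, map_smul, map_smul, seqFun_X_pow, seqFun_X_pow]

/-- the functional kills the multiples of the characteristic polynomial of the recurrence -/
lemma seqFun_eq_zero (hrec : ∀ m, seqFun (fun n => a (n + m)) p = 0) {f : ℚ[X]} (hf : p ∣ f) :
    seqFun a f = 0 := by
  obtain ⟨g, rfl⟩ := hf
  induction g using Polynomial.induction_on' with
  | add f g hf hg => rw [mul_add, map_add, hf, hg, add_zero]
  | monomial n c =>
    have h1 : p * monomial n c = c • (p * X ^ n) := by
      rw [← Polynomial.C_mul_X_pow_eq_monomial, Polynomial.smul_eq_C_mul]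
      ring
    rw [h1, map_smul, seqFun_mul_X_pow, hrec, smul_zero]

end Rec

/-- **Weak Perron numbers from recurrent sequences.** -/
theorem weak_perron_of_seq {lam : ℝ} (halg : IsAlgebraic ℚ lam) {dg : ℕ → ℕ}
    (hdg : Tendsto (fun n : ℕ => (dg n : ℝ) ^ ((1 : ℝ) / (n : ℝ))) atTop (𝓝 lam))
    (hmul : ∀ m n, dg (m + n) ≤ dg m * dg n) {a : ℕ → ℝ} (ha0 : a 0 ≠ 0)
    (hrec : ∀ m, seqFun (fun n => a (n + m)) (minpoly ℚ lam) = 0) {S : Finset ℝ} {C₀ : ℕ}
    (h : ∀ n, ∃ m : Multiset ℝ, (∀ s ∈ m, s ∈ S) ∧ m.card ≤ C₀ * dg n ∧ m.sum = a n) :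
    IsIntegral ℤ lam ∧ ∀ μ : ℂ, Polynomial.aeval μ (minpoly ℤ lam) = 0 → ‖μ‖ ≤ lam := by
  classical
  set p := minpoly ℚ lam with hp
  have hpI : IsIntegral ℚ lam := halg.isIntegral
  have hpirr : Irreducible p := minpoly.irreducible hpI
  have hpm : p.Monic := minpoly.monic hpI
  have : Fact (Irreducible p) := ⟨hpirr⟩
  let E := AdjoinRoot p
  set θ : E := AdjoinRoot.root p with hθ
  -- the functional on `E`
  let Lf : E →ₗ[ℚ] ℝ :=
    (Submodule.liftQ ((Ideal.span {p}).restrictScalars ℚ) (seqFun a) (by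
      intro f hf
      rw [LinearMap.mem_ker]
      exact seqFun_eq_zero a hrec (Ideal.mem_span_singleton.1 hf)))
  have hLf : ∀ f : ℚ[X], Lf (AdjoinRoot.mk p f) = seqFun a f := fun f => rfl
  have hLn : ∀ n, Lf (θ ^ n) = a n := by
    intro n
    have h1 : θ ^ n = AdjoinRoot.mk p (X ^ n) := by
      rw [map_pow, AdjoinRoot.mk_X]
    rw [h1, hLf, seqFun_X_pow]
  -- the joint functional
  set r := p.natDegree with hr
  let Λ : E →ₗ[ℚ] (Fin r → ℝ) := LinearMap.pi fun j =>
    Lf.comp (LinearMap.mulLeft ℚ (θ ^ (j : ℕ)))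
  have hΛ : ∀ e j, Λ e j = Lf (θ ^ (j : ℕ) * e) := fun e j => rfl
  have hΛn : ∀ n j, Λ (θ ^ n) j = a (n + j) := by
    intro n j
    rw [hΛ, ← pow_add, hLn, add_comm]
  have hinj : Function.Injective Λ := by
    rw [← LinearMap.ker_eq_bot, LinearMap.ker_eq_bot']
    intro e he
    by_contra he0
    have h1 : ∀ x : E, Lf (x * e) = 0 := by
      intro x
      have h2 : x ∈ Submodule.span ℚ (Set.range (AdjoinRoot.powerBasis hpirr.ne_zero).basis) := by
        rw [(AdjoinRoot.powerBasis hpirr.ne_zero).basis.span_eq]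
        trivial
      induction h2 using Submodule.span_induction with
      | mem x hx =>
        obtain ⟨j, rfl⟩ := hx
        rw [PowerBasis.coe_basis, AdjoinRoot.powerBasis_gen]
        have hj : (j : ℕ) < r :=
          lt_of_lt_of_eq j.2 (AdjoinRoot.powerBasis_dim hpirr.ne_zero)
        exact congrFun he ⟨j, hj⟩
      | zero => rw [zero_mul, map_zero]
      | add x y _ _ hx hy => rw [add_mul, map_add, hx, hy, add_zero]
      | smul c x _ hx => rw [smul_mul_assoc, map_smul, hx, smul_zero]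
    have h2 := h1 e⁻¹
    rw [inv_mul_cancel₀ he0] at h2
    have h3 := hLn 0
    rw [pow_zero, h2] at h3
    exact ha0 h3.symm
  -- integrality
  have hint : IsIntegral ℤ θ := by
    set B : Submodule ℤ E := Submodule.span ℤ (Set.range fun n : ℕ => θ ^ n) with hB
    have hBfg : B.FG := by
      have hΛZ : Function.Injective (Λ.restrictScalars ℤ) := hinj
      refine Submodule.fg_of_fg_map_injective (Λ.restrictScalars ℤ) hΛZ ?_
      set A : Submodule ℤ (Fin r → ℝ) := Submodule.span ℤ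
        (((Finset.univ ×ˢ S).image fun js : Fin r × ℝ => (Pi.single js.1 js.2 : Fin r → ℝ) :
          Finset (Fin r → ℝ)) : Set (Fin r → ℝ)) with hA
      have hAfg : A.FG := ⟨_, by rw [hA]⟩
      have hBA : B.map (Λ.restrictScalars ℤ) ≤ A := by
        rw [hB, Submodule.map_span, Submodule.span_le]
        rintro _ ⟨_, ⟨n, rfl⟩, rfl⟩
        change Λ (θ ^ n) ∈ A
        rw [← Finset.univ_sum_single (Λ (θ ^ n))]
        refine Submodule.sum_mem _ fun j _ => ?_
        obtain ⟨m, h1, -, h3⟩ := h (n + j)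
        rw [hΛn, ← h3]
        have h4 : ∀ m : Multiset ℝ, (∀ s ∈ m, s ∈ S) → (Pi.single j m.sum : Fin r → ℝ) ∈ A := by
          intro m
          induction m using Multiset.induction_on with
          | empty =>
            intro _
            rw [Multiset.sum_zero, Pi.single_zero]
            exact A.zero_mem
          | cons s m ih =>
            intro hm
            rw [Multiset.sum_cons, Pi.single_add]
            refine A.add_mem (Submodule.subset_span ?_)
              (ih fun t ht => hm t (Multiset.mem_cons_of_mem ht))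
            rw [Finset.coe_image]
            exact ⟨(j, s), by
              rw [Finset.mem_coe, Finset.mem_product]
              exact ⟨Finset.mem_univ _, hm s (Multiset.mem_cons_self s m)⟩, rfl⟩
        exact h4 m h1
      have : IsNoetherian ℤ A := isNoetherian_of_fg_of_noetherian A hAfg
      exact Submodule.FG.of_le hAfg hBA
    refine isIntegral_of_smul_mem_submodule (M := E) B ?_ hBfg θ ?_
    · intro hbot
      have h1 : θ ^ 0 ∈ B := Submodule.subset_span ⟨0, rfl⟩
      rw [hbot, Submodule.mem_bot, pow_zero] at h1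
      exact one_ne_zero h1
    · intro y hy
      induction hy using Submodule.span_induction with
      | mem y hy =>
        obtain ⟨n, rfl⟩ := hy
        refine Submodule.subset_span ⟨n + 1, ?_⟩
        simp only [smul_eq_mul]
        ring
      | zero => simp
      | add y z _ _ h1 h2 =>
        rw [smul_add]
        exact B.add_mem h1 h2
      | smul c y _ h1 =>
        rw [smul_comm]
        exact B.smul_mem c h1
  have hintlam : IsIntegral ℤ lam := by
    let τ : E →ₐ[ℚ] ℝ := AdjoinRoot.liftAlgHom p (Algebra.ofId ℚ ℝ) lam (minpoly.aeval ℚ lam)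
    have h1 : τ θ = lam := AdjoinRoot.liftAlgHom_root ..
    rw [← h1]
    exact hint.map (τ.restrictScalars ℤ)
  refine ⟨hintlam, fun μ hμ => ?_⟩
  have hmin : p = (minpoly ℤ lam).map (algebraMap ℤ ℚ) :=
    minpoly.isIntegrallyClosed_eq_field_fractions' ℚ hintlam
  have hμ' : Polynomial.aeval μ p = 0 := by
    rw [hmin, Polynomial.aeval_map_algebraMap]
    exact hμ
  let σ : E →ₐ[ℚ] ℂ := AdjoinRoot.liftAlgHom p (Algebra.ofId ℚ ℂ) μ hμ'
  have hσ : σ θ = μ := AdjoinRoot.liftAlgHom_root ..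
  obtain ⟨g, hg⟩ := LinearMap.exists_leftInverse_of_injective Λ (LinearMap.ker_eq_bot.2 hinj)
  let Ψ : (Fin r → ℝ) →ₗ[ℚ] ℂ := σ.toLinearMap.comp g
  have hΨ : ∀ e, Ψ (Λ e) = σ e := by
    intro e
    have := congrArg (fun f : E →ₗ[ℚ] E => f e) hg
    simp only [LinearMap.comp_apply, LinearMap.id_apply] at this
    change σ (g (Λ e)) = σ e
    rw [this]
  let Ψj : Fin r → ℝ →ₗ[ℚ] ℂ := fun j => Ψ.comp (LinearMap.single ℚ (fun _ => ℝ) j)
  have hμn : ∀ n, μ ^ n = ∑ j, Ψj j (a (n + j)) := by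
    intro n
    rw [← hσ, ← map_pow, ← hΨ, ← Finset.univ_sum_single (Λ (θ ^ n)), map_sum]
    refine Finset.sum_congr rfl fun j _ => ?_
    rw [hΛn]
    rfl
  set C : ℝ := 1 + ∑ j, ∑ s ∈ S, ‖Ψj j s‖ with hC
  have hC1 : 1 ≤ C := by
    rw [hC]
    have := Finset.sum_nonneg (s := (Finset.univ : Finset (Fin r)))
      (f := fun j => ∑ s ∈ S, ‖Ψj j s‖) fun j _ => Finset.sum_nonneg fun s _ => norm_nonneg _
    linarith
  have hCs : ∀ j, ∀ s ∈ S, ‖Ψj j s‖ ≤ C := by
    intro j s hs
    have h1 := Finset.single_le_sum (s := S) (f := fun s => ‖Ψj j s‖)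
      (fun s _ => norm_nonneg _) hs
    have h2 := Finset.single_le_sum (s := (Finset.univ : Finset (Fin r)))
      (f := fun j => ∑ s ∈ S, ‖Ψj j s‖) (fun j _ => Finset.sum_nonneg fun s _ => norm_nonneg _)
      (Finset.mem_univ j)
    rw [hC]
    linarith
  have hbda : ∀ n j, ‖Ψj j (a n)‖ ≤ C * (C₀ * dg n) := by
    intro n j
    obtain ⟨m, h1, h2, h3⟩ := h n
    rw [← h3, map_multiset_sum]
    have h4 : ∀ m : Multiset ℝ, (∀ s ∈ m, s ∈ S) → ‖(m.map (Ψj j)).sum‖ ≤ m.card * C := by
      intro m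
      induction m using Multiset.induction_on with
      | empty => simp
      | cons s m ih =>
        intro hm
        rw [Multiset.map_cons, Multiset.sum_cons, Multiset.card_cons]
        push_cast
        have h5 := ih fun t ht => hm t (Multiset.mem_cons_of_mem ht)
        have h6 := hCs j s (hm s (Multiset.mem_cons_self s m))
        calc ‖Ψj j s + (m.map (Ψj j)).sum‖ ≤ ‖Ψj j s‖ + ‖(m.map (Ψj j)).sum‖ := norm_add_le _ _
          _ ≤ C + m.card * C := add_le_add h6 h5
          _ = (m.card + 1) * C := by ring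
    refine (h4 m h1).trans ?_
    rw [mul_comm]
    refine mul_le_mul_of_nonneg_left ?_ (by linarith)
    exact_mod_cast h2
  set D : ℝ := 1 + C * C₀ * ∑ j : Fin r, (dg j : ℝ) with hD
  have hsum0 : 0 ≤ ∑ j : Fin r, (dg j : ℝ) := Finset.sum_nonneg fun j _ => Nat.cast_nonneg _
  have hCC : 0 ≤ C * C₀ := mul_nonneg (by linarith) (Nat.cast_nonneg _)
  have hD1 : 1 ≤ D := by
    rw [hD]
    have := mul_nonneg hCC hsum0
    linarith
  refine norm_le_of_pow_le hdg (C := D) hD1 (n₁ := 0) fun n _ => ?_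
  rw [← norm_pow, hμn]
  refine (norm_sum_le _ _).trans ?_
  have h1 : ∀ j ∈ (Finset.univ : Finset (Fin r)), ‖Ψj j (a (n + j))‖ ≤
      C * C₀ * (dg j : ℝ) * dg n := by
    intro j _
    refine (hbda (n + j) j).trans ?_
    have h2 : (dg (n + j) : ℝ) ≤ dg n * dg j := by exact_mod_cast hmul n j
    calc C * (C₀ * dg (n + j)) = C * C₀ * dg (n + j) := by ring
      _ ≤ C * C₀ * (dg n * dg j) := mul_le_mul_of_nonneg_left h2 hCC
      _ = _ := by ring
  refine (Finset.sum_le_sum h1).trans ?_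
  rw [← Finset.sum_mul, ← Finset.mul_sum]
  refine mul_le_mul_of_nonneg_right ?_ (Nat.cast_nonneg _)
  rw [hD]
  linarith

end Pool.Agent.H17Dyn
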