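import Pool.Agent.H17Dyn.MainAt
import Pool.Agent.H17Dyn.Fat
import Pool.Agent.H17Dyn.ValField

/-!
# The main inequality for fat valuations
-/

set_option autoImplicit false
set_option linter.unusedSectionVars false

attribute [-instance] HahnSeries.powerSeriesAlgebra

namespace Pool.Agent.H17Dyn

open LgData Polynomial

universe u

section Generic

variable {d : ℕ} {k : Type u} [Field k] [CharZero k]

/-- the logarithmic absolute value on the field of fractions, for a valuation with
`N X_i = 1` -/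
noncomputable def fracL {N : MvPolynomial (Fin d) k → ℝ} (hN : IsLogVal N) {i : Fin d}
    (hi : N (MvPolynomial.X i) = 1) : LgData k (FractionRing (MvPolynomial (Fin d) k)) :=
  fracLg hN one_pos (algebraMap (MvPolynomial (Fin d) k) _ (MvPolynomial.X i))
    (by
      have := MvPolynomial.X_ne_zero (R := k) i
      simp)
    (by rw [fracN_algebraMap hN (MvPolynomial.X_ne_zero i), hi])

omit [CharZero k] in
lemma fracL_lg {N : MvPolynomial (Fin d) k → ℝ} (hN : IsLogVal N) {i : Fin d}
    (hi : N (MvPolynomial.X i) = 1) (z : FractionRing (MvPolynomial (Fin d) k)) :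
    (fracL hN hi).lg z = fracN N z := by
  change fracN N z / 1 = _
  rw [div_one]

/-- **Generic points of valuations.** -/
theorem exists_generic {N : MvPolynomial (Fin d) k → ℝ} (hN : IsLogVal N) {i : Fin d}
    (hi : N (MvPolynomial.X i) = 1) :
    ∃ (K : Type u) (_ : Field K) (_ : IsAlgClosed K) (_ : CharZero K) (_ : Algebra k K)
      (_ : Algebra (FractionRing (MvPolynomial (Fin d) k)) K)
      (_ : IsScalarTower k (FractionRing (MvPolynomial (Fin d) k)) K) (L : LgData k K)
      (x : Fin d → K),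
      (∀ P : MvPolynomial (Fin d) k, MvPolynomial.aeval x P =
        algebraMap (FractionRing (MvPolynomial (Fin d) k)) K (algebraMap _ _ P)) ∧
      (∀ z : FractionRing (MvPolynomial (Fin d) k), z ≠ 0 →
        L.lg (algebraMap _ K z) = fracN N z) ∧
      (∀ P : MvPolynomial (Fin d) k, P ≠ 0 →
        MvPolynomial.aeval x P ≠ 0 ∧ L.lg (MvPolynomial.aeval x P) = N P) := by
  have hchF : CharZero (FractionRing (MvPolynomial (Fin d) k)) := by
    refine charZero_of_injective_algebraMap
      (R := k) (A := FractionRing (MvPolynomial (Fin d) k)) ?_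
    exact (algebraMap k (FractionRing (MvPolynomial (Fin d) k))).injective
  obtain ⟨K, iK1, iK2, iK3, iK4, iK5, iK6, L, hL⟩ := exists_valued_field (fracL hN hi)
  set x : Fin d → K := fun j => algebraMap (FractionRing (MvPolynomial (Fin d) k)) K
    (algebraMap (MvPolynomial (Fin d) k) (FractionRing (MvPolynomial (Fin d) k))
      (MvPolynomial.X j)) with hx
  have hxa : ∀ P : MvPolynomial (Fin d) k, MvPolynomial.aeval x P =
      algebraMap (FractionRing (MvPolynomial (Fin d) k)) K
        (algebraMap (MvPolynomial (Fin d) k) (FractionRing (MvPolynomial (Fin d) k)) P) := by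
    intro P
    have h1 : MvPolynomial.aeval x = ((IsScalarTower.toAlgHom k
        (FractionRing (MvPolynomial (Fin d) k)) K).comp
        (IsScalarTower.toAlgHom k (MvPolynomial (Fin d) k)
          (FractionRing (MvPolynomial (Fin d) k)))) := by
      apply MvPolynomial.algHom_ext
      intro j
      simp [hx]
    rw [h1]
    rfl
  have hL' : ∀ z : FractionRing (MvPolynomial (Fin d) k), z ≠ 0 →
        L.lg (algebraMap _ K z) = fracN N z := fun z hz => by rw [hL z hz, fracL_lg]
  refine ⟨K, iK1, iK2, iK3, iK4, iK5, iK6, L, x, hxa, hL', fun P hP => ?_⟩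
  have h1 : algebraMap (MvPolynomial (Fin d) k) (FractionRing (MvPolynomial (Fin d) k)) P ≠ 0 := by
    simpa using hP
  rw [hxa]
  refine ⟨by simpa using hP, ?_⟩
  rw [hL' _ h1, fracN_algebraMap hN hP]

end Generic

section Line

variable {d : ℕ} {k : Type*} [Field k] [CharZero k]

/-- the directional derivative -/
noncomputable def dirD (q : Fin d → k) (P : MvPolynomial (Fin d) k) : MvPolynomial (Fin d) k :=
  ∑ i, MvPolynomial.C (q i) * MvPolynomial.pderiv i P

lemma derivative_dirPoly {B : Type*} [CommRing B] [Algebra k B] (x : Fin d → B) (q : Fin d → k)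
    (P : MvPolynomial (Fin d) k) :
    derivative (dirPoly x q P) = dirPoly x q (dirD q P) := by
  have h := chain_rule ((Polynomial.derivative' : Derivation B B[X] B[X]).restrictScalars k)
    (MvPolynomial.aeval (fun i => Polynomial.C (x i) + Polynomial.C (algebraMap k B (q i)) *
      Polynomial.X) : MvPolynomial (Fin d) k →ₐ[k] B[X]) P
  change derivative (dirPoly x q P) = ∑ l, dirPoly x q (MvPolynomial.pderiv l P) *
    derivative (MvPolynomial.aeval (fun i => Polynomial.C (x i) +
      Polynomial.C (algebraMap k B (q i)) * Polynomial.X) (MvPolynomial.X l)) at h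
  rw [h, dirD, dirPoly, map_sum]
  refine Finset.sum_congr rfl fun l _ => ?_
  rw [MvPolynomial.aeval_X, map_mul, MvPolynomial.algHom_C, dirPoly]
  simp only [derivative_add, derivative_C, derivative_mul, derivative_X, zero_mul, zero_add,
    mul_one, Polynomial.algebraMap_apply]
  rw [mul_comm]

lemma coeff_dirPoly_iterate {B : Type*} [CommRing B] [Algebra k B] (x : Fin d → B)
    (q : Fin d → k) (P : MvPolynomial (Fin d) k) (n : ℕ) :
    (n.factorial : B) * (dirPoly x q P).coeff n = MvPolynomial.aeval x ((dirD q)^[n] P) := by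
  have h1 : derivative^[n] (dirPoly x q P) = dirPoly x q ((dirD q)^[n] P) := by
    induction n with
    | zero => rfl
    | succ n ih => rw [Function.iterate_succ_apply', ih, derivative_dirPoly,
        Function.iterate_succ_apply']
  have h2 : (dirPoly x q ((dirD q)^[n] P)).coeff 0 =
      MvPolynomial.aeval x ((dirD q)^[n] P) := by
    rw [Polynomial.coeff_zero_eq_eval_zero, eval_dirPoly]
    congr 2
    ext i
    simp
  rw [← h2, ← h1, Polynomial.coeff_iterate_derivative, zero_add, Nat.descFactorial_self,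
    nsmul_eq_mul]

/-- a point over a valued field at which differentiation increases the sizes by at most `s` -/
lemma lg_dirD_le {K : Type*} [Field K] [Algebra k K] {L : LgData k K}
    {w : MvPolynomial (Fin d) k → ℝ} {s : ℝ} (hfat : Fat s w) {x0 : Fin d → K}
    (hx : ∀ P : MvPolynomial (Fin d) k, P ≠ 0 → MvPolynomial.aeval x0 P ≠ 0 ∧
      L.lg (MvPolynomial.aeval x0 P) = w P) (q : Fin d → k) (n : ℕ)
    {P : MvPolynomial (Fin d) k} (hP : P ≠ 0) :
    L.le (MvPolynomial.aeval x0 ((dirD q)^[n] P)) (w P + n * s) := by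
  have hle : ∀ (Q : MvPolynomial (Fin d) k) (r : ℝ), L.le (MvPolynomial.aeval x0 Q) r →
      L.le (MvPolynomial.aeval x0 (dirD q Q)) (r + s) := by
    intro Q r hQ
    rw [dirD, map_sum]
    refine le_sum fun i _ => ?_
    rw [map_mul, MvPolynomial.algHom_C]
    refine ((le_const (q i)).mul (?_ : L.le _ (r + s))).mono (by linarith)
    rcases eq_or_ne (MvPolynomial.pderiv i Q) 0 with h0 | h0
    · rw [h0, map_zero]
      exact le_zero _
    · have hQ0 : Q ≠ 0 := by
        rintro rfl
        exact h0 (map_zero _)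
      intro _
      rw [(hx _ h0).2]
      have h1 := hfat i Q h0
      have h2 := hQ (hx Q hQ0).1
      rw [(hx Q hQ0).2] at h2
      linarith
  induction n with
  | zero =>
    intro h
    rw [Function.iterate_zero_apply, (hx P hP).2]
    simp
  | succ n ih =>
    rw [Function.iterate_succ_apply']
    refine (hle _ _ ih).mono ?_
    push_cast
    linarith

lemma lg_natCast_ne {K : Type*} [Field K] [Algebra k K] (L : LgData k K) {n : ℕ} (hn : n ≠ 0) :
    (n : K) ≠ 0 ∧ L.lg (n : K) = 0 := by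
  have hn' : (n : k) ≠ 0 := Nat.cast_ne_zero.2 hn
  rw [← map_natCast (algebraMap k K)]
  exact ⟨(map_ne_zero_iff _ (algebraMap k K).injective).2 hn', L.lg_const hn'⟩

/-- the coefficients of the restriction to a line -/
lemma le_coeff_dirPoly {K : Type*} [Field K] [Algebra k K] {L : LgData k K}
    {w : MvPolynomial (Fin d) k → ℝ} {s : ℝ} (hfat : Fat s w) {x0 : Fin d → K}
    (hx : ∀ P : MvPolynomial (Fin d) k, P ≠ 0 → MvPolynomial.aeval x0 P ≠ 0 ∧
      L.lg (MvPolynomial.aeval x0 P) = w P) (q : Fin d → k) (n : ℕ)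
    {P : MvPolynomial (Fin d) k} (hP : P ≠ 0) :
    L.le ((dirPoly x0 q P).coeff n) (w P + n * s) := by
  intro h
  have h1 := lg_dirD_le (L := L) hfat hx q n hP
  rw [← coeff_dirPoly_iterate] at h1
  have h2 := lg_natCast_ne (K := K) L (Nat.factorial_ne_zero n)
  have h3 := h1 (mul_ne_zero h2.1 h)
  rw [L.lg_mul h2.1 h, h2.2, zero_add] at h3
  exact h3

/-- roots on a line through a fat point are not close to it -/
lemma root_far {K : Type*} [Field K] [Algebra k K] {L : LgData k K}
    {w : MvPolynomial (Fin d) k → ℝ} {s : ℝ} (hfat : Fat s w) {x0 : Fin d → K}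
    (hx : ∀ P : MvPolynomial (Fin d) k, P ≠ 0 → MvPolynomial.aeval x0 P ≠ 0 ∧
      L.lg (MvPolynomial.aeval x0 P) = w P) (q : Fin d → k)
    {A : MvPolynomial (Fin d) k} (hA : A ≠ 0) {c : k}
    (hc : L.big (MvPolynomial.aeval x0 A - algebraMap k K c)) {y : K}
    (hy : (dirPoly x0 q A - Polynomial.C (algebraMap k K c)).eval y = 0) : -s ≤ L.lg y := by
  by_contra hcon
  push Not at hcon
  have h5 : (dirPoly x0 q A).eval y = algebraMap k K c := by
    rw [eval_sub, eval_C, sub_eq_zero] at hy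
    exact hy
  have hev0 : (dirPoly x0 q A).coeff 0 = MvPolynomial.aeval x0 A := by
    rw [Polynomial.coeff_zero_eq_eval_zero, eval_dirPoly]
    congr 2
    ext i
    simp
  have h6 : algebraMap k K c - MvPolynomial.aeval x0 A ≠ 0 := by
    rw [← neg_sub, neg_ne_zero]
    exact hc.1
  have h7 : L.lg (algebraMap k K c - MvPolynomial.aeval x0 A) =
      L.fl 0 (MvPolynomial.aeval x0 A) := by
    rw [L.lg_sub_comm, ← fl_eq_of_big hc]
  have h8 : L.le (algebraMap k K c - MvPolynomial.aeval x0 A) (w A + (s + L.lg y)) := by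
    rw [← h5, ← hev0, Polynomial.eval_eq_sum_range, Finset.sum_range_succ', pow_zero, mul_one,
      add_sub_cancel_right]
    refine le_sum fun j _ => ?_
    have h9 : L.le (y ^ (j + 1)) ((j + 1 : ℕ) * L.lg y) := le.pow (fun _ => le_rfl) (j + 1)
    refine ((le_coeff_dirPoly hfat hx q (j + 1) hA).mul h9).mono ?_
    push_cast
    have h10 : (0 : ℝ) ≤ j := Nat.cast_nonneg j
    nlinarith
  have h9 := h8 h6
  rw [h7, fl_of_ne (hx A hA).1, (hx A hA).2] at h9
  have := le_max_left (w A) 0
  linarith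

end Line

section Main

variable {d : ℕ} {k : Type*} [Field k] [IsAlgClosed k] [CharZero k]

/-- **The main inequality at a fat point.** -/
theorem main_fat_at {K : Type*} [Field K] [IsAlgClosed K] [CharZero K] [Algebra k K]
    (L : LgData k K) {χ : ℝ →+ k} (hχ : Function.Injective χ) (hd : 2 ≤ d)
    (G : MvPolynomial (Fin d) k ≃ₐ[k] MvPolynomial (Fin d) k) {D : ℝ} (hD : Deg2W G D)
    (i0 : Fin d) {P : MvPolynomial (Fin d) k} (hP : P.totalDegree ≠ 0) {m : ℝ} (hm : 0 ≤ m)
    {w : MvPolynomial (Fin d) k → ℝ} {s : ℝ} (hs : 0 ≤ s) (hfat : Fat s w) {x0 : Fin d → K}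
    (hx : ∀ P : MvPolynomial (Fin d) k, P ≠ 0 → MvPolynomial.aeval x0 P ≠ 0 ∧
      L.lg (MvPolynomial.aeval x0 P) = w P) (hx0 : ∀ i, L.le (x0 i) m) :
    (max (w (G P)) 0 / (G P).totalDegree -
      max (w (G (MvPolynomial.X i0))) 0 / (G (MvPolynomial.X i0)).totalDegree) ^ 2 ≤
    (m + s) * (2 / ((G P).totalDegree * (G (MvPolynomial.X i0)).totalDegree) *
        (P.totalDegree * (D * m))) := by
  classical
  set A := G P with hA
  set B := G (MvPolynomial.X i0) with hB
  have hA0 : A.totalDegree ≠ 0 := totalDegree_apply_ne_zero G hP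
  have hB0 : B.totalDegree ≠ 0 := Nat.one_le_iff_ne_zero.1 (one_le_totalDegree_X G i0)
  have hAn : A ≠ 0 := fun h => hA0 (by rw [h, MvPolynomial.totalDegree_zero])
  have hBn : B ≠ 0 := fun h => hB0 (by rw [h, MvPolynomial.totalDegree_zero])
  have hflA : L.fl 0 (MvPolynomial.aeval x0 A) = max (w A) 0 := by
    rw [fl_of_ne (hx A hAn).1, (hx A hAn).2]
  have hflB : L.fl 0 (MvPolynomial.aeval x0 B) = max (w B) 0 := by
    rw [fl_of_ne (hx B hBn).1, (hx B hBn).2]
  have hne : ∀ Q : MvPolynomial (Fin d) k, Q.totalDegree ≠ 0 → topForm Q ≠ 0 := fun Q hQ =>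
    topForm_ne_zero fun h => hQ (by rw [h, MvPolynomial.totalDegree_zero])
  obtain ⟨q', hq'⟩ := exists_eval_ne_zero (mul_ne_zero (hne _ hA0) (hne _ hB0))
  rw [map_mul] at hq'
  have hq'A := left_ne_zero_of_mul hq'
  have hq'B := right_ne_zero_of_mul hq'
  set fA := dirPoly x0 q' A with hfA
  set fB := dirPoly x0 q' B with hfB
  have hAnd : fA.natDegree = A.totalDegree := by
    have := (natDegree_dirPoly_sub x0 hA0 hq'A (0 : K)).1
    rwa [C_0, sub_zero] at this
  have hBnd : fB.natDegree = B.totalDegree := by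
    have := (natDegree_dirPoly_sub x0 hB0 hq'B (0 : K)).1
    rwa [C_0, sub_zero] at this
  obtain ⟨T, hT⟩ := exists_crit (k := k) (f := fB) (by rw [hBnd]; exact Nat.pos_of_ne_zero hB0)
  obtain ⟨c, c', hcT, hc'T, hlev1, hlev2⟩ := exists_levels' (L := L) fA fB
    (by rw [hAnd]; exact Nat.pos_of_ne_zero hA0) (by rw [hBnd]; exact Nat.pos_of_ne_zero hB0)
    (T ∪ (small_finite (L := L) (MvPolynomial.aeval x0 A)).toFinset ∪
      (small_finite (L := L) (MvPolynomial.aeval x0 B)).toFinset)
  rw [Finset.mem_union, Finset.mem_union, not_or, not_or, Set.Finite.mem_toFinset,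
    Set.Finite.mem_toFinset] at hcT hc'T
  have hbigc : L.big (MvPolynomial.aeval x0 A - algebraMap k K c) := not_not.1 hcT.1.2
  have hbigc' : L.big (MvPolynomial.aeval x0 B - algebraMap k K c') := not_not.1 hc'T.2
  obtain ⟨hA2, hA3, hA4, hA5, hA6⟩ := line_at (L := L) hA0 hq'A hm hx0 hbigc
  obtain ⟨hB2, hB3, hB4, hB5, hB6⟩ := line_at (L := L) hB0 hq'B hm hx0 hbigc'
  obtain ⟨α, hα1, hα2, -⟩ := split_data (L := L) hA2 hA3 hA4
  obtain ⟨β, hβ1, hβ2, hβ3⟩ := split_data (L := L) hB2 hB3 hB4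
  have hβinj := hβ3 (hT c' hc'T.1.1)
  -- facts about the roots
  have hα0 : ∀ i, α i ≠ 0 := fun i h => hA5.1 ((hα1 0).2 ⟨i, h⟩)
  have hβ0 : ∀ j, β j ≠ 0 := fun j h => hB5.1 ((hβ1 0).2 ⟨j, h⟩)
  have hαr : ∀ i, (fA - Polynomial.C (algebraMap k K c)).eval (α i) = 0 := fun i =>
    (hα1 _).2 ⟨i, rfl⟩
  have hβr : ∀ j, (fB - Polynomial.C (algebraMap k K c')).eval (β j) = 0 := fun j =>
    (hβ1 _).2 ⟨j, rfl⟩
  have hsα : ∑ i, L.lg (α i) = L.fl 0 (MvPolynomial.aeval x0 A) := by
    rw [← hA5.2, hα2 0 hA5.1]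
    exact Finset.sum_congr rfl fun i _ => by rw [zero_sub, L.lg_neg]
  have hsβ : ∑ j, L.lg (β j) = L.fl 0 (MvPolynomial.aeval x0 B) := by
    rw [← hB5.2, hβ2 0 hB5.1]
    exact Finset.sum_congr rfl fun i _ => by rw [zero_sub, L.lg_neg]
  have hbigA : ∀ j, L.big ((fA - Polynomial.C (algebraMap k K c)).eval (β j)) := by
    intro j
    have h1 := hβr j
    rw [Polynomial.eval_sub, Polynomial.eval_C, sub_eq_zero] at h1
    rw [Polynomial.eval_sub, Polynomial.eval_C]
    exact hlev1 _ h1
  have hbigB : ∀ i, L.big ((fB - Polynomial.C (algebraMap k K c')).eval (α i)) := by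
    intro i
    have h1 := hαr i
    rw [Polynomial.eval_sub, Polynomial.eval_C, sub_eq_zero] at h1
    rw [Polynomial.eval_sub, Polynomial.eval_C]
    exact hlev2 _ h1
  have hαβ : ∀ i j, α i ≠ β j := fun i j h => (hbigA j).1 (h ▸ hαr i)
  have h1 : ∀ j, L.lg ((fA - Polynomial.C (algebraMap k K c)).eval (β j)) =
      ∑ i, L.lg (β j - α i) := fun j => hα2 _ (hbigA j).1
  have h2 : ∀ i, L.lg ((fB - Polynomial.C (algebraMap k K c')).eval (α i)) =
      ∑ j, L.lg (α i - β j) := fun i => hβ2 _ (hbigB i).1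
  have ha0' : (0 : ℝ) ≤ A.totalDegree := Nat.cast_nonneg _
  have hb0' : (0 : ℝ) ≤ B.totalDegree := Nat.cast_nonneg _
  have hen := energy (L := L) (Nat.pos_of_ne_zero hA0) (Nat.pos_of_ne_zero hB0) α β
    (T := m) (M := s) hm hs hα0
    (fun i => (hA6 _ (hαr i)).1 (hα0 i))
    (fun i => root_far hfat hx q' hAn hbigc (hαr i)) hβ0 (fun j => (hB6 _ (hβr j)).1 (hβ0 j))
    (fun j => root_far hfat hx q' hBn hbigc' (hβr j)) (by rw [hsα]; exact le_fl _ _)
    (by rw [hsβ]; exact le_fl _ _) hαβ
    (fun j => by rw [← h1]; exact (hbigA j).2) (fun i => by rw [← h2]; exact (hbigB i).2)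
  rw [hsα, hsβ, hflA, hflB] at hen
  refine hen.trans ?_
  refine mul_le_mul_of_nonneg_left ?_ (by positivity)
  refine mul_le_mul_of_nonneg_left ?_ (by positivity)
  -- the fiber bound
  obtain ⟨H, hH0, hH1, hH2⟩ := fib_at L hχ hd G hD i0 hm hx0 hq'B c' rfl β hβinj (by
    intro y
    rw [← hβ1 y, Polynomial.eval_sub, Polynomial.eval_C, sub_eq_zero])
  rw [Finset.sum_comm]
  have hj : ∀ j, ∑ i, L.lg (α i - β j) ≤ P.totalDegree * H j := by
    intro j
    have h5 : ∑ i, L.lg (α i - β j) = ∑ i, L.lg (β j - α i) :=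
      Finset.sum_congr rfl fun i _ => L.lg_sub_comm _ _
    rw [h5, ← h1]
    have h6 : L.le ((fA - Polynomial.C (algebraMap k K c)).eval (β j)) (P.totalDegree * H j) := by
      rw [Polynomial.eval_sub, Polynomial.eval_C, hfA, eval_dirPoly, hA, ← aeval_pt]
      refine le.sub ?_ ((le_const c).mono (mul_nonneg (Nat.cast_nonneg _) (hH0 j)))
      exact le_aeval (hH0 j) (hH1 j) P
    exact h6 (hbigA j).1
  refine (Finset.sum_le_sum fun j _ => hj j).trans ?_
  rw [← Finset.mul_sum]
  exact mul_le_mul_of_nonneg_left hH2 (Nat.cast_nonneg _)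

end Main

section Val

variable {d : ℕ} {k : Type u} [Field k] [IsAlgClosed k] [CharZero k]

/-- **The main inequality for a fat valuation.** -/
theorem main_fat {χ : ℝ →+ k} (hχ : Function.Injective χ) (hd : 2 ≤ d)
    (G : MvPolynomial (Fin d) k ≃ₐ[k] MvPolynomial (Fin d) k) {D : ℝ} (hD : Deg2W G D)
    (i0 : Fin d) {P : MvPolynomial (Fin d) k} (hP : P.totalDegree ≠ 0)
    {w : MvPolynomial (Fin d) k → ℝ} (hw : IsLogVal w) {s : ℝ} (hs : 0 ≤ s) (hfat : Fat s w)
    {i : Fin d} (hi : w (MvPolynomial.X i) = 1) {m : ℝ} (hm : 0 ≤ m)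
    (hwm : ∀ j, w (MvPolynomial.X j) ≤ m) :
    (max (w (G P)) 0 / (G P).totalDegree -
      max (w (G (MvPolynomial.X i0))) 0 / (G (MvPolynomial.X i0)).totalDegree) ^ 2 ≤
    (m + s) * (2 / ((G P).totalDegree * (G (MvPolynomial.X i0)).totalDegree) *
        (P.totalDegree * (D * m))) := by
  obtain ⟨K, _, _, _, _, _, _, L, x, -, -, hx⟩ := exists_generic hw hi
  refine main_fat_at L hχ hd G hD i0 hP hm hs hfat hx fun j _ => ?_
  have h1 := (hx _ (MvPolynomial.X_ne_zero (R := k) j)).2
  rw [MvPolynomial.aeval_X] at h1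
  rw [h1]
  exact hwm j

end Val

end Pool.Agent.H17Dyn
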