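import Pool.Agent.H17Dyn.Closure
import Pool.Agent.H17Dyn.Elim

/-!
# Specialisation of points inside a zero free neighbourhood
-/

set_option autoImplicit false
set_option linter.unusedSectionVars false

namespace Pool.Agent.H17Dyn

open LgData Polynomial

variable {d : ℕ} {k K : Type*} [Field k] [Field K] [Algebra k K] (L : LgData k K)

/-- two points at which finitely many polynomials have the same size -/
def Equ (W : Finset (MvPolynomial (Fin d) k)) (x x' : Fin d → K) : Prop :=
  ∀ P ∈ W, L.fl 0 (MvPolynomial.aeval x' P) = L.fl 0 (MvPolynomial.aeval x P)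

/-- `u` and `v` are nonzero and their quotient is close to one -/
def Near (u v : K) : Prop := v ≠ 0 ∧ (u - v ≠ 0 → L.lg (u - v) < L.lg v)

variable {L} in
lemma Near.lg_eq {u v : K} (h : Near L u v) : u ≠ 0 ∧ L.lg u = L.lg v := by
  have h1 := lg_add_eq (L := L) h.1 h.2
  have h2 : v + (u - v) = u := by ring
  rwa [h2] at h1

variable {L} in
lemma Near.refl {v : K} (hv : v ≠ 0) : Near L v v := ⟨hv, fun h => absurd (sub_self v) h⟩

variable {L} in
lemma Near.trans {u v w : K} (h1 : Near L u v) (h2 : Near L v w) : Near L u w := by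
  refine ⟨h2.1, fun h => ?_⟩
  have h3 : u - w = (u - v) + (v - w) := by ring
  have h4 := h2.lg_eq.2
  rcases eq_or_ne (u - v) 0 with h5 | h5
  · rw [h3, h5, zero_add] at h ⊢
    exact h2.2 h
  rcases eq_or_ne (v - w) 0 with h6 | h6
  · rw [h3, h6, add_zero] at h ⊢
    rw [← h4]
    exact h1.2 h
  rw [h3] at h ⊢
  refine (L.lg_add h5 h6 h).trans_lt (max_lt ?_ (h2.2 h6))
  rw [← h4]
  exact h1.2 h5

variable {L} in
lemma Near.mul {u v u' v' : K} (h1 : Near L u v) (h2 : Near L u' v') :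
    Near L (u * u') (v * v') := by
  refine ⟨mul_ne_zero h1.1 h2.1, fun h => ?_⟩
  rw [L.lg_mul h1.1 h2.1]
  have h3 : u * u' - v * v' = (u - v) * u' + v * (u' - v') := by ring
  rw [h3] at h ⊢
  rcases eq_or_ne (u - v) 0 with h5 | h5
  · rw [h5, zero_mul, zero_add] at h ⊢
    rw [L.lg_mul h1.1 (right_ne_zero_of_mul h)]
    linarith [h2.2 (right_ne_zero_of_mul h)]
  rcases eq_or_ne (u' - v') 0 with h6 | h6
  · rw [h6, mul_zero, add_zero] at h ⊢
    rw [L.lg_mul h5 h2.lg_eq.1, h2.lg_eq.2]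
    linarith [h1.2 h5]
  have h7 : (u - v) * u' ≠ 0 := mul_ne_zero h5 h2.lg_eq.1
  have h8 : v * (u' - v') ≠ 0 := mul_ne_zero h1.1 h6
  refine (L.lg_add h7 h8 h).trans_lt (max_lt ?_ ?_)
  · rw [L.lg_mul h5 h2.lg_eq.1, h2.lg_eq.2]
    linarith [h1.2 h5]
  · rw [L.lg_mul h1.1 h6]
    linarith [h2.2 h6]

variable {L} in
lemma Near.inv {u v : K} (h : Near L u v) : Near L u⁻¹ v⁻¹ := by
  have hu := h.lg_eq.1
  refine ⟨inv_ne_zero h.1, fun h1 => ?_⟩
  have hv := h.1
  have h2 : u⁻¹ - v⁻¹ = -(u - v) * (u⁻¹ * v⁻¹) := by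
    field_simp
    ring
  have h3 : u - v ≠ 0 := by
    intro h4
    rw [h2, h4] at h1
    simp at h1
  rw [h2, L.lg_mul (neg_ne_zero.2 h3) (mul_ne_zero (inv_ne_zero hu) (inv_ne_zero hv)), L.lg_neg,
    L.lg_mul (inv_ne_zero hu) (inv_ne_zero hv), lg_inv hu, lg_inv hv, h.lg_eq.2]
  linarith [h.2 h3]

variable {L} in
lemma Near.div {u v u' v' : K} (h1 : Near L u v) (h2 : Near L u' v') :
    Near L (u / u') (v / v') := by
  rw [div_eq_mul_inv, div_eq_mul_inv]
  exact h1.mul h2.inv

/-- `a` is a specialisation of `x` -/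
def Spz (W : Finset (MvPolynomial (Fin d) k)) (x a : Fin d → K) : Prop :=
  Equ L W x a ∧ ∀ h : MvPolynomial (Fin d) k,
    (∀ x', Equ L W x x' → MvPolynomial.aeval x' h ≠ 0) →
    Near L (MvPolynomial.aeval a h) (MvPolynomial.aeval x h)

variable {L} {W : Finset (MvPolynomial (Fin d) k)}

lemma Spz.refl (x : Fin d → K) : Spz L W x x :=
  ⟨fun _ _ => rfl, fun _ hh => Near.refl (hh x fun _ _ => rfl)⟩

lemma Spz.trans {x a b : Fin d → K} (h1 : Spz L W x a) (h2 : Spz L W a b) : Spz L W x b :=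
  ⟨fun P hP => (h2.1 P hP).trans (h1.1 P hP), fun h hh =>
    (h2.2 h fun x' hx' => hh x' fun P hP => (hx' P hP).trans (h1.1 P hP)).trans (h1.2 h hh)⟩

lemma near_multiset_prod (m : Multiset K) (f g : K → K) (h : ∀ z ∈ m, Near L (f z) (g z)) :
    Near L (m.map f).prod (m.map g).prod := by
  induction m using Multiset.induction_on with
  | empty => simpa using Near.refl one_ne_zero
  | cons z m ih =>
    rw [Multiset.map_cons, Multiset.map_cons, Multiset.prod_cons, Multiset.prod_cons]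
    exact (h z (Multiset.mem_cons_self z m)).mul
      (ih fun w hw => h w (Multiset.mem_cons_of_mem hw))

/-- a polynomial without roots in a disc is almost constant there -/
lemma near_disc [IsAlgClosed K] {H : K[X]} {c : K} {r : ℝ}
    (hH : ∀ y, L.le (y - c) r → H.eval y ≠ 0) {y₀ y₁ : K} (h₀ : L.le (y₀ - c) r)
    (h₁ : L.le (y₁ - c) r) : Near L (H.eval y₁) (H.eval y₀) := by
  have hH0 : H ≠ 0 := by
    rintro rfl
    exact hH y₀ h₀ eval_zero
  rw [(IsAlgClosed.splits H).eval_eq_prod_roots, (IsAlgClosed.splits H).eval_eq_prod_roots]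
  refine (Near.refl (leadingCoeff_ne_zero.2 hH0)).mul (near_multiset_prod _ _ _ fun z hz => ?_)
  have h1 : ¬ L.le (z - c) r := fun h => hH z h (isRoot_of_mem_roots hz)
  unfold LgData.le at h1
  push Not at h1
  have h2 := lg_add_eq' (L := L) (x := z - c) (y := -(y₀ - c)) h1.1 h₀.neg h1.2
  have h3 : z - c + -(y₀ - c) = -(y₀ - z) := by ring
  rw [h3, L.lg_neg] at h2
  refine ⟨neg_ne_zero.1 h2.1, fun h4 => ?_⟩
  rw [h2.2]
  have h5 : y₁ - z - (y₀ - z) = (y₁ - c) - (y₀ - c) := by ring
  rw [h5] at h4 ⊢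
  exact (h₁.sub h₀ h4).trans_lt h1.2

/-- a polynomial without roots in a disc has constant size there -/
lemma lg_disc [IsAlgClosed K] {H : K[X]} {c : K} {r : ℝ}
    (hH : ∀ y, L.le (y - c) r → H.eval y ≠ 0) {y₀ y₁ : K} (h₀ : L.le (y₀ - c) r)
    (h₁ : L.le (y₁ - c) r) : L.lg (H.eval y₁) = L.lg (H.eval y₀) :=
  (near_disc hH h₀ h₁).lg_eq.2

lemma eval_aeval_path (p : Fin d → K[X]) (h : MvPolynomial (Fin d) k) (y : K) :
    (MvPolynomial.aeval p h).eval y = MvPolynomial.aeval (fun i => (p i).eval y) h := by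
  have h1 := MvPolynomial.comp_aeval_apply (R := k) (f := p)
    ((Polynomial.aeval (R := K) y).restrictScalars k) h
  simp only [AlgHom.coe_restrictScalars', coe_aeval_eq_eval] at h1
  exact h1

/-- moving along a polynomial path -/
lemma Spz.path [IsAlgClosed K] (p : Fin d → K[X]) {c : K} {r : ℝ} {y₀ y₁ : K}
    (h₀ : L.le (y₀ - c) r) (h₁ : L.le (y₁ - c) r)
    (hp : ∀ y, L.le (y - c) r → Equ L W (fun i => (p i).eval y₀) (fun i => (p i).eval y)) :
    Spz L W (fun i => (p i).eval y₀) (fun i => (p i).eval y₁) := by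
  refine ⟨hp y₁ h₁, fun h hh => ?_⟩
  rw [← eval_aeval_path, ← eval_aeval_path]
  refine near_disc (fun y hy => ?_) h₀ h₁
  rw [eval_aeval_path]
  exact hh _ (hp y hy)

/-- continuity of polynomials -/
lemma exists_lip (x : Fin d → K) (P : MvPolynomial (Fin d) k) : ∃ C : ℝ, ∀ T : ℝ, 0 ≤ T →
    ∀ x' : Fin d → K, (∀ i, L.le (x' i - x i) (-T)) →
    L.le (MvPolynomial.aeval x' P - MvPolynomial.aeval x P) (C - T) := by
  induction P using MvPolynomial.induction_on with
  | C a =>
    refine ⟨0, fun T _ x' _ => ?_⟩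
    rw [MvPolynomial.algHom_C, MvPolynomial.algHom_C, sub_self]
    exact le_zero _
  | add P Q hP hQ =>
    obtain ⟨C, hC⟩ := hP
    obtain ⟨C', hC'⟩ := hQ
    refine ⟨max C C', fun T hT x' hx' => ?_⟩
    rw [map_add, map_add]
    have h1 : MvPolynomial.aeval x' P + MvPolynomial.aeval x' Q -
        (MvPolynomial.aeval x P + MvPolynomial.aeval x Q) =
        (MvPolynomial.aeval x' P - MvPolynomial.aeval x P) +
        (MvPolynomial.aeval x' Q - MvPolynomial.aeval x Q) := by ring
    rw [h1]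
    exact ((hC T hT x' hx').mono (by linarith [le_max_left C C'])).add
      ((hC' T hT x' hx').mono (by linarith [le_max_right C C']))
  | mul_X P i hP =>
    obtain ⟨C, hC⟩ := hP
    refine ⟨max (C + L.fl 0 (x i)) (L.fl 0 (MvPolynomial.aeval x P)), fun T hT x' hx' => ?_⟩
    rw [map_mul, map_mul, MvPolynomial.aeval_X, MvPolynomial.aeval_X]
    have h1 : MvPolynomial.aeval x' P * x' i - MvPolynomial.aeval x P * x i =
        (MvPolynomial.aeval x' P - MvPolynomial.aeval x P) * x' i +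
        MvPolynomial.aeval x P * (x' i - x i) := by ring
    have h2 : L.le (x' i) (L.fl 0 (x i)) := by
      have h3 : x' i = (x' i - x i) + x i := by ring
      rw [h3]
      exact ((hx' i).mono (by linarith [le_fl (L := L) 0 (x i)])).add (le_of_fl _ _)
    rw [h1]
    refine (((hC T hT x' hx').mul h2).mono ?_).add
      (((le_of_fl 0 (MvPolynomial.aeval x P)).mul (hx' i)).mono ?_)
    · linarith [le_max_left (C + L.fl 0 (x i)) (L.fl 0 (MvPolynomial.aeval x P))]
    · linarith [le_max_right (C + L.fl 0 (x i)) (L.fl 0 (MvPolynomial.aeval x P))]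

lemma fl_eq_of_close {y y' : K} (h : L.le (y' - y) 0) : L.fl 0 y' = L.fl 0 y := by
  have key : ∀ y y' : K, L.le (y' - y) 0 → L.fl 0 y' ≤ L.fl 0 y := by
    intro y y' h
    have h1 := fl_add_le (L := L) 0 y (y' - y)
    rw [add_sub_cancel] at h1
    exact h1.trans (max_le le_rfl ((fl_le h le_rfl).trans (le_fl _ _)))
  refine le_antisymm (key _ _ h) (key _ _ ?_)
  rw [← neg_sub]
  exact h.neg

/-- close points are equivalent -/
lemma exists_close (W : Finset (MvPolynomial (Fin d) k)) (x : Fin d → K) :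
    ∃ T : ℝ, 0 ≤ T ∧ ∀ x' : Fin d → K, (∀ i, L.le (x' i - x i) (-T)) → Equ L W x x' := by
  classical
  induction W using Finset.induction_on with
  | empty => exact ⟨0, le_rfl, fun _ _ P hP => absurd hP (Finset.notMem_empty P)⟩
  | insert P W _ ih =>
    obtain ⟨T, hT0, hT⟩ := ih
    obtain ⟨C, hC⟩ := exists_lip (L := L) x P
    refine ⟨max T C, hT0.trans (le_max_left _ _), fun x' hx' Q hQ => ?_⟩
    rcases Finset.mem_insert.1 hQ with rfl | hQ
    · refine fl_eq_of_close ((hC (max T C) (hT0.trans (le_max_left _ _)) x' hx').mono ?_)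
      linarith [le_max_right T C]
    · exact hT x' (fun i => (hx' i).mono (by linarith [le_max_left T C])) Q hQ

/-- close points are specialisations -/
lemma exists_ball [IsAlgClosed K] (W : Finset (MvPolynomial (Fin d) k)) (x : Fin d → K) :
    ∃ T : ℝ, ∀ x' : Fin d → K, (∀ i, L.le (x' i - x i) (-T)) → Spz L W x x' := by
  obtain ⟨T, hT0, hT⟩ := exists_close (L := L) W x
  refine ⟨T, fun x' hx' => ?_⟩
  have h1 := Spz.path (L := L) (W := W) (fun i => C (x i) + C (x' i - x i) * X) (c := 0) (r := 0)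
    (y₀ := 0) (y₁ := 1) (by rw [sub_self]; exact le_zero _) (by rw [sub_zero]; exact le_one)
    (by
      intro y hy
      have h2 : (fun i => (C (x i) + C (x' i - x i) * X : K[X]).eval 0) = x := by
        funext i
        simp
      rw [h2]
      refine hT _ fun i => ?_
      have h3 : (C (x i) + C (x' i - x i) * X : K[X]).eval y - x i = (x' i - x i) * y := by
        simp
      rw [h3]
      rw [sub_zero] at hy
      exact ((hx' i).mul hy).mono (by linarith))
  have h2 : (fun i => (C (x i) + C (x' i - x i) * X : K[X]).eval 0) = x := by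
    funext i
    simp
  have h3 : (fun i => (C (x i) + C (x' i - x i) * X : K[X]).eval 1) = x' := by
    funext i
    simp
  rw [h2, h3] at h1
  exact h1

section Step

variable [CharZero k] [IsAlgClosed K] [CharZero K]

omit [CharZero k] [IsAlgClosed K] [CharZero K] in
lemma Good.closer_finset {E : Subfield K} (hE : Good L E) {z : K} (hz : z ∉ E) (R : Finset K)
    (hR : ∀ r ∈ R, r ∈ E) : ∃ c ∈ E, ∀ r ∈ R, L.lg (z - c) < L.lg (z - r) := by
  classical
  induction R using Finset.induction_on with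
  | empty => exact ⟨0, E.zero_mem, fun r hr => absurd hr (Finset.notMem_empty r)⟩
  | insert r R _ ih =>
    obtain ⟨c, hc, h1⟩ := ih fun s hs => hR s (Finset.mem_insert_of_mem hs)
    rcases lt_or_ge (L.lg (z - c)) (L.lg (z - r)) with h2 | h2
    · refine ⟨c, hc, fun s hs => ?_⟩
      rcases Finset.mem_insert.1 hs with rfl | hs
      · exact h2
      · exact h1 s hs
    · obtain ⟨c', hc', h3⟩ := hE.closer hz (hR r (Finset.mem_insert_self r R))
      refine ⟨c', hc', fun s hs => ?_⟩
      rcases Finset.mem_insert.1 hs with rfl | hs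
      · exact h3
      · exact (h3.trans_le h2).trans (h1 s hs)

omit [CharZero k] [IsAlgClosed K] [CharZero K] in
lemma aeval_mem_range {E : Subfield K} (hk : ∀ c : k, algebraMap k K c ∈ E) {p : Fin d → K[X]}
    (hp : ∀ i, p i ∈ (Polynomial.mapRingHom E.subtype).range) (P : MvPolynomial (Fin d) k) :
    MvPolynomial.aeval p P ∈ (Polynomial.mapRingHom E.subtype).range := by
  induction P using MvPolynomial.induction_on with
  | C a =>
    rw [MvPolynomial.algHom_C]
    refine ⟨C ⟨algebraMap k K a, hk a⟩, ?_⟩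
    rw [Polynomial.coe_mapRingHom, map_C]
    rfl
  | add P Q hP hQ =>
    rw [map_add]
    exact Subring.add_mem _ hP hQ
  | mul_X P i hP =>
    rw [map_mul, MvPolynomial.aeval_X]
    exact Subring.mul_mem _ hP (hp i)

/-- one step down in the tower -/
lemma Good.step {E : Subfield K} (hE : Good L E) (hk : ∀ c : k, algebraMap k K c ∈ E) (z : K)
    {x : Fin d → K} (hx : ∀ i, x i ∈ hE.adj z) : ∃ a, (∀ i, a i ∈ E) ∧ Spz L W x a := by
  classical
  by_cases hz : z ∈ E
  · refine ⟨x, fun i => hE.closed (cl_mono ?_ (hx i)), Spz.refl x⟩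
    intro y hy
    obtain ⟨Q, rfl⟩ := mem_genRing.1 hy
    have h1 := Polynomial.eval₂_at_apply (p := Q) E.subtype ⟨z, hz⟩
    rw [eval_map]
    have h2 : E.subtype ⟨z, hz⟩ = z := rfl
    rw [h2] at h1
    rw [h1]
    exact (Q.eval ⟨z, hz⟩).2
  · obtain ⟨T, hT⟩ := exists_ball (L := L) W x
    have h1 : ∀ i, ∃ Q : E[X], L.le (x i - (Q.map E.subtype).eval z) (-T) := by
      intro i
      obtain ⟨f, hf, h2⟩ := hx i T
      obtain ⟨Q, rfl⟩ := mem_genRing.1 hf
      exact ⟨Q, h2⟩
    choose Q hQ using h1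
    set p : Fin d → K[X] := fun i => (Q i).map E.subtype with hp
    have hpr : ∀ i, p i ∈ (Polynomial.mapRingHom E.subtype).range := fun i => ⟨Q i, rfl⟩
    have h2 : Spz L W x (fun i => (p i).eval z) := by
      refine hT _ fun i => ?_
      rw [← neg_sub]
      exact (hQ i).neg
    set q : MvPolynomial (Fin d) k → K[X] := fun P => MvPolynomial.aeval p P with hq
    have hqr : ∀ P, q P ∈ (Polynomial.mapRingHom E.subtype).range := fun P =>
      aeval_mem_range hk hpr P
    obtain ⟨c, hc, h3⟩ := hE.closer_finset hz (W.biUnion fun P => (q P).roots.toFinset) (by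
      intro r hr
      obtain ⟨P, -, hr⟩ := Finset.mem_biUnion.1 hr
      rw [Multiset.mem_toFinset] at hr
      exact hE.root (hqr P) (ne_zero_of_mem_roots hr) (isRoot_of_mem_roots hr))
    have hdisc : ∀ P ∈ W, q P ≠ 0 → ∀ y, L.le (y - c) (L.lg (z - c)) → (q P).eval y ≠ 0 := by
      intro P hP hP0 y hy hy0
      have h4 := h3 y (Finset.mem_biUnion.2 ⟨P, hP, by
        rw [Multiset.mem_toFinset]
        exact (mem_roots hP0).2 hy0⟩)
      have hzc : z - c ≠ 0 := by
        intro h
        rw [sub_eq_zero.1 h] at hz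
        exact hz hc
      have hzy : z - y ≠ 0 := by
        intro h
        apply hz
        rw [sub_eq_zero.1 h]
        exact hE.root (hqr P) hP0 hy0
      have h5 : L.le (z - y) (L.lg (z - c)) := by
        have : z - y = (z - c) + -(y - c) := by ring
        rw [this]
        exact le.add (fun _ => le_rfl) hy.neg
      exact absurd (h5 hzy) (not_le.2 h4)
    have h4 : Spz L W (fun i => (p i).eval z) (fun i => (p i).eval c) := by
      refine Spz.path p (c := c) (r := L.lg (z - c)) (fun _ => le_rfl)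
        (by rw [sub_self]; exact le_zero _) fun y hy P hP => ?_
      rw [← eval_aeval_path, ← eval_aeval_path]
      change L.fl 0 ((q P).eval y) = L.fl 0 ((q P).eval z)
      rcases eq_or_ne (q P) 0 with h5 | h5
      · rw [h5, eval_zero, eval_zero]
      · have h6 := hdisc P hP h5 y hy
        have h7 := hdisc P hP h5 z fun _ => le_rfl
        rw [fl_of_ne h6, fl_of_ne h7, lg_disc (hdisc P hP h5) (fun _ => le_rfl) hy]
    refine ⟨fun i => (p i).eval c, fun i => ?_, h2.trans h4⟩
    have h5 := Polynomial.eval₂_at_apply (p := Q i) E.subtype ⟨c, hc⟩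
    have h6 : E.subtype ⟨c, hc⟩ = c := rfl
    rw [h6] at h5
    simp only [hp]
    rw [eval_map, h5]
    exact ((Q i).eval ⟨c, hc⟩).2

lemma Good.tower {E₀ : Subfield K} (hE₀ : Good L E₀) (hk : ∀ c : k, algebraMap k K c ∈ E₀)
    (W : Finset (MvPolynomial (Fin d) k)) (l : List K) :
    ∃ E : Subfield K, Good L E ∧ (E₀ : Set K) ⊆ E ∧ (∀ z ∈ l, z ∈ E) ∧
      ∀ x : Fin d → K, (∀ i, x i ∈ E) → ∃ a, (∀ i, a i ∈ E₀) ∧ Spz L W x a := by
  induction l with
  | nil =>
    exact ⟨E₀, hE₀, subset_rfl, fun z hz => absurd hz (List.not_mem_nil), fun x hx =>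
      ⟨x, hx, Spz.refl x⟩⟩
  | cons z l ih =>
    obtain ⟨E, hE, hsub, hl, hspz⟩ := ih
    refine ⟨hE.adj z, hE.good_adj z, hsub.trans (hE.le_adj z), fun w hw => ?_, fun x hx => ?_⟩
    · rcases List.mem_cons.1 hw with rfl | hw
      · exact subset_cl _ (self_mem_genRing E w)
      · exact hE.le_adj z (hl w hw)
    · obtain ⟨a, ha, h1⟩ := hE.step (W := W) (fun c => hsub (hk c)) z hx
      obtain ⟨b, hb, h2⟩ := hspz a ha
      exact ⟨b, hb, h1.trans h2⟩

/-- **Specialisation to a dense subring of a full closed subfield.** -/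
theorem exists_spz (S : Subring K) (hinv : ∀ g ∈ S, g ≠ 0 → g⁻¹ ∈ clRing L S)
    (hfull : Full L (S : Set K)) (hk : ∀ c : k, algebraMap k K c ∈ S)
    (W : Finset (MvPolynomial (Fin d) k)) (x : Fin d → K) :
    ∃ a, (∀ i, a i ∈ S) ∧ Spz L W x a := by
  set E₀ := clField L S hinv with hE₀
  have hmem : ∀ y, y ∈ E₀ ↔ y ∈ Cl L (S : Set K) := fun y => Iff.rfl
  have hgood : Good L E₀ := ⟨cl_cl _, hfull.mono (subset_cl _)⟩
  obtain ⟨E, hE, hsub, hl, hspz⟩ := hgood.tower (fun c => subset_cl _ (hk c)) W (List.ofFn x)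
  obtain ⟨b, hb, h1⟩ := hspz x fun i => hl _ (List.mem_ofFn.2 ⟨i, rfl⟩)
  obtain ⟨T, hT⟩ := exists_ball (L := L) W b
  choose a ha h2 using fun i => hb i T
  refine ⟨a, ha, h1.trans (hT a fun i => ?_)⟩
  rw [← neg_sub]
  exact (h2 i).neg

end Step

end Pool.Agent.H17Dyn
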