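import Pool.Agent.H17Dyn.Coeff
import Pool.Agent.H17Dyn.Specialize

/-!
# Finite Laurent polynomials

Points with coordinates in a monoid algebra over a coefficient field: the logarithmic absolute
value of a polynomial in such a point is a sum of few elements of a fixed finite set.
-/

set_option autoImplicit false
set_option linter.unusedSectionVars false

namespace Pool.Agent.H17Dyn

open LgData Polynomial Pointwise

variable {k K : Type*} [Field k] [Field K] [Algebra k K] {L : LgData k K}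

section Sp

variable (L)

/-- the finite sums of monomials with exponents in `A` -/
noncomputable def SpM (M : Subfield K) (T : (lgHom L).range → K) (A : Set (lgHom L).range) :
    Submodule M K := Submodule.span M (T '' A)

variable {L} {M : Subfield K} {T : (lgHom L).range → K}

lemma SpM.mono {A B : Set (lgHom L).range} (h : A ⊆ B) : SpM L M T A ≤ SpM L M T B :=
  Submodule.span_mono (Set.image_mono h)

/-- the leading term -/
lemma SpM.lead (hM : Triv L M) (hT : ∀ γ, L.lg (T γ) = γ)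
    {A : Set (lgHom L).range} {g : K} (hg : g ∈ SpM L M T A) (hg0 : g ≠ 0) :
    ∃ γ ∈ A, ∃ c ∈ M, c ≠ 0 ∧ (g - c * T γ = 0 ∨ L.lg (g - c * T γ) < γ) := by
  classical
  obtain ⟨l, hl, hlg⟩ := (Finsupp.mem_span_image_iff_linearCombination M).1 hg
  rw [Finsupp.linearCombination_apply, Finsupp.sum] at hlg
  have hne : l.support.Nonempty := by
    rw [Finset.nonempty_iff_ne_empty]
    intro h
    rw [h, Finset.sum_empty] at hlg
    exact hg0 hlg.symm
  obtain ⟨γ, hγ, hmax⟩ := Finset.exists_max_image l.support (fun γ => (γ : ℝ)) hne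
  refine ⟨γ, (Finsupp.mem_supported M l).1 hl (by exact_mod_cast hγ), (l γ : K), (l γ).2, ?_, ?_⟩
  · have := Finsupp.mem_support_iff.1 hγ
    intro h
    exact this (Subtype.ext h)
  · have h1 : g - (l γ : K) * T γ = ∑ δ ∈ l.support.erase γ, (l δ : K) * T δ := by
      rw [← hlg, ← Finset.add_sum_erase _ _ hγ, Subfield.smul_def, smul_eq_mul, add_sub_cancel_left]
      refine Finset.sum_congr rfl fun δ _ => ?_
      rw [Subfield.smul_def, smul_eq_mul]
    rw [h1]
    rcases (l.support.erase γ).eq_empty_or_nonempty with h2 | h2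
    · left
      rw [h2, Finset.sum_empty]
    · obtain ⟨δ, hδ, hδm⟩ := Finset.exists_max_image (l.support.erase γ) (fun γ => (γ : ℝ)) h2
      by_cases h3 : ∑ δ ∈ l.support.erase γ, (l δ : K) * T δ = 0
      · exact Or.inl h3
      right
      have h4 : L.le (∑ δ ∈ l.support.erase γ, (l δ : K) * T δ) δ := by
        refine le_sum fun ε hε => ?_
        have h5 : L.le ((l ε : K) * T ε) (0 + ε) := by
          refine le.mul (fun h => (hM.2 _ (l ε).2 h).le) (fun _ => (hT ε).le)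
        rw [zero_add] at h5
        exact h5.mono (hδm ε hε)
      refine (h4 h3).trans_lt ?_
      refine lt_of_le_of_ne (hmax δ (Finset.mem_of_mem_erase hδ)) fun h => ?_
      exact (Finset.mem_erase.1 hδ).1 (Subtype.ext h)

lemma SpM.lg_mem (hM : Triv L M) (hT0 : ∀ γ, T γ ≠ 0) (hT : ∀ γ, L.lg (T γ) = γ)
    {A : Set (lgHom L).range} {g : K} (hg : g ∈ SpM L M T A) (hg0 : g ≠ 0) :
    ∃ γ ∈ A, L.lg g = γ := by
  obtain ⟨γ, hγ, c, hc, hc0, h⟩ := SpM.lead hM hT hg hg0
  refine ⟨γ, hγ, ?_⟩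
  have h1 : L.lg (c * T γ) = γ := by
    rw [L.lg_mul hc0 (hT0 γ), hM.2 c hc hc0, hT, zero_add]
  rcases h with h | h
  · rw [sub_eq_zero.1 h, h1]
  · by_cases h2 : g - c * T γ = 0
    · rw [sub_eq_zero.1 h2, h1]
    have h3 := lg_add_eq' (L := L) (x := c * T γ) (y := g - c * T γ)
      (mul_ne_zero hc0 (hT0 γ)) (r := L.lg (g - c * T γ)) (fun _ => le_rfl) (by rw [h1]; exact h)
    rw [add_sub_cancel] at h3
    rw [h3.2, h1]

lemma SpM.mul (hTm : ∀ γ δ, T (γ + δ) = T γ * T δ) {A B : Set (lgHom L).range} {x y : K}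
    (hx : x ∈ SpM L M T A) (hy : y ∈ SpM L M T B) : x * y ∈ SpM L M T (A + B) := by
  have h1 : x * y ∈ SpM L M T A * SpM L M T B := Submodule.mul_mem_mul hx hy
  rw [SpM, SpM, Submodule.span_mul_span] at h1
  refine Submodule.span_mono ?_ h1
  rintro _ ⟨_, ⟨γ, hγ, rfl⟩, _, ⟨δ, hδ, rfl⟩, rfl⟩
  exact ⟨γ + δ, ⟨γ, hγ, δ, hδ, rfl⟩, hTm γ δ⟩

/-- the ring of Laurent polynomials -/
noncomputable def laurent (M : Subfield K) (T : (lgHom L).range → K)
    (hTm : ∀ γ δ, T (γ + δ) = T γ * T δ) (hT1 : T 0 = 1) : Subring K where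
  carrier := SpM L M T Set.univ
  mul_mem' := fun hx hy => by
    have := SpM.mul hTm hx hy
    exact SpM.mono (Set.subset_univ _) this
  one_mem' := Submodule.subset_span ⟨0, Set.mem_univ _, hT1⟩
  add_mem' := fun hx hy => Submodule.add_mem _ hx hy
  zero_mem' := Submodule.zero_mem _
  neg_mem' := fun hx => Submodule.neg_mem _ hx

lemma mem_laurent_mono {hTm : ∀ γ δ, T (γ + δ) = T γ * T δ} {hT1 : T 0 = 1} {c : K} (hc : c ∈ M)
    (γ : (lgHom L).range) : c * T γ ∈ laurent M T hTm hT1 := by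
  have h1 : (⟨c, hc⟩ : M) • T γ ∈ SpM L M T Set.univ :=
    Submodule.smul_mem _ _ (Submodule.subset_span ⟨γ, Set.mem_univ _, rfl⟩)
  exact h1

lemma laurent_inv (hM : Triv L M) (hT0 : ∀ γ, T γ ≠ 0) (hT : ∀ γ, L.lg (T γ) = γ)
    {hTm : ∀ γ δ, T (γ + δ) = T γ * T δ} {hT1 : T 0 = 1} (g : K)
    (hg : g ∈ laurent M T hTm hT1) (hg0 : g ≠ 0) : g⁻¹ ∈ clRing L (laurent M T hTm hT1) := by
  obtain ⟨γ, -, c, hc, hc0, h⟩ := SpM.lead hM hT hg hg0
  have h0 : c * T γ ≠ 0 := mul_ne_zero hc0 (hT0 γ)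
  have h1 : L.lg (c * T γ) = γ := by
    rw [L.lg_mul hc0 (hT0 γ), hM.2 c hc hc0, hT, zero_add]
  have hTi : (T γ)⁻¹ = T (-γ) := by
    refine inv_eq_of_mul_eq_one_right ?_
    rw [← hTm, add_neg_cancel, hT1]
  have h2 : (c * T γ)⁻¹ ∈ laurent M T hTm hT1 := by
    rw [mul_inv, hTi]
    exact mem_laurent_mono (M.inv_mem hc) _
  set w : K := -((g - c * T γ) * (c * T γ)⁻¹) with hw
  have hwm : w ∈ laurent M T hTm hT1 :=
    Subring.neg_mem _ (Subring.mul_mem _ (Subring.sub_mem _ hg (mem_laurent_mono hc γ)) h2)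
  have h3 : g = c * T γ * (1 - w) := by
    have h6 : c * T γ * (1 - w) = c * T γ + (g - c * T γ) * ((c * T γ)⁻¹ * (c * T γ)) := by
      rw [hw]
      ring
    rw [h6, inv_mul_cancel₀ h0]
    ring
  have h4 : ∃ ε : ℝ, 0 < ε ∧ L.le w (-ε) := by
    by_cases h5 : g - c * T γ = 0
    · refine ⟨1, one_pos, ?_⟩
      rw [hw, h5, zero_mul, neg_zero]
      exact le_zero _
    · have h6 := h.resolve_left h5
      refine ⟨γ - L.lg (g - c * T γ), by linarith, fun _ => ?_⟩
      rw [hw, L.lg_neg, L.lg_mul h5 (inv_ne_zero h0), lg_inv h0, h1]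
      linarith
  obtain ⟨ε, hε, hwε⟩ := h4
  have h5 := geom_mem (subset_cl _ hwm) hε hwε
  rw [h3, mul_inv]
  exact Subring.mul_mem _ (subset_cl _ h2) h5

lemma laurent_full (hM : ∀ y, y ≠ 0 → L.lg y = 0 → ∃ c ∈ M, y - c = 0 ∨ L.lg (y - c) < 0)
    (hT0 : ∀ γ, T γ ≠ 0) (hT : ∀ γ, L.lg (T γ) = γ)
    {hTm : ∀ γ δ, T (γ + δ) = T γ * T δ} {hT1 : T 0 = 1} :
    Full L (laurent M T hTm hT1 : Set K) := by
  intro y hy
  set γ : (lgHom L).range := ⟨L.lg y, Additive.ofMul (Units.mk0 y hy), rfl⟩ with hγ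
  have hγ' : (γ : ℝ) = L.lg y := rfl
  have h1 : y / T γ ≠ 0 := div_ne_zero hy (hT0 γ)
  have h2 : L.lg (y / T γ) = 0 := by
    rw [lg_div hy (hT0 γ), hT, hγ', sub_self]
  obtain ⟨c, hc, h3⟩ := hM _ h1 h2
  refine ⟨c * T γ, mem_laurent_mono hc γ, ?_⟩
  have h4 : y - c * T γ = T γ * (y / T γ - c) := by
    have := hT0 γ
    field_simp
  by_cases h5 : y / T γ - c = 0
  · left
    rw [h4, h5, mul_zero]
  · right
    rw [h4, L.lg_mul (hT0 γ) h5, hT, hγ']
    linarith [h3.resolve_left h5]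

end Sp

section SumSet

variable {G : Type*} [AddCommMonoid G]

/-- the sums of at most `n` elements of `Σ` -/
def SumS (S : Set G) (n : ℕ) : Set G :=
  {γ | ∃ m : Multiset G, (∀ δ ∈ m, δ ∈ S) ∧ m.card ≤ n ∧ m.sum = γ}

lemma SumS.mono {S : Set G} {a b : ℕ} (h : a ≤ b) : SumS S a ⊆ SumS S b := by
  rintro _ ⟨m, h1, h2, rfl⟩
  exact ⟨m, h1, h2.trans h, rfl⟩

lemma SumS.zero_mem {S : Set G} (n : ℕ) : (0 : G) ∈ SumS S n :=
  ⟨0, by simp, by simp, by simp⟩

lemma SumS.add {S : Set G} (a b : ℕ) : SumS S a + SumS S b ⊆ SumS S (a + b) := by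
  rintro _ ⟨_, ⟨m, h1, h2, rfl⟩, _, ⟨m', h1', h2', rfl⟩, rfl⟩
  refine ⟨m + m', fun δ hδ => ?_, ?_, ?_⟩
  · rcases Multiset.mem_add.1 hδ with h | h
    · exact h1 δ h
    · exact h1' δ h
  · rw [Multiset.card_add]
    omega
  · exact Multiset.sum_add _ _

lemma SumS.sub {S : Set G} : S ⊆ SumS S 1 := fun γ hγ =>
  ⟨{γ}, by simpa using hγ, by simp, by simp⟩

end SumSet

section Main

variable {d : ℕ} {M : Subfield K} {T : (lgHom L).range → K}

lemma aeval_mem_SpM (hk : ∀ c : k, algebraMap k K c ∈ M)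
    (hTm : ∀ γ δ, T (γ + δ) = T γ * T δ) (hT1 : T 0 = 1) {S : Set (lgHom L).range}
    {a : Fin d → K} (ha : ∀ i, a i ∈ SpM L M T S) (P : MvPolynomial (Fin d) k) :
    MvPolynomial.aeval a P ∈ SpM L M T (SumS S P.totalDegree) := by
  classical
  have h1 : ∀ n : ℕ, (1 : K) ∈ SpM L M T (SumS S n) := fun n =>
    Submodule.subset_span ⟨0, SumS.zero_mem n, hT1⟩
  have hpow : ∀ i (n : ℕ), a i ^ n ∈ SpM L M T (SumS S n) := by
    intro i n
    induction n with
    | zero => simpa using h1 0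
    | succ n ih =>
      rw [pow_succ]
      exact SpM.mono (SumS.add n 1) (SpM.mul hTm ih (SpM.mono SumS.sub (ha i)))
  have hprod : ∀ (m : Fin d →₀ ℕ) (t : Finset (Fin d)),
      ∏ i ∈ t, a i ^ m i ∈ SpM L M T (SumS S (∑ i ∈ t, m i)) := by
    intro m t
    induction t using Finset.induction_on with
    | empty => simpa using h1 0
    | insert i t hi ih =>
      rw [Finset.prod_insert hi, Finset.sum_insert hi]
      exact SpM.mono (SumS.add _ _) (SpM.mul hTm (hpow i _) ih)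
  rw [MvPolynomial.aeval_def, MvPolynomial.eval₂_eq']
  refine Submodule.sum_mem _ fun m hm => ?_
  have h2 : (⟨algebraMap k K (P.coeff m), hk _⟩ : M) • (∏ i, a i ^ m i) ∈
      SpM L M T (SumS S P.totalDegree) := by
    refine Submodule.smul_mem _ _ (SpM.mono (SumS.mono ?_) (hprod m Finset.univ))
    have h3 := MvPolynomial.le_totalDegree hm
    rwa [Finsupp.sum_fintype _ _ fun _ => rfl] at h3
  exact h2

/-- **Specialisation to Laurent polynomials.** -/
theorem exists_laurent [CharZero k] [IsAlgClosed K] [CharZero K] (L : LgData k K)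
    (W : Finset (MvPolynomial (Fin d) k)) (x : Fin d → K) :
    ∃ a : Fin d → K, Spz L W x a ∧ ∃ S : Finset ℝ, ∀ P : MvPolynomial (Fin d) k,
      MvPolynomial.aeval a P ≠ 0 → ∃ m : Multiset ℝ, (∀ s ∈ m, s ∈ S) ∧
        m.card ≤ P.totalDegree ∧ m.sum = L.lg (MvPolynomial.aeval a P) := by
  classical
  obtain ⟨M, hM, hMf⟩ := exists_coeff_field L
  obtain ⟨T, hT0, hT, hTm, hT1⟩ := exists_section L
  obtain ⟨a, ha, hspz⟩ := exists_spz (laurent M T hTm hT1)
    (fun g hg hg0 => laurent_inv hM hT0 hT g hg hg0) (laurent_full hMf hT0 hT)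
    (fun c => by
      have := mem_laurent_mono (hTm := hTm) (hT1 := hT1) (hM.1 c) 0
      rwa [hT1, mul_one] at this) W x
  refine ⟨a, hspz, ?_⟩
  have h1 : ∀ i, ∃ S : Finset (lgHom L).range, a i ∈ SpM L M T (S : Set (lgHom L).range) := by
    intro i
    have h2 : a i ∈ Submodule.span M (T '' Set.univ) := ha i
    obtain ⟨l, -, hl⟩ := (Finsupp.mem_span_image_iff_linearCombination M).1 h2
    refine ⟨l.support, (Finsupp.mem_span_image_iff_linearCombination M).2 ⟨l, ?_, hl⟩⟩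
    exact (Finsupp.mem_supported M l).2 subset_rfl
  choose S hS using h1
  set S' : Finset (lgHom L).range := Finset.univ.biUnion S with hS'
  have ha' : ∀ i, a i ∈ SpM L M T (S' : Set (lgHom L).range) := fun i =>
    SpM.mono (Finset.coe_subset.2 (Finset.subset_biUnion_of_mem S (Finset.mem_univ i))) (hS i)
  refine ⟨S'.image (lgHom L).range.subtype, fun P hP => ?_⟩
  obtain ⟨γ, ⟨m, h2, h3, h4⟩, h5⟩ := SpM.lg_mem hM hT0 hT (aeval_mem_SpM hM.1 hTm hT1 ha' P) hP
  refine ⟨Multiset.map (lgHom L).range.subtype m, ?_, ?_, ?_⟩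
  · intro s hs
    obtain ⟨γ, hγ, rfl⟩ := Multiset.mem_map.1 hs
    exact Finset.mem_image_of_mem _ (h2 γ hγ)
  · rwa [Multiset.card_map]
  · rw [h5, ← h4]
    exact (map_multiset_sum (lgHom L).range.subtype m).symm

end Main

end Pool.Agent.H17Dyn
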