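import Pool.Agent.H17Dyn.Val

/-!
# Tracking residues along an orbit of valuations

An element of value zero of a valued field with an automorphism keeps the value zero along the
orbits of all valuations which agree with the given one on finitely many elements and for which a
transcendence basis of the residue field stays algebraically independent.
-/

set_option autoImplicit false

namespace Pool.Agent.H17Dyn

open LgData

variable {k F : Type*} [Field k] [Field F] [Algebra k F]

/-- `x` is zero or has negative logarithmic absolute value -/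
def small (L : LgData k F) (x : F) : Prop := x ≠ 0 → L.lg x < 0

/-- the nonzero polynomials in `h` are units: the residues of `h` are algebraically independent -/
def Ind (L : LgData k F) {t : ℕ} (h : Fin t → F) : Prop :=
  ∀ f : MvPolynomial (Fin t) k, f ≠ 0 → MvPolynomial.aeval h f ≠ 0 ∧
    L.lg (MvPolynomial.aeval h f) = 0

/-- the value of a polynomial in one variable with coefficients in `k[h]` -/
noncomputable def evR {t : ℕ} (h : Fin t → F) (g : F) (R : Polynomial (MvPolynomial (Fin t) k)) :
    F := R.eval₂ (MvPolynomial.aeval h : MvPolynomial (Fin t) k →ₐ[k] F).toRingHom g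

variable {L : LgData k F}

lemma small.add {x y : F} (hx : small L x) (hy : small L y) : small L (x + y) := by
  intro hxy
  rcases eq_or_ne x 0 with rfl | hx0
  · rw [zero_add] at hxy ⊢
    exact hy hxy
  rcases eq_or_ne y 0 with rfl | hy0
  · rw [add_zero] at hxy ⊢
    exact hx hxy
  exact (L.lg_add hx0 hy0 hxy).trans_lt (max_lt (hx hx0) (hy hy0))

lemma small.mul_le {x y : F} (hx : L.le x 0) (hy : small L y) : small L (x * y) := by
  intro hxy
  have hx0 := left_ne_zero_of_mul hxy
  have hy0 := right_ne_zero_of_mul hxy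
  rw [L.lg_mul hx0 hy0]
  linarith [hx hx0, hy hy0]

lemma Ind.le {t : ℕ} {h : Fin t → F} (hi : Ind L h) (f : MvPolynomial (Fin t) k) :
    L.le (MvPolynomial.aeval h f) 0 := by
  rcases eq_or_ne f 0 with rfl | hf
  · rw [map_zero]
    exact le_zero _
  · exact fun _ => (hi f hf).2.le

lemma evR_eq_sum {t : ℕ} (h : Fin t → F) (g : F) (R : Polynomial (MvPolynomial (Fin t) k)) :
    evR h g R = ∑ j ∈ Finset.range (R.natDegree + 1),
      MvPolynomial.aeval h (R.coeff j) * g ^ j := by
  rw [evR, Polynomial.eval₂_eq_sum_range]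
  rfl

/-- an element of positive value: the leading term dominates -/
lemma evR_pos {t : ℕ} {h : Fin t → F} (hi : Ind L h) {g : F} (hg0 : g ≠ 0) (hg : 0 < L.lg g)
    {R : Polynomial (MvPolynomial (Fin t) k)} (hR : R ≠ 0) :
    evR h g R ≠ 0 ∧ 0 ≤ L.lg (evR h g R) := by
  have hl := hi R.leadingCoeff (Polynomial.leadingCoeff_ne_zero.2 hR)
  have h1 : MvPolynomial.aeval h R.leadingCoeff * g ^ R.natDegree ≠ 0 :=
    mul_ne_zero hl.1 (pow_ne_zero _ hg0)
  have h2 : L.lg (MvPolynomial.aeval h R.leadingCoeff * g ^ R.natDegree) =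
      R.natDegree * L.lg g := by
    rw [L.lg_mul hl.1 (pow_ne_zero _ hg0), hl.2, lg_pow hg0, zero_add]
  have h3 : L.le (∑ j ∈ Finset.range R.natDegree, MvPolynomial.aeval h (R.coeff j) * g ^ j)
      (((R.natDegree : ℝ) - 1) * L.lg g) := by
    refine le_sum fun j hj => ?_
    have hj' : ((j + 1 : ℕ) : ℝ) ≤ R.natDegree := by exact_mod_cast Finset.mem_range.1 hj
    push_cast at hj'
    refine ((hi.le (R.coeff j)).mul (le.pow (r := L.lg g) (fun _ => le_rfl) j)).mono ?_
    nlinarith
  have h4 := lg_add_eq' h1 h3 (by rw [h2]; nlinarith)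
  rw [evR_eq_sum, Finset.sum_range_succ, add_comm]
  refine ⟨h4.1, ?_⟩
  rw [Polynomial.coeff_natDegree, h4.2, h2]
  positivity

/-- an element of negative value: the constant term dominates -/
lemma evR_neg {t : ℕ} {h : Fin t → F} (hi : Ind L h) {g : F} (hg : small L g)
    {R : Polynomial (MvPolynomial (Fin t) k)} (hR : R.coeff 0 ≠ 0) :
    evR h g R ≠ 0 ∧ 0 ≤ L.lg (evR h g R) := by
  have hl := hi (R.coeff 0) hR
  have h3 : small L (∑ j ∈ Finset.range R.natDegree,
      MvPolynomial.aeval h (R.coeff (j + 1)) * g ^ (j + 1)) := by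
    refine Finset.sum_induction _ (small L) (fun _ _ ha hb => ha.add hb) (fun h => absurd rfl h) ?_
    intro j _
    rw [pow_succ, ← mul_assoc]
    refine small.mul_le ?_ hg
    intro h1
    have h5 := ((hi.le (R.coeff (j + 1))).mul
      (le.pow (r := 0) (fun h6 => (hg h6).le) j)) h1
    simpa using h5
  have h4 := lg_add_eq (L := L) hl.1 (y := ∑ j ∈ Finset.range R.natDegree,
      MvPolynomial.aeval h (R.coeff (j + 1)) * g ^ (j + 1))
    (fun hy => by rw [hl.2]; exact h3 hy)
  rw [evR_eq_sum, Finset.sum_range_succ', add_comm]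
  rw [pow_zero, mul_one]
  exact ⟨h4.1, by rw [h4.2, hl.2]⟩

/-- the value of an element with a small relation -/
lemma unit_of_rel {t : ℕ} {h : Fin t → F} (hi : Ind L h) {g : F} (hg0 : g ≠ 0)
    {R : Polynomial (MvPolynomial (Fin t) k)} (hR : R.coeff 0 ≠ 0) (hs : small L (evR h g R)) :
    L.lg g = 0 := by
  have hR0 : R ≠ 0 := by
    rintro rfl
    exact hR (Polynomial.coeff_zero 0)
  rcases lt_trichotomy (L.lg g) 0 with h1 | h1 | h1
  · have h2 := evR_neg hi (fun _ => h1) hR
    linarith [hs h2.1]
  · exact h1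
  · have h2 := evR_pos hi hg0 h1 hR0
    linarith [hs h2.1]

/-- every unit is algebraic over the residues of `h` -/
def Max (L : LgData k F) {t : ℕ} (h : Fin t → F) : Prop :=
  ∀ g : F, g ≠ 0 → L.lg g = 0 → ∃ R : Polynomial (MvPolynomial (Fin t) k), R.coeff 0 ≠ 0 ∧
    small L (evR h g R)

lemma Ind.algInd {t : ℕ} {h : Fin t → F} (hi : Ind L h) : AlgebraicIndependent k h := by
  rw [algebraicIndependent_iff]
  intro f hf
  by_contra hf0
  exact (hi f hf0).1 hf

lemma aeval_cons {t : ℕ} (h : Fin t → F) (g : F) (f : MvPolynomial (Fin (t + 1)) k) :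
    MvPolynomial.aeval (Fin.cons g h : Fin (t + 1) → F) f =
      evR h g (MvPolynomial.finSuccEquiv k t f) := by
  have h1 : ((MvPolynomial.aeval (Fin.cons g h : Fin (t + 1) → F) :
      MvPolynomial (Fin (t + 1)) k →ₐ[k] F) : MvPolynomial (Fin (t + 1)) k →+* F) =
      (Polynomial.eval₂RingHom (MvPolynomial.aeval h : MvPolynomial (Fin t) k →ₐ[k] F).toRingHom
        g).comp ((MvPolynomial.finSuccEquiv k t).toRingEquiv : MvPolynomial (Fin (t + 1)) k →+* _) := by
    apply MvPolynomial.ringHom_ext
    · intro c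
      have h2 : MvPolynomial.finSuccEquiv k t (MvPolynomial.C c) =
          Polynomial.C (MvPolynomial.C c) := by
        rw [← MvPolynomial.algebraMap_eq, AlgEquiv.commutes]
        rfl
      change MvPolynomial.aeval (Fin.cons g h : Fin (t + 1) → F) (MvPolynomial.C c) =
        Polynomial.eval₂ _ g (MvPolynomial.finSuccEquiv k t (MvPolynomial.C c))
      rw [h2, Polynomial.eval₂_C, MvPolynomial.algHom_C]
      exact (MvPolynomial.algHom_C (MvPolynomial.aeval h) c).symm
    · intro i
      change MvPolynomial.aeval (Fin.cons g h : Fin (t + 1) → F) (MvPolynomial.X i) =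
        Polynomial.eval₂ _ g (MvPolynomial.finSuccEquiv k t (MvPolynomial.X i))
      rw [MvPolynomial.aeval_X]
      refine Fin.cases ?_ (fun i => ?_) i
      · rw [MvPolynomial.finSuccEquiv_X_zero, Polynomial.eval₂_X]
        rfl
      · rw [MvPolynomial.finSuccEquiv_X_succ, Polynomial.eval₂_C]
        exact (MvPolynomial.aeval_X h i).symm
  exact congrArg (fun f' : MvPolynomial (Fin (t + 1)) k →+* F => f' f) h1

/-- **Existence of a transcendence basis of the residue field.** -/
theorem exists_max (L : LgData k F) {D : ℕ}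
    (hD : ∀ (t : ℕ) (h : Fin t → F), AlgebraicIndependent k h → t ≤ D) :
    ∃ (t : ℕ) (h : Fin t → F), Ind L h ∧ Max L h := by
  classical
  have h0 : ∃ t, ∃ h : Fin t → F, Ind L h := by
    refine ⟨0, Fin.elim0, fun f hf => ?_⟩
    obtain ⟨c, rfl⟩ := MvPolynomial.C_surjective (Fin 0) f
    have hc : c ≠ 0 := by
      rintro rfl
      exact hf (map_zero _)
    rw [MvPolynomial.algHom_C]
    exact ⟨(map_ne_zero_iff _ (algebraMap k F).injective).2 hc, L.lg_const hc⟩
  obtain ⟨t, ⟨h, hi⟩, hmax⟩ : ∃ t, (∃ h : Fin t → F, Ind L h) ∧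
      ∀ t', (∃ h : Fin t' → F, Ind L h) → t' ≤ t := by
    have hbd : ∀ t, (∃ h : Fin t → F, Ind L h) → t ≤ D := by
      rintro t ⟨h, hi⟩
      exact hD t h hi.algInd
    refine ⟨Nat.findGreatest (fun t => ∃ h : Fin t → F, Ind L h) D, ?_, ?_⟩
    · obtain ⟨t, ht⟩ := h0
      exact Nat.findGreatest_spec (P := fun t => ∃ h : Fin t → F, Ind L h) (hbd t ht) ht
    · intro t' ht'
      exact Nat.le_findGreatest (hbd t' ht') ht'
  refine ⟨t, h, hi, fun g hg0 hg => ?_⟩
  by_contra hcon
  push Not at hcon
  have key : ∀ (n : ℕ) (R : Polynomial (MvPolynomial (Fin t) k)), R.natDegree ≤ n → R ≠ 0 →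
      evR h g R ≠ 0 ∧ 0 ≤ L.lg (evR h g R) := by
    intro n
    induction n with
    | zero =>
      intro R hR hR0
      have h1 : R.coeff 0 ≠ 0 := by
        intro h2
        rw [Polynomial.eq_C_of_natDegree_le_zero hR, h2, map_zero] at hR0
        exact hR0 rfl
      have h2 := hcon R h1
      unfold small at h2
      push Not at h2
      exact h2
    | succ n ih =>
      intro R hR hR0
      by_cases h1 : R.coeff 0 = 0
      · obtain ⟨R', rfl⟩ := Polynomial.X_dvd_iff.2 h1
        have hR'0 : R' ≠ 0 := right_ne_zero_of_mul hR0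
        have h2 : R'.natDegree ≤ n := by
          rw [Polynomial.natDegree_X_mul hR'0] at hR
          omega
        have h3 := ih R' h2 hR'0
        have h4 : evR h g (Polynomial.X * R') = g * evR h g R' := by
          rw [evR, evR, Polynomial.eval₂_mul, Polynomial.eval₂_X]
        rw [h4]
        refine ⟨mul_ne_zero hg0 h3.1, ?_⟩
        rw [L.lg_mul hg0 h3.1, hg, zero_add]
        exact h3.2
      · have h2 := hcon R h1
        unfold small at h2
        push Not at h2
        exact h2
  have hind : Ind L (Fin.cons g h : Fin (t + 1) → F) := by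
    intro f hf
    rw [aeval_cons]
    have h1 : MvPolynomial.finSuccEquiv k t f ≠ 0 := by
      simpa using hf
    have h2 := key _ _ le_rfl h1
    refine ⟨h2.1, le_antisymm ?_ h2.2⟩
    have h3 : L.le (evR h g (MvPolynomial.finSuccEquiv k t f)) 0 := by
      rw [evR_eq_sum]
      refine le_sum fun j _ => ?_
      have h4 := (hi.le ((MvPolynomial.finSuccEquiv k t f).coeff j)).mul
        (le.pow (L := L) (x := g) (r := 0) (fun _ => hg.le) j)
      exact h4.mono (by simp)
    exact h3 h2.1
  have := hmax _ ⟨_, hind⟩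
  omega

/-- **Tracking units.** -/
theorem exists_track (φ : F ≃ₐ[k] F) (L : LgData k F)
    (hφ : ∀ x, x ≠ 0 → L.lg x = 0 → L.lg (φ x) = 0) {t : ℕ} {h : Fin t → F} (hi : Ind L h)
    (hmax : Max L h) {g : F} (hg0 : g ≠ 0) (hg : L.lg g = 0) :
    ∃ Z : Finset F, (∀ z ∈ Z, small L z) ∧ ∀ Ln : ℕ → LgData k F,
      (∀ n x, (Ln (n + 1)).lg x = (Ln n).lg (φ x)) → Ind (Ln 0) h →
      (∀ n, ∀ z ∈ Z, small (Ln n) z) → ∀ n, (Ln n).lg g = 0 := by
  classical
  -- the relations
  set hφh : Fin t → F := fun i => φ (h i) with hφhdef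
  have haφ : ∀ f : MvPolynomial (Fin t) k, MvPolynomial.aeval hφh f =
      φ (MvPolynomial.aeval h f) := by
    intro f
    have h1 := MvPolynomial.comp_aeval_apply (R := k) (f := h) (φ : F →ₐ[k] F) f
    exact h1.symm
  have hiφ : Ind L hφh := by
    intro f hf
    rw [haφ]
    exact ⟨(map_ne_zero_iff _ φ.injective).2 (hi f hf).1, hφ _ (hi f hf).1 (hi f hf).2⟩
  have hX : ∀ {L' : LgData k F} {h' : Fin t → F}, Ind L' h' → ∀ i, h' i ≠ 0 ∧
      L'.lg (h' i) = 0 := by
    intro L' h' hi' i
    have := hi' (MvPolynomial.X i) (MvPolynomial.X_ne_zero i)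
    rwa [MvPolynomial.aeval_X] at this
  obtain ⟨Rg, hRg0, hRg⟩ := hmax g hg0 hg
  choose Ri hRi0 hRi using fun i => hmax (hφh i) (hX hiφ i).1 (hX hiφ i).2
  set H : Fin t ⊕ Fin t → F := Sum.elim h hφh with hH
  have hHle : ∀ {L' : LgData k F}, Ind L' h → (∀ i, L'.lg (hφh i) = 0) →
      ∀ f : MvPolynomial (Fin t ⊕ Fin t) k, L'.le (MvPolynomial.aeval H f) 0 := by
    intro L' hi' h1 f
    induction f using MvPolynomial.induction_on with
    | C a =>
      rw [MvPolynomial.algHom_C]
      exact le_const a
    | add p q hp hq =>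
      rw [map_add]
      exact hp.add hq
    | mul_X p i hp =>
      rw [map_mul, MvPolynomial.aeval_X]
      have h2 : L'.le (H i) 0 := by
        rcases i with i | i
        · exact fun _ => (hX hi' i).2.le
        · exact fun _ => (h1 i).le
      exact (hp.mul h2).mono (by simp)
  have hHmul : ∀ {L' : LgData k F}, Ind L' h → (∀ i, L'.lg (hφh i) = 0) →
      ∀ f f' : MvPolynomial (Fin t ⊕ Fin t) k, small L' (MvPolynomial.aeval H f') →
      small L' (MvPolynomial.aeval H (f * f')) := by
    intro L' hi' h1 f f' h2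
    rw [map_mul]
    exact small.mul_le (hHle hi' h1 f) h2
  let J : ∀ (L' : LgData k F), Ind L' h → (∀ i, L'.lg (hφh i) = 0) →
      Ideal (MvPolynomial (Fin t ⊕ Fin t) k) := fun L' hi' h1 =>
    { carrier := {f | small L' (MvPolynomial.aeval H f)}
      add_mem' := fun {a b} ha hb => by
        change small L' (MvPolynomial.aeval H (a + b))
        rw [map_add]
        exact small.add ha hb
      zero_mem' := by
        change small L' (MvPolynomial.aeval H 0)
        rw [map_zero]
        exact fun h => absurd rfl h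
      smul_mem' := fun c f hf => hHmul hi' h1 c f hf }
  obtain ⟨G, hG⟩ := (isNoetherianRing_iff_ideal_fg (MvPolynomial (Fin t ⊕ Fin t) k)).1
    inferInstance (J L hi fun i => (hX hiφ i).2)
  refine ⟨insert (evR h g Rg) ((Finset.univ.image fun i => evR h (hφh i) (Ri i)) ∪
    G.image fun f => MvPolynomial.aeval H f), ?_, ?_⟩
  · intro z hz
    rcases Finset.mem_insert.1 hz with rfl | hz
    · exact hRg
    rcases Finset.mem_union.1 hz with hz | hz
    · obtain ⟨i, -, rfl⟩ := Finset.mem_image.1 hz
      exact hRi i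
    · obtain ⟨f, hf, rfl⟩ := Finset.mem_image.1 hz
      have h1 : f ∈ J L hi fun i => (hX hiφ i).2 := by
        rw [← hG]
        exact Ideal.subset_span hf
      exact h1
  · intro Ln hLn hi0 hZ
    have hstep : ∀ n, Ind (Ln n) h → Ind (Ln (n + 1)) h := by
      intro n hin
      have hun : ∀ i, (Ln n).lg (hφh i) = 0 := fun i =>
        unit_of_rel hin (hX hiφ i).1 (hRi0 i) (hZ n _ (Finset.mem_insert_of_mem
          (Finset.mem_union_left _ (Finset.mem_image_of_mem _ (Finset.mem_univ i)))))
      have hJ : J L hi (fun i => (hX hiφ i).2) ≤ J (Ln n) hin hun := by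
        rw [← hG, Ideal.span_le]
        intro f hf
        exact hZ n _ (Finset.mem_insert_of_mem
          (Finset.mem_union_right _ (Finset.mem_image_of_mem _ hf)))
      intro ψ hψ
      have h1 := hiφ ψ hψ
      obtain ⟨R, hR0, hR⟩ := hmax (MvPolynomial.aeval hφh ψ) h1.1 h1.2
      set fψ : MvPolynomial (Fin t ⊕ Fin t) k :=
        R.eval₂ (MvPolynomial.rename (R := k) Sum.inl).toRingHom
          (MvPolynomial.rename Sum.inr ψ) with hfψ
      have h2 : MvPolynomial.aeval H fψ = evR h (MvPolynomial.aeval hφh ψ) R := by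
        rw [hfψ, evR]
        have h3 := Polynomial.hom_eval₂ R (MvPolynomial.rename (R := k)
          (Sum.inl : Fin t → Fin t ⊕ Fin t)).toRingHom
          (MvPolynomial.aeval H : MvPolynomial (Fin t ⊕ Fin t) k →ₐ[k] F).toRingHom
          (MvPolynomial.rename Sum.inr ψ)
        have h4 : (MvPolynomial.aeval H : MvPolynomial (Fin t ⊕ Fin t) k →ₐ[k] F).toRingHom
            (MvPolynomial.rename Sum.inr ψ) = MvPolynomial.aeval hφh ψ := by
          change MvPolynomial.aeval H (MvPolynomial.rename Sum.inr ψ) = _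
          rw [MvPolynomial.aeval_rename]
          rfl
        have h5 : (MvPolynomial.aeval H : MvPolynomial (Fin t ⊕ Fin t) k →ₐ[k] F).toRingHom.comp
            (MvPolynomial.rename (R := k) (Sum.inl : Fin t → Fin t ⊕ Fin t)).toRingHom =
            (MvPolynomial.aeval h : MvPolynomial (Fin t) k →ₐ[k] F).toRingHom := by
          ext f
          · simp
          · simp [hH]
        rw [h4, h5] at h3
        exact h3
      have h3 : fψ ∈ J L hi (fun i => (hX hiφ i).2) := by
        change small L (MvPolynomial.aeval H fψ)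
        rw [h2]
        exact hR
      have h4 : small (Ln n) (MvPolynomial.aeval H fψ) := hJ h3
      rw [h2] at h4
      have h5 := unit_of_rel hin h1.1 hR0 h4
      refine ⟨(hi ψ hψ).1, ?_⟩
      rw [hLn, ← haφ]
      exact h5
    have hall : ∀ n, Ind (Ln n) h := by
      intro n
      induction n with
      | zero => exact hi0
      | succ n ih => exact hstep n ih
    intro n
    exact unit_of_rel (hall n) hg0 hRg0 (hZ n _ (Finset.mem_insert_self _ _))

end Pool.Agent.H17Dyn
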