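import Pool.Agent.H17Dyn.Gauss
import Pool.Agent.H17Dyn.FatMain
import Pool.Agent.H17Dyn.Laurent
import Pool.Agent.H17Dyn.Track

/-!
# Test valuations

For a fat valuation `N`, finitely many polynomials and finitely many units with independent
residues: a fat valuation with finitely generated values which agrees with `N` on the polynomials
and for which the residues of the units are still independent.
-/

set_option autoImplicit false

attribute [-instance] HahnSeries.powerSeriesAlgebra

namespace Pool.Agent.H17Dyn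

open LgData

section Radii

/-- generic radii in an interval -/
lemma exists_radii {r₀ r₁ : ℝ} (hr : r₀ < r₁) (d : ℕ) (Γ : AddSubgroup ℝ)
    (hΓ : (Γ : Set ℝ).Countable) : ∃ s : Fin d → ℝ, (∀ i, r₀ < s i ∧ s i < r₁) ∧
      ∀ m : Fin d → ℤ, ∑ i, (m i : ℝ) * s i ∈ Γ → m = 0 := by
  induction d generalizing Γ with
  | zero => exact ⟨Fin.elim0, fun i => i.elim0, fun m _ => funext fun i => i.elim0⟩
  | succ d ih =>
    -- the first radius
    have h1 : {x : ℝ | ∃ m : ℤ, m ≠ 0 ∧ (m : ℝ) * x ∈ Γ}.Countable := by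
      have h2 : {x : ℝ | ∃ m : ℤ, m ≠ 0 ∧ (m : ℝ) * x ∈ Γ} =
          ⋃ m ∈ {m : ℤ | m ≠ 0}, (fun x : ℝ => (m : ℝ) * x) ⁻¹' (Γ : Set ℝ) := by
        ext x
        simp
      rw [h2]
      refine Set.Countable.biUnion (Set.to_countable _) fun m hm => ?_
      refine hΓ.preimage_of_injOn ?_
      intro x _ y _ hxy
      have hm' : (m : ℝ) ≠ 0 := by exact_mod_cast hm
      exact mul_left_cancel₀ hm' hxy
    obtain ⟨s₀, hs₀, hs₀'⟩ : ∃ x ∈ Set.Ioo r₀ r₁, x ∉ {x : ℝ | ∃ m : ℤ, m ≠ 0 ∧ (m : ℝ) * x ∈ Γ} := by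
      by_contra hcon
      push Not at hcon
      have h3 : (Set.Ioo r₀ r₁).Countable := h1.mono fun x hx => hcon x hx
      exact (Cardinal.Real.Ioo_countable_iff.1 h3).not_gt hr
    set Γ' : AddSubgroup ℝ := Γ ⊔ AddSubgroup.zmultiples s₀ with hΓ'
    have hΓ'c : (Γ' : Set ℝ).Countable := by
      have h2 : (Γ' : Set ℝ) ⊆ Set.image2 (fun (x : ℝ) (n : ℤ) => x + n • s₀) (Γ : Set ℝ)
          Set.univ := by
        intro x hx
        obtain ⟨y, hy, z, hz, rfl⟩ := AddSubgroup.mem_sup.1 hx
        obtain ⟨n, rfl⟩ := AddSubgroup.mem_zmultiples_iff.1 hz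
        exact ⟨y, hy, n, trivial, rfl⟩
      exact (hΓ.image2 (Set.to_countable _) _).mono h2
    obtain ⟨s, hs1, hs2⟩ := ih Γ' hΓ'c
    refine ⟨Fin.cons s₀ s, fun i => ?_, fun m hm => ?_⟩
    · refine Fin.cases ?_ (fun i => ?_) i
      · exact hs₀
      · exact hs1 i
    · rw [Fin.sum_univ_succ] at hm
      simp only [Fin.cons_zero, Fin.cons_succ] at hm
      have h4 : (fun i => m (Fin.succ i)) = 0 := by
        refine hs2 _ ?_
        have h5 : ∑ i : Fin d, (m (Fin.succ i) : ℝ) * s i =
            ((m 0 : ℝ) * s₀ + ∑ i : Fin d, (m (Fin.succ i) : ℝ) * s i) + (-m 0) • s₀ := by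
          rw [zsmul_eq_mul]
          push_cast
          ring
        rw [h5]
        exact Γ'.add_mem (AddSubgroup.mem_sup_left hm)
          (AddSubgroup.mem_sup_right (AddSubgroup.mem_zmultiples_iff.2 ⟨_, rfl⟩))
      have h5 : ∑ i : Fin d, (m (Fin.succ i) : ℝ) * s i = 0 := by
        refine Finset.sum_eq_zero fun i _ => ?_
        have := congrFun h4 i
        simp only [Pi.zero_apply] at this
        rw [this]
        simp
      rw [h5, add_zero] at hm
      have h6 : m 0 = 0 := by
        by_contra h7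
        exact hs₀' ⟨m 0, h7, hm⟩
      ext i
      refine Fin.cases ?_ (fun i => ?_) i
      · exact h6
      · exact congrFun h4 i

lemma countable_span (S : Finset ℝ) :
    ((Submodule.span ℤ (S : Set ℝ)).toAddSubgroup : Set ℝ).Countable := by
  have h1 : ((Submodule.span ℤ (S : Set ℝ)).toAddSubgroup : Set ℝ) ⊆
      Set.range (fun f : S → ℤ => ∑ x : S, f x • (x : ℝ)) := by
    intro x hx
    have hx' : x ∈ Submodule.span ℤ (S : Set ℝ) := hx
    obtain ⟨f, -, rfl⟩ := Submodule.mem_span_finset.1 hx'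
    refine ⟨fun s => f s, ?_⟩
    exact Finset.sum_coe_sort S (fun x => f x • x)
  exact (Set.countable_range _).mono h1

end Radii

universe u

section Frac

variable {d : ℕ} {k : Type u} [Field k]

/-- clearing denominators -/
lemma frac_poly {t : ℕ} (A B : Fin t → MvPolynomial (Fin d) k) (f : MvPolynomial (Fin t) k) :
    ∃ P : MvPolynomial (Fin d) k, ∃ Q ∈ Submonoid.closure (Set.range B),
      ∀ (K : Type u) [Field K] [Algebra k K] (ev : MvPolynomial (Fin d) k →ₐ[k] K),
        (∀ i, ev (B i) ≠ 0) → MvPolynomial.aeval (fun i => ev (A i) / ev (B i)) f * ev Q = ev P := by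
  induction f using MvPolynomial.induction_on with
  | C a =>
    refine ⟨MvPolynomial.C a, 1, Submonoid.one_mem _, fun K _ _ ev _ => ?_⟩
    rw [MvPolynomial.algHom_C, map_one, mul_one, ← MvPolynomial.algebraMap_eq, AlgHom.commutes]
  | add f g hf hg =>
    obtain ⟨P, Q, hQ, h1⟩ := hf
    obtain ⟨P', Q', hQ', h2⟩ := hg
    refine ⟨P * Q' + P' * Q, Q * Q', Submonoid.mul_mem _ hQ hQ', fun K _ _ ev hev => ?_⟩
    rw [map_add, map_mul, map_add, map_mul, map_mul, ← h1 K ev hev, ← h2 K ev hev]
    ring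
  | mul_X f i hf =>
    obtain ⟨P, Q, hQ, h1⟩ := hf
    refine ⟨P * A i, Q * B i, Submonoid.mul_mem _ hQ (Submonoid.subset_closure ⟨i, rfl⟩),
      fun K _ _ ev hev => ?_⟩
    have h2 := hev i
    rw [map_mul, map_mul, map_mul, MvPolynomial.aeval_X, ← h1 K ev hev]
    field_simp

end Frac

section Main

variable {d : ℕ} {k : Type u} [Field k] [CharZero k]

omit [CharZero k] in
lemma small_sub_aeval {K : Type*} [Field K] [Algebra k K] {L : LgData k K} {t : ℕ}
    {u v : Fin t → K} (hv : ∀ j, L.le (v j) 0) (hu : ∀ j, L.le (u j) 0)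
    (h : ∀ j, small L (u j - v j)) (f : MvPolynomial (Fin t) k) :
    small L (MvPolynomial.aeval u f - MvPolynomial.aeval v f) := by
  induction f using MvPolynomial.induction_on with
  | C a =>
    rw [MvPolynomial.algHom_C, MvPolynomial.algHom_C, sub_self]
    exact fun h => absurd rfl h
  | add f g hf hg =>
    rw [map_add, map_add]
    have h1 : MvPolynomial.aeval u f + MvPolynomial.aeval u g -
        (MvPolynomial.aeval v f + MvPolynomial.aeval v g) =
        (MvPolynomial.aeval u f - MvPolynomial.aeval v f) +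
        (MvPolynomial.aeval u g - MvPolynomial.aeval v g) := by ring
    rw [h1]
    exact hf.add hg
  | mul_X f i hf =>
    rw [map_mul, map_mul, MvPolynomial.aeval_X, MvPolynomial.aeval_X]
    have h1 : MvPolynomial.aeval u f * u i - MvPolynomial.aeval v f * v i =
        u i * (MvPolynomial.aeval u f - MvPolynomial.aeval v f) +
        MvPolynomial.aeval v f * (u i - v i) := by ring
    rw [h1]
    have h2 : L.le (MvPolynomial.aeval v f) 0 := by
      have := le_aeval (L := L) le_rfl hv f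
      simpa using this
    exact (small.mul_le (hu i) hf).add (small.mul_le h2 (h i))

lemma eq_of_max_pos {x y : ℝ} (h : max x 0 = y) (hy : 0 < y) : x = y := by
  rcases le_total x 0 with h2 | h2
  · rw [max_eq_right h2] at h
    exact absurd h hy.ne
  · rwa [max_eq_left h2] at h

/-- **Existence of test valuations.** -/
theorem exists_test {N : MvPolynomial (Fin d) k → ℝ} (hN : IsLogVal N) (hN0 : ∀ P, 0 ≤ N P)
    {s₀ : ℝ} (hfat : Fat s₀ N) {i : Fin d} (hi : N (MvPolynomial.X i) = 1)
    (W : Finset (MvPolynomial (Fin d) k)) {t : ℕ}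
    {h : Fin t → FractionRing (MvPolynomial (Fin d) k)} (hInd : Ind (fracL hN hi) h) :
    ∃ u : MvPolynomial (Fin d) k → ℝ, IsLogVal u ∧ Fat (s₀ + 1) u ∧
      (∀ P ∈ W, P ≠ 0 → max (u P) 0 = N P) ∧
      (∃ S : Finset ℝ, ∀ P, P ≠ 0 → ∃ m : Multiset ℝ, (∀ s ∈ m, s ∈ S) ∧
        m.card ≤ P.totalDegree ∧ m.sum = u P) ∧
      ∀ f : MvPolynomial (Fin t) k, f ≠ 0 → fracN u (MvPolynomial.aeval h f) = 0 := by
  classical
  obtain ⟨K, iK1, iK2, iK3, iK4, iK5, iK6, L, x, hxa, hxF, hx⟩ := exists_generic hN hi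
  have hXi0 : (MvPolynomial.X i : MvPolynomial (Fin d) k) ≠ 0 := MvPolynomial.X_ne_zero i
  -- numerators and denominators
  have hh : ∀ j, h j ≠ 0 ∧ fracN N (h j) = 0 := by
    intro j
    have h1 := hInd (MvPolynomial.X j) (MvPolynomial.X_ne_zero j)
    rwa [MvPolynomial.aeval_X, fracL_lg] at h1
  choose A₀ B₀ hA₀ hB₀ hAB₀ using fun j => exists_div (h j) (hh j).1
  set A : Fin t → MvPolynomial (Fin d) k := fun j => A₀ j * MvPolynomial.X i with hA
  set B : Fin t → MvPolynomial (Fin d) k := fun j => B₀ j * MvPolynomial.X i with hB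
  have hA0 : ∀ j, A j ≠ 0 := fun j => mul_ne_zero (hA₀ j) hXi0
  have hB0 : ∀ j, B j ≠ 0 := fun j => mul_ne_zero (hB₀ j) hXi0
  have hNA : ∀ j, 0 < N (A j) := fun j => by
    simp only [hA]
    rw [hN.mul _ _ (hA₀ j) hXi0, hi]
    linarith [hN0 (A₀ j)]
  have hNB : ∀ j, 0 < N (B j) := fun j => by
    simp only [hB]
    rw [hN.mul _ _ (hB₀ j) hXi0, hi]
    linarith [hN0 (B₀ j)]
  have halg0 : ∀ {P : MvPolynomial (Fin d) k}, P ≠ 0 →
      algebraMap _ (FractionRing (MvPolynomial (Fin d) k)) P ≠ 0 := fun {P} hP => by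
    simpa using hP
  have hAB : ∀ j, h j = algebraMap _ (FractionRing (MvPolynomial (Fin d) k)) (A j) /
      algebraMap _ _ (B j) := by
    intro j
    have e1 := halg0 (hB₀ j)
    have e2 := halg0 hXi0
    rw [hAB₀ j]
    simp only [hA, hB, map_mul]
    field_simp
  have hNAB : ∀ j, N (A j) = N (B j) := by
    intro j
    have h1 := (hh j).2
    rw [hAB j, fracN_div hN (hA0 j) (hB0 j)] at h1
    linarith
  -- the finite set
  set W₁ : Finset (MvPolynomial (Fin d) k) := W ∪ {MvPolynomial.X i} ∪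
    (Finset.univ.image A ∪ Finset.univ.image B) with hW₁
  set W' : Finset (MvPolynomial (Fin d) k) := W₁.biUnion fun P =>
    (taylor P).support.image fun α => tay α P with hW'
  have hmem : ∀ P ∈ W₁, ∀ α, tay α P ≠ 0 → tay α P ∈ W' := by
    intro P hP α hα
    exact Finset.mem_biUnion.2 ⟨P, hP, Finset.mem_image_of_mem _
      (MvPolynomial.mem_support_iff.2 hα)⟩
  have hmem0 : ∀ P ∈ W₁, P ≠ 0 → P ∈ W' := by
    intro P hP hP0
    have := hmem P hP 0 (by rwa [tay_zero])
    rwa [tay_zero] at this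
  have hflx : ∀ Q : MvPolynomial (Fin d) k, Q ≠ 0 →
      L.fl 0 (MvPolynomial.aeval x Q) = N Q := by
    intro Q hQ
    rw [fl_of_ne (hx Q hQ).1, (hx Q hQ).2, max_eq_left (hN0 Q)]
  obtain ⟨a, ha, S, hS⟩ := exists_laurent L W' x
  have hfla : ∀ Q ∈ W', Q ≠ 0 → L.fl 0 (MvPolynomial.aeval a Q) = N Q := fun Q hQ hQ0 => by
    rw [ha.1 Q hQ, hflx Q hQ0]
  -- the group of values
  set Γ : AddSubgroup ℝ := (Submodule.span ℤ (S : Set ℝ)).toAddSubgroup with hΓ
  have hΓm : ∀ Q : MvPolynomial (Fin d) k, MvPolynomial.aeval a Q ≠ 0 →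
      L.lg (MvPolynomial.aeval a Q) ∈ Γ := by
    intro Q hQ
    obtain ⟨m, h1, -, h3⟩ := hS Q hQ
    rw [← h3]
    have h4 : m.sum ∈ Submodule.span ℤ (S : Set ℝ) :=
      multiset_sum_mem _ fun s hs => Submodule.subset_span (h1 s hs)
    exact h4
  obtain ⟨s, hs1, hs2⟩ := exists_radii (lt_add_one s₀) d Γ (countable_span S)
  obtain ⟨u, hu, hu1, hu2, hu3⟩ := exists_ball_val L a hΓm hs2
  have hwt : ∀ α : Fin d →₀ ℕ, s₀ * (α.sum fun _ e => e : ℕ) ≤ wt s α := by
    intro α
    rw [wt, Finsupp.sum_fintype _ _ fun _ => rfl]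
    push_cast
    rw [Finset.mul_sum]
    refine Finset.sum_le_sum fun j _ => ?_
    rw [mul_comm]
    exact mul_le_mul_of_nonneg_left (hs1 j).1.le (Nat.cast_nonneg _)
  -- agreement
  have hagree : ∀ P ∈ W₁, P ≠ 0 → u P ≤ N P ∧ (0 < N P → MvPolynomial.aeval a P ≠ 0 ∧
      L.lg (MvPolynomial.aeval a P) = N P ∧ u P = N P) := by
    intro P hP hP0
    have h1 : u P ≤ N P := by
      obtain ⟨α, hα, h2⟩ := hu1 P hP0
      have hα0 : tay α P ≠ 0 := by
        intro h3
        rw [h3, map_zero] at hα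
        exact hα rfl
      have h3 := hfla _ (hmem P hP α hα0) hα0
      rw [fl_of_ne hα] at h3
      have h4 := le_max_left (L.lg (MvPolynomial.aeval a (tay α P))) 0
      have h5 := hfat.tay_le hN hα0
      have h6 := hwt α
      rw [h2]
      linarith
    refine ⟨h1, fun hpos => ?_⟩
    have h2 := hfla P (hmem0 P hP hP0) hP0
    have h3 : MvPolynomial.aeval a P ≠ 0 := by
      intro h3
      rw [h3, fl_zero] at h2
      exact hpos.ne h2
    rw [fl_of_ne h3] at h2
    have h4 := eq_of_max_pos h2 hpos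
    refine ⟨h3, h4, le_antisymm h1 ?_⟩
    have h5 := hu2 P hP0 0 (by rwa [tay_zero])
    rwa [tay_zero, wt_zero, sub_zero, h4] at h5
  have hAW : ∀ j, A j ∈ W₁ := fun j => Finset.mem_union_right _ (Finset.mem_union_left _
    (Finset.mem_image_of_mem _ (Finset.mem_univ j)))
  have hBW : ∀ j, B j ∈ W₁ := fun j => Finset.mem_union_right _ (Finset.mem_union_right _
    (Finset.mem_image_of_mem _ (Finset.mem_univ j)))
  have hXW : MvPolynomial.X i ∈ W₁ := Finset.mem_union_left _ (Finset.mem_union_right _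
    (Finset.mem_singleton_self _))
  refine ⟨u, hu, ?_, ?_, ?_, ?_⟩
  · intro j P hP
    have h1 := hu3 j P hP
    have h2 := (hs1 j).2
    linarith
  · intro P hP hP0
    obtain ⟨h1, h2⟩ := hagree P (Finset.mem_union_left _ (Finset.mem_union_left _ hP)) hP0
    rcases eq_or_lt_of_le (hN0 P) with h3 | h3
    · rw [← h3] at h1 ⊢
      exact max_eq_right h1
    · rw [(h2 h3).2.2, max_eq_left (hN0 P)]
  · refine ⟨S ∪ Finset.univ.image fun j => -s j, fun P hP => ?_⟩
    obtain ⟨α, hα, h1⟩ := hu1 P hP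
    have hα0 : tay α P ≠ 0 := by
      intro h3
      rw [h3, map_zero] at hα
      exact hα rfl
    obtain ⟨m, h2, h3, h4⟩ := hS _ hα
    refine ⟨m + ∑ j, Multiset.replicate (α j) (-s j), ?_, ?_, ?_⟩
    · intro z hz
      rcases Multiset.mem_add.1 hz with hz | hz
      · exact Finset.mem_union_left _ (h2 z hz)
      · obtain ⟨j, -, hj⟩ := Multiset.mem_sum.1 hz
        rw [Multiset.eq_of_mem_replicate hj]
        exact Finset.mem_union_right _ (Finset.mem_image_of_mem _ (Finset.mem_univ j))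
    · rw [Multiset.card_add, Multiset.card_sum]
      simp only [Multiset.card_replicate]
      have h5 := totalDegree_tay_le hα0
      rw [Finsupp.sum_fintype _ _ fun _ => rfl] at h5
      omega
    · have h6 : (∑ j, Multiset.replicate (α j) (-s j)).sum = -wt s α := by
        have h7 : ∀ T : Finset (Fin d), (∑ j ∈ T, Multiset.replicate (α j) (-s j)).sum =
            -∑ j ∈ T, (α j : ℝ) * s j := by
          intro T
          induction T using Finset.induction_on with
          | empty => simp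
          | insert j T hj ih =>
            rw [Finset.sum_insert hj, Multiset.sum_add, ih, Finset.sum_insert hj,
              Multiset.sum_replicate, nsmul_eq_mul]
            ring
        exact h7 Finset.univ
      rw [Multiset.sum_add, h4, h6, h1]
      ring
  · intro f hf
    have hui : u (MvPolynomial.X i) = 1 := by
      have h1 := (hagree _ hXW hXi0).2 (by rw [hi]; exact one_pos)
      rw [h1.2.2, hi]
    have huA : ∀ j, u (A j) = N (A j) := fun j => ((hagree _ (hAW j) (hA0 j)).2 (hNA j)).2.2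
    have huB : ∀ j, u (B j) = N (B j) := fun j => ((hagree _ (hBW j) (hB0 j)).2 (hNB j)).2.2
    -- closeness of the two specialisations
    have hnear : ∀ P ∈ W₁, P ≠ 0 → 0 < N P →
        Near L (MvPolynomial.aeval a P) (MvPolynomial.aeval x P) := by
      intro P hP hP0 hpos
      refine ha.2 P fun x' hx' h0 => ?_
      have h1 := hx' P (hmem0 P hP hP0)
      rw [h0, fl_zero, hflx P hP0] at h1
      exact hpos.ne h1
    set va : Fin t → K := fun j => MvPolynomial.aeval a (A j) / MvPolynomial.aeval a (B j)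
      with hva
    set vx : Fin t → K := fun j => MvPolynomial.aeval x (A j) / MvPolynomial.aeval x (B j)
      with hvx
    have hvx' : ∀ j, vx j = algebraMap (FractionRing (MvPolynomial (Fin d) k)) K (h j) := by
      intro j
      simp only [hvx]
      rw [hxa, hxa, hAB j, map_div₀]
    have hvn : ∀ j, Near L (va j) (vx j) := fun j =>
      (hnear _ (hAW j) (hA0 j) (hNA j)).div (hnear _ (hBW j) (hB0 j) (hNB j))
    have hvx0 : ∀ j, L.lg (vx j) = 0 := by
      intro j
      rw [hvx', hxF _ (hh j).1, (hh j).2]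
    have hvle : ∀ j, L.le (vx j) 0 := fun j _ => (hvx0 j).le
    have hale : ∀ j, L.le (va j) 0 := fun j _ => by rw [(hvn j).lg_eq.2, hvx0 j]
    have hvs : ∀ j, small L (va j - vx j) := fun j hne => by
      have := (hvn j).2 hne
      rwa [hvx0] at this
    have hfx : MvPolynomial.aeval vx f =
        algebraMap (FractionRing (MvPolynomial (Fin d) k)) K (MvPolynomial.aeval h f) := by
      have h1 : vx = fun j => algebraMap (FractionRing (MvPolynomial (Fin d) k)) K (h j) :=
        funext hvx'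
      rw [h1]
      exact (MvPolynomial.aeval_algebraMap_apply K h f)
    have hf0 := hInd f hf
    rw [fracL_lg] at hf0
    have hfx0 : MvPolynomial.aeval vx f ≠ 0 ∧ L.lg (MvPolynomial.aeval vx f) = 0 := by
      rw [hfx]
      exact ⟨(map_ne_zero_iff _ (algebraMap (FractionRing (MvPolynomial (Fin d) k))
        K).injective).2 hf0.1, by rw [hxF _ hf0.1, hf0.2]⟩
    have hfa : MvPolynomial.aeval va f ≠ 0 ∧ L.lg (MvPolynomial.aeval va f) = 0 := by
      have h1 := lg_add_eq (L := L) hfx0.1 (y := MvPolynomial.aeval va f - MvPolynomial.aeval vx f)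
        (fun hne => by
          rw [hfx0.2]
          exact small_sub_aeval hvle hale hvs f hne)
      rwa [add_sub_cancel, hfx0.2] at h1
    -- the numerator and the denominator
    have hQ : ∀ Q ∈ Submonoid.closure (Set.range B), Q ≠ 0 ∧ MvPolynomial.aeval a Q ≠ 0 ∧
        L.lg (MvPolynomial.aeval a Q) = u Q := by
      intro Q hQ
      induction hQ using Submonoid.closure_induction with
      | mem Q hQ =>
        obtain ⟨j, rfl⟩ := hQ
        have h1 := (hagree _ (hBW j) (hB0 j)).2 (hNB j)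
        exact ⟨hB0 j, h1.1, by rw [h1.2.1, h1.2.2]⟩
      | one =>
        refine ⟨one_ne_zero, by rw [map_one]; exact one_ne_zero, ?_⟩
        have h1 := hu.const 1 one_ne_zero
        rw [map_one] at h1
        rw [map_one, L.lg_one, h1]
      | mul Q Q' _ _ h1 h2 =>
        obtain ⟨e1, e2, e3⟩ := h1
        obtain ⟨e1', e2', e3'⟩ := h2
        refine ⟨mul_ne_zero e1 e1', by rw [map_mul]; exact mul_ne_zero e2 e2', ?_⟩
        rw [map_mul, L.lg_mul e2 e2', e3, e3', hu.mul _ _ e1 e1']
    obtain ⟨P, Q, hQm, hPQ⟩ := frac_poly A B f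
    obtain ⟨hQ0, hQa, hQl⟩ := hQ Q hQm
    have e1 := hPQ K (MvPolynomial.aeval a) fun j => ((hagree _ (hBW j) (hB0 j)).2 (hNB j)).1
    have hPa : MvPolynomial.aeval a P ≠ 0 := by
      rw [← e1]
      exact mul_ne_zero hfa.1 hQa
    have hP0 : P ≠ 0 := by
      rintro rfl
      exact hPa (map_zero _)
    have hPl : L.lg (MvPolynomial.aeval a P) = u Q := by
      rw [← e1, L.lg_mul hfa.1 hQa, hfa.2, zero_add, hQl]
    have hPu : u Q ≤ u P := by
      have h5 := hu2 P hP0 0 (by rwa [tay_zero])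
      rwa [tay_zero, wt_zero, sub_zero, hPl] at h5
    have e2 := hPQ (FractionRing (MvPolynomial (Fin d) k))
      (IsScalarTower.toAlgHom k (MvPolynomial (Fin d) k) (FractionRing (MvPolynomial (Fin d) k)))
      fun j => halg0 (hB0 j)
    have e3 : MvPolynomial.aeval h f = algebraMap _ (FractionRing (MvPolynomial (Fin d) k)) P /
        algebraMap _ _ Q := by
      rw [eq_div_iff (halg0 hQ0)]
      have h1 : h = fun j => algebraMap _ (FractionRing (MvPolynomial (Fin d) k)) (A j) /
        algebraMap _ _ (B j) := funext hAB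
      rw [h1]
      exact e2
    have e4 : fracN u (MvPolynomial.aeval h f) = u P - u Q := by
      rw [e3, fracN_div hu hP0 hQ0]
    have e5 : fracN u (MvPolynomial.aeval h f) ≤ 0 := by
      have h1 : ∀ j, (fracL hu hui).le (h j) 0 := by
        intro j _
        rw [fracL_lg, hAB j, fracN_div hu (hA0 j) (hB0 j), huA, huB, hNAB, sub_self]
      have h2 := le_aeval (L := fracL hu hui) le_rfl h1 f hf0.1
      rwa [mul_zero, fracL_lg] at h2
    linarith

end Main

end Pool.Agent.H17Dyn
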