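import Pool.Agent.H17Dyn.General
import Pool.Agent.H17Dyn.WeakPerron
import Pool.Agent.H17Dyn.FatTrap
import Pool.Agent.H17Dyn.TestVal
import Pool.Agent.H17Dyn.SeqAlg

/-!
# Weak Perron numbers as dynamical degrees: automorphisms with `λ₂ < λ₁²`
-/

set_option autoImplicit false

attribute [-instance] HahnSeries.powerSeriesAlgebra

namespace Pool.Agent.H17Dyn

open Filter Topology ENNReal

universe u

section Aux

variable {k F : Type*} [Field k] [Field F] [Algebra k F]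

lemma lg_zpow (L : LgData k F) {x : F} (hx : x ≠ 0) (n : ℤ) : L.lg (x ^ n) = n * L.lg x := by
  cases n with
  | ofNat n =>
    rw [Int.ofNat_eq_natCast, zpow_natCast, LgData.lg_pow hx]
    simp
  | negSucc n =>
    rw [zpow_negSucc, lg_inv (pow_ne_zero _ hx), LgData.lg_pow hx]
    push_cast
    ring

/-- the pullback of an absolute value by an automorphism -/
noncomputable def LgData.twist (L : LgData k F) (e : F ≃ₐ[k] F) : LgData k F where
  lg z := L.lg (e z)
  lg_mul {x y} hx hy := by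
    rw [map_mul, L.lg_mul ((map_ne_zero_iff _ e.injective).2 hx)
      ((map_ne_zero_iff _ e.injective).2 hy)]
  lg_add {x y} hx hy hxy := by
    rw [map_add]
    refine L.lg_add ((map_ne_zero_iff _ e.injective).2 hx)
      ((map_ne_zero_iff _ e.injective).2 hy) ?_
    rw [← map_add]
    exact (map_ne_zero_iff _ e.injective).2 hxy
  lg_const {c} hc := by
    rw [AlgEquiv.commutes, L.lg_const hc]
  s := e.symm L.s
  s_ne := (map_ne_zero_iff _ e.symm.injective).2 L.s_ne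
  lg_s := by rw [AlgEquiv.apply_symm_apply, L.lg_s]

lemma LgData.twist_lg (L : LgData k F) (e : F ≃ₐ[k] F) (z : F) : (L.twist e).lg z = L.lg (e z) :=
  rfl

end Aux

section Frac

variable {d : ℕ} {k : Type u} [Field k]

/-- the automorphism of the field of fractions -/
noncomputable def fracAut (φ : MvPolynomial (Fin d) k ≃ₐ[k] MvPolynomial (Fin d) k) :
    FractionRing (MvPolynomial (Fin d) k) ≃ₐ[k] FractionRing (MvPolynomial (Fin d) k) :=
  IsFractionRing.algEquivOfAlgEquiv φ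

lemma fracAut_algebraMap (φ : MvPolynomial (Fin d) k ≃ₐ[k] MvPolynomial (Fin d) k)
    (P : MvPolynomial (Fin d) k) : fracAut φ (algebraMap _ _ P) = algebraMap _ _ (φ P) :=
  IsFractionRing.algEquivOfAlgEquiv_algebraMap φ P

lemma fracAut_pow_algebraMap (φ : MvPolynomial (Fin d) k ≃ₐ[k] MvPolynomial (Fin d) k) (n : ℕ)
    (P : MvPolynomial (Fin d) k) :
    (fracAut φ ^ n) (algebraMap _ _ P) = algebraMap _ _ ((φ ^ n) P) := by
  induction n with
  | zero => simp
  | succ n ih =>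
    rw [pow_succ', AlgEquiv.mul_apply, ih, fracAut_algebraMap, pow_succ', AlgEquiv.mul_apply]

lemma algInd_card_le {t : ℕ} {h : Fin t → FractionRing (MvPolynomial (Fin d) k)}
    (hh : AlgebraicIndependent k h) : t ≤ d := by
  have h1 := trdeg_add_eq k (MvPolynomial (Fin d) k)
    (A := FractionRing (MvPolynomial (Fin d) k))
  have h2 : Algebra.IsAlgebraic (MvPolynomial (Fin d) k)
      (FractionRing (MvPolynomial (Fin d) k)) :=
    IsLocalization.isAlgebraic _ (nonZeroDivisors (MvPolynomial (Fin d) k))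
  have h3 : Algebra.trdeg (MvPolynomial (Fin d) k)
      (FractionRing (MvPolynomial (Fin d) k)) = 0 := trdeg_eq_zero
  rw [h3, add_zero, MvPolynomial.trdeg_of_isDomain] at h1
  have h4 := hh.lift_cardinalMk_le_trdeg
  rw [← h1] at h4
  simpa using h4

end Frac

section Main

variable {d : ℕ} {k : Type u} [Field k] [IsAlgClosed k] [CharZero k]

/-- **Weak Perron numbers**, the general criterion. -/
theorem weak_perron_of_lt_sq {χ : ℝ →+ k} (hχ : Function.Injective χ) (hd : 2 ≤ d)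
    (φ : MvPolynomial (Fin d) k ≃ₐ[k] MvPolynomial (Fin d) k) {lam ρ : ℝ} (hlam1 : 1 < lam)
    (hlam2 : Tendsto (fun n : ℕ => (adeg (φ ^ n) : ℝ) ^ ((1 : ℝ) / (n : ℝ))) atTop (𝓝 lam))
    (hlam3 : ∀ n, lam ^ n ≤ (adeg (φ ^ n) : ℝ)) (hρ0 : 0 ≤ ρ) (hρ : ρ < lam ^ 2) {n₀ : ℕ}
    (hD : ∀ n, n₀ ≤ n → Deg2W (φ ^ n) (ρ ^ n)) :
    IsIntegral ℤ lam ∧ (minpoly ℤ lam).natDegree ≤ d - 1 ∧
      ∀ μ : ℂ, Polynomial.aeval μ (minpoly ℤ lam) = 0 → ‖μ‖ ≤ lam := by
  classical
  have hdz : NeZero d := ⟨by omega⟩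
  have hm : (0 : ℝ) ≤ adeg φ := Nat.cast_nonneg _
  have hsum : Summable fun n : ℕ => √((adeg φ : ℝ) * ρ ^ n) / (adeg (φ ^ (n + 1)) : ℝ) := by
    have hlim : Tendsto (fun n : ℕ => (ρ ^ n) ^ ((1 : ℝ) / (n : ℝ))) atTop (𝓝 ρ) := by
      refine tendsto_const_nhds.congr' ?_
      filter_upwards [eventually_gt_atTop 0] with n hn0
      have hn' : (n : ℝ) ≠ 0 := by exact_mod_cast hn0.ne'
      rw [← Real.rpow_natCast, ← Real.rpow_mul hρ0, mul_one_div_cancel hn', Real.rpow_one]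
    have h2 := (summable_err (e := fun n : ℕ => ρ ^ n)
      (d := fun n : ℕ => (adeg (φ ^ n) : ℝ)) (fun n => pow_nonneg hρ0 n) hlam1.le hlam3 hlim
      hρ0 hρ).mul_left √(adeg φ : ℝ)
    refine h2.congr fun n => ?_
    rw [mul_div_assoc', ← Real.sqrt_mul hm]
  obtain ⟨N, hN, hN0, hNφ, ⟨i, hi⟩, hNlim⟩ := exists_eigen' (hahnLg k one_pos) φ hlam2
    (Δ := fun n => (adeg φ : ℝ) * ρ ^ n) (fun n => by positivity) n₀
    (fun n hn i0 => ⟨1, one_ne_zero, fibCond_gen hχ hd φ (φ ^ n) (hD n hn) i0⟩) hsum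
  have hXi0 : (MvPolynomial.X i : MvPolynomial (Fin d) k) ≠ 0 := MvPolynomial.X_ne_zero i
  have hdeg := eigen_degree φ hN hlam1.ne' (fun P _ => hNφ P)
    ⟨MvPolynomial.X i, hXi0, by rw [hi]; exact one_ne_zero⟩
  have hfat : Fat (d : ℝ) N := fat_of_tendsto (by omega) φ hNlim
  have hNpow : ∀ n P, N ((φ ^ n) P) = lam ^ n * N P := by
    intro n
    induction n with
    | zero => simp
    | succ n ih =>
      intro P
      rw [pow_succ', AlgEquiv.mul_apply, hNφ, ih]
      ring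
  have hφ0 : ∀ n {P : MvPolynomial (Fin d) k}, P ≠ 0 → (φ ^ n) P ≠ 0 := fun n P hP =>
    (map_ne_zero_iff _ (φ ^ n).injective).2 hP
  -- the field of fractions
  set F := FractionRing (MvPolynomial (Fin d) k) with hF
  set LN := fracL hN hi with hLN
  have halg0 : ∀ {P : MvPolynomial (Fin d) k}, P ≠ 0 → algebraMap _ F P ≠ 0 := fun {P} hP => by
    simpa [hF] using hP
  have hfracφ : ∀ x : F, x ≠ 0 → LN.lg (fracAut φ x) = lam * LN.lg x := by
    intro x hx
    obtain ⟨a, b, ha, hb, rfl⟩ := exists_div x hx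
    rw [map_div₀, fracAut_algebraMap, fracAut_algebraMap, fracL_lg, fracL_lg,
      fracN_div hN ((map_ne_zero_iff _ φ.injective).2 ha) ((map_ne_zero_iff _ φ.injective).2 hb),
      fracN_div hN ha hb, hNφ, hNφ]
    ring
  -- the unit `g`
  set p := minpoly ℚ lam with hp
  obtain ⟨b, hb, hq⟩ := IsLocalization.integerNormalization_spec (nonZeroDivisors ℤ) p
  set q := IsLocalization.integerNormalization (nonZeroDivisors ℤ) p with hqdef
  have hb0 : (b : ℝ) ≠ 0 := by
    have := nonZeroDivisors.ne_zero hb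
    exact_mod_cast this
  have hqc : ∀ j, ((q.coeff j : ℤ) : ℝ) = b * ((p.coeff j : ℚ) : ℝ) := by
    intro j
    have h1 := congrArg (fun f : Polynomial ℚ => ((f.coeff j : ℚ) : ℝ)) hq
    simp only [Polynomial.coeff_map, Polynomial.coeff_smul] at h1
    simpa using h1
  set r := p.natDegree with hr
  have hpeval : ∑ j ∈ Finset.range (r + 1), ((p.coeff j : ℚ) : ℝ) * lam ^ j = 0 := by
    have h1 := minpoly.aeval ℚ lam
    rw [← hp, Polynomial.aeval_eq_sum_range] at h1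
    rw [← h1]
    refine Finset.sum_congr rfl fun j _ => ?_
    rw [Rat.smul_def]
  set g : F := ∏ j ∈ Finset.range (r + 1),
    (algebraMap _ F ((φ ^ j) (MvPolynomial.X i))) ^ (q.coeff j : ℤ) with hg
  have hgj : ∀ j, algebraMap _ F ((φ ^ j) (MvPolynomial.X i)) ≠ 0 := fun j =>
    halg0 (hφ0 j hXi0)
  have hg0 : g ≠ 0 := Finset.prod_ne_zero_iff.2 fun j _ => zpow_ne_zero _ (hgj j)
  have hLg : ∀ L : LgData k F, L.lg g = ∑ j ∈ Finset.range (r + 1),
      (b * ((p.coeff j : ℚ) : ℝ)) * L.lg (algebraMap _ F ((φ ^ j) (MvPolynomial.X i))) := by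
    intro L
    rw [hg, LgData.lg_prod fun j _ => zpow_ne_zero _ (hgj j)]
    refine Finset.sum_congr rfl fun j _ => ?_
    rw [lg_zpow L (hgj j), hqc]
  have hglg : LN.lg g = 0 := by
    rw [hLg]
    have h1 : ∀ j ∈ Finset.range (r + 1), (b * ((p.coeff j : ℚ) : ℝ)) *
        LN.lg (algebraMap _ F ((φ ^ j) (MvPolynomial.X i))) =
        b * (((p.coeff j : ℚ) : ℝ) * lam ^ j) := by
      intro j _
      rw [fracL_lg, fracN_algebraMap hN (hφ0 j hXi0), hNpow, hi, mul_one]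
      ring
    rw [Finset.sum_congr rfl h1, ← Finset.mul_sum, hpeval, mul_zero]
  -- tracking
  obtain ⟨t, h, hInd, hMax⟩ := exists_max LN (D := d) fun t h hh => algInd_card_le hh
  obtain ⟨Z, hZ, htrack⟩ := exists_track (fracAut φ) LN (fun x hx hx0 => by
    rw [hfracφ x hx, hx0, mul_zero]) hInd hMax hg0 hglg
  -- the pairs to compare
  have hpair : ∀ z : F, ∃ ab : MvPolynomial (Fin d) k × MvPolynomial (Fin d) k,
      z ≠ 0 → ab.1 ≠ 0 ∧ ab.2 ≠ 0 ∧ z = algebraMap _ F ab.1 / algebraMap _ F ab.2 := by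
    intro z
    by_cases hz : z = 0
    · exact ⟨(0, 0), fun h => absurd hz h⟩
    · obtain ⟨a, b, ha, hb, hab⟩ := exists_div z hz
      exact ⟨(a, b), fun _ => ⟨ha, hb, hab⟩⟩
  choose pr hpr using hpair
  obtain ⟨W, hW⟩ := compare hχ hd φ hlam1 hlam2 hlam3 hρ0 hρ hD hNφ hNlim hi
    (s := (d : ℝ) + 1) (by positivity) ((Z.filter fun z => z ≠ 0).image pr) (by
      intro ab hab
      obtain ⟨z, hz, rfl⟩ := Finset.mem_image.1 hab
      obtain ⟨hz1, hz2⟩ := Finset.mem_filter.1 hz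
      obtain ⟨h1, h2, h3⟩ := hpr z hz2
      refine ⟨h1, h2, ?_⟩
      have h4 := hZ z hz1 hz2
      rw [h3, fracL_lg, fracN_div hN h1 h2] at h4
      linarith)
  obtain ⟨u, hu, hufat, huW, ⟨S, hS⟩, huInd⟩ := exists_test hN hN0 hfat hi
    (insert (MvPolynomial.X i) W) hInd
  have hui : u (MvPolynomial.X i) = 1 := by
    have h1 := huW _ (Finset.mem_insert_self _ _) hXi0
    rw [hi] at h1
    exact eq_of_max_pos h1 one_pos
  have hcomp := hW u hu hufat fun P hP hP0 => huW P (Finset.mem_insert_of_mem hP) hP0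
  have hunit := htrack (fun n => (fracL hu hui).twist (fracAut φ ^ n))
    (fun n x => by
      rw [LgData.twist_lg, LgData.twist_lg, pow_succ, AlgEquiv.mul_apply])
    (fun f hf => by
      refine ⟨(hInd f hf).1, ?_⟩
      rw [LgData.twist_lg, pow_zero, AlgEquiv.one_apply, fracL_lg]
      exact huInd f hf)
    (fun n z hz hz0 => by
      obtain ⟨h1, h2, h3⟩ := hpr z hz0
      have h4 := hcomp n (pr z) (Finset.mem_image_of_mem _ (Finset.mem_filter.2 ⟨hz, hz0⟩))
      rw [LgData.twist_lg, h3, map_div₀, fracAut_pow_algebraMap, fracAut_pow_algebraMap, fracL_lg,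
        fracN_div hu (hφ0 n h1) (hφ0 n h2)]
      linarith)
  -- the sequence
  set a : ℕ → ℝ := fun n => u ((φ ^ n) (MvPolynomial.X i)) with ha
  have hrec : ∀ m, seqFun (fun n => a (n + m)) p = 0 := by
    intro m
    have h1 := hunit m
    rw [hLg] at h1
    have h2 : ∀ j ∈ Finset.range (r + 1), (b * ((p.coeff j : ℚ) : ℝ)) *
        ((fracL hu hui).twist (fracAut φ ^ m)).lg
          (algebraMap _ F ((φ ^ j) (MvPolynomial.X i))) =
        b * (((p.coeff j : ℚ) : ℝ) * a (j + m)) := by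
      intro j _
      rw [LgData.twist_lg, fracAut_pow_algebraMap, fracL_lg,
        fracN_algebraMap hu (hφ0 m (hφ0 j hXi0)), ← AlgEquiv.mul_apply, ← pow_add, add_comm m j]
      simp only [ha]
      ring
    rw [Finset.sum_congr rfl h2, ← Finset.mul_sum] at h1
    have h3 := (mul_eq_zero.1 h1).resolve_left hb0
    have h4 : seqFun (fun n => a (n + m)) p =
        ∑ j ∈ Finset.range (r + 1), ((p.coeff j : ℚ) : ℝ) * a (j + m) := by
      change Polynomial.sum p (fun n c => ((c : ℚ) : ℝ) * a (n + m)) = _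
      exact Polynomial.sum_over_range p fun n => by simp
    rw [h4, h3]
  obtain ⟨hint, hconj⟩ := weak_perron_of_seq hdeg.1 (dg := fun n => adeg (φ ^ n)) hlam2
    (fun m n => by
      rw [pow_add]
      exact adeg_mul_le _ _) (a := a) (by
      simp only [ha]
      rw [pow_zero, AlgEquiv.one_apply, hui]
      exact one_ne_zero) hrec (S := S) (C₀ := 1) fun n => by
      obtain ⟨m, h1, h2, h3⟩ := hS _ (hφ0 n hXi0)
      refine ⟨m, h1, ?_, h3⟩
      rw [one_mul]
      exact h2.trans (totalDegree_X_le (φ ^ n) i)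
  refine ⟨hint, ?_, hconj⟩
  have h3 := hdeg.2
  rw [hr, hp, minpoly.isIntegrallyClosed_eq_field_fractions' ℚ hint,
    Polynomial.natDegree_map_eq_of_injective (algebraMap ℤ ℚ).injective_int] at h3
  exact h3

/-- **Automorphisms with `λ₂ < λ₁²`.** -/
theorem small_second {χ : ℝ →+ k} (hχ : Function.Injective χ) (hd : 2 ≤ d)
    (φ : MvPolynomial (Fin d) k ≃ₐ[k] MvPolynomial (Fin d) k) :
    ∃ lam : ℝ, 1 ≤ lam ∧
      Tendsto (fun n : ℕ => (adeg (φ ^ n) : ℝ) ^ ((1 : ℝ) / (n : ℝ))) atTop (𝓝 lam) ∧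
      (dynDeg2 φ < ENNReal.ofReal (lam ^ 2) →
        IsIntegral ℤ lam ∧ (minpoly ℤ lam).natDegree ≤ d - 1 ∧
          ∀ μ : ℂ, Polynomial.aeval μ (minpoly ℤ lam) = 0 → ‖μ‖ ≤ lam) := by
  have : NeZero d := ⟨by omega⟩
  obtain ⟨lam, hlam1, hlam2, hlam3⟩ := exists_dyn φ
  refine ⟨lam, hlam1, hlam2, fun h => ?_⟩
  rcases eq_or_lt_of_le hlam1 with h1 | h1
  · rw [← h1]
    exact one_weak_perron hd
  obtain ⟨ρ', hρ1, hρ2⟩ := exists_between h
  have hρtop : ρ' ≠ ⊤ := hρ2.ne_top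
  set ρ : ℝ := ρ'.toReal with hρ
  have hρ0 : 0 ≤ ρ := ENNReal.toReal_nonneg
  have hρ' : ENNReal.ofReal ρ = ρ' := ENNReal.ofReal_toReal hρtop
  have hρlam : ρ < lam ^ 2 := by
    rw [← hρ'] at hρ2
    exact (ENNReal.ofReal_lt_ofReal_iff (by positivity)).1 hρ2
  have hev : ∀ᶠ n : ℕ in atTop, Deg2W (φ ^ n) (ρ ^ n) := by
    filter_upwards [eventually_lt_of_limsup_lt hρ1, eventually_gt_atTop 0] with n hn hn0
    refine (deg2Le_of_deg2 (by positivity) ?_).weak
    have hn' : (n : ℝ) ≠ 0 := by exact_mod_cast hn0.ne'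
    have h1 : (deg2 (φ ^ n) : ℝ≥0∞) =
        ((deg2 (φ ^ n) : ℝ≥0∞) ^ ((1 : ℝ) / (n : ℝ))) ^ n := by
      rw [← ENNReal.rpow_natCast, ← ENNReal.rpow_mul, one_div_mul_cancel hn', ENNReal.rpow_one]
    rw [h1, ENNReal.ofReal_pow hρ0, hρ']
    exact pow_le_pow_left₀ bot_le hn.le n
  obtain ⟨n₀, hn₀⟩ := eventually_atTop.1 hev
  exact weak_perron_of_lt_sq hχ hd φ h1 hlam2 hlam3 hρ0 hρlam hn₀

end Main

end Pool.Agent.H17Dyn
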