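import Pool.Agent.H17Dyn.Dim3Int
import Pool.Agent.H17Dyn.SmallSecond

/-!
# Dynamical degrees of automorphisms of affine three-space
-/

set_option autoImplicit false

attribute [-instance] HahnSeries.powerSeriesAlgebra

namespace Pool.Agent.H17Dyn

open Filter Topology

universe u

variable {k : Type u} [Field k] [IsAlgClosed k] [CharZero k]

/-- **Dimension three, `λ(φ⁻¹) < λ(φ)²`.** -/
theorem dim3_lt_sq {χ : ℝ →+ k} (hχ : Function.Injective χ)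
    (φ : MvPolynomial (Fin 3) k ≃ₐ[k] MvPolynomial (Fin 3) k) {lam mu : ℝ}
    (hlam1 : 1 ≤ lam)
    (hlam2 : Tendsto (fun n : ℕ => (adeg (φ ^ n) : ℝ) ^ ((1 : ℝ) / (n : ℝ))) atTop (𝓝 lam))
    (hlam3 : ∀ n, lam ^ n ≤ (adeg (φ ^ n) : ℝ)) (hmu1 : 1 ≤ mu)
    (hmu2 : Tendsto (fun n : ℕ => (adeg (φ.symm ^ n) : ℝ) ^ ((1 : ℝ) / (n : ℝ))) atTop (𝓝 mu))
    (h : mu < lam ^ 2) : IsIntegral ℤ lam ∧ (minpoly ℤ lam).natDegree ≤ 3 - 1 ∧
      ∀ μ : ℂ, Polynomial.aeval μ (minpoly ℤ lam) = 0 → ‖μ‖ ≤ lam := by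
  have hlam1' : 1 < lam := by
    rcases eq_or_lt_of_le hlam1 with h1 | h1
    · rw [← h1] at h
      norm_num at h
      linarith
    · exact h1
  obtain ⟨ρ, hρ1, hρ2⟩ := exists_between h
  have hρ0 : 0 ≤ ρ := by linarith
  have hsymm : ∀ n, (φ ^ n).symm = φ.symm ^ n := fun n => by
    have : (φ ^ n)⁻¹ = φ⁻¹ ^ n := (inv_pow φ n).symm
    exact this
  have hev : ∀ᶠ n : ℕ in atTop, Deg2W (φ ^ n) (ρ ^ n) := by
    filter_upwards [hmu2.eventually_lt_const hρ1, eventually_gt_atTop 0] with n hn hn0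
    refine (deg2W_three (φ ^ n)).mono ?_
    rw [hsymm]
    have hn' : (n : ℝ) ≠ 0 := by exact_mod_cast hn0.ne'
    have h1 : (adeg (φ.symm ^ n) : ℝ) = ((adeg (φ.symm ^ n) : ℝ) ^ ((1 : ℝ) / (n : ℝ))) ^ n := by
      rw [← Real.rpow_natCast, ← Real.rpow_mul (Nat.cast_nonneg _), one_div_mul_cancel hn',
        Real.rpow_one]
    rw [h1]
    exact pow_le_pow_left₀ (by positivity) hn.le n
  obtain ⟨n₀, hn₀⟩ := eventually_atTop.1 hev
  exact weak_perron_of_lt_sq hχ (by norm_num) φ hlam1' hlam2 hlam3 hρ0 hρ2 hn₀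

/-- **Dynamical degrees in dimension three.** -/
theorem dim3_full {χ : ℝ →+ k} (hχ : Function.Injective χ)
    (φ : MvPolynomial (Fin 3) k ≃ₐ[k] MvPolynomial (Fin 3) k) :
    ∃ lam mu : ℝ, 1 ≤ lam ∧ 1 ≤ mu ∧
      Tendsto (fun n : ℕ => (adeg (φ ^ n) : ℝ) ^ ((1 : ℝ) / (n : ℝ))) atTop (𝓝 lam) ∧
      Tendsto (fun n : ℕ => (adeg (φ.symm ^ n) : ℝ) ^ ((1 : ℝ) / (n : ℝ))) atTop (𝓝 mu) ∧
      IsIntegral ℤ lam ∧ (∀ μ : ℂ, Polynomial.aeval μ (minpoly ℤ lam) = 0 → ‖μ‖ ≤ lam) ∧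
      (minpoly ℤ lam).natDegree ≤ 4 ∧
      (mu ≠ lam ^ 2 → (minpoly ℤ lam).natDegree ≤ 2) ∧
      (mu = lam ^ 2 → IsIntegral ℤ (lam ^ 2) ∧ (minpoly ℤ (lam ^ 2)).natDegree ≤ 2) := by
  obtain ⟨lam, mu, h1, h2, h3, h4, h5, -, -, h6, h7, h8⟩ := dim3 φ
  have key : ∀ x : ℝ, IsIntegral ℤ x → (minpoly ℚ x).natDegree = (minpoly ℤ x).natDegree := by
    intro x hx
    rw [minpoly.isIntegrallyClosed_eq_field_fractions' ℚ hx,
      Polynomial.natDegree_map_eq_of_injective (algebraMap ℤ ℚ).injective_int]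
  obtain ⟨lam', -, hlam2, hlam3⟩ := exists_dyn φ
  obtain rfl := tendsto_nhds_unique h3 hlam2
  obtain ⟨mu', -, hmu2, hmu3⟩ := exists_dyn φ.symm
  obtain rfl := tendsto_nhds_unique h4 hmu2
  have hint : IsIntegral ℤ lam ∧ ∀ μ : ℂ, Polynomial.aeval μ (minpoly ℤ lam) = 0 → ‖μ‖ ≤ lam := by
    rcases eq_or_lt_of_le h1 with hl | hl
    · rw [← hl]
      have := one_weak_perron (d := 2) le_rfl
      exact ⟨this.1, this.2.2⟩
    rcases eq_or_lt_of_le h5 with h | h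
    · have hlt : lam < mu ^ 2 := by
        rw [h]
        nlinarith [mul_pos (by linarith : (0 : ℝ) < lam) (by linarith : (0 : ℝ) < lam - 1),
          pow_pos (by linarith : (0 : ℝ) < lam) 2, pow_pos (by linarith : (0 : ℝ) < lam) 3]
      have := dim3_lt_sq hχ φ.symm h2 h4 hmu3 h1 (by simpa using h3) hlt
      exact weak_perron_sqrt (by linarith) h this.1 this.2.2
    · have := dim3_lt_sq hχ φ h1 h3 hlam3 h2 h4 h
      exact ⟨this.1, this.2.2⟩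
  refine ⟨lam, mu, h1, h2, h3, h4, hint.1, hint.2, ?_, ?_, ?_⟩
  · rw [← key lam hint.1]
    exact h6
  · intro h
    rw [← key lam hint.1]
    exact h7 h
  · intro h
    have h9 : IsIntegral ℤ (lam ^ 2) := hint.1.pow 2
    refine ⟨h9, ?_⟩
    rw [← key _ h9]
    exact h8 h

end Pool.Agent.H17Dyn
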