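import Pool.Agent.H17Dyn.Dim3
import Pool.Agent.H17Dyn.Deg2Three
import Pool.Agent.H17Dyn.WeakPerron

/-!
# Weak Perron numbers and automorphisms of affine three-space
-/

set_option autoImplicit false

attribute [-instance] HahnSeries.powerSeriesAlgebra

namespace Pool.Agent.H17Dyn

open Filter Topology

universe u

variable {k : Type u} [Field k] [IsAlgClosed k] [CharZero k]

omit [IsAlgClosed k] [CharZero k] in
lemma Deg2W.mono {d : ℕ} {G : MvPolynomial (Fin d) k ≃ₐ[k] MvPolynomial (Fin d) k} {D D' : ℝ}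
    (h : Deg2W G D) (hD : D ≤ D') : Deg2W G D' :=
  fun b c i1 i2 h1 i0 u j hj hu c₁ c₂ hf => (h b c i1 i2 h1 i0 u j hj hu c₁ c₂ hf).trans hD

/-- **Dimension three, `λ(φ⁻¹) < λ(φ)`.** -/
theorem dim3_weak_perron {χ : ℝ →+ k} (hχ : Function.Injective χ)
    (φ : MvPolynomial (Fin 3) k ≃ₐ[k] MvPolynomial (Fin 3) k) {lam mu : ℝ}
    (hlam1 : 1 ≤ lam)
    (hlam2 : Tendsto (fun n : ℕ => (adeg (φ ^ n) : ℝ) ^ ((1 : ℝ) / (n : ℝ))) atTop (𝓝 lam))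
    (hlam3 : ∀ n, lam ^ n ≤ (adeg (φ ^ n) : ℝ)) (hmu1 : 1 ≤ mu)
    (hmu2 : Tendsto (fun n : ℕ => (adeg (φ.symm ^ n) : ℝ) ^ ((1 : ℝ) / (n : ℝ))) atTop (𝓝 mu))
    (h : mu < lam) : IsIntegral ℤ lam ∧ (minpoly ℤ lam).natDegree ≤ 3 - 1 ∧
      ∀ μ : ℂ, Polynomial.aeval μ (minpoly ℤ lam) = 0 → ‖μ‖ ≤ lam := by
  have hlam1' : 1 < lam := lt_of_le_of_lt hmu1 h
  obtain ⟨ρ, hρ1, hρ2⟩ := exists_between h
  have hρ0 : 0 ≤ ρ := by linarith
  have hsymm : ∀ n, (φ ^ n).symm = φ.symm ^ n := fun n => by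
    have : (φ ^ n)⁻¹ = φ⁻¹ ^ n := (inv_pow φ n).symm
    exact this
  have hev : ∀ᶠ n : ℕ in atTop, Deg2W (φ ^ n) (ρ ^ n) := by
    filter_upwards [hmu2.eventually_lt_const hρ1, eventually_gt_atTop 0] with n hn hn0
    refine (deg2W_three (φ ^ n)).mono ?_
    rw [hsymm]
    have hn' : (n : ℝ) ≠ 0 := by exact_mod_cast hn0.ne'
    have h1 : (adeg (φ.symm ^ n) : ℝ) = ((adeg (φ.symm ^ n) : ℝ) ^ ((1 : ℝ) / (n : ℝ))) ^ n := by
      rw [← Real.rpow_natCast, ← Real.rpow_mul (Nat.cast_nonneg _), one_div_mul_cancel hn',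
        Real.rpow_one]
    rw [h1]
    exact pow_le_pow_left₀ (by positivity) hn.le n
  obtain ⟨n₀, hn₀⟩ := eventually_atTop.1 hev
  exact weak_perron_of_deg2 hχ (by norm_num) φ hlam1' hlam2 hlam3 hρ0 hρ2 hn₀

/-- square roots of weak Perron numbers -/
lemma weak_perron_sqrt {lam mu : ℝ} (hlam : 0 ≤ lam) (hmu : mu = lam ^ 2) (h1 : IsIntegral ℤ mu)
    (h2 : ∀ μ : ℂ, Polynomial.aeval μ (minpoly ℤ mu) = 0 → ‖μ‖ ≤ mu) :
    IsIntegral ℤ lam ∧ ∀ μ : ℂ, Polynomial.aeval μ (minpoly ℤ lam) = 0 → ‖μ‖ ≤ lam := by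
  have h3 : IsIntegral ℤ lam := by
    refine IsIntegral.of_pow (n := 2) two_pos ?_
    rw [← hmu]
    exact h1
  refine ⟨h3, fun μ hμ => ?_⟩
  have hdvd : minpoly ℤ lam ∣ (minpoly ℤ mu).comp (Polynomial.X ^ 2) := by
    refine minpoly.isIntegrallyClosed_dvd h3 ?_
    rw [Polynomial.aeval_comp]
    simp only [map_pow, Polynomial.aeval_X]
    rw [← hmu]
    exact minpoly.aeval ℤ mu
  obtain ⟨q, hq⟩ := hdvd
  have h4 := congrArg (Polynomial.aeval μ) hq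
  rw [map_mul, hμ, zero_mul, Polynomial.aeval_comp] at h4
  simp only [map_pow, Polynomial.aeval_X] at h4
  have h5 := h2 _ h4
  rw [norm_pow, hmu] at h5
  exact (pow_le_pow_iff_left₀ (norm_nonneg _) hlam two_ne_zero).1 h5

/-- **Dynamical degrees in dimension three.** -/
theorem dim3_strong {χ : ℝ →+ k} (hχ : Function.Injective χ)
    (φ : MvPolynomial (Fin 3) k ≃ₐ[k] MvPolynomial (Fin 3) k) :
    ∃ lam mu : ℝ, 1 ≤ lam ∧ 1 ≤ mu ∧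
      Tendsto (fun n : ℕ => (adeg (φ ^ n) : ℝ) ^ ((1 : ℝ) / (n : ℝ))) atTop (𝓝 lam) ∧
      Tendsto (fun n : ℕ => (adeg (φ.symm ^ n) : ℝ) ^ ((1 : ℝ) / (n : ℝ))) atTop (𝓝 mu) ∧
      IsAlgebraic ℚ lam ∧ (minpoly ℚ lam).natDegree ≤ 4 ∧
      (mu ≠ lam ^ 2 → (minpoly ℚ lam).natDegree ≤ 2) ∧
      (mu = lam ^ 2 → (minpoly ℚ (lam ^ 2)).natDegree ≤ 2) ∧
      (mu < lam ∨ mu = lam ^ 2 → IsIntegral ℤ lam ∧
        ∀ μ : ℂ, Polynomial.aeval μ (minpoly ℤ lam) = 0 → ‖μ‖ ≤ lam) := by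
  obtain ⟨lam, mu, h1, h2, h3, h4, -, -, h5, h6, h7, h8⟩ := dim3 φ
  refine ⟨lam, mu, h1, h2, h3, h4, h5, h6, h7, h8, fun h => ?_⟩
  obtain ⟨lam', -, hlam2, hlam3⟩ := exists_dyn φ
  obtain rfl := tendsto_nhds_unique h3 hlam2
  obtain ⟨mu', -, hmu2, hmu3⟩ := exists_dyn φ.symm
  obtain rfl := tendsto_nhds_unique h4 hmu2
  rcases eq_or_lt_of_le h1 with hl | hl
  · rw [← hl]
    have := one_weak_perron (d := 2) le_rfl
    exact ⟨this.1, this.2.2⟩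
  rcases h with h | h
  · have := dim3_weak_perron hχ φ h1 h3 hlam3 h2 h4 h
    exact ⟨this.1, this.2.2⟩
  · have hlt : lam < mu := by
      rw [h]
      nlinarith
    have := dim3_weak_perron hχ φ.symm h2 h4 hmu3 h1 (by simpa using h3) hlt
    exact weak_perron_sqrt (by linarith) h this.1 this.2.2

end Pool.Agent.H17Dyn
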