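import Pool.Agent.H17Dyn.Val

/-!
# Dominating terms, and polynomials in elements with independent sizes
-/

set_option autoImplicit false

namespace Pool.Agent.H17Dyn

open LgData

variable {k K : Type*} [Field k] [Field K] [Algebra k K] {L : LgData k K}

/-- a unique term of maximal size determines the size of a sum -/
lemma lg_sum_unique {ι : Type*} (t : Finset ι) (f : ι → K) (j : ι) (hj : j ∈ t) (hj0 : f j ≠ 0)
    (h : ∀ i ∈ t, i ≠ j → f i ≠ 0 → L.lg (f i) < L.lg (f j)) :
    ∑ i ∈ t, f i ≠ 0 ∧ L.lg (∑ i ∈ t, f i) = L.lg (f j) := by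
  classical
  have key : ∀ t' : Finset ι, (∀ i ∈ t', f i ≠ 0 → L.lg (f i) < L.lg (f j)) →
      f j + ∑ i ∈ t', f i ≠ 0 ∧ L.lg (f j + ∑ i ∈ t', f i) = L.lg (f j) := by
    intro t'
    induction t' using Finset.induction_on with
    | empty =>
      intro _
      simpa using hj0
    | insert a t' ha ih =>
      intro h'
      have h1 := ih fun i hi => h' i (Finset.mem_insert_of_mem hi)
      have h2 := lg_add_eq (L := L) (y := f a) h1.1 (by
        intro hfa
        rw [h1.2]
        exact h' a (Finset.mem_insert_self a t') hfa)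
      rw [Finset.sum_insert ha]
      have h3 : f j + (f a + ∑ i ∈ t', f i) = f j + ∑ i ∈ t', f i + f a := by ring
      rw [h3]
      exact ⟨h2.1, h2.2.trans h1.2⟩
  have h1 := key (t.erase j) fun i hi => h i (Finset.mem_of_mem_erase hi)
    (Finset.ne_of_mem_erase hi)
  rw [Finset.add_sum_erase t f hj] at h1
  exact h1

/-- exponents with distinct weights -/
def ExpInj {σ : Type*} [Fintype σ] (g : σ → ℝ) : Prop :=
  Function.Injective fun e : σ →₀ ℕ => ∑ i, (e i : ℝ) * g i

lemma expInj_of_linearIndependent {σ : Type*} [Fintype σ] {g : σ → ℝ}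
    (hg : LinearIndependent ℚ g) : ExpInj g := by
  intro e e' h
  simp only at h
  have h1 : ∑ i, ((e i : ℚ) - e' i) • g i = 0 := by
    have : ∀ i, ((e i : ℚ) - e' i) • g i = (e i : ℝ) * g i - (e' i : ℝ) * g i := by
      intro i
      rw [Rat.smul_def]
      push_cast
      ring
    simp_rw [this, Finset.sum_sub_distrib, h, sub_self]
  have h2 := Fintype.linearIndependent_iff.1 hg _ h1
  ext i
  have h3 := h2 i
  rw [sub_eq_zero] at h3
  exact_mod_cast h3

/-- the size of a polynomial in elements whose sizes are independent -/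
lemma mono_lg {σ : Type*} [Fintype σ] {x : σ → K} (hx : ∀ i, x i ≠ 0)
    (hinj : ExpInj fun i => L.lg (x i)) {A : MvPolynomial σ k} (hA : A ≠ 0) :
    MvPolynomial.aeval x A ≠ 0 ∧ ∃ e ∈ A.support,
      (∀ e' ∈ A.support, ∑ i, (e' i : ℝ) * L.lg (x i) ≤ ∑ i, (e i : ℝ) * L.lg (x i)) ∧
      L.lg (MvPolynomial.aeval x A) = ∑ i, (e i : ℝ) * L.lg (x i) := by
  classical
  obtain ⟨e, he, hmax⟩ := Finset.exists_max_image A.support
    (fun e => ∑ i, (e i : ℝ) * L.lg (x i)) (MvPolynomial.support_nonempty.2 hA)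
  have hterm : ∀ e' ∈ A.support, algebraMap k K (A.coeff e') * ∏ i, x i ^ e' i ≠ 0 ∧
      L.lg (algebraMap k K (A.coeff e') * ∏ i, x i ^ e' i) = ∑ i, (e' i : ℝ) * L.lg (x i) := by
    intro e' he'
    have h1 : A.coeff e' ≠ 0 := MvPolynomial.mem_support_iff.1 he'
    have h2 : algebraMap k K (A.coeff e') ≠ 0 := by simpa using h1
    have h3 : ∏ i, x i ^ e' i ≠ 0 := Finset.prod_ne_zero_iff.2 fun i _ => pow_ne_zero _ (hx i)
    refine ⟨mul_ne_zero h2 h3, ?_⟩
    rw [L.lg_mul h2 h3, L.lg_const h1, zero_add, lg_prod fun i _ => pow_ne_zero _ (hx i)]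
    exact Finset.sum_congr rfl fun i _ => lg_pow (hx i) _
  have hsum : MvPolynomial.aeval x A =
      ∑ e' ∈ A.support, algebraMap k K (A.coeff e') * ∏ i, x i ^ e' i := by
    rw [MvPolynomial.aeval_def, MvPolynomial.eval₂_eq']
  have h := lg_sum_unique (L := L) A.support
    (fun e' => algebraMap k K (A.coeff e') * ∏ i, x i ^ e' i) e he (hterm e he).1 (by
      intro e' he' hne _
      rw [(hterm e' he').2, (hterm e he).2]
      refine lt_of_le_of_ne (hmax e' he') fun heq => hne ?_
      exact hinj heq)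
  rw [← hsum, (hterm e he).2] at h
  exact ⟨h.1, e, he, hmax, h.2⟩

lemma algInd_of_expInj {σ : Type*} [Fintype σ] {x : σ → K} (hx : ∀ i, x i ≠ 0)
    (hinj : ExpInj fun i => L.lg (x i)) : AlgebraicIndependent k x := by
  rw [AlgebraicIndependent, injective_iff_map_eq_zero]
  intro A hA
  by_contra h
  exact (mono_lg hx hinj h).1 hA

/-- two families with the same sizes -/
lemma mono_lg_eq {K' : Type*} [Field K'] [Algebra k K'] {L' : LgData k K'} {σ : Type*} [Fintype σ]
    {x : σ → K} (hx : ∀ i, x i ≠ 0) {x' : σ → K'} (hx' : ∀ i, x' i ≠ 0)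
    (hinj : ExpInj fun i => L.lg (x i)) (heq : ∀ i, L'.lg (x' i) = L.lg (x i))
    {A : MvPolynomial σ k} (hA : A ≠ 0) :
    L'.lg (MvPolynomial.aeval x' A) = L.lg (MvPolynomial.aeval x A) := by
  have hinj' : ExpInj fun i => L'.lg (x' i) := by
    simp only [heq]
    exact hinj
  obtain ⟨-, e, he, hmax, hlg⟩ := mono_lg hx hinj hA
  obtain ⟨-, e', he', hmax', hlg'⟩ := mono_lg hx' hinj' hA
  rw [hlg, hlg']
  simp only [heq] at hmax' ⊢
  exact le_antisymm (hmax e' he') (hmax' e he)

end Pool.Agent.H17Dyn
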