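import Pool.Agent.H17Dyn.Elim

/-!
# Elimination bounds
-/

set_option autoImplicit false

namespace Pool.Agent.H17Dyn

open LgData Polynomial

section Sizes

variable {k K : Type*} [Field k] [Field K] [Algebra k K] {L : LgData k K}

lemma le_resultant (f g : K[X]) (n1 n2 : ℕ) {r : ℝ} (hf : ∀ j, L.le (f.coeff j) r)
    (hg : ∀ j, L.le (g.coeff j) r) : L.le (resultant f g n1 n2) (((n1 : ℝ) + n2) * r) := by
  rw [resultant]
  have h : ∀ i j, L.le (sylvester f g n1 n2 i j) r := by
    intro i j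
    induction j using Fin.addCases with
    | left j =>
      rw [sylvester, Matrix.of_apply, Fin.addCases_left]
      split_ifs
      · exact hg _
      · exact le_zero _
    | right j =>
      rw [sylvester, Matrix.of_apply, Fin.addCases_right]
      split_ifs
      · exact hf _
      · exact le_zero _
  refine (le_det _ h).mono (le_of_eq ?_)
  simp

lemma le_coeff_ePoly {g : MvPolynomial (Fin 2) k} {ξ : k} {κ u : K} {m : ℝ} (hm : 0 ≤ m)
    (hκ : L.le κ m) (hu : L.le u 0) (j : ℕ) : L.le ((ePoly g ξ κ u).coeff j) m := by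
  rw [ePoly, coeff_sub, coeff_C]
  refine le.sub ?_ ?_
  · split_ifs
    · exact hκ
    · exact le_zero _
  · have hb : Bd L 0 g.totalDegree (dirPoly ![0, u] ![1, ξ] g) := by
      refine bd_dirPoly le_rfl ?_ _ le_rfl
      intro i
      fin_cases i
      · exact le_zero _
      · exact hu
    rcases le_or_gt j g.totalDegree with h | h
    · refine (hb.2 j h).mono ?_
      rwa [mul_zero]
    · rw [coeff_eq_zero_of_natDegree_lt (lt_of_le_of_lt hb.1 h)]
      exact le_zero _

lemma bd_ePoly {g : MvPolynomial (Fin 2) k} {ξ : k} {κ u : K} {m T : ℝ} (hm : 0 ≤ m)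
    (hmT : m ≤ T) (hκ : L.le κ m) (hu : L.le u T) (hg : g.totalDegree ≠ 0) :
    Bd L T g.totalDegree (ePoly g ξ κ u) := by
  have hT : 0 ≤ T := hm.trans hmT
  rw [ePoly]
  refine Bd.sub ?_ ?_
  · refine ⟨by simp, fun j _ => ?_⟩
    rw [coeff_C]
    split_ifs with h
    · subst h
      refine hκ.mono (hmT.trans ?_)
      have : (1 : ℝ) ≤ g.totalDegree := by exact_mod_cast Nat.one_le_iff_ne_zero.2 hg
      simp only [Nat.cast_zero, sub_zero]
      nlinarith
    · exact le_zero _
  · refine bd_dirPoly hT ?_ _ le_rfl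
    intro i
    fin_cases i
    · exact le_zero _
    · exact hu

lemma Bd.eval_le {n : ℕ} {f : K[X]} {m : ℝ} (h : Bd L m n f) {y : K} (hy : L.le y m) :
    L.le (f.eval y) (n * m) := by
  rw [eval_eq_sum_range' (Nat.lt_succ_of_le h.1)]
  refine le_sum fun i hi => ?_
  have hi' : i ≤ n := Nat.lt_succ_iff.1 (Finset.mem_range.1 hi)
  refine ((h.2 i hi').mul (hy.pow i)).mono (le_of_eq ?_)
  ring

end Sizes

section Bounds

variable {k K : Type*} [Field k] [Infinite k] [Field K] [IsAlgClosed K] [Algebra k K]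
  {L : LgData k K}

omit [IsAlgClosed K] in
lemma exists_good_dir (g1 g2 : MvPolynomial (Fin 2) k)
    (Z : Finset (Fin 2 → K)) : ∃ ξ : k,
      (g1.totalDegree ≠ 0 → MvPolynomial.eval ![1, ξ] (topForm g1) ≠ 0) ∧
      (g2.totalDegree ≠ 0 → MvPolynomial.eval ![1, ξ] (topForm g2) ≠ 0) ∧
      (∀ z ∈ Z, max (L.fl 0 (z 0)) (L.fl 0 (z 1)) ≤ L.fl 0 (z 1 - algebraMap k K ξ * z 0)) ∧
      Set.InjOn (fun z : Fin 2 → K => z 1 - algebraMap k K ξ * z 0) (Z : Set (Fin 2 → K)) := by
  classical
  have hev : ∀ (F : MvPolynomial (Fin 2) k) (ξ : k),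
      (MvPolynomial.aeval ![(1 : k[X]), X] F).eval ξ = MvPolynomial.eval ![1, ξ] F := by
    intro F ξ
    have h1 : (Polynomial.evalRingHom ξ).comp
        (MvPolynomial.aeval (R := k) ![(1 : k[X]), X]).toRingHom = MvPolynomial.eval ![1, ξ] := by
      apply MvPolynomial.ringHom_ext
      · intro c
        simp
      · intro i
        fin_cases i <;> simp
    exact congrArg (fun f : MvPolynomial (Fin 2) k →+* k => f F) h1
  have hP : ∀ g : MvPolynomial (Fin 2) k, g.totalDegree ≠ 0 →
      MvPolynomial.aeval ![(1 : k[X]), X] (topForm g) ≠ 0 := fun g hg =>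
    dehomog_ne_zero (MvPolynomial.homogeneousComponent_isHomogeneous _ _)
      (topForm_ne_zero fun h => hg (by rw [h, MvPolynomial.totalDegree_zero]))
  set bad : Finset k := (MvPolynomial.aeval ![(1 : k[X]), X] (topForm g1)).roots.toFinset ∪
    (MvPolynomial.aeval ![(1 : k[X]), X] (topForm g2)).roots.toFinset with hbad
  obtain ⟨ξ, hξ, hbig⟩ := exists_const_avoid (L := L) ((insert 0 Z) ×ˢ (insert 0 Z))
    (fun zz : (Fin 2 → K) × (Fin 2 → K) => (zz.1 1 - zz.2 1) / (zz.1 0 - zz.2 0)) bad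
  rw [hbad, Finset.mem_union, not_or, Multiset.mem_toFinset, Multiset.mem_toFinset] at hξ
  -- the key estimate for a difference
  have key : ∀ z ∈ insert 0 Z, ∀ z' ∈ insert 0 Z, z 0 - z' 0 ≠ 0 →
      (z 1 - z' 1) - algebraMap k K ξ * (z 0 - z' 0) ≠ 0 ∧
      L.lg (z 0 - z' 0) ≤ L.lg ((z 1 - z' 1) - algebraMap k K ξ * (z 0 - z' 0)) ∧
      L.le (z 1 - z' 1) (L.lg ((z 1 - z' 1) - algebraMap k K ξ * (z 0 - z' 0))) := by
    intro z hz z' hz' h0
    have hb := hbig (z, z') (Finset.mem_product.2 ⟨hz, hz'⟩)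
    simp only at hb
    have e1 : (z 1 - z' 1) - algebraMap k K ξ * (z 0 - z' 0) =
        (z 0 - z' 0) * ((z 1 - z' 1) / (z 0 - z' 0) - algebraMap k K ξ) := by
      field_simp
    have e2 : z 1 - z' 1 = (z 0 - z' 0) * ((z 1 - z' 1) / (z 0 - z' 0)) := by
      field_simp
    rw [e1]
    refine ⟨mul_ne_zero h0 hb.1, ?_, ?_⟩
    · rw [L.lg_mul h0 hb.1]
      linarith [hb.2]
    · rw [L.lg_mul h0 hb.1]
      have h3 := le.mul (L := L) (x := z 0 - z' 0) (r := L.lg (z 0 - z' 0)) (fun _ => le_rfl)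
        (lg_sub_const hb)
      rwa [← e2] at h3
  refine ⟨ξ, fun h => ?_, fun h => ?_, ?_, ?_⟩
  · have := hξ.1
    rwa [Polynomial.mem_roots (hP g1 h), IsRoot.def, hev] at this
  · have := hξ.2
    rwa [Polynomial.mem_roots (hP g2 h), IsRoot.def, hev] at this
  · intro z hz
    rcases eq_or_ne (z 0) 0 with h0 | h0
    · rw [h0, fl_zero, mul_zero, sub_zero]
      exact max_le (le_fl _ _) le_rfl
    · have := key z (Finset.mem_insert_of_mem hz) 0 (Finset.mem_insert_self _ _)
        (by simpa using h0)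
      simp only [Pi.zero_apply, sub_zero] at this
      refine max_le (fl_le ?_ (le_fl _ _)) (fl_le ?_ (le_fl _ _))
      · intro _
        exact this.2.1.trans (le_of_fl _ _ this.1)
      · exact this.2.2.mono (le_of_fl _ _ this.1)
  · intro z hz z' hz' h
    simp only at h
    by_contra hne
    rcases eq_or_ne (z 0 - z' 0) 0 with h0 | h0
    · apply hne
      have h0' : z 0 = z' 0 := sub_eq_zero.1 h0
      rw [h0'] at h
      have h1' : z 1 = z' 1 := sub_left_injective h
      ext i
      fin_cases i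
      · exact h0'
      · exact h1'
    · refine (key z (Finset.mem_insert_of_mem (Finset.mem_coe.1 hz)) z'
        (Finset.mem_insert_of_mem (Finset.mem_coe.1 hz')) h0).1 ?_
      linear_combination h

/-- **Size of the common zeros of two plane curves.** -/
theorem elim_bound (g1 g2 : MvPolynomial (Fin 2) k) (p1 p2 : k[X])
    {m : ℝ} (hm : 0 ≤ m) (hκ1 : L.le (aeval L.s p1) m) (hκ2 : L.le (aeval L.s p2) m)
    (Z : Finset (Fin 2 → K)) (hZ : ∀ z, z ∈ Z ↔ MvPolynomial.aeval z g1 = aeval L.s p1 ∧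
      MvPolynomial.aeval z g2 = aeval L.s p2) :
    ∑ z ∈ Z, max (L.fl 0 (z 0)) (L.fl 0 (z 1)) ≤ ((g1.totalDegree : ℝ) + g2.totalDegree) * m ∧
      Z.card ≤ g1.totalDegree * g2.totalDegree := by
  classical
  obtain ⟨ξ, hξ1, hξ2, hfl, hinj⟩ := exists_good_dir (L := L) g1 g2 Z
  set E := elimK L g1 g2 p1 p2 ξ with hE
  have hE0 : E ≠ 0 := elimK_ne_zero hZ hξ1 hξ2
  have hroots : ∀ u, u ∈ E.roots.toFinset ↔ ∃ z ∈ Z, z 1 - algebraMap k K ξ * z 0 = u := by
    intro u
    rw [Multiset.mem_toFinset, mem_roots hE0, IsRoot.def, hE, eval_elimK_eq_zero_iff hZ hξ1 hξ2]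
  have himg : Z.image (fun z => z 1 - algebraMap k K ξ * z 0) = E.roots.toFinset := by
    ext u
    rw [hroots, Finset.mem_image]
  have hsplit : E.Splits := IsAlgClosed.splits E
  constructor
  · -- evaluate at a generic constant
    obtain ⟨u, -, hu⟩ := exists_const_avoid (L := L) E.roots.toFinset (fun r : K => r) ∅
    have hu' : ∀ r ∈ E.roots, L.big (r - algebraMap k K u) := fun r hr =>
      hu r (Multiset.mem_toFinset.2 hr)
    have hsize := lg_eval_split (L := L) hsplit hE0 (u := algebraMap k K u) (fun r hr => by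
      have := (hu' r hr).1
      intro h
      apply this
      rw [← neg_sub, h, neg_zero])
    have hup : L.le (E.eval (algebraMap k K u)) (((g1.totalDegree : ℝ) + g2.totalDegree) * m) := by
      rw [hE, eval_elimK]
      exact le_resultant _ _ _ _ (le_coeff_ePoly hm hκ1 (le_const _))
        (le_coeff_ePoly hm hκ2 (le_const _))
    have h3 := hup hsize.1
    rw [hsize.2] at h3
    have h4 : (E.roots.map fun r => L.fl 0 r).sum ≤
        (E.roots.map fun r => L.lg (algebraMap k K u - r)).sum := by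
      refine Multiset.sum_map_le_sum_map _ _ fun r hr => ?_
      rw [L.lg_sub_comm]
      exact fl_le (lg_sub_const (hu' r hr)) (hu' r hr).2
    have h5 : ∑ r ∈ E.roots.toFinset, L.fl 0 r ≤ (E.roots.map fun r => L.fl 0 r).sum := by
      rw [Finset.sum_multiset_map_count]
      refine Finset.sum_le_sum fun r hr => ?_
      have hc : 1 ≤ E.roots.count r := Multiset.one_le_count_iff_mem.2 (Multiset.mem_toFinset.1 hr)
      have hfl0 : 0 ≤ L.fl 0 r := le_fl _ _
      rw [nsmul_eq_mul]
      have hc' : (1 : ℝ) ≤ E.roots.count r := by exact_mod_cast hc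
      nlinarith
    have h6 : ∑ z ∈ Z, max (L.fl 0 (z 0)) (L.fl 0 (z 1)) ≤ ∑ r ∈ E.roots.toFinset, L.fl 0 r := by
      rw [← himg, Finset.sum_image hinj]
      exact Finset.sum_le_sum hfl
    have h7 := lg_lc_elimK L g1 g2 p1 p2 ξ hE0
    linarith
  · have hcard : Z.card ≤ E.natDegree := by
      rw [← Finset.card_image_of_injOn hinj, himg]
      exact (Multiset.toFinset_card_le _).trans (card_roots' E)
    refine hcard.trans ?_
    -- evaluate at a large power of `s`
    obtain ⟨n, hn⟩ : ∃ n : ℕ, (∀ r ∈ E.roots, L.le r n) ∧ m ≤ n ∧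
        ((g1.totalDegree : ℝ) + g2.totalDegree) * m < n := by
      obtain ⟨C, hC⟩ : ∃ C : ℝ, ∀ r ∈ E.roots.toFinset, L.lg r ≤ C := by
        obtain ⟨C, hC⟩ := (E.roots.toFinset.image L.lg).finite_toSet.bddAbove
        exact ⟨C, fun r hr => hC (Finset.mem_coe.2 (Finset.mem_image_of_mem _ hr))⟩
      obtain ⟨n, hn⟩ := exists_nat_gt (max (max C m) (((g1.totalDegree : ℝ) + g2.totalDegree) * m))
      refine ⟨n, fun r hr _ => ?_, ?_, ?_⟩
      · exact (hC r (Multiset.mem_toFinset.2 hr)).trans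
          (((le_max_left _ _).trans (le_max_left _ _)).trans hn.le)
      · exact ((le_max_right _ _).trans (le_max_left _ _)).trans hn.le
      · exact lt_of_le_of_lt (le_max_right _ _) hn
    obtain ⟨hn1, hn2, hn3⟩ := hn
    have hs : L.lg (L.s ^ (n + 1)) = n + 1 := by
      rw [lg_pow L.s_ne, L.lg_s]
      push_cast
      ring
    have hs0 : L.s ^ (n + 1) ≠ 0 := pow_ne_zero _ L.s_ne
    set u : K := L.s ^ (n + 1) with hu
    have hur : ∀ r ∈ E.roots, u - r ≠ 0 ∧ L.lg (u - r) = n + 1 := by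
      intro r hr
      rw [sub_eq_add_neg, ← hs]
      exact lg_add_eq' hs0 (hn1 r hr).neg (by rw [hs]; linarith)
    have hsize := lg_eval_split (L := L) hsplit hE0 (u := u) (fun r hr => (hur r hr).1)
    have h8 : (E.roots.map fun r => L.lg (u - r)).sum = E.natDegree * ((n : ℝ) + 1) := by
      have h9 : (E.roots.map fun r => L.lg (u - r)) = E.roots.map fun _ => (n : ℝ) + 1 :=
        Multiset.map_congr rfl fun r hr => (hur r hr).2
      rw [h9, Multiset.map_const', Multiset.sum_replicate, nsmul_eq_mul,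
        ← hsplit.natDegree_eq_card_roots]
    have h7 := lg_lc_elimK L g1 g2 p1 p2 ξ hE0
    have hlow : (E.natDegree : ℝ) * (n + 1) ≤ L.lg (E.eval u) := by
      rw [hsize.2, h8]
      linarith
    -- degenerate cases
    have hdeg0 : L.le (E.eval u) (((g1.totalDegree : ℝ) + g2.totalDegree) * m) →
        E.natDegree = 0 := by
      intro h
      have h10 := hlow.trans (h hsize.1)
      by_contra h11
      have h12 : (1 : ℝ) ≤ E.natDegree := by exact_mod_cast Nat.one_le_iff_ne_zero.2 h11
      nlinarith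
    have hle0 : ∀ (g : MvPolynomial (Fin 2) k) (κ : K), L.le κ m → g.totalDegree = 0 →
        L.le ((ePoly g ξ κ u).coeff 0) m := by
      intro g κ hκ hg
      rw [ePoly, coeff_sub, coeff_C_zero]
      refine hκ.sub ?_
      have h13 := coeff_dirPoly_top (B := K) ![0, u] ![1, ξ] g (n := 0) (by omega)
      rw [h13]
      exact (le_const _).mono hm
    rcases eq_or_ne g1.totalDegree 0 with hg1 | hg1
    · rw [hdeg0]
      · exact Nat.zero_le _
      · rw [hE, eval_elimK, hg1, resultant_zero_left_deg]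
        refine ((hle0 g1 _ hκ1 hg1).pow _).mono (le_of_eq ?_)
        push_cast
        ring
    rcases eq_or_ne g2.totalDegree 0 with hg2 | hg2
    · rw [hdeg0]
      · exact Nat.zero_le _
      · rw [hE, eval_elimK, hg2, resultant_zero_right_deg]
        refine ((hle0 g2 _ hκ2 hg2).pow _).mono (le_of_eq ?_)
        push_cast
        ring
    -- the main case
    have hn1' : m ≤ (n : ℝ) + 1 := by linarith
    have hB1 : Bd L ((n : ℝ) + 1) g1.totalDegree (ePoly g1 ξ (aeval L.s p1) u) :=
      bd_ePoly hm hn1' hκ1 (fun _ => hs.le) hg1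
    have hB2 : Bd L ((n : ℝ) + 1) g2.totalDegree (ePoly g2 ξ (aeval L.s p2) u) :=
      bd_ePoly hm hn1' hκ2 (fun _ => hs.le) hg2
    have hnd := natDegree_ePoly g1 ξ (aeval L.s p1) u hξ1
    have hlc0 : (ePoly g1 ξ (aeval L.s p1) u).coeff g1.totalDegree ≠ 0 := by
      rw [coeff_ePoly_top _ _ _ _ hg1, neg_ne_zero]
      exact (map_ne_zero_iff _ (algebraMap k K).injective).2 (hξ1 hg1)
    have hlc1 : L.lg ((ePoly g1 ξ (aeval L.s p1) u).coeff g1.totalDegree) = 0 := by
      rw [coeff_ePoly_top _ _ _ _ hg1, L.lg_neg, L.lg_const (hξ1 hg1)]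
    have hres : L.le (E.eval u) ((g1.totalDegree : ℝ) * (g2.totalDegree * ((n : ℝ) + 1))) := by
      rw [hE, eval_elimK]
      have h14 := resultant_eq_prod_eval (ePoly g1 ξ (aeval L.s p1) u)
        (ePoly g2 ξ (aeval L.s p2) u) g2.totalDegree (natDegree_ePoly_le _ _ _ _)
        (IsAlgClosed.splits _)
      rw [hnd] at h14
      rw [h14]
      have h15 : L.le ((ePoly g1 ξ (aeval L.s p1) u).leadingCoeff ^ g2.totalDegree) 0 := by
        have := le.pow (L := L) (x := (ePoly g1 ξ (aeval L.s p1) u).leadingCoeff) (r := 0) (by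
          intro _
          rw [leadingCoeff, hnd, hlc1]) g2.totalDegree
        simpa using this
      have h16 := le_multiset_prod (L := L)
        ((ePoly g1 ξ (aeval L.s p1) u).roots.map (ePoly g2 ξ (aeval L.s p2) u).eval)
        (r := g2.totalDegree * ((n : ℝ) + 1)) (by
          intro x hx
          obtain ⟨t, ht, rfl⟩ := Multiset.mem_map.1 hx
          refine hB2.eval_le ?_
          exact hB1.root_le hlc0 hlc1 (isRoot_of_mem_roots ht))
      refine (h15.mul h16).mono (le_of_eq ?_)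
      rw [Multiset.card_map, ← (IsAlgClosed.splits _).natDegree_eq_card_roots, hnd, zero_add]
    have h17 := hlow.trans (hres hsize.1)
    have h18 : (E.natDegree : ℝ) ≤ g1.totalDegree * g2.totalDegree := by
      have hpos : (0 : ℝ) < n + 1 := by positivity
      rw [← mul_assoc] at h17
      exact le_of_mul_le_mul_right h17 hpos
    exact_mod_cast h18

end Bounds

end Pool.Agent.H17Dyn
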