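import Pool.Agent.H17Dyn.Plane

/-!
# The fibre estimate in general dimension
-/

set_option autoImplicit false
set_option linter.unusedSectionVars false

attribute [-instance] HahnSeries.powerSeriesAlgebra

namespace Pool.Agent.H17Dyn

open LgData Polynomial

variable {d : ℕ} {k : Type*} [Field k]

lemma le_linForm {K : Type*} [Field K] [Algebra k K] {L : LgData k K} (u : Fin d → k)
    {z : Fin d → K} {r : ℝ} (hz : ∀ i, L.le (z i) r) : L.le (linForm u z) r :=
  le_sum fun i _ => ((le_const (u i)).mul (hz i)).mono (le_of_eq (zero_add r))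

/-- the eliminant of a level polynomial and its derivative -/
noncomputable def discPoly {T : Type*} [CommRing T] [Algebra k T] (x : Fin d → T) (q : Fin d → k)
    (B : MvPolynomial (Fin d) k) (c : T) : T :=
  resultant (dirPoly x q B - C c) (derivative (dirPoly x q B - C c)) B.totalDegree B.totalDegree

lemma map_discPoly {T T' : Type*} [CommRing T] [Algebra k T] [CommRing T'] [Algebra k T']
    (f : T →ₐ[k] T') (x : Fin d → T) (q : Fin d → k) (B : MvPolynomial (Fin d) k) (c : T) :
    f (discPoly x q B c) = discPoly (fun i => f (x i)) q B (f c) := by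
  have h := resultant_map_map (dirPoly x q B - C c) (derivative (dirPoly x q B - C c))
    B.totalDegree B.totalDegree (f : T →+* T')
  rw [← Polynomial.derivative_map, Polynomial.map_sub, map_dirPoly, Polynomial.map_C] at h
  exact h.symm

lemma discPoly_ne_zero_iff {T : Type*} [Field T] [IsAlgClosed T] [Algebra k T] (x : Fin d → T)
    {q : Fin d → k} {B : MvPolynomial (Fin d) k} (hB : B.totalDegree ≠ 0)
    (hq : MvPolynomial.eval q (topForm B) ≠ 0) (c : T) :
    discPoly x q B c ≠ 0 ↔ (dirPoly x q B - C c).Separable := by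
  obtain ⟨h1, h2, h3⟩ := natDegree_dirPoly_sub x hB hq c
  have h4 := resultant_eq_prod_eval (dirPoly x q B - C c) (derivative (dirPoly x q B - C c))
    B.totalDegree ((natDegree_derivative_le _).trans (by rw [h1]; exact Nat.sub_le _ _))
    (IsAlgClosed.splits _)
  rw [h1, h3] at h4
  rw [discPoly, h4]
  have hne : algebraMap k T (MvPolynomial.eval q (topForm B)) ≠ 0 :=
    (map_ne_zero_iff _ (algebraMap k T).injective).2 hq
  rw [mul_ne_zero_iff, and_iff_right (pow_ne_zero _ hne), Ne, Multiset.prod_eq_zero_iff,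
    Multiset.mem_map, separable_def, isCoprime_iff_aeval_ne_zero_of_isAlgClosed T T]
  constructor
  · intro h t
    by_contra hcon
    push Not at hcon
    rw [coe_aeval_eq_eval] at hcon
    exact h ⟨t, (mem_roots h2).2 hcon.1, hcon.2⟩
  · rintro h ⟨t, ht, ht0⟩
    rw [mem_roots h2, IsRoot.def] at ht
    rcases h t with h5 | h5
    · rw [coe_aeval_eq_eval] at h5
      exact h5 ht
    · rw [coe_aeval_eq_eval] at h5
      exact h5 ht0

lemma separable_of_enum {T : Type*} [Field T] [IsAlgClosed T] {f : T[X]} {b : ℕ} (hf0 : f ≠ 0)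
    (hnd : f.natDegree = b) {β : Fin b → T} (hinj : Function.Injective β)
    (hβ : ∀ y, f.eval y = 0 ↔ ∃ j, β j = y) : f.Separable := by
  have h1 := roots_eq_of_enum hf0 hnd hinj hβ
  have h2 : f.roots.Nodup := by
    rw [h1]
    exact Multiset.Nodup.map hinj Finset.univ.nodup
  exact (nodup_roots_iff_of_splits hf0 (IsAlgClosed.splits f)).1 h2

variable [IsAlgClosed k] [CharZero k]

theorem fibCond_gen {χ : ℝ →+ k} (hχ : Function.Injective χ) (hd : 2 ≤ d)
    (F G : MvPolynomial (Fin d) k ≃ₐ[k] MvPolynomial (Fin d) k) {D : ℝ} (hD : Deg2W G D)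
    (i0 : Fin d) : FibCond (hahnLg k one_pos) F G i0 1 (adeg F * D) := by
  classical
  intro q q' c b β _ hq' hb hinj hβ
  set L := hahnLg k one_pos with hL
  set B := G (MvPolynomial.X i0) with hBdef
  have hB0 : B.totalDegree ≠ 0 := Nat.one_le_iff_ne_zero.1 (one_le_totalDegree_X G i0)
  set x0 : Fin d → HahnSeries ℝ k := pt F (fun i => algebraMap k _ (q i) * L.s) with hx0
  set z : Fin b → Fin d → HahnSeries ℝ k := fun j =>
    pt G (fun i => x0 i + algebraMap k _ (q' i) * β j) with hz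
  obtain ⟨u, hu1, -, -⟩ := exists_form (L := L) z
  set h : Fin b → HahnSeries ℝ k := fun j => linForm u (z j) with hh
  obtain ⟨c1, -, hc1⟩ := exists_const_avoid (L := L) (Finset.univ : Finset (Fin b)) h ∅
  have hc1' : ∀ j, L.big (h j - algebraMap k _ c1) := fun j => hc1 j (Finset.mem_univ j)
  set M := G (linPoly u) with hM
  refine ⟨fun j => L.fl 0 (h j), fun j => le_fl _ _, fun j i => hu1 j i, ?_⟩
  -- the eliminants
  set ρ : MvPolynomial (Fin d) k := resPoly MvPolynomial.X q' B M (MvPolynomial.C c)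
    (MvPolynomial.C c1) with hρ
  set δ : MvPolynomial (Fin d) k := discPoly MvPolynomial.X q' B (MvPolynomial.C c) with hδ
  have hρT : ∀ x : Fin d → HahnSeries ℝ k, MvPolynomial.aeval x ρ =
      resPoly x q' B M (algebraMap k _ c) (algebraMap k _ c1) := by
    intro x
    rw [hρ, map_resPoly]
    congr 1
    · funext i
      rw [MvPolynomial.aeval_X]
    · rw [MvPolynomial.algHom_C]
    · rw [MvPolynomial.algHom_C]
  have hδT : ∀ x : Fin d → HahnSeries ℝ k, MvPolynomial.aeval x δ =
      discPoly x q' B (algebraMap k _ c) := by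
    intro x
    rw [hδ, map_discPoly]
    congr 1
    · funext i
      rw [MvPolynomial.aeval_X]
    · rw [MvPolynomial.algHom_C]
  set a0 : k := MvPolynomial.eval q' (topForm B) ^ M.totalDegree with ha0
  have ha00 : a0 ≠ 0 := pow_ne_zero _ hq'
  have ha0' : algebraMap k (HahnSeries ℝ k) a0 ≠ 0 :=
    (map_ne_zero_iff _ (algebraMap k (HahnSeries ℝ k)).injective).2 ha00
  have hval : MvPolynomial.aeval x0 ρ =
      algebraMap k _ a0 * ∏ j, (h j - algebraMap k _ c1) := by
    rw [hρT, resPoly_eq_enum x0 hB0 hq' M _ _ hb hinj hβ]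
    congr 1
    refine Finset.prod_congr rfl fun j _ => ?_
    rw [hM, aeval_pt_linPoly]
  have hprod : ∏ j, (h j - algebraMap k _ c1) ≠ 0 :=
    Finset.prod_ne_zero_iff.2 fun j _ => (hc1' j).1
  have hval0 : MvPolynomial.aeval x0 ρ ≠ 0 := by
    rw [hval]
    exact mul_ne_zero ha0' hprod
  have hρ0 : ρ ≠ 0 := by
    intro h0
    apply hval0
    rw [h0, map_zero]
  have hdat := natDegree_dirPoly_sub x0 hB0 hq' (algebraMap k _ c)
  have hδ0 : δ ≠ 0 := by
    intro h0
    have h1 : discPoly x0 q' B (algebraMap k _ c) ≠ 0 := by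
      rw [discPoly_ne_zero_iff x0 hB0 hq']
      exact separable_of_enum hdat.2.1 (hdat.1.trans hb.symm) hinj fun y => by
        rw [eval_sub, eval_C, sub_eq_zero]
        exact hβ y
    rw [← hδT, h0, map_zero] at h1
    exact h1 rfl
  -- the size of `x₀`
  have hx0m : ∀ i, L.le (x0 i) (adeg F : ℝ) := by
    intro i
    have hxs1 : ∀ i, L.le (algebraMap k (HahnSeries ℝ k) (q i) * L.s) 1 := fun i =>
      ((le_const (q i)).mul (fun _ => L.lg_s.le)).mono (le_of_eq (zero_add _))
    refine (le_aeval zero_le_one hxs1 (F (MvPolynomial.X i))).mono ?_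
    rw [mul_one]
    exact_mod_cast totalDegree_X_le F i
  have hle1 : ∑ j, L.fl 0 (h j) ≤ ρ.totalDegree * (adeg F : ℝ) := by
    have h1 : ∑ j, L.fl 0 (h j) ≤ ∑ j, L.lg (h j - algebraMap k _ c1) :=
      Finset.sum_le_sum fun j _ => fl_le (lg_sub_const (hc1' j)) (hc1' j).2
    have h2 : L.lg (MvPolynomial.aeval x0 ρ) = ∑ j, L.lg (h j - algebraMap k _ c1) := by
      rw [hval, L.lg_mul ha0' hprod, L.lg_const ha00, zero_add,
        lg_prod fun j _ => (hc1' j).1]
    rw [← h2] at h1
    exact h1.trans (le_aeval (Nat.cast_nonneg _) hx0m ρ hval0)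
  -- the two indices
  have hq'0 : ∃ i1, q' i1 ≠ 0 := by
    by_contra hcon
    push Not at hcon
    apply hq'
    have h1 : q' = 0 := funext hcon
    rw [h1, topForm, MvPolynomial.eval_zero, MvPolynomial.constantCoeff_eq,
      MvPolynomial.coeff_homogeneousComponent, if_neg]
    simpa using Ne.symm hB0
  obtain ⟨i1, hi1⟩ := hq'0
  obtain ⟨i2, hi2⟩ : ∃ i2 : Fin d, i2 ≠ i1 := by
    have : Nontrivial (Fin d) := Fin.nontrivial_iff_two_le.2 hd
    exact exists_ne i1
  set ind : MvPolynomial (Fin d) k := MvPolynomial.C (q' i2) * MvPolynomial.X i1 -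
    MvPolynomial.C (q' i1) * MvPolynomial.X i2 with hind
  have hind0 : ind ≠ 0 := by
    intro h0
    have h1 := congrArg (MvPolynomial.eval (Pi.single i2 (1 : k))) h0
    rw [hind, map_sub, map_mul, map_mul, MvPolynomial.eval_C, MvPolynomial.eval_C,
      MvPolynomial.eval_X, MvPolynomial.eval_X, Pi.single_eq_same,
      Pi.single_eq_of_ne (Ne.symm hi2), mul_zero, mul_one, zero_sub, map_zero, neg_eq_zero] at h1
    exact hi1 h1
  obtain ⟨q2, hq2⟩ := exists_eval_ne_zero (mul_ne_zero (mul_ne_zero (topForm_ne_zero hρ0)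
    (topForm_ne_zero hδ0)) hind0)
  rw [map_mul, map_mul] at hq2
  have hq2ρ := left_ne_zero_of_mul (left_ne_zero_of_mul hq2)
  have hq2δ := right_ne_zero_of_mul (left_ne_zero_of_mul hq2)
  have hq2i := right_ne_zero_of_mul hq2
  have hq2i' : q2 i1 * q' i2 - q2 i2 * q' i1 ≠ 0 := by
    rw [hind, map_sub, map_mul, map_mul, MvPolynomial.eval_C, MvPolynomial.eval_C,
      MvPolynomial.eval_X, MvPolynomial.eval_X] at hq2i
    rwa [mul_comm (q2 i1), mul_comm (q2 i2)]
  -- the generic plane
  set x2 : Fin d → HahnSeries ℝ k := fun i => algebraMap k _ (q2 i) * L.s with hx2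
  have hlarge : ∀ {A : MvPolynomial (Fin d) k}, MvPolynomial.eval q2 (topForm A) ≠ 0 →
      MvPolynomial.aeval x2 A ≠ 0 ∧ L.lg (MvPolynomial.aeval x2 A) = A.totalDegree := by
    intro A hA
    have h2 := aeval_large (L := L) (δ := fun _ => (0 : HahnSeries ℝ k)) (fun _ => le_zero _) hA
    simp only [zero_add] at h2
    exact h2
  have hδ2 := (hlarge hq2δ).1
  rw [hδT, discPoly_ne_zero_iff x2 hB0 hq'] at hδ2
  obtain ⟨hn1, hn2, hn3⟩ := natDegree_dirPoly_sub x2 hB0 hq' (algebraMap k _ c)
  obtain ⟨γ, hγ1, -, hγ3⟩ := split_data (L := L) (hn1.trans hb.symm) hn2 (by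
    rw [hn3]
    exact L.lg_const hq')
  have hγinj := hγ3 hδ2
  have hγ : ∀ y, (dirPoly x2 q' B).eval y = algebraMap k _ c ↔ ∃ j, γ j = y := by
    intro y
    rw [← hγ1 y, eval_sub, eval_C, sub_eq_zero]
  obtain ⟨H, hH0, hH1, hH2⟩ := plane_bound hχ G hD q2 q' i1 i2 hq2i' i0 hq' c hb γ hγinj hγ
  have hval2 : MvPolynomial.aeval x2 ρ = algebraMap k _ a0 *
      ∏ j, (linForm u (pt G (fun i => x2 i + algebraMap k _ (q' i) * γ j)) -
        algebraMap k _ c1) := by
    rw [hρT, resPoly_eq_enum x2 hB0 hq' M _ _ hb hγinj hγ]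
    congr 1
    refine Finset.prod_congr rfl fun j _ => ?_
    rw [hM, aeval_pt_linPoly]
  have hle2 : (ρ.totalDegree : ℝ) ≤ ∑ j, H j := by
    have h1 := hlarge hq2ρ
    rw [← h1.2, hval2]
    refine ((le_const a0).mul (le_prod (r := H) fun j _ => ?_)).mono (le_of_eq (zero_add _)) ?_
    · exact (le_linForm u (hH1 j)).sub ((le_const c1).mono (hH0 j))
    · rw [← hval2]
      exact h1.1
  calc ∑ j, L.fl 0 (h j) ≤ ρ.totalDegree * (adeg F : ℝ) := hle1
    _ ≤ D * adeg F := mul_le_mul_of_nonneg_right (hle2.trans hH2) (Nat.cast_nonneg _)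
    _ = adeg F * D := mul_comm _ _

end Pool.Agent.H17Dyn
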