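import Pool.Agent.H17Dyn.Aut

/-!
# The points of a line on a level surface of a coordinate of an automorphism
-/

set_option autoImplicit false

namespace Pool.Agent.H17Dyn

open LgData

variable {k K : Type*} [Field k] [Infinite k] [Field K] [IsAlgClosed K] [Algebra k K]
  {L : LgData k K}

/-- the linear form `q₀ Xₐ - qₐ X₀`, pulled back by the inverse of `φ` -/
noncomputable def linPull (φ : MvPolynomial (Fin 3) k ≃ₐ[k] MvPolynomial (Fin 3) k)
    (q : Fin 3 → k) (a : Fin 3) : MvPolynomial (Fin 3) k :=
  MvPolynomial.C (q 0) * φ.symm (MvPolynomial.X a) -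
    MvPolynomial.C (q a) * φ.symm (MvPolynomial.X 0)

omit [Infinite k] in
lemma totalDegree_linPull_le (φ : MvPolynomial (Fin 3) k ≃ₐ[k] MvPolynomial (Fin 3) k)
    (q : Fin 3 → k) (a : Fin 3) : (linPull φ q a).totalDegree ≤ adeg φ.symm := by
  refine (MvPolynomial.totalDegree_sub _ _).trans (max_le ?_ ?_)
  · refine (MvPolynomial.totalDegree_mul _ _).trans ?_
    rw [MvPolynomial.totalDegree_C, zero_add]
    exact totalDegree_X_le _ _
  · refine (MvPolynomial.totalDegree_mul _ _).trans ?_
    rw [MvPolynomial.totalDegree_C, zero_add]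
    exact totalDegree_X_le _ _

/-- restriction to the plane `x_{i₀} = c` -/
noncomputable def restr (i0 : Fin 3) (c : k) (h : MvPolynomial (Fin 3) k) :
    MvPolynomial (Fin 2) k :=
  MvPolynomial.aeval (i0.insertNth (α := fun _ => MvPolynomial (Fin 2) k) (MvPolynomial.C c)
    (fun j => MvPolynomial.X j)) h

omit [Infinite k] in
lemma totalDegree_restr_le (i0 : Fin 3) (c : k) (h : MvPolynomial (Fin 3) k) :
    (restr i0 c h).totalDegree ≤ h.totalDegree := by
  have := totalDegree_aeval_le (i0.insertNth (α := fun _ => MvPolynomial (Fin 2) k)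
    (MvPolynomial.C c) (fun j => MvPolynomial.X j)) 1 (by
      intro i
      rcases eq_or_ne i i0 with rfl | hi
      · rw [Fin.insertNth_apply_same, MvPolynomial.totalDegree_C]
        exact Nat.zero_le _
      · obtain ⟨j, rfl⟩ := Fin.exists_succAbove_eq hi
        rw [Fin.insertNth_apply_succAbove, MvPolynomial.totalDegree_X]) h
  rwa [mul_one] at this

omit [Infinite k] [IsAlgClosed K] in
lemma aeval_restr (i0 : Fin 3) (c : k) (h : MvPolynomial (Fin 3) k) (z : Fin 2 → K) :
    MvPolynomial.aeval z (restr i0 c h) =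
      MvPolynomial.aeval (i0.insertNth (α := fun _ => K) (algebraMap k K c) z) h := by
  have h1 : (MvPolynomial.aeval (R := k) z).comp (MvPolynomial.aeval (R := k)
      (i0.insertNth (α := fun _ => MvPolynomial (Fin 2) k) (MvPolynomial.C c)
        (fun j => MvPolynomial.X j))) =
      MvPolynomial.aeval (R := k) (i0.insertNth (α := fun _ => K) (algebraMap k K c) z) := by
    apply MvPolynomial.algHom_ext
    intro i
    rcases eq_or_ne i i0 with rfl | hi
    · simp
    · obtain ⟨j, rfl⟩ := Fin.exists_succAbove_eq hi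
      simp
  exact congrArg (fun f : MvPolynomial (Fin 3) k →ₐ[k] K => f h) h1

theorem fiber_bound (φ : MvPolynomial (Fin 3) k ≃ₐ[k] MvPolynomial (Fin 3) k)
    (p : Fin 3 → Polynomial k) {m : ℝ} (hm : 0 ≤ m)
    (hp : ∀ i, L.le (Polynomial.aeval L.s (p i)) m) (q : Fin 3 → k) (hq : q 0 ≠ 0) (i0 : Fin 3)
    (c : k) {b : ℕ} (β : Fin b → K) (hinj : Function.Injective β)
    (hβ : ∀ y, (dirPoly (fun i => Polynomial.aeval L.s (p i)) q (φ (MvPolynomial.X i0))).eval y =
      algebraMap k K c ↔ ∃ j, β j = y) :
    (∃ H : Fin b → ℝ, (∀ j, 0 ≤ H j) ∧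
      (∀ j i, L.le (pt φ (fun i => Polynomial.aeval L.s (p i) + algebraMap k K (q i) * β j) i)
        (H j)) ∧ ∑ j, H j ≤ 2 * adeg φ.symm * m) ∧ b ≤ adeg φ.symm ^ 2 := by
  classical
  set x0 : Fin 3 → K := fun i => Polynomial.aeval L.s (p i) with hx0
  set e := adeg φ.symm with he
  have hq' : algebraMap k K (q 0) ≠ 0 := by simpa using hq
  -- the points
  set z : Fin b → Fin 3 → K := fun j => pt φ (fun i => x0 i + algebraMap k K (q i) * β j) with hz
  have hz0 : ∀ j, z j i0 = algebraMap k K c := by
    intro j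
    have := (hβ (β j)).2 ⟨j, rfl⟩
    rw [eval_dirPoly] at this
    exact this
  have hins : ∀ j, i0.insertNth (α := fun _ => K) (algebraMap k K c)
      (fun a => z j (i0.succAbove a)) = z j := by
    intro j
    funext i
    rcases eq_or_ne i i0 with rfl | hi
    · rw [Fin.insertNth_apply_same, hz0]
    · obtain ⟨a, rfl⟩ := Fin.exists_succAbove_eq hi
      rw [Fin.insertNth_apply_succAbove]
  -- the equations
  have hlin : ∀ (x : Fin 3 → K) (a : Fin 3), MvPolynomial.aeval (pt φ x) (linPull φ q a) =
      algebraMap k K (q 0) * x a - algebraMap k K (q a) * x 0 := by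
    intro x a
    rw [linPull, map_sub, map_mul, map_mul, MvPolynomial.algHom_C, MvPolynomial.algHom_C,
      aeval_pt, aeval_pt, AlgEquiv.apply_symm_apply,
      AlgEquiv.apply_symm_apply, MvPolynomial.aeval_X, MvPolynomial.aeval_X]
  set pa : Fin 3 → Polynomial k := fun a =>
    Polynomial.C (q 0) * p a - Polynomial.C (q a) * p 0 with hpa
  have hκ : ∀ a, Polynomial.aeval L.s (pa a) =
      algebraMap k K (q 0) * x0 a - algebraMap k K (q a) * x0 0 := by
    intro a
    simp [hpa, hx0]
  have hκle : ∀ a, L.le (Polynomial.aeval L.s (pa a)) m := by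
    intro a
    rw [hκ]
    refine le.sub ?_ ?_
    · refine ((le_const (q 0)).mul (hp a)).mono (le_of_eq (zero_add _))
    · refine ((le_const (q a)).mul (hp 0)).mono (le_of_eq (zero_add _))
  set g : Fin 3 → MvPolynomial (Fin 2) k := fun a => restr i0 c (linPull φ q a) with hg
  have hgdeg : ∀ a, (g a).totalDegree ≤ e := fun a =>
    (totalDegree_restr_le _ _ _).trans (totalDegree_linPull_le _ _ _)
  set Z : Finset (Fin 2 → K) :=
    Finset.univ.image (fun (j : Fin b) (a : Fin 2) => z j (i0.succAbove a)) with hZdef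
  have hZ : ∀ w, w ∈ Z ↔ MvPolynomial.aeval w (g 1) = Polynomial.aeval L.s (pa 1) ∧
      MvPolynomial.aeval w (g 2) = Polynomial.aeval L.s (pa 2) := by
    intro w
    rw [hZdef, Finset.mem_image]
    constructor
    · rintro ⟨j, -, rfl⟩
      have key : ∀ a, MvPolynomial.aeval (fun a => z j (i0.succAbove a)) (g a) =
          Polynomial.aeval L.s (pa a) := by
        intro a
        rw [hg, aeval_restr, hins, hz, hlin, hκ]
        ring
      exact ⟨key 1, key 2⟩
    · rintro ⟨h1, h2⟩
      rw [hg, aeval_restr, hκ] at h1 h2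
      set z' := i0.insertNth (α := fun _ => K) (algebraMap k K c) w with hz'
      set x' := pt φ.symm z' with hx'
      have hpx : pt φ x' = z' := pt_pt_symm φ z'
      rw [← hpx, hlin] at h1 h2
      set y := (x' 0 - x0 0) / algebraMap k K (q 0) with hy
      have hy0 : x' 0 = x0 0 + algebraMap k K (q 0) * y := by
        rw [hy]
        field_simp
        ring
      have hy1 : ∀ a, algebraMap k K (q 0) * x' a - algebraMap k K (q a) * x' 0 =
          algebraMap k K (q 0) * x0 a - algebraMap k K (q a) * x0 0 →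
          x' a = x0 a + algebraMap k K (q a) * y := by
        intro a ha
        apply mul_left_cancel₀ hq'
        rw [hy0] at ha
        linear_combination ha
      have hxy : x' = fun i => x0 i + algebraMap k K (q i) * y := by
        funext i
        fin_cases i
        · exact hy0
        · exact hy1 1 h1
        · exact hy1 2 h2
      have hB : (dirPoly x0 q (φ (MvPolynomial.X i0))).eval y = algebraMap k K c := by
        rw [eval_dirPoly, ← hxy]
        have : pt φ x' i0 = algebraMap k K c := by
          rw [hpx, hz', Fin.insertNth_apply_same]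
        exact this
      obtain ⟨j, hj⟩ := (hβ y).1 hB
      refine ⟨j, Finset.mem_univ _, ?_⟩
      funext a
      have : z j = z' := by
        rw [← hpx, hxy, ← hj]
      rw [this, hz', Fin.insertNth_apply_succAbove]
  have hinjZ : Function.Injective (fun (j : Fin b) (a : Fin 2) => z j (i0.succAbove a)) := by
    intro j j' h
    simp only at h
    have h1 : z j = z j' := by
      rw [← hins j, ← hins j', h]
    have h2 := congrArg (pt φ.symm) h1
    rw [hz] at h2
    rw [pt_symm_pt, pt_symm_pt] at h2
    have h3 := congrFun h2 0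
    exact hinj (mul_left_cancel₀ hq' (add_left_cancel h3))
  have hmain := elim_bound (L := L) (g 1) (g 2) (pa 1) (pa 2) hm (hκle 1) (hκle 2) Z hZ
  have hcard : Z.card = b := by
    rw [hZdef, Finset.card_image_of_injective _ hinjZ, Finset.card_univ, Fintype.card_fin]
  refine ⟨⟨fun j => max (L.fl 0 (z j (i0.succAbove 0))) (L.fl 0 (z j (i0.succAbove 1))),
    fun j => (le_fl _ _).trans (le_max_left _ _), ?_, ?_⟩, ?_⟩
  · intro j i
    change L.le (z j i) _
    rcases eq_or_ne i i0 with rfl | hi
    · rw [hz0]
      exact (le_const c).mono ((le_fl _ _).trans (le_max_left _ _))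
    · obtain ⟨a, rfl⟩ := Fin.exists_succAbove_eq hi
      fin_cases a
      · exact (le_of_fl _ _).mono (le_max_left _ _)
      · exact (le_of_fl _ _).mono (le_max_right _ _)
  · have h1 := hmain.1
    rw [hZdef, Finset.sum_image hinjZ.injOn] at h1
    refine h1.trans ?_
    have h2 : ((g 1).totalDegree : ℝ) + (g 2).totalDegree ≤ 2 * e := by
      have h3 : ((g 1).totalDegree : ℝ) ≤ e := by exact_mod_cast hgdeg 1
      have h4 : ((g 2).totalDegree : ℝ) ≤ e := by exact_mod_cast hgdeg 2
      linarith
    exact mul_le_mul_of_nonneg_right h2 hm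
  · have h1 := hmain.2
    rw [hcard] at h1
    refine h1.trans ?_
    rw [sq]
    exact Nat.mul_le_mul (hgdeg 1) (hgdeg 2)

end Pool.Agent.H17Dyn
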