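import Pool.Agent.H17Dyn.Newton

/-!
# Generic linear forms
-/

set_option autoImplicit false

namespace Pool.Agent.H17Dyn

open LgData

variable {k K : Type*} [Field k] [Field K] [Algebra k K] {L : LgData k K}

/-- finitely many proper subspaces do not cover -/
lemma exists_avoid_subspaces [Infinite k] {V ι : Type*} [AddCommGroup V] [Module k V] [Finite ι]
    (W : ι → Submodule k V) (hW : ∀ i, W i ≠ ⊤) : ∃ v, ∀ i, v ∉ W i := by
  classical
  have := Fintype.ofFinite ι
  have h := Subspace.biUnion_ne_univ_of_top_notMem (k := k) (E := V)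
    (s := (Finset.univ.image W : Finset (Submodule k V))) (by
      intro htop
      obtain ⟨i, -, hi⟩ := Finset.mem_image.1 htop
      exact hW i hi)
  obtain ⟨v, hv⟩ := (Set.ne_univ_iff_exists_notMem _).1 h
  refine ⟨v, fun i hi => hv ?_⟩
  rw [Set.mem_iUnion₂]
  exact ⟨W i, Finset.mem_image_of_mem _ (Finset.mem_univ i), hi⟩

variable {d : ℕ}

/-- the value of a linear form -/
def linForm (u : Fin d → k) (z : Fin d → K) : K := ∑ i, algebraMap k K (u i) * z i

lemma linForm_single (z : Fin d → K) (i : Fin d) : linForm (Pi.single i (1 : k)) z = z i := by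
  classical
  rw [linForm, Finset.sum_eq_single i]
  · rw [Pi.single_eq_same, map_one, one_mul]
  · intro j _ hj
    rw [Pi.single_eq_of_ne hj, map_zero, zero_mul]
  · intro h
    exact absurd (Finset.mem_univ i) h

lemma linForm_add (u v : Fin d → k) (z : Fin d → K) :
    linForm (u + v) z = linForm u z + linForm v z := by
  simp only [linForm, Pi.add_apply, map_add, add_mul, Finset.sum_add_distrib]

lemma linForm_smul (c : k) (u : Fin d → k) (z : Fin d → K) :
    linForm (c • u) z = algebraMap k K c * linForm u z := by
  simp only [linForm, Pi.smul_apply, smul_eq_mul, map_mul, Finset.mul_sum, mul_assoc]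

lemma linForm_sub (u : Fin d → k) (z z' : Fin d → K) :
    linForm u (z - z') = linForm u z - linForm u z' := by
  simp only [linForm, Pi.sub_apply, mul_sub, Finset.sum_sub_distrib]

/-- the forms whose value is strictly smaller than `M` -/
def smallForms (L : LgData k K) (M : ℝ) (z : Fin d → K) : Submodule k (Fin d → k) where
  carrier := {u | linForm u z ≠ 0 → L.lg (linForm u z) < M}
  add_mem' := by
    intro u v hu hv huv
    simp only [Set.mem_ofPred_eq] at hu hv
    rw [linForm_add] at huv ⊢
    rcases eq_or_ne (linForm u z) 0 with h0 | h0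
    · rw [h0, zero_add] at huv ⊢
      exact hv huv
    rcases eq_or_ne (linForm v z) 0 with h1 | h1
    · rw [h1, add_zero]
      exact hu h0
    exact (L.lg_add h0 h1 huv).trans_lt (max_lt (hu h0) (hv h1))
  zero_mem' := by
    intro h
    exact absurd (by simp [linForm]) h
  smul_mem' := by
    intro c u hu h
    simp only [Set.mem_ofPred_eq] at hu
    rw [linForm_smul] at h ⊢
    have hc : c ≠ 0 := by
      rintro rfl
      simp at h
    rw [L.lg_mul (left_ne_zero_of_mul h) (right_ne_zero_of_mul h), L.lg_const hc, zero_add]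
    exact hu (right_ne_zero_of_mul h)

/-- the forms with constant value -/
def constForms (z : Fin d → K) : Submodule k (Fin d → k) where
  carrier := {u | linForm u z ∈ Set.range (algebraMap k K)}
  add_mem' := by
    rintro u v ⟨a, ha⟩ ⟨b, hb⟩
    exact ⟨a + b, by rw [map_add, ha, hb, linForm_add]⟩
  zero_mem' := ⟨0, by simp [linForm]⟩
  smul_mem' := by
    rintro c u ⟨a, ha⟩
    exact ⟨c * a, by rw [map_mul, ha, linForm_smul]⟩

/-- the forms vanishing at a point -/
def zeroForms (z : Fin d → K) : Submodule k (Fin d → k) where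
  carrier := {u | linForm u z = 0}
  add_mem' := by
    intro u v hu hv
    simp only [Set.mem_ofPred_eq] at hu hv ⊢
    rw [linForm_add, hu, hv, add_zero]
  zero_mem' := by simp [linForm]
  smul_mem' := by
    intro c u hu
    simp only [Set.mem_ofPred_eq] at hu ⊢
    rw [linForm_smul, hu, mul_zero]

/-- **Generic linear forms.** -/
lemma exists_form [Infinite k] {b : ℕ} (z : Fin b → Fin d → K) :
    ∃ u : Fin d → k, (∀ j i, L.le (z j i) (L.fl 0 (linForm u (z j)))) ∧
      (∀ j j', z j ≠ z j' → linForm u (z j) ≠ linForm u (z j')) ∧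
      (∀ j, (∃ i, z j i ∉ Set.range (algebraMap k K)) →
        linForm u (z j) ∉ Set.range (algebraMap k K)) := by
  classical
  -- the maximal sizes
  have hmax : ∀ j, ∃ M : ℝ, (∀ i, L.le (z j i) (max 0 M)) ∧ (0 < M → smallForms L M (z j) ≠ ⊤) := by
    intro j
    by_cases hj : ∃ i, z j i ≠ 0
    · obtain ⟨i, hi, hm⟩ := Finset.exists_max_image (Finset.univ.filter fun i => z j i ≠ 0)
        (fun i => L.lg (z j i)) (by
          obtain ⟨i, hi⟩ := hj
          exact ⟨i, Finset.mem_filter.2 ⟨Finset.mem_univ _, hi⟩⟩)
      refine ⟨L.lg (z j i), fun i' hi' => ?_, fun _ htop => ?_⟩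
      · exact (hm i' (Finset.mem_filter.2 ⟨Finset.mem_univ _, hi'⟩)).trans (le_max_right _ _)
      · have h1 : Pi.single i (1 : k) ∈ smallForms L (L.lg (z j i)) (z j) := by
          rw [htop]
          exact Submodule.mem_top
        have h2 : linForm (Pi.single i (1 : k)) (z j) ≠ 0 →
          L.lg (linForm (Pi.single i (1 : k)) (z j)) < L.lg (z j i) := h1
        rw [linForm_single] at h2
        exact lt_irrefl _ (h2 (Finset.mem_filter.1 hi).2)
    · push Not at hj
      refine ⟨0, fun i => ?_, fun h => absurd h (lt_irrefl _)⟩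
      rw [hj i]
      exact le_zero _
  choose M hM1 hM2 using hmax
  let ι : Type := (Fin b ⊕ (Fin b × Fin b)) ⊕ Fin b
  let W : ι → Submodule k (Fin d → k) := fun x =>
    Sum.elim (Sum.elim (fun j => if 0 < M j then smallForms L (M j) (z j) else ⊥)
      (fun jj => if z jj.1 ≠ z jj.2 then zeroForms (z jj.1 - z jj.2) else ⊥))
      (fun j => if ∃ i, z j i ∉ Set.range (algebraMap k K) then constForms (z j) else ⊥) x
  have hbot : d ≠ 0 → (⊥ : Submodule k (Fin d → k)) ≠ ⊤ := by
    intro hd h
    have := NeZero.mk hd
    exact bot_ne_top h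
  rcases eq_or_ne d 0 with rfl | hd
  · refine ⟨0, fun j i => i.elim0, fun j j' h => absurd (Subsingleton.elim _ _) h,
      fun j ⟨i, _⟩ => i.elim0⟩
  have hW : ∀ x, W x ≠ ⊤ := by
    rintro ((j | jj) | j)
    · simp only [W, Sum.elim_inl]
      split_ifs with h
      · exact hM2 j h
      · exact hbot hd
    · simp only [W, Sum.elim_inl, Sum.elim_inr]
      split_ifs with h
      · intro htop
        apply h
        funext i
        have h1 : Pi.single i (1 : k) ∈ zeroForms (z jj.1 - z jj.2) := by
          rw [htop]
          exact Submodule.mem_top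
        have h2 : linForm (Pi.single i (1 : k)) (z jj.1 - z jj.2) = 0 := h1
        rw [linForm_single, Pi.sub_apply, sub_eq_zero] at h2
        exact h2
      · exact hbot hd
    · simp only [W, Sum.elim_inr]
      split_ifs with h
      · intro htop
        obtain ⟨i, hi⟩ := h
        apply hi
        have h1 : Pi.single i (1 : k) ∈ constForms (z j) := by
          rw [htop]
          exact Submodule.mem_top
        have h2 : linForm (Pi.single i (1 : k)) (z j) ∈ Set.range (algebraMap k K) := h1
        rwa [linForm_single] at h2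
      · exact hbot hd
  obtain ⟨u, hu⟩ := exists_avoid_subspaces W hW
  refine ⟨u, ?_, ?_, ?_⟩
  · intro j i
    rcases lt_or_ge 0 (M j) with h | h
    · have h1 := hu (Sum.inl (Sum.inl j))
      simp only [W, Sum.elim_inl, if_pos h] at h1
      have h2 : ¬ (linForm u (z j) ≠ 0 → L.lg (linForm u (z j)) < M j) := h1
      push Not at h2
      refine (hM1 j i).mono ?_
      rw [fl_of_ne h2.1, max_eq_right h.le]
      exact h2.2.trans (le_max_left _ _)
    · refine (hM1 j i).mono ?_
      rw [max_eq_left h]
      exact le_fl _ _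
  · intro j j' h heq
    have h1 := hu (Sum.inl (Sum.inr (j, j')))
    simp only [W, Sum.elim_inl, Sum.elim_inr, if_pos h] at h1
    apply h1
    change linForm u (z j - z j') = 0
    rw [linForm_sub, heq, sub_self]
  · intro j h hmem
    have h1 := hu (Sum.inr j)
    simp only [W, Sum.elim_inr, if_pos h] at h1
    exact h1 hmem

end Pool.Agent.H17Dyn
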