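import Pool.Agent.H17Dyn.Fat

/-!
# Ball valuations

The valuations `P ↦ max_α (lg (∂^α P / α!)(a) - ∑ α_i s_i)` attached to a point `a` over a valued
field and to generic radii `s`.
-/

set_option autoImplicit false

attribute [-instance] HahnSeries.powerSeriesAlgebra

namespace Pool.Agent.H17Dyn

open LgData

section Taylor

variable {d : ℕ} {k : Type*} [Field k]

/-- the polynomial `P(x + z)` in the variables `z` with coefficients in `k[x]` -/
noncomputable def taylor (P : MvPolynomial (Fin d) k) :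
    MvPolynomial (Fin d) (MvPolynomial (Fin d) k) :=
  MvPolynomial.aeval (fun i => MvPolynomial.C (MvPolynomial.X i) + MvPolynomial.X i) P

/-- the Taylor coefficients `∂^α P / α!` -/
noncomputable def tay (α : Fin d →₀ ℕ) (P : MvPolynomial (Fin d) k) : MvPolynomial (Fin d) k :=
  MvPolynomial.coeff α (taylor P)

/-- `P(a + z)` -/
noncomputable def shift {B : Type*} [CommRing B] [Algebra k B] (a : Fin d → B)
    (P : MvPolynomial (Fin d) k) : MvPolynomial (Fin d) B :=
  MvPolynomial.aeval (fun i => MvPolynomial.C (a i) + MvPolynomial.X i) P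

lemma pderiv_shift {B : Type*} [CommRing B] [Algebra k B] (a : Fin d → B) (j : Fin d)
    (P : MvPolynomial (Fin d) k) :
    MvPolynomial.pderiv j (shift a P) = shift a (MvPolynomial.pderiv j P) := by
  classical
  have h := chain_rule ((MvPolynomial.pderiv j : Derivation B (MvPolynomial (Fin d) B)
    (MvPolynomial (Fin d) B)).restrictScalars k)
    (MvPolynomial.aeval (fun i => MvPolynomial.C (a i) + MvPolynomial.X i) :
      MvPolynomial (Fin d) k →ₐ[k] MvPolynomial (Fin d) B) P
  have h2 : ∀ l : Fin d, MvPolynomial.pderiv j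
      (MvPolynomial.aeval (fun i => (MvPolynomial.C (a i) + MvPolynomial.X i :
        MvPolynomial (Fin d) B)) (MvPolynomial.X l : MvPolynomial (Fin d) k)) =
      if l = j then 1 else 0 := by
    intro l
    rw [MvPolynomial.aeval_X, map_add, MvPolynomial.pderiv_C, zero_add, MvPolynomial.pderiv_X,
      Pi.single_apply]
  change MvPolynomial.pderiv j (MvPolynomial.aeval _ P) = ∑ l, _ * MvPolynomial.pderiv j
      (MvPolynomial.aeval (fun i => (MvPolynomial.C (a i) + MvPolynomial.X i :
        MvPolynomial (Fin d) B)) (MvPolynomial.X l : MvPolynomial (Fin d) k)) at h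
  simp only [h2, mul_ite, mul_one, mul_zero, Finset.sum_ite_eq', Finset.mem_univ, if_true] at h
  exact h

lemma taylor_eq_shift (P : MvPolynomial (Fin d) k) :
    taylor P = shift (fun i => (MvPolynomial.X i : MvPolynomial (Fin d) k)) P := rfl

lemma map_shift {B B' : Type*} [CommRing B] [Algebra k B] [CommRing B'] [Algebra k B']
    (f : B →ₐ[k] B') (a : Fin d → B) (P : MvPolynomial (Fin d) k) :
    MvPolynomial.map (f : B →+* B') (shift a P) = shift (fun i => f (a i)) P := by
  have h : (MvPolynomial.map (σ := Fin d) (f : B →+* B')).comp (MvPolynomial.aeval (R := k)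
      (fun i => (MvPolynomial.C (a i) + MvPolynomial.X i : MvPolynomial (Fin d) B))).toRingHom =
      (MvPolynomial.aeval (R := k) (fun i => (MvPolynomial.C (f (a i)) + MvPolynomial.X i :
        MvPolynomial (Fin d) B'))).toRingHom := by
    apply MvPolynomial.ringHom_ext
    · intro c
      simp [MvPolynomial.algebraMap_apply]
    · intro i
      simp
  exact congrArg (fun g : MvPolynomial (Fin d) k →+* MvPolynomial (Fin d) B' => g P) h

lemma coeff_shift {B : Type*} [CommRing B] [Algebra k B] (a : Fin d → B) (α : Fin d →₀ ℕ)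
    (P : MvPolynomial (Fin d) k) :
    MvPolynomial.coeff α (shift a P) = MvPolynomial.aeval a (tay α P) := by
  have h := map_shift (MvPolynomial.aeval a : MvPolynomial (Fin d) k →ₐ[k] B)
    (fun i => (MvPolynomial.X i : MvPolynomial (Fin d) k)) P
  simp only [MvPolynomial.aeval_X] at h
  rw [← h, MvPolynomial.coeff_map, tay, taylor_eq_shift]
  rfl

lemma tay_zero (P : MvPolynomial (Fin d) k) : tay 0 P = P := by
  have h : (MvPolynomial.constantCoeff (σ := Fin d) (R := MvPolynomial (Fin d) k)).comp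
      (MvPolynomial.aeval (R := k) (fun i => (MvPolynomial.C (MvPolynomial.X i) +
        MvPolynomial.X i : MvPolynomial (Fin d) (MvPolynomial (Fin d) k)))).toRingHom =
      RingHom.id _ := by
    apply MvPolynomial.ringHom_ext
    · intro c
      simp [MvPolynomial.algebraMap_apply]
    · intro i
      simp
  exact congrArg (fun g : MvPolynomial (Fin d) k →+* MvPolynomial (Fin d) k => g P) h

lemma tay_add_single (α : Fin d →₀ ℕ) (j : Fin d) (P : MvPolynomial (Fin d) k) :
    tay (α + Finsupp.single j 1) P * ((α j : MvPolynomial (Fin d) k) + 1) =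
      tay α (MvPolynomial.pderiv j P) := by
  rw [tay, tay, taylor_eq_shift, taylor_eq_shift, ← pderiv_shift, MvPolynomial.coeff_pderiv]

lemma exists_single {α : Fin d →₀ ℕ} (hα : α ≠ 0) : ∃ (β : Fin d →₀ ℕ) (j : Fin d),
    α = β + Finsupp.single j 1 := by
  obtain ⟨j, hj⟩ := Finsupp.ne_iff.1 hα
  refine ⟨α - Finsupp.single j 1, j, ?_⟩
  ext i
  rw [Finsupp.add_apply, Finsupp.tsub_apply]
  by_cases h : i = j
  · subst h
    rw [Finsupp.single_eq_same]
    have : α i ≠ 0 := hj
    omega
  · rw [Finsupp.single_eq_of_ne h]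
    omega

lemma totalDegree_pderiv_lt {i : Fin d} {P : MvPolynomial (Fin d) k}
    (h : MvPolynomial.pderiv i P ≠ 0) :
    (MvPolynomial.pderiv i P).totalDegree + 1 ≤ P.totalDegree := by
  obtain ⟨m, hm, hdeg⟩ := Finset.exists_mem_eq_sup (MvPolynomial.pderiv i P).support
    (MvPolynomial.support_nonempty.2 h) (fun s => s.sum fun _ e => e)
  have h1 : MvPolynomial.coeff (m + Finsupp.single i 1) P ≠ 0 := by
    intro h
    rw [MvPolynomial.mem_support_iff, MvPolynomial.coeff_pderiv, h, zero_mul] at hm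
    exact hm rfl
  have h2 := MvPolynomial.le_totalDegree (MvPolynomial.mem_support_iff.2 h1)
  rw [Finsupp.sum_add_index' (fun _ => rfl) (fun _ _ _ => rfl), Finsupp.sum_single_index rfl] at h2
  have h3 : (MvPolynomial.pderiv i P).totalDegree = m.sum fun _ e => e := hdeg
  rw [h3]
  exact h2

/-- induction along Taylor coefficients -/
lemma tay_induction [CharZero k] (motive : ℕ → MvPolynomial (Fin d) k →
    MvPolynomial (Fin d) k → Prop)
    (h0 : ∀ P, P ≠ 0 → motive 0 P P)
    (h1 : ∀ n j P Q (c : k), c ≠ 0 → P ≠ 0 → MvPolynomial.pderiv j P ≠ 0 →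
      Q ≠ 0 → motive n (MvPolynomial.pderiv j P) (Q * MvPolynomial.C c) → motive (n + 1) P Q)
    (n : ℕ) (α : Fin d →₀ ℕ) (hα : (α.sum fun _ e => e) = n) (P : MvPolynomial (Fin d) k)
    (hP : tay α P ≠ 0) : motive n P (tay α P) := by
  induction n generalizing α P with
  | zero =>
    have h2 : α = 0 := by
      rw [Finsupp.sum_fintype _ _ fun _ => rfl, Finset.sum_eq_zero_iff] at hα
      ext i
      exact hα i (Finset.mem_univ i)
    subst h2
    rw [tay_zero] at hP ⊢
    exact h0 P hP
  | succ n ih =>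
    have hα0 : α ≠ 0 := by
      rintro rfl
      rw [Finsupp.sum_zero_index] at hα
      omega
    obtain ⟨β, j, rfl⟩ := exists_single hα0
    rw [Finsupp.sum_add_index' (fun _ => rfl) (fun _ _ _ => rfl),
      Finsupp.sum_single_index rfl] at hα
    have hc : ((β j : k) + 1) ≠ 0 := by exact_mod_cast (Nat.succ_ne_zero (β j))
    have h2 := tay_add_single β j P
    have h3 : ((β j : MvPolynomial (Fin d) k) + 1) = MvPolynomial.C ((β j : k) + 1) := by
      rw [map_add, map_one, map_natCast]
    rw [h3] at h2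
    have h4 : tay β (MvPolynomial.pderiv j P) ≠ 0 := by
      rw [← h2]
      exact mul_ne_zero hP ((map_ne_zero_iff _ (MvPolynomial.C_injective _ _)).2 hc)
    have h5 : MvPolynomial.pderiv j P ≠ 0 := by
      intro h
      rw [h, tay, taylor, map_zero, MvPolynomial.coeff_zero] at h4
      exact h4 rfl
    have h6 : P ≠ 0 := by
      rintro rfl
      exact h5 (map_zero _)
    refine h1 n j P _ _ hc h6 h5 hP ?_
    rw [h2]
    exact ih β (by omega) (MvPolynomial.pderiv j P) h4

lemma totalDegree_tay_le [CharZero k] {α : Fin d →₀ ℕ} {P : MvPolynomial (Fin d) k}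
    (hP : tay α P ≠ 0) : (tay α P).totalDegree + (α.sum fun _ e => e) ≤ P.totalDegree := by
  refine tay_induction (motive := fun n P Q => Q.totalDegree + n ≤ P.totalDegree) ?_ ?_ _ α rfl P hP
  · intro P _
    exact le_rfl
  · intro n j P Q c hc _ hP' hQ h
    rw [MvPolynomial.totalDegree_mul_of_isDomain hQ (by simpa using hc),
      MvPolynomial.totalDegree_C, add_zero] at h
    have := totalDegree_pderiv_lt hP'
    omega

lemma Fat.tay_le [CharZero k] {N : MvPolynomial (Fin d) k → ℝ} (hN : IsLogVal N) {s : ℝ}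
    (hs : Fat s N) {α : Fin d →₀ ℕ} {P : MvPolynomial (Fin d) k} (hP : tay α P ≠ 0) :
    N (tay α P) ≤ N P + s * (α.sum fun _ e => e : ℕ) := by
  refine tay_induction (motive := fun n P Q => N Q ≤ N P + s * n) ?_ ?_ _ α rfl P hP
  · intro P _
    simp
  · intro n j P Q c hc _ hP' hQ h
    rw [hN.mul _ _ hQ (by simpa using hc), hN.const c hc, add_zero] at h
    have := hs j P hP'
    push_cast
    linarith

end Taylor

section Ball

variable {d : ℕ} {k K : Type*} [Field k] [Field K] [Algebra k K]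

/-- the weight of an exponent -/
noncomputable def wt (s : Fin d → ℝ) (α : Fin d →₀ ℕ) : ℝ := ∑ i, (α i : ℝ) * s i

lemma wt_add (s : Fin d → ℝ) (α β : Fin d →₀ ℕ) : wt s (α + β) = wt s α + wt s β := by
  rw [wt, wt, wt, ← Finset.sum_add_distrib]
  refine Finset.sum_congr rfl fun i _ => ?_
  rw [Finsupp.add_apply]
  push_cast
  ring

lemma wt_zero (s : Fin d → ℝ) : wt s 0 = 0 := by simp [wt]

lemma wt_single (s : Fin d → ℝ) (j : Fin d) : wt s (Finsupp.single j 1) = s j := by
  classical
  rw [wt, Finset.sum_eq_single j]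
  · rw [Finsupp.single_eq_same]
    simp
  · intro i _ h
    rw [Finsupp.single_eq_of_ne h]
    simp
  · intro h
    exact absurd (Finset.mem_univ j) h

/-- the value of the coefficient of exponent `α` on the ball of radii `s` -/
noncomputable def cv (L : LgData k K) (s : Fin d → ℝ) (F : MvPolynomial (Fin d) K)
    (α : Fin d →₀ ℕ) : ℝ := L.lg (MvPolynomial.coeff α F) - wt s α

/-- the Gauss norm -/
noncomputable def gn (L : LgData k K) (s : Fin d → ℝ) (F : MvPolynomial (Fin d) K) : ℝ := by
  classical exact if h : F.support.Nonempty then F.support.sup' h (cv L s F) else 0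

variable {L : LgData k K} {s : Fin d → ℝ}

lemma cv_le_gn {F : MvPolynomial (Fin d) K} {α : Fin d →₀ ℕ} (h : MvPolynomial.coeff α F ≠ 0) :
    cv L s F α ≤ gn L s F := by
  have hα := MvPolynomial.mem_support_iff.2 h
  have hne : F.support.Nonempty := ⟨α, hα⟩
  rw [gn, dif_pos hne]
  exact Finset.le_sup' (cv L s F) hα

lemma exists_gn {F : MvPolynomial (Fin d) K} (hF : F ≠ 0) :
    ∃ α, MvPolynomial.coeff α F ≠ 0 ∧ gn L s F = cv L s F α := by
  have hne : F.support.Nonempty := MvPolynomial.support_nonempty.2 hF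
  obtain ⟨α, hα, h⟩ := Finset.exists_mem_eq_sup' hne (cv L s F)
  refine ⟨α, MvPolynomial.mem_support_iff.1 hα, ?_⟩
  rw [gn, dif_pos hne, h]

lemma gn_le {F : MvPolynomial (Fin d) K} (hF : F ≠ 0) {r : ℝ}
    (h : ∀ α, L.le (MvPolynomial.coeff α F) (r + wt s α)) : gn L s F ≤ r := by
  obtain ⟨α, hα, h1⟩ := exists_gn (L := L) (s := s) hF
  rw [h1, cv]
  have := h α hα
  linarith

lemma coeff_le_gn (F : MvPolynomial (Fin d) K) (α : Fin d →₀ ℕ) :
    L.le (MvPolynomial.coeff α F) (gn L s F + wt s α) := by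
  intro h
  have := cv_le_gn (L := L) (s := s) h
  rw [cv] at this
  linarith

/-- the coefficient values lie in `Γ` -/
def InG (L : LgData k K) (Γ : AddSubgroup ℝ) (F : MvPolynomial (Fin d) K) : Prop :=
  ∀ α, MvPolynomial.coeff α F ≠ 0 → L.lg (MvPolynomial.coeff α F) ∈ Γ

/-- the maximum is attained exactly once -/
lemma cv_unique {Γ : AddSubgroup ℝ} (hs : ∀ m : Fin d → ℤ, ∑ i, (m i : ℝ) * s i ∈ Γ → m = 0)
    {F : MvPolynomial (Fin d) K} (hF : InG L Γ F) {α β : Fin d →₀ ℕ}
    (hα : MvPolynomial.coeff α F ≠ 0) (hβ : MvPolynomial.coeff β F ≠ 0)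
    (h : cv L s F α = cv L s F β) : α = β := by
  have h1 : ∑ i, (((α i : ℤ) - (β i : ℤ) : ℤ) : ℝ) * s i ∈ Γ := by
    have h2 : ∑ i, (((α i : ℤ) - (β i : ℤ) : ℤ) : ℝ) * s i = wt s α - wt s β := by
      rw [wt, wt, ← Finset.sum_sub_distrib]
      refine Finset.sum_congr rfl fun i _ => ?_
      push_cast
      ring
    rw [h2]
    have h3 : wt s α - wt s β = L.lg (MvPolynomial.coeff α F) - L.lg (MvPolynomial.coeff β F) := by
      rw [cv, cv] at h
      linarith
    rw [h3]
    exact Γ.sub_mem (hF α hα) (hF β hβ)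
  have h2 := hs _ h1
  ext i
  have h3 := congrFun h2 i
  simp only [Pi.zero_apply] at h3
  omega

lemma lg_sum_eq {ι : Type*} (T : Finset ι) (f : ι → K) {p₀ : ι} (hp₀ : p₀ ∈ T)
    (h0 : f p₀ ≠ 0) (h : ∀ p ∈ T, p ≠ p₀ → f p ≠ 0 → L.lg (f p) < L.lg (f p₀)) :
    ∑ p ∈ T, f p ≠ 0 ∧ L.lg (∑ p ∈ T, f p) = L.lg (f p₀) := by
  classical
  have h5 : (∑ p ∈ T.erase p₀, f p) ≠ 0 → L.lg (∑ p ∈ T.erase p₀, f p) < L.lg (f p₀) := by
    refine Finset.sum_induction (M := K) f (fun x : K => x ≠ 0 → L.lg x < L.lg (f p₀))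
      ?_ (fun h => absurd rfl h) fun p hp => h p (Finset.mem_of_mem_erase hp)
        (Finset.ne_of_mem_erase hp)
    intro x y hx hy hxy
    rcases eq_or_ne x 0 with rfl | hx0
    · rw [zero_add] at hxy ⊢
      exact hy hxy
    rcases eq_or_ne y 0 with rfl | hy0
    · rw [add_zero] at hxy ⊢
      exact hx hxy
    exact (L.lg_add hx0 hy0 hxy).trans_lt (max_lt (hx hx0) (hy hy0))
  rw [← Finset.add_sum_erase T f hp₀]
  exact lg_add_eq h0 h5

lemma gn_mul {Γ : AddSubgroup ℝ} (hs : ∀ m : Fin d → ℤ, ∑ i, (m i : ℝ) * s i ∈ Γ → m = 0)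
    {F G : MvPolynomial (Fin d) K} (hF : InG L Γ F) (hG : InG L Γ G) (hF0 : F ≠ 0)
    (hG0 : G ≠ 0) : gn L s (F * G) = gn L s F + gn L s G := by
  classical
  obtain ⟨α, hα, h1⟩ := exists_gn (L := L) (s := s) hF0
  obtain ⟨β, hβ, h2⟩ := exists_gn (L := L) (s := s) hG0
  refine le_antisymm ?_ ?_
  · refine gn_le (mul_ne_zero hF0 hG0) fun γ => ?_
    rw [MvPolynomial.coeff_mul]
    refine le_sum fun p hp => ?_
    have hp' := Finset.HasAntidiagonal.mem_antidiagonal.1 hp
    refine ((coeff_le_gn (s := s) F p.1).mul (coeff_le_gn (s := s) G p.2)).mono (le_of_eq ?_)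
    rw [← hp', wt_add]
    ring
  · -- the leading coefficient
    have h4 : ∀ p ∈ Finset.HasAntidiagonal.antidiagonal (α + β), p ≠ (α, β) →
        MvPolynomial.coeff p.1 F * MvPolynomial.coeff p.2 G ≠ 0 →
        L.lg (MvPolynomial.coeff p.1 F * MvPolynomial.coeff p.2 G) <
          L.lg (MvPolynomial.coeff α F * MvPolynomial.coeff β G) := by
      intro p hp hpne hne
      have hp' := Finset.HasAntidiagonal.mem_antidiagonal.1 hp
      have hp1 := left_ne_zero_of_mul hne
      have hp2 := right_ne_zero_of_mul hne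
      rw [L.lg_mul hp1 hp2, L.lg_mul hα hβ]
      have h5 := cv_le_gn (L := L) (s := s) hp1
      have h6 := cv_le_gn (L := L) (s := s) hp2
      have h7 : wt s p.1 + wt s p.2 = wt s α + wt s β := by
        rw [← wt_add, hp', wt_add]
      have h8 : cv L s F p.1 + cv L s G p.2 < gn L s F + gn L s G := by
        rcases lt_or_eq_of_le h5 with h9 | h9
        · linarith
        rcases lt_or_eq_of_le h6 with h10 | h10
        · linarith
        exfalso
        apply hpne
        exact Prod.ext (cv_unique hs hF hp1 hα (h9.trans h1)) (cv_unique hs hG hp2 hβ (h10.trans h2))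
      rw [h1, h2] at h8
      simp only [cv] at h8
      linarith
    have hlead : MvPolynomial.coeff α F * MvPolynomial.coeff β G ≠ 0 := mul_ne_zero hα hβ
    have h6 := lg_sum_eq (L := L) (Finset.HasAntidiagonal.antidiagonal (α + β))
      (fun p : (Fin d →₀ ℕ) × (Fin d →₀ ℕ) => MvPolynomial.coeff p.1 F * MvPolynomial.coeff p.2 G)
      (p₀ := (α, β)) (Finset.HasAntidiagonal.mem_antidiagonal.2 rfl) hlead h4
    rw [← MvPolynomial.coeff_mul] at h6
    have h7 := cv_le_gn (L := L) (s := s) h6.1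
    rw [cv, h6.2, L.lg_mul hα hβ, wt_add] at h7
    rw [h1, h2, cv, cv]
    linarith

lemma gn_add {F G : MvPolynomial (Fin d) K} (hFG : F + G ≠ 0) :
    gn L s (F + G) ≤ max (gn L s F) (gn L s G) := by
  refine gn_le hFG fun α => ?_
  rw [MvPolynomial.coeff_add]
  refine le.add ?_ ?_
  · refine (coeff_le_gn (s := s) F α).mono ?_
    linarith [le_max_left (gn L s F) (gn L s G)]
  · refine (coeff_le_gn (s := s) G α).mono ?_
    linarith [le_max_right (gn L s F) (gn L s G)]

lemma shift_ne_zero (a : Fin d → K) {P : MvPolynomial (Fin d) k} (hP : P ≠ 0) :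
    shift a P ≠ 0 := by
  intro h0
  have h : (MvPolynomial.aeval (R := K) (fun i => (MvPolynomial.X i - MvPolynomial.C (a i) :
      MvPolynomial (Fin d) K))).toRingHom.comp (MvPolynomial.aeval (R := k)
      (fun i => (MvPolynomial.C (a i) + MvPolynomial.X i : MvPolynomial (Fin d) K))).toRingHom =
      MvPolynomial.map (algebraMap k K) := by
    apply MvPolynomial.ringHom_ext
    · intro c
      simp [MvPolynomial.algebraMap_apply]
    · intro i
      simp
  have h1 := congrArg (fun g : MvPolynomial (Fin d) k →+* MvPolynomial (Fin d) K => g P) h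
  have h2 : MvPolynomial.map (algebraMap k K) P = 0 := by
    rw [← h1]
    change MvPolynomial.aeval (R := K) _ (shift a P) = 0
    rw [h0, map_zero]
  exact hP ((MvPolynomial.map_injective (algebraMap k K) (algebraMap k K).injective)
    (h2.trans (map_zero _).symm))

/-- **Ball valuations.** -/
theorem exists_ball_val [CharZero k] (L : LgData k K) (a : Fin d → K) {Γ : AddSubgroup ℝ}
    (hΓ : ∀ Q : MvPolynomial (Fin d) k, MvPolynomial.aeval a Q ≠ 0 →
      L.lg (MvPolynomial.aeval a Q) ∈ Γ)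
    {s : Fin d → ℝ} (hs : ∀ m : Fin d → ℤ, ∑ i, (m i : ℝ) * s i ∈ Γ → m = 0) :
    ∃ u : MvPolynomial (Fin d) k → ℝ, IsLogVal u ∧
      (∀ P, P ≠ 0 → ∃ α, MvPolynomial.aeval a (tay α P) ≠ 0 ∧
        u P = L.lg (MvPolynomial.aeval a (tay α P)) - wt s α) ∧
      (∀ P, P ≠ 0 → ∀ α, MvPolynomial.aeval a (tay α P) ≠ 0 →
        L.lg (MvPolynomial.aeval a (tay α P)) - wt s α ≤ u P) ∧
      (∀ j P, MvPolynomial.pderiv j P ≠ 0 → u (MvPolynomial.pderiv j P) ≤ u P + s j) := by
  have hIn : ∀ P : MvPolynomial (Fin d) k, InG L Γ (shift a P) := by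
    intro P α hα
    rw [coeff_shift] at hα ⊢
    exact hΓ _ hα
  refine ⟨fun P => gn L s (shift a P), ⟨?_, ?_, ?_⟩, ?_, ?_, ?_⟩
  · intro P Q hP hQ
    have h1 : shift a (P * Q) = shift a P * shift a Q := map_mul _ _ _
    rw [h1, gn_mul hs (hIn P) (hIn Q) (shift_ne_zero a hP) (shift_ne_zero a hQ)]
  · intro P Q _ _ hPQ
    have h1 : shift a (P + Q) = shift a P + shift a Q := map_add _ _ _
    rw [h1]
    exact gn_add (by
      rw [← h1]
      exact shift_ne_zero a hPQ)
  · intro c hc
    have h1 : shift a (MvPolynomial.C c) = MvPolynomial.C (algebraMap k K c) :=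
      MvPolynomial.algHom_C _ _
    have hc' : algebraMap k K c ≠ 0 := (map_ne_zero_iff _ (algebraMap k K).injective).2 hc
    have h2 : (MvPolynomial.C (algebraMap k K c) : MvPolynomial (Fin d) K) ≠ 0 := by
      simpa using hc'
    obtain ⟨α, hα, h3⟩ := exists_gn (L := L) (s := s) h2
    rw [h1, h3, cv]
    classical
    rw [MvPolynomial.coeff_C] at hα ⊢
    by_cases h4 : 0 = α
    · subst h4
      rw [if_pos rfl, L.lg_const hc, wt_zero, sub_zero]
    · rw [if_neg h4] at hα
      exact absurd rfl hα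
  · intro P hP
    obtain ⟨α, hα, h1⟩ := exists_gn (L := L) (s := s) (shift_ne_zero a hP)
    refine ⟨α, ?_, ?_⟩
    · rwa [coeff_shift] at hα
    · change gn L s (shift a P) = _
      rw [h1, cv, coeff_shift]
  · intro P _ α hα
    have h1 := cv_le_gn (L := L) (s := s) (F := shift a P) (α := α) (by
      rwa [coeff_shift])
    rwa [cv, coeff_shift] at h1
  · intro j P hP
    obtain ⟨α, hα, h1⟩ := exists_gn (L := L) (s := s) (shift_ne_zero a hP)
    change gn L s (shift a (MvPolynomial.pderiv j P)) ≤ gn L s (shift a P) + s j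
    rw [h1, cv, ← pderiv_shift, MvPolynomial.coeff_pderiv]
    rw [← pderiv_shift, MvPolynomial.coeff_pderiv] at hα
    have h2 := left_ne_zero_of_mul hα
    have h3 := right_ne_zero_of_mul hα
    rw [L.lg_mul h2 h3]
    have h4 : ((α j : K) + 1) = algebraMap k K ((α j : k) + 1) := by
      rw [map_add, map_one, map_natCast]
    have h5 : ((α j : k) + 1) ≠ 0 := by exact_mod_cast (Nat.succ_ne_zero (α j))
    rw [h4, L.lg_const h5, add_zero]
    have h6 := cv_le_gn (L := L) (s := s) h2
    rw [cv, wt_add, wt_single] at h6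
    linarith

end Ball

end Pool.Agent.H17Dyn
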