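import Pool.Agent.H17Dyn.FibGen
import Pool.Agent.H17Dyn.Conv
import Pool.Agent.H17Dyn.Degree

/-!
# Dynamical degrees of automorphisms of affine space of any dimension
-/

set_option autoImplicit false

attribute [-instance] HahnSeries.powerSeriesAlgebra

namespace Pool.Agent.H17Dyn

open Filter Topology ENNReal

variable {d : ℕ} {k : Type*} [Field k]

/-- the second degree of a polynomial automorphism: the largest number of points of a finite
intersection of a plane with the preimage of a linear space of codimension two -/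
noncomputable def deg2 (G : MvPolynomial (Fin d) k ≃ₐ[k] MvPolynomial (Fin d) k) : ℕ∞ :=
  ⨆ (a : Fin d → k) (b : Fin d → k) (c : Fin d → k) (l₁ : MvPolynomial (Fin d) k)
    (l₂ : MvPolynomial (Fin d) k) (_ : l₁.totalDegree ≤ 1) (_ : l₂.totalDegree ≤ 1)
    (_ : (planeSet G a b c l₁ l₂).Finite), (planeSet G a b c l₁ l₂).encard

/-- the second dynamical degree -/
noncomputable def dynDeg2 (G : MvPolynomial (Fin d) k ≃ₐ[k] MvPolynomial (Fin d) k) : ℝ≥0∞ :=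
  limsup (fun n : ℕ => (deg2 (G ^ n) : ℝ≥0∞) ^ ((1 : ℝ) / (n : ℝ))) atTop

lemma deg2Le_of_deg2 {G : MvPolynomial (Fin d) k ≃ₐ[k] MvPolynomial (Fin d) k} {D : ℝ}
    (hD : 0 ≤ D) (h : (deg2 G : ℝ≥0∞) ≤ ENNReal.ofReal D) : Deg2Le G D := by
  intro a b c l₁ l₂ h1 h2 hfin
  have h3 : (planeSet G a b c l₁ l₂).encard ≤ deg2 G :=
    le_iSup_of_le a (le_iSup_of_le b (le_iSup_of_le c (le_iSup_of_le l₁ (le_iSup_of_le l₂
      (le_iSup_of_le h1 (le_iSup_of_le h2 (le_iSup_of_le hfin le_rfl)))))))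
  rw [← hfin.cast_ncard_eq] at h3
  have h4 : (((planeSet G a b c l₁ l₂).ncard : ℕ∞) : ℝ≥0∞) ≤ ENNReal.ofReal D :=
    (ENat.toENNReal_le.2 h3).trans h
  rw [ENat.toENNReal_coe] at h4
  have h5 : ENNReal.ofReal ((planeSet G a b c l₁ l₂).ncard : ℝ) ≤ ENNReal.ofReal D := by
    rwa [ENNReal.ofReal_natCast]
  exact (ENNReal.ofReal_le_ofReal_iff hD).1 h5

variable [IsAlgClosed k] [CharZero k]

theorem general_dim {χ : ℝ →+ k} (hχ : Function.Injective χ) (hd : 2 ≤ d)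
    (φ : MvPolynomial (Fin d) k ≃ₐ[k] MvPolynomial (Fin d) k) :
    ∃ lam : ℝ, 1 ≤ lam ∧
      Tendsto (fun n : ℕ => (adeg (φ ^ n) : ℝ) ^ ((1 : ℝ) / (n : ℝ))) atTop (𝓝 lam) ∧
      (dynDeg2 φ < ENNReal.ofReal (lam ^ 2) →
        IsAlgebraic ℚ lam ∧ (minpoly ℚ lam).natDegree ≤ d - 1) := by
  have : NeZero d := ⟨by omega⟩
  obtain ⟨lam, hlam1, hlam2, hlam3⟩ := exists_dyn φ
  refine ⟨lam, hlam1, hlam2, fun h => ?_⟩
  rcases eq_or_ne lam 1 with h1 | h1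
  · subst h1
    have h : (1 : ℝ) = algebraMap ℚ ℝ 1 := by simp
    rw [h]
    exact ⟨isAlgebraic_algebraMap 1, by
      rw [minpoly.eq_X_sub_C, Polynomial.natDegree_X_sub_C]
      omega⟩
  obtain ⟨ρ', hρ1, hρ2⟩ := exists_between h
  have hρtop : ρ' ≠ ⊤ := hρ2.ne_top
  set ρ : ℝ := ρ'.toReal with hρ
  have hρ0 : 0 ≤ ρ := ENNReal.toReal_nonneg
  have hρ' : ENNReal.ofReal ρ = ρ' := ENNReal.ofReal_toReal hρtop
  have hρlam : ρ < lam ^ 2 := by
    rw [← hρ'] at hρ2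
    exact (ENNReal.ofReal_lt_ofReal_iff (by positivity)).1 hρ2
  have hev : ∀ᶠ n : ℕ in atTop, Deg2Le (φ ^ n) (ρ ^ n) := by
    filter_upwards [eventually_lt_of_limsup_lt hρ1, eventually_gt_atTop 0] with n hn hn0
    refine deg2Le_of_deg2 (by positivity) ?_
    have hn' : (n : ℝ) ≠ 0 := by exact_mod_cast hn0.ne'
    have h1 : (deg2 (φ ^ n) : ℝ≥0∞) =
        ((deg2 (φ ^ n) : ℝ≥0∞) ^ ((1 : ℝ) / (n : ℝ))) ^ n := by
      rw [← ENNReal.rpow_natCast, ← ENNReal.rpow_mul, one_div_mul_cancel hn', ENNReal.rpow_one]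
    rw [h1, ENNReal.ofReal_pow hρ0, hρ']
    exact pow_le_pow_left₀ bot_le hn.le n
  obtain ⟨n₀, hn₀⟩ := eventually_atTop.1 hev
  have hm : (0 : ℝ) ≤ adeg φ := Nat.cast_nonneg _
  have hsum : Summable fun n : ℕ => √((adeg φ : ℝ) * ρ ^ n) / (adeg (φ ^ (n + 1)) : ℝ) := by
    obtain ⟨σ, hσ1, hσ2⟩ := exists_between hρlam
    have hlim : Tendsto (fun n : ℕ => (ρ ^ n) ^ ((1 : ℝ) / (n : ℝ))) atTop (𝓝 ρ) := by
      refine tendsto_const_nhds.congr' ?_
      filter_upwards [eventually_gt_atTop 0] with n hn0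
      have hn' : (n : ℝ) ≠ 0 := by exact_mod_cast hn0.ne'
      rw [← Real.rpow_natCast, ← Real.rpow_mul hρ0, mul_one_div_cancel hn', Real.rpow_one]
    have h2 := (summable_err (e := fun n : ℕ => ρ ^ n)
      (d := fun n : ℕ => (adeg (φ ^ n) : ℝ)) (fun n => pow_nonneg hρ0 n) hlam1 hlam3 hlim
      hρ0 hρlam).mul_left √(adeg φ : ℝ)
    refine h2.congr fun n => ?_
    rw [mul_div_assoc', ← Real.sqrt_mul hm]
  obtain ⟨N, hN, hN0, hNφ, ⟨i, hi⟩, -⟩ := exists_eigen' (hahnLg k one_pos) φ hlam2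
    (Δ := fun n => (adeg φ : ℝ) * ρ ^ n) (fun n => by positivity) n₀
    (fun n hn i0 => ⟨1, one_ne_zero, fibCond_gen hχ hd φ (φ ^ n) (hn₀ n hn).weak i0⟩) hsum
  exact eigen_degree φ hN h1 (fun P _ => hNφ P)
    ⟨MvPolynomial.X i, MvPolynomial.X_ne_zero i, by rw [hi]; exact one_ne_zero⟩

end Pool.Agent.H17Dyn
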