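import Pool.Agent.H17Dyn.FibAt

/-!
# The main inequality at an arbitrary point
-/

set_option autoImplicit false
set_option linter.unusedSectionVars false

attribute [-instance] HahnSeries.powerSeriesAlgebra

namespace Pool.Agent.H17Dyn

open LgData Polynomial

section Aux

variable {k K : Type*} [Field k] [Field K] [Algebra k K] {L : LgData k K}

lemma fl_eq_of_big {x : K} {c : k} (h : L.big (x - algebraMap k K c)) :
    L.fl 0 x = L.lg (x - algebraMap k K c) := by
  refine le_antisymm (fl_le (lg_sub_const h) h.2) ?_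
  exact ((le_of_fl 0 x).sub ((le_const c).mono (le_fl 0 x))) h.1

lemma le_diff' {d : ℕ} {m ε : ℝ} (hm : 0 ≤ m) (hε : 0 ≤ ε) {x : Fin d → K}
    (hx : ∀ i, L.le (x i) m) (q : Fin d → k)
    {P : MvPolynomial (Fin d) k} {D : ℕ} (hD : P.totalDegree ≤ D) {α : K}
    (hα : L.le α (-(D * m) - ε)) :
    L.le (MvPolynomial.aeval (fun i => x i + algebraMap k K (q i) * α) P -
      MvPolynomial.aeval x P) (-ε) := by
  have hb := bd_dirPoly (L := L) hm hx q hD
  have h1 : MvPolynomial.aeval x P = (dirPoly x q P).coeff 0 := by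
    rw [Polynomial.coeff_zero_eq_eval_zero, eval_dirPoly]
    congr 2
    ext i
    simp
  rw [← eval_dirPoly, h1, Polynomial.eval_eq_sum_range' (Nat.lt_succ_of_le hb.1),
    Finset.sum_range_succ', pow_zero, mul_one, add_sub_cancel_right]
  refine le_sum fun j hj => ?_
  have hj' : j + 1 ≤ D := Finset.mem_range.1 hj
  refine ((hb.2 (j + 1) hj').mul (hα.pow (j + 1))).mono ?_
  push_cast
  have h2 : (0 : ℝ) ≤ j := Nat.cast_nonneg j
  have h3 : (0 : ℝ) ≤ (D : ℝ) * m := by positivity
  nlinarith [mul_nonneg h2 h3, mul_nonneg h2 hm, mul_nonneg h2 hε]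

/-- a pigeonhole argument: generic pairs of level values -/
lemma exists_levels' [Infinite k] (f g : K[X]) (hf : 0 < f.natDegree) (hg : 0 < g.natDegree)
    (T : Finset k) :
    ∃ c c' : k, c ∉ T ∧ c' ∉ T ∧
      (∀ t, g.eval t = algebraMap k K c' → L.big (f.eval t - algebraMap k K c)) ∧
      (∀ t, f.eval t = algebraMap k K c → L.big (g.eval t - algebraMap k K c')) := by
  classical
  set a := f.natDegree with ha
  set b := g.natDegree with hb
  obtain ⟨S, hST, hScard⟩ : ∃ S : Finset k, (∀ c ∈ S, c ∉ T) ∧ S.card = a + b + 1 := by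
    obtain ⟨S, hS, hcard⟩ := (T.finite_toSet.infinite_compl).exists_subset_card_eq (a + b + 1)
    exact ⟨S, fun c hc hcT => hS (Finset.mem_coe.2 hc) hcT, hcard⟩
  have hfc : ∀ (h : K[X]) (c : k), 0 < h.natDegree → h - C (algebraMap k K c) ≠ 0 := by
    intro h c hpos h0
    have := natDegree_sub_C (p := h) (a := algebraMap k K c)
    rw [h0, natDegree_zero] at this
    omega
  have hcardroots : ∀ (h : K[X]) (c : k), (h - C (algebraMap k K c)).roots.toFinset.card ≤
      h.natDegree := by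
    intro h c
    refine (Multiset.toFinset_card_le _).trans ((card_roots' _).trans ?_)
    rw [natDegree_sub_C]
  have hone : ∀ x : K, (S.filter fun c => ¬ L.big (x - algebraMap k K c)).card ≤ 1 := by
    intro x
    rw [Finset.card_le_one]
    intro c hc c' hc'
    exact small_unique (Finset.mem_filter.1 hc).2 (Finset.mem_filter.1 hc').2
  -- first kind of bad pairs
  set bad1 : Finset (k × k) := S.biUnion fun c' =>
    (g - C (algebraMap k K c')).roots.toFinset.biUnion fun t =>
      (S.filter fun c => ¬ L.big (f.eval t - algebraMap k K c)) ×ˢ {c'} with hbad1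
  set bad2 : Finset (k × k) := S.biUnion fun c =>
    (f - C (algebraMap k K c)).roots.toFinset.biUnion fun t =>
      {c} ×ˢ (S.filter fun c' => ¬ L.big (g.eval t - algebraMap k K c')) with hbad2
  have hc1 : bad1.card ≤ S.card * b := by
    refine Finset.card_biUnion_le_card_mul _ _ _ fun c' _ => ?_
    refine (Finset.card_biUnion_le_card_mul _ _ 1 fun t _ => ?_).trans ?_
    · rw [Finset.card_product, Finset.card_singleton, mul_one]
      exact hone _
    · rw [mul_one]
      exact hcardroots g c'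
  have hc2 : bad2.card ≤ S.card * a := by
    refine Finset.card_biUnion_le_card_mul _ _ _ fun c _ => ?_
    refine (Finset.card_biUnion_le_card_mul _ _ 1 fun t _ => ?_).trans ?_
    · rw [Finset.card_product, Finset.card_singleton, one_mul]
      exact hone _
    · rw [mul_one]
      exact hcardroots f c
  have hlt : (bad1 ∪ bad2).card < (S ×ˢ S).card := by
    refine (Finset.card_union_le _ _).trans_lt ?_
    rw [Finset.card_product]
    refine (add_le_add hc1 hc2).trans_lt ?_
    rw [← mul_add, hScard]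
    refine Nat.mul_lt_mul_of_pos_left ?_ ?_ <;> omega
  obtain ⟨⟨c, c'⟩, hcc, hnb⟩ := Finset.exists_mem_notMem_of_card_lt_card hlt
  rw [Finset.mem_product] at hcc
  rw [Finset.mem_union, not_or] at hnb
  refine ⟨c, c', hST c hcc.1, hST c' hcc.2, ?_, ?_⟩
  · intro t ht
    by_contra hcon
    apply hnb.1
    rw [hbad1, Finset.mem_biUnion]
    refine ⟨c', hcc.2, Finset.mem_biUnion.2 ⟨t, ?_, ?_⟩⟩
    · rw [Multiset.mem_toFinset, mem_roots (hfc g c' hg), IsRoot.def, eval_sub, eval_C, ht,
        sub_self]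
    · rw [Finset.mem_product]
      exact ⟨Finset.mem_filter.2 ⟨hcc.1, hcon⟩, Finset.mem_singleton_self _⟩
  · intro t ht
    by_contra hcon
    apply hnb.2
    rw [hbad2, Finset.mem_biUnion]
    refine ⟨c, hcc.1, Finset.mem_biUnion.2 ⟨t, ?_, ?_⟩⟩
    · rw [Multiset.mem_toFinset, mem_roots (hfc f c hf), IsRoot.def, eval_sub, eval_C, ht,
        sub_self]
    · rw [Finset.mem_product]
      exact ⟨Finset.mem_singleton_self _, Finset.mem_filter.2 ⟨hcc.2, hcon⟩⟩

/-- at most one constant is strictly close to a given element -/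
lemma small_finite (x : K) : {c : k | ¬ L.big (x - algebraMap k K c)}.Finite :=
  Set.Subsingleton.finite fun _ hc _ hc' => small_unique hc hc'

/-- data of one restricted polynomial -/
lemma line_at {d : ℕ} {q' : Fin d → k} {A : MvPolynomial (Fin d) k} (hA : A.totalDegree ≠ 0)
    (hq'A : MvPolynomial.eval q' (topForm A) ≠ 0) {m : ℝ} (hm : 0 ≤ m) {x0 : Fin d → K}
    (hx0 : ∀ i, L.le (x0 i) m) {c : k}
    (hc : L.big (MvPolynomial.aeval x0 A - algebraMap k K c)) :
    ((dirPoly x0 q' A) - Polynomial.C (algebraMap k K c)).natDegree = A.totalDegree ∧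
    ((dirPoly x0 q' A) - Polynomial.C (algebraMap k K c)) ≠ 0 ∧
    L.lg ((dirPoly x0 q' A) - Polynomial.C (algebraMap k K c)).leadingCoeff = 0 ∧
    (((dirPoly x0 q' A) - Polynomial.C (algebraMap k K c)).eval 0 ≠ 0 ∧
      L.lg (((dirPoly x0 q' A) - Polynomial.C (algebraMap k K c)).eval 0) =
        L.fl 0 (MvPolynomial.aeval x0 A)) ∧
    (∀ y, ((dirPoly x0 q' A) - Polynomial.C (algebraMap k K c)).eval y = 0 →
      L.le y m ∧ -(A.totalDegree * m) ≤ L.lg y) := by
  obtain ⟨h1, h2, h3⟩ := natDegree_dirPoly_sub x0 hA hq'A (algebraMap k K c)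
  have hbd : Bd L m A.totalDegree (dirPoly x0 q' A) := bd_dirPoly hm hx0 q' le_rfl
  have hfbd : Bd L m A.totalDegree (dirPoly x0 q' A - Polynomial.C (algebraMap k K c)) :=
    hbd.sub ((Bd.C (le_const c)).mono hm (Nat.zero_le _))
  have hev0 : (dirPoly x0 q' A).eval 0 = MvPolynomial.aeval x0 A := by
    rw [eval_dirPoly]
    congr 2
    ext i
    simp
  refine ⟨h1, h2, ?_, ?_, ?_⟩
  · rw [h3]
    exact L.lg_const hq'A
  · rw [eval_sub, eval_C, hev0]
    exact ⟨hc.1, (fl_eq_of_big hc).symm⟩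
  · intro y hy
    have hlc : (dirPoly x0 q' A - Polynomial.C (algebraMap k K c)).coeff A.totalDegree =
        algebraMap k K (MvPolynomial.eval q' (topForm A)) := by
      rw [← h3, leadingCoeff, h1]
    refine ⟨hfbd.root_le ?_ ?_ hy, ?_⟩
    · rw [hlc]
      exact (map_ne_zero_iff _ (algebraMap k K).injective).2 hq'A
    · rw [hlc]
      exact L.lg_const hq'A
    · by_contra hcon
      push Not at hcon
      set ε : ℝ := -(A.totalDegree * m) - L.lg y with hε
      have hε0 : 0 < ε := by linarith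
      have h4 := le_diff' (L := L) hm hε0.le hx0 q' (P := A) le_rfl (α := y)
        (fun _ => by rw [hε]; linarith)
      rw [← eval_dirPoly] at h4
      have h5 : (dirPoly x0 q' A).eval y = algebraMap k K c := by
        rw [eval_sub, eval_C, sub_eq_zero] at hy
        exact hy
      rw [h5] at h4
      have h6 : algebraMap k K c - MvPolynomial.aeval x0 A ≠ 0 := by
        rw [← neg_sub, neg_ne_zero]
        exact hc.1
      have h7 := h4 h6
      rw [L.lg_sub_comm] at h7
      have := hc.2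
      linarith

end Aux

variable {d : ℕ} {k : Type*} [Field k] [IsAlgClosed k] [CharZero k]

/-- **The main inequality at an arbitrary point.** -/
theorem main_at {K : Type*} [Field K] [IsAlgClosed K] [CharZero K] [Algebra k K]
    (L : LgData k K) {χ : ℝ →+ k} (hχ : Function.Injective χ) (hd : 2 ≤ d)
    (G : MvPolynomial (Fin d) k ≃ₐ[k] MvPolynomial (Fin d) k) {D : ℝ} (hD : Deg2W G D)
    (i0 : Fin d) {P : MvPolynomial (Fin d) k} (hP : P.totalDegree ≠ 0) {m : ℝ} (hm : 0 ≤ m)
    {x0 : Fin d → K} (hx0 : ∀ i, L.le (x0 i) m) :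
    (L.fl 0 (MvPolynomial.aeval x0 (G P)) / (G P).totalDegree -
      L.fl 0 (MvPolynomial.aeval x0 (G (MvPolynomial.X i0))) /
        (G (MvPolynomial.X i0)).totalDegree) ^ 2 ≤
    (m + ((G P).totalDegree + (G (MvPolynomial.X i0)).totalDegree) * m) *
      (2 / ((G P).totalDegree * (G (MvPolynomial.X i0)).totalDegree) *
        (P.totalDegree * (D * m))) := by
  classical
  set A := G P with hA
  set B := G (MvPolynomial.X i0) with hB
  have hA0 : A.totalDegree ≠ 0 := totalDegree_apply_ne_zero G hP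
  have hB0 : B.totalDegree ≠ 0 := Nat.one_le_iff_ne_zero.1 (one_le_totalDegree_X G i0)
  have hne : ∀ Q : MvPolynomial (Fin d) k, Q.totalDegree ≠ 0 → topForm Q ≠ 0 := fun Q hQ =>
    topForm_ne_zero fun h => hQ (by rw [h, MvPolynomial.totalDegree_zero])
  obtain ⟨q', hq'⟩ := exists_eval_ne_zero (mul_ne_zero (hne _ hA0) (hne _ hB0))
  rw [map_mul] at hq'
  have hq'A := left_ne_zero_of_mul hq'
  have hq'B := right_ne_zero_of_mul hq'
  set fA := dirPoly x0 q' A with hfA
  set fB := dirPoly x0 q' B with hfB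
  have hbdA : Bd L m A.totalDegree (dirPoly x0 q' A) := bd_dirPoly hm hx0 q' le_rfl
  have hAnd : fA.natDegree = A.totalDegree := by
    have := (natDegree_dirPoly_sub x0 hA0 hq'A (0 : K)).1
    rwa [C_0, sub_zero] at this
  have hBnd : fB.natDegree = B.totalDegree := by
    have := (natDegree_dirPoly_sub x0 hB0 hq'B (0 : K)).1
    rwa [C_0, sub_zero] at this
  obtain ⟨T, hT⟩ := exists_crit (k := k) (f := fB) (by rw [hBnd]; exact Nat.pos_of_ne_zero hB0)
  obtain ⟨c, c', hcT, hc'T, hlev1, hlev2⟩ := exists_levels' (L := L) fA fB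
    (by rw [hAnd]; exact Nat.pos_of_ne_zero hA0) (by rw [hBnd]; exact Nat.pos_of_ne_zero hB0)
    (T ∪ (small_finite (L := L) (MvPolynomial.aeval x0 A)).toFinset ∪
      (small_finite (L := L) (MvPolynomial.aeval x0 B)).toFinset)
  rw [Finset.mem_union, Finset.mem_union, not_or, not_or, Set.Finite.mem_toFinset,
    Set.Finite.mem_toFinset] at hcT hc'T
  have hbigc : L.big (MvPolynomial.aeval x0 A - algebraMap k K c) := not_not.1 hcT.1.2
  have hbigc' : L.big (MvPolynomial.aeval x0 B - algebraMap k K c') := not_not.1 hc'T.2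
  obtain ⟨hA2, hA3, hA4, hA5, hA6⟩ := line_at (L := L) hA0 hq'A hm hx0 hbigc
  obtain ⟨hB2, hB3, hB4, hB5, hB6⟩ := line_at (L := L) hB0 hq'B hm hx0 hbigc'
  obtain ⟨α, hα1, hα2, -⟩ := split_data (L := L) hA2 hA3 hA4
  obtain ⟨β, hβ1, hβ2, hβ3⟩ := split_data (L := L) hB2 hB3 hB4
  have hβinj := hβ3 (hT c' hc'T.1.1)
  -- facts about the roots
  have hα0 : ∀ i, α i ≠ 0 := fun i h => hA5.1 ((hα1 0).2 ⟨i, h⟩)
  have hβ0 : ∀ j, β j ≠ 0 := fun j h => hB5.1 ((hβ1 0).2 ⟨j, h⟩)
  have hαr : ∀ i, (fA - Polynomial.C (algebraMap k K c)).eval (α i) = 0 := fun i =>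
    (hα1 _).2 ⟨i, rfl⟩
  have hβr : ∀ j, (fB - Polynomial.C (algebraMap k K c')).eval (β j) = 0 := fun j =>
    (hβ1 _).2 ⟨j, rfl⟩
  have hsα : ∑ i, L.lg (α i) = L.fl 0 (MvPolynomial.aeval x0 A) := by
    rw [← hA5.2, hα2 0 hA5.1]
    exact Finset.sum_congr rfl fun i _ => by rw [zero_sub, L.lg_neg]
  have hsβ : ∑ j, L.lg (β j) = L.fl 0 (MvPolynomial.aeval x0 B) := by
    rw [← hB5.2, hβ2 0 hB5.1]
    exact Finset.sum_congr rfl fun i _ => by rw [zero_sub, L.lg_neg]
  have hbigA : ∀ j, L.big ((fA - Polynomial.C (algebraMap k K c)).eval (β j)) := by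
    intro j
    have h1 := hβr j
    rw [Polynomial.eval_sub, Polynomial.eval_C, sub_eq_zero] at h1
    rw [Polynomial.eval_sub, Polynomial.eval_C]
    exact hlev1 _ h1
  have hbigB : ∀ i, L.big ((fB - Polynomial.C (algebraMap k K c')).eval (α i)) := by
    intro i
    have h1 := hαr i
    rw [Polynomial.eval_sub, Polynomial.eval_C, sub_eq_zero] at h1
    rw [Polynomial.eval_sub, Polynomial.eval_C]
    exact hlev2 _ h1
  have hαβ : ∀ i j, α i ≠ β j := fun i j h => (hbigA j).1 (h ▸ hαr i)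
  have h1 : ∀ j, L.lg ((fA - Polynomial.C (algebraMap k K c)).eval (β j)) =
      ∑ i, L.lg (β j - α i) := fun j => hα2 _ (hbigA j).1
  have h2 : ∀ i, L.lg ((fB - Polynomial.C (algebraMap k K c')).eval (α i)) =
      ∑ j, L.lg (α i - β j) := fun i => hβ2 _ (hbigB i).1
  have ha0' : (0 : ℝ) ≤ A.totalDegree := Nat.cast_nonneg _
  have hb0' : (0 : ℝ) ≤ B.totalDegree := Nat.cast_nonneg _
  have hen := energy (L := L) (Nat.pos_of_ne_zero hA0) (Nat.pos_of_ne_zero hB0) α β
    (T := m) (M := (A.totalDegree + B.totalDegree) * m) hm (by positivity) hα0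
    (fun i => (hA6 _ (hαr i)).1 (hα0 i))
    (fun i => by
      have := (hA6 _ (hαr i)).2
      nlinarith [mul_nonneg hb0' hm]) hβ0 (fun j => (hB6 _ (hβr j)).1 (hβ0 j))
    (fun j => by
      have := (hB6 _ (hβr j)).2
      nlinarith [mul_nonneg ha0' hm]) (by rw [hsα]; exact le_fl _ _)
    (by rw [hsβ]; exact le_fl _ _) hαβ
    (fun j => by rw [← h1]; exact (hbigA j).2) (fun i => by rw [← h2]; exact (hbigB i).2)
  rw [hsα, hsβ] at hen
  refine hen.trans ?_
  refine mul_le_mul_of_nonneg_left ?_ (by positivity)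
  refine mul_le_mul_of_nonneg_left ?_ (by positivity)
  -- the fiber bound
  obtain ⟨H, hH0, hH1, hH2⟩ := fib_at L hχ hd G hD i0 hm hx0 hq'B c' rfl β hβinj (by
    intro y
    rw [← hβ1 y, Polynomial.eval_sub, Polynomial.eval_C, sub_eq_zero])
  rw [Finset.sum_comm]
  have hj : ∀ j, ∑ i, L.lg (α i - β j) ≤ P.totalDegree * H j := by
    intro j
    have h5 : ∑ i, L.lg (α i - β j) = ∑ i, L.lg (β j - α i) :=
      Finset.sum_congr rfl fun i _ => L.lg_sub_comm _ _
    rw [h5, ← h1]
    have h6 : L.le ((fA - Polynomial.C (algebraMap k K c)).eval (β j)) (P.totalDegree * H j) := by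
      rw [Polynomial.eval_sub, Polynomial.eval_C, hfA, eval_dirPoly, hA, ← aeval_pt]
      refine le.sub ?_ ((le_const c).mono (mul_nonneg (Nat.cast_nonneg _) (hH0 j)))
      exact le_aeval (hH0 j) (hH1 j) P
    exact h6 (hbigA j).1
  refine (Finset.sum_le_sum fun j _ => hj j).trans ?_
  rw [← Finset.mul_sum]
  exact mul_le_mul_of_nonneg_left hH2 (Nat.cast_nonneg _)

end Pool.Agent.H17Dyn
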