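import Pool.Agent.H17Dyn.Fiber
import Pool.Agent.H17Dyn.LineGen

/-!
# The main inequality in dimension three
-/

set_option autoImplicit false
set_option linter.unusedSectionVars false

namespace Pool.Agent.H17Dyn

open LgData

variable {k K : Type*} [Field k] [Infinite k] [CharZero k] [Field K] [IsAlgClosed K] [Algebra k K]
  (L : LgData k K)

/-- the path `F (s q)` has polynomial coordinates -/
lemma exists_path {d : ℕ} (F : MvPolynomial (Fin d) k ≃ₐ[k] MvPolynomial (Fin d) k)
    (q : Fin d → k) : ∃ p : Fin d → Polynomial k, (∀ i, Polynomial.aeval L.s (p i) =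
      pt F (fun i => algebraMap k K (q i) * L.s) i) ∧
      ∀ i, L.le (Polynomial.aeval L.s (p i)) (adeg F) := by
  set p : Fin d → Polynomial k := fun i => dirPoly (0 : Fin d → k) q (F (MvPolynomial.X i)) with hp
  have hps : ∀ i, Polynomial.aeval L.s (p i) = pt F (fun i => algebraMap k K (q i) * L.s) i := by
    intro i
    rw [hp, ← Polynomial.eval_map_algebraMap]
    have h3 := map_dirPoly (Algebra.ofId k K) (0 : Fin d → k) q (F (MvPolynomial.X i))
    have h4 : ((Algebra.ofId k K : k →ₐ[k] K) : k →+* K) = algebraMap k K := rfl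
    rw [h4] at h3
    rw [h3, eval_dirPoly, pt]
    congr 2
    ext j
    simp
  refine ⟨p, hps, fun i => ?_⟩
  rw [hps]
  refine (le_aeval (L := L) zero_le_one (fun i => ?_) (F (MvPolynomial.X i))).mono ?_
  · exact ((le_const (q i)).mul (fun _ => L.lg_s.le)).mono (le_of_eq (zero_add _))
  · rw [mul_one]
    exact_mod_cast totalDegree_X_le F i

lemma fibCond_three (F G : MvPolynomial (Fin 3) k ≃ₐ[k] MvPolynomial (Fin 3) k) (i0 : Fin 3) :
    FibCond L F G i0 (MvPolynomial.X 0) (2 * adeg G.symm * adeg F) := by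
  intro q q' c b β hQ _ _ hinj hβ
  rw [MvPolynomial.eval_X] at hQ
  obtain ⟨p, hp, hpm⟩ := exists_path L F q
  have hp' : (fun i => Polynomial.aeval L.s (p i)) =
      pt F (fun i => algebraMap k K (q i) * L.s) := funext hp
  obtain ⟨⟨H, hH0, hH1, hH2⟩, -⟩ := fiber_bound (L := L) G p (Nat.cast_nonneg _) hpm q' hQ i0 c β
    hinj (by rw [hp']; exact hβ)
  refine ⟨H, hH0, fun j i => ?_, hH2⟩
  have := hH1 j i
  simp only [hp] at this
  exact this

include L in
/-- **The main inequality.** -/
theorem main_lemma [CharZero K] (F G : MvPolynomial (Fin 3) k ≃ₐ[k] MvPolynomial (Fin 3) k)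
    (P : MvPolynomial (Fin 3) k) (hP : P.totalDegree ≠ 0) (i0 : Fin 3) :
    (((F (G P)).totalDegree : ℝ) / (G P).totalDegree -
      (F (G (MvPolynomial.X i0))).totalDegree / (G (MvPolynomial.X i0)).totalDegree) ^ 2 ≤
    ((adeg F : ℝ) + adeg F.symm * adeg F) * (2 / ((G P).totalDegree *
      (G (MvPolynomial.X i0)).totalDegree) * (P.totalDegree * (2 * adeg G.symm * adeg F))) :=
  main_lemma_gen L F G P hP i0 (MvPolynomial.X_ne_zero _) (fibCond_three L F G i0)

end Pool.Agent.H17Dyn
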