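import Pool.Agent.H17Dyn.Dom

/-!
# Newton polygons and extension of absolute values
-/

set_option autoImplicit false

namespace Pool.Agent.H17Dyn

open LgData Polynomial

section UDom

variable {k K : Type*} [Field k] [Field K] [Algebra k K] {L : LgData k K}

lemma lt_sum {ι : Type*} (t : Finset ι) (f : ι → K) {r : ℝ}
    (h : ∀ i ∈ t, f i ≠ 0 → L.lg (f i) < r) : ∑ i ∈ t, f i ≠ 0 → L.lg (∑ i ∈ t, f i) < r := by
  classical
  induction t using Finset.induction_on with
  | empty => simp
  | insert a t ha ih =>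
    rw [Finset.sum_insert ha]
    intro hne
    have ih' := ih fun i hi => h i (Finset.mem_insert_of_mem hi)
    rcases eq_or_ne (f a) 0 with h0 | h0
    · rw [h0, zero_add] at hne ⊢
      exact ih' hne
    rcases eq_or_ne (∑ i ∈ t, f i) 0 with h1 | h1
    · rw [h1, add_zero]
      exact h a (Finset.mem_insert_self a t) h0
    · exact (L.lg_add h0 h1 hne).trans_lt
        (max_lt (h a (Finset.mem_insert_self a t) h0) (ih' h1))

/-- the coefficient of degree `j` strictly dominates at radius `g` -/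
def UDom (L : LgData k K) (g : ℝ) (F : K[X]) (j : ℕ) : Prop :=
  F.coeff j ≠ 0 ∧ ∀ i, i ≠ j → F.coeff i ≠ 0 →
    L.lg (F.coeff i) + i * g < L.lg (F.coeff j) + j * g

lemma UDom.mul {g : ℝ} {F F' : K[X]} {j j' : ℕ} (h : UDom L g F j) (h' : UDom L g F' j') :
    UDom L g (F * F') (j + j') := by
  classical
  have hle : ∀ i, F.coeff i ≠ 0 → L.lg (F.coeff i) + i * g ≤ L.lg (F.coeff j) + j * g := by
    intro i hi
    rcases eq_or_ne i j with rfl | hij
    · exact le_rfl
    · exact (h.2 i hij hi).le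
  have hle' : ∀ i, F'.coeff i ≠ 0 → L.lg (F'.coeff i) + i * g ≤ L.lg (F'.coeff j') + j' * g := by
    intro i hi
    rcases eq_or_ne i j' with rfl | hij
    · exact le_rfl
    · exact (h'.2 i hij hi).le
  -- every pair different from `(j, j')` is strictly smaller
  have key : ∀ p : ℕ × ℕ, p ≠ (j, j') → F.coeff p.1 * F'.coeff p.2 ≠ 0 →
      L.lg (F.coeff p.1 * F'.coeff p.2) <
        L.lg (F.coeff j * F'.coeff j') + (j + j') * g - (p.1 + p.2) * g := by
    intro p hp hne
    have h1 := left_ne_zero_of_mul hne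
    have h2 := right_ne_zero_of_mul hne
    rw [L.lg_mul h1 h2, L.lg_mul h.1 h'.1]
    rcases eq_or_ne p.1 j with hp1 | hp1
    · have hp2 : p.2 ≠ j' := fun h3 => hp (Prod.ext hp1 h3)
      have := h'.2 p.2 hp2 h2
      have := hle p.1 h1
      linarith
    · have := h.2 p.1 hp1 h1
      have := hle' p.2 h2
      linarith
  have hne : F.coeff j * F'.coeff j' ≠ 0 := mul_ne_zero h.1 h'.1
  have htop := lg_sum_unique (L := L) (Finset.HasAntidiagonal.antidiagonal (j + j'))
    (fun p => F.coeff p.1 * F'.coeff p.2) (j, j')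
    (Finset.HasAntidiagonal.mem_antidiagonal.2 rfl) hne (by
      intro p hp hpne hp0
      have h1 := key p hpne hp0
      have h2 : p.1 + p.2 = j + j' := Finset.HasAntidiagonal.mem_antidiagonal.1 hp
      have h3 : (p.1 : ℝ) + p.2 = j + j' := by exact_mod_cast h2
      rw [h3] at h1
      simpa using h1)
  rw [← coeff_mul] at htop
  refine ⟨htop.1, fun i hij hi => ?_⟩
  rw [htop.2]
  have hlt : L.lg ((F * F').coeff i) < L.lg (F.coeff j * F'.coeff j') + (j + j') * g - i * g := by
    rw [coeff_mul] at hi ⊢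
    refine lt_sum _ _ (fun p hp hp0 => ?_) hi
    have h2 : p.1 + p.2 = i := Finset.HasAntidiagonal.mem_antidiagonal.1 hp
    have h3 : (p.1 : ℝ) + p.2 = i := by exact_mod_cast h2
    have h4 := key p (by
      rintro rfl
      exact hij h2.symm) hp0
    rw [h3] at h4
    exact h4
  push_cast
  linarith

lemma udom_linear {g : ℝ} {ρ : K} (h : ρ = 0 ∨ L.lg ρ ≠ g) : ∃ j, UDom L g (X - C ρ) j := by
  have hc : ∀ i, 2 ≤ i → (X - C ρ).coeff i = 0 := by
    intro i hi
    rw [coeff_sub, coeff_X, coeff_C, if_neg (by omega), if_neg (by omega), sub_zero]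
  have h0 : (X - C ρ).coeff 0 = -ρ := by simp
  have h1 : (X - C ρ).coeff 1 = 1 := by
    rw [coeff_sub, coeff_X_one, coeff_C, if_neg one_ne_zero, sub_zero]
  by_cases hρ : ρ = 0
  · refine ⟨1, by rw [h1]; exact one_ne_zero, fun i hi hne => ?_⟩
    exfalso
    apply hne
    rcases Nat.lt_or_ge i 2 with h2 | h2
    · interval_cases i
      · rw [h0, hρ, neg_zero]
      · exact absurd rfl hi
    · exact hc i h2
  · have hg := h.resolve_left hρ
    rcases lt_or_gt_of_ne hg with h2 | h2
    · refine ⟨1, by rw [h1]; exact one_ne_zero, fun i hi hne => ?_⟩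
      rcases Nat.lt_or_ge i 2 with h3 | h3
      · interval_cases i
        · rw [h0, h1, L.lg_neg, L.lg_one]
          push_cast
          linarith
        · exact absurd rfl hi
      · exact absurd (hc i h3) hne
    · refine ⟨0, by rw [h0]; exact neg_ne_zero.2 hρ, fun i hi hne => ?_⟩
      rcases Nat.lt_or_ge i 2 with h3 | h3
      · interval_cases i
        · exact absurd rfl hi
        · rw [h0, h1, L.lg_neg, L.lg_one]
          push_cast
          linarith
      · exact absurd (hc i h3) hne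

lemma udom_prod {g : ℝ} (s : Multiset K) (h : ∀ ρ ∈ s, ρ = 0 ∨ L.lg ρ ≠ g) :
    ∃ j, UDom L g (s.map fun ρ => X - C ρ).prod j := by
  induction s using Multiset.induction_on with
  | empty =>
    refine ⟨0, by simp, fun i hi hne => ?_⟩
    simp only [Multiset.map_zero, Multiset.prod_zero, coeff_one, if_neg hi] at hne
    exact absurd rfl hne
  | cons a s ih =>
    obtain ⟨j, hj⟩ := ih fun ρ hρ => h ρ (Multiset.mem_cons_of_mem hρ)
    obtain ⟨j', hj'⟩ := udom_linear (h a (Multiset.mem_cons_self a s))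
    rw [Multiset.map_cons, Multiset.prod_cons]
    exact ⟨j' + j, hj'.mul hj⟩

end UDom

section Ext

variable {k E K H : Type*} [Field k] [Field E] [Field K] [Field H] [Algebra k K] [Algebra k H]
  [Algebra E K] [Algebra E H] (LK : LgData k K) (LH : LgData k H)
  (hE : ∀ c : E, c ≠ 0 → LH.lg (algebraMap E H c) = LK.lg (algebraMap E K c))

include hE in
/-- the sizes of the roots: Newton polygons -/
lemma exists_root_lg [IsAlgClosed H] {p : E[X]} (hp : p.Monic) {a : K} (ha : a ≠ 0)
    (hpa : aeval a p = 0) : ∃ ρ : H, aeval ρ p = 0 ∧ ρ ≠ 0 ∧ LH.lg ρ = LK.lg a := by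
  classical
  by_contra hcon
  push Not at hcon
  set f : H[X] := p.map (algebraMap E H) with hf
  have hfm : f.Monic := hp.map _
  have hroots : ∀ ρ ∈ f.roots, ρ = 0 ∨ LH.lg ρ ≠ LK.lg a := by
    intro ρ hρ
    rcases eq_or_ne ρ 0 with h0 | h0
    · exact Or.inl h0
    · refine Or.inr (hcon ρ ?_ h0)
      have := isRoot_of_mem_roots hρ
      rwa [IsRoot.def, hf, eval_map_algebraMap] at this
  obtain ⟨j, hj⟩ := udom_prod (L := LH) f.roots hroots
  rw [← (IsAlgClosed.splits f).eq_prod_roots_of_monic hfm] at hj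
  have hcoef : ∀ i, f.coeff i = algebraMap E H (p.coeff i) := fun i => coeff_map _ _
  have hcj : p.coeff j ≠ 0 := by
    intro h
    apply hj.1
    rw [hcoef, h, map_zero]
  have hsum : aeval a p = ∑ i ∈ p.support, algebraMap E K (p.coeff i) * a ^ i := by
    rw [aeval_eq_sum_range, ← Finset.sum_subset (s₁ := p.support)]
    · exact Finset.sum_congr rfl fun i _ => Algebra.smul_def _ _
    · intro i hi
      exact Finset.mem_range_succ_iff.2 (le_natDegree_of_mem_supp i hi)
    · intro i _ hi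
      rw [notMem_support_iff.1 hi, zero_smul]
  have hterm : ∀ i, p.coeff i ≠ 0 → algebraMap E K (p.coeff i) * a ^ i ≠ 0 ∧
      LK.lg (algebraMap E K (p.coeff i) * a ^ i) =
        LH.lg (f.coeff i) + i * LK.lg a := by
    intro i hi
    have h1 : algebraMap E K (p.coeff i) ≠ 0 := by simpa using hi
    refine ⟨mul_ne_zero h1 (pow_ne_zero _ ha), ?_⟩
    rw [LK.lg_mul h1 (pow_ne_zero _ ha), lg_pow ha, hcoef, hE _ hi]
  have := lg_sum_unique (L := LK) p.support (fun i => algebraMap E K (p.coeff i) * a ^ i) j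
    (mem_support_iff.2 hcj) (hterm j hcj).1 (by
      intro i hi hij _
      have hci : p.coeff i ≠ 0 := mem_support_iff.1 hi
      rw [(hterm i hci).2, (hterm j hcj).2]
      refine hj.2 i hij ?_
      rw [hcoef]
      simpa using hci)
  rw [← hsum] at this
  exact this.1 hpa

include hE in
lemma exists_lift_lg [IsAlgClosed H] [Algebra.IsAlgebraic E K] {a : K} (ha : a ≠ 0) :
    ∃ τ : K →ₐ[E] H, LH.lg (τ a) = LK.lg a := by
  obtain ⟨ρ, h1, -, h3⟩ := exists_root_lg LK LH hE
    (minpoly.monic (Algebra.IsIntegral.isIntegral (R := E) a)) ha (minpoly.aeval E a)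
  obtain ⟨τ, hτ⟩ := IntermediateField.exists_algHom_of_splits_of_aeval (F := E) (E := K) (K := H)
    (fun x => ⟨Algebra.IsIntegral.isIntegral x, IsAlgClosed.splits _⟩) h1
  exact ⟨τ, by rw [hτ, h3]⟩

include hE in
/-- an embedding compatible with the absolute values on a given finite family -/
theorem exists_lift_lg_family [IsAlgClosed H] [Algebra.IsAlgebraic E K] {n : ℕ} (a : Fin n → K)
    (ha : ∀ i, a i ≠ 0) : ∃ τ : K →ₐ[E] H, ∀ i, LH.lg (τ (a i)) = LK.lg (a i) := by
  classical
  have h1 : ∀ N : ℕ, ∃ τ : K →ₐ[E] H, LH.lg (τ (∏ i, a i ^ (N ^ (i : ℕ)))) =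
      LK.lg (∏ i, a i ^ (N ^ (i : ℕ))) := fun N =>
    exists_lift_lg LK LH hE (Finset.prod_ne_zero_iff.2 fun i _ => pow_ne_zero _ (ha i))
  choose τ hτ using h1
  have hmem : ∀ N i, τ N (a i) ∈ (minpoly E (a i)).rootSet H := by
    intro N i
    rw [mem_rootSet_of_ne (minpoly.ne_zero (Algebra.IsIntegral.isIntegral (a i))),
      aeval_algHom_apply, minpoly.aeval, map_zero]
  let Φ : ℕ → (∀ i : Fin n, (minpoly E (a i)).rootSet H) := fun N i => ⟨τ N (a i), hmem N i⟩
  obtain ⟨b, hb⟩ := Finite.exists_infinite_fiber Φ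
  obtain ⟨⟨N₀, hN₀⟩⟩ := hb.nonempty
  -- the polynomial with coefficients the differences of the sizes
  set Q : ℝ[X] := ∑ i : Fin n, C (LH.lg (b i : H) - LK.lg (a i)) * X ^ (i : ℕ) with hQ
  have hroot : ∀ N : ℕ, Φ N = b → Q.eval (N : ℝ) = 0 := by
    intro N hN
    have hbi : ∀ i, τ N (a i) = b i := fun i => by rw [← hN]
    have h2 := hτ N
    rw [map_prod, lg_prod fun i _ => (map_ne_zero (τ N)).2 (pow_ne_zero _ (ha i)), lg_prod fun i _ => pow_ne_zero _ (ha i)] at h2
    have h3 : ∀ i ∈ (Finset.univ : Finset (Fin n)), LH.lg (τ N (a i ^ (N ^ (i : ℕ)))) =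
        (N : ℝ) ^ (i : ℕ) * LH.lg (b i : H) := by
      intro i _
      rw [map_pow, lg_pow (by simpa using ha i), hbi]
      push_cast
      ring
    have h4 : ∀ i ∈ (Finset.univ : Finset (Fin n)), LK.lg (a i ^ (N ^ (i : ℕ))) =
        (N : ℝ) ^ (i : ℕ) * LK.lg (a i) := by
      intro i _
      rw [lg_pow (ha i)]
      push_cast
      ring
    rw [Finset.sum_congr rfl h3, Finset.sum_congr rfl h4] at h2
    rw [hQ, eval_finsetSum]
    simp only [eval_mul, eval_C, eval_pow, eval_X]
    rw [← sub_eq_zero, ← Finset.sum_sub_distrib] at h2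
    rw [← h2]
    exact Finset.sum_congr rfl fun i _ => by ring
  have hQ0 : Q = 0 := by
    apply eq_zero_of_infinite_isRoot
    have hinf : Set.Infinite (Φ ⁻¹' {b}) := Set.infinite_coe_iff.1 hb
    refine Set.infinite_of_injOn_mapsTo (f := fun N : ℕ => (N : ℝ)) (s := Φ ⁻¹' {b})
      (fun x _ y _ h => Nat.cast_injective h) ?_ hinf
    intro N hN
    exact hroot N hN
  refine ⟨τ N₀, fun i => ?_⟩
  have h5 : Q.coeff (i : ℕ) = LH.lg (b i : H) - LK.lg (a i) := by
    rw [hQ, finsetSum_coeff]
    simp only [coeff_C_mul, coeff_X_pow]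
    rw [Finset.sum_eq_single i]
    · simp
    · intro j _ hji
      rw [if_neg (fun h => hji (Fin.ext h.symm)), mul_zero]
    · intro h
      exact absurd (Finset.mem_univ i) h
  rw [hQ0, coeff_zero] at h5
  have h6 : τ N₀ (a i) = b i := by
    have : Φ N₀ = b := hN₀
    rw [← this]
  rw [h6]
  linarith

/-- the sizes of algebraic elements are commensurable with those of the base -/
lemma lg_mem_span [Algebra.IsAlgebraic E K] (S : Submodule ℚ ℝ)
    (hS : ∀ c : E, c ≠ 0 → LK.lg (algebraMap E K c) ∈ S) {a : K} (ha : a ≠ 0) :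
    LK.lg a ∈ S := by
  classical
  set p := minpoly E a with hp
  have hp0 : p ≠ 0 := minpoly.ne_zero (Algebra.IsIntegral.isIntegral (R := E) a)
  have hterm : ∀ i, p.coeff i ≠ 0 → algebraMap E K (p.coeff i) * a ^ i ≠ 0 ∧
      LK.lg (algebraMap E K (p.coeff i) * a ^ i) =
        LK.lg (algebraMap E K (p.coeff i)) + i * LK.lg a := by
    intro i hi
    have h1 : algebraMap E K (p.coeff i) ≠ 0 := by simpa using hi
    refine ⟨mul_ne_zero h1 (pow_ne_zero _ ha), ?_⟩
    rw [LK.lg_mul h1 (pow_ne_zero _ ha), lg_pow ha]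
  have hsum : aeval a p = ∑ i ∈ p.support, algebraMap E K (p.coeff i) * a ^ i := by
    rw [aeval_eq_sum_range, ← Finset.sum_subset (s₁ := p.support)]
    · exact Finset.sum_congr rfl fun i _ => Algebra.smul_def _ _
    · intro i hi
      exact Finset.mem_range_succ_iff.2 (le_natDegree_of_mem_supp i hi)
    · intro i _ hi
      rw [notMem_support_iff.1 hi, zero_smul]
  -- two terms of the same size
  have h2 : ∃ i ∈ p.support, ∃ j ∈ p.support, i ≠ j ∧
      LK.lg (algebraMap E K (p.coeff i)) + i * LK.lg a =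
        LK.lg (algebraMap E K (p.coeff j)) + j * LK.lg a := by
    by_contra hcon
    push Not at hcon
    obtain ⟨j, hj, hmax⟩ := Finset.exists_max_image p.support
      (fun i => LK.lg (algebraMap E K (p.coeff i)) + i * LK.lg a)
      (nonempty_support_iff.2 hp0)
    have := lg_sum_unique (L := LK) p.support (fun i => algebraMap E K (p.coeff i) * a ^ i) j hj
      (hterm j (mem_support_iff.1 hj)).1 (by
        intro i hi hij _
        rw [(hterm i (mem_support_iff.1 hi)).2, (hterm j (mem_support_iff.1 hj)).2]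
        exact lt_of_le_of_ne (hmax i hi) (hcon i hi j hj hij))
    rw [← hsum] at this
    exact this.1 (minpoly.aeval E a)
  obtain ⟨i, hi, j, hj, hij, heq⟩ := h2
  have hne : ((i : ℝ) - j) ≠ 0 := by
    rw [sub_ne_zero]
    exact_mod_cast hij
  have h3 : LK.lg a = (((i : ℚ) - j)⁻¹ : ℚ) •
      (LK.lg (algebraMap E K (p.coeff j)) - LK.lg (algebraMap E K (p.coeff i))) := by
    rw [Rat.smul_def]
    push_cast
    rw [eq_inv_mul_iff_mul_eq₀ hne]
    linarith
  rw [h3]
  exact S.smul_mem _ (S.sub_mem (hS _ (mem_support_iff.1 hj)) (hS _ (mem_support_iff.1 hi)))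

end Ext

end Pool.Agent.H17Dyn
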