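import Pool.Agent.H17Dyn.Deg2

/-!
# The fibre estimate for planes
-/

set_option autoImplicit false
set_option linter.unusedSectionVars false

attribute [-instance] HahnSeries.powerSeriesAlgebra

namespace Pool.Agent.H17Dyn

open LgData Polynomial

variable {d : ℕ} {k : Type*} [Field k] [IsAlgClosed k] [CharZero k]

theorem plane_bound {χ : ℝ →+ k} (hχ : Function.Injective χ)
    (G : MvPolynomial (Fin d) k ≃ₐ[k] MvPolynomial (Fin d) k) {D : ℝ} (hD : Deg2W G D)
    (q q' : Fin d → k) (i1 i2 : Fin d) (hind : q i1 * q' i2 - q i2 * q' i1 ≠ 0) (i0 : Fin d)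
    (hq' : MvPolynomial.eval q' (topForm (G (MvPolynomial.X i0))) ≠ 0) (c' : k) {b : ℕ}
    (hb : b = (G (MvPolynomial.X i0)).totalDegree) (β : Fin b → HahnSeries ℝ k)
    (hinj : Function.Injective β)
    (hβ : ∀ y, (dirPoly (fun i => algebraMap k (HahnSeries ℝ k) (q i) * (hahnLg k one_pos).s) q'
      (G (MvPolynomial.X i0))).eval y = algebraMap k _ c' ↔ ∃ j, β j = y) :
    ∃ H : Fin b → ℝ, (∀ j, 0 ≤ H j) ∧
      (∀ j i, (hahnLg k one_pos).le (pt G (fun i => algebraMap k (HahnSeries ℝ k) (q i) *
        (hahnLg k one_pos).s + algebraMap k _ (q' i) * β j) i) (H j)) ∧ ∑ j, H j ≤ D := by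
  classical
  set L := hahnLg k one_pos with hL
  set B := G (MvPolynomial.X i0) with hBdef
  have hB0 : B.totalDegree ≠ 0 := Nat.one_le_iff_ne_zero.1 (one_le_totalDegree_X G i0)
  set x : Fin d → HahnSeries ℝ k := fun i => algebraMap k _ (q i) * L.s with hx
  set z : Fin b → Fin d → HahnSeries ℝ k := fun j =>
    pt G (fun i => x i + algebraMap k _ (q' i) * β j) with hz
  have hq'0 : q' i1 ≠ 0 ∨ q' i2 ≠ 0 := by
    by_contra hcon
    push Not at hcon
    apply hind
    rw [hcon.1, hcon.2]
    ring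
  have hsinj := aeval_s_injective (k := k) L
  -- the points are distinct and not constant
  have hzinj : ∀ j j', j ≠ j' → z j ≠ z j' := by
    intro j j' hne h
    apply hne
    apply hinj
    have h1 := congrArg (pt G.symm) h
    rw [hz] at h1
    simp only at h1
    rw [pt_symm_pt, pt_symm_pt] at h1
    rcases hq'0 with h2 | h2
    · have h3 := congrFun h1 i1
      exact mul_left_cancel₀ (by simpa using h2) (add_left_cancel h3)
    · have h3 := congrFun h1 i2
      exact mul_left_cancel₀ (by simpa using h2) (add_left_cancel h3)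
  have hznc : ∀ j, ∃ i, z j i ∉ Set.range (algebraMap k (HahnSeries ℝ k)) := by
    intro j
    by_contra hcon
    push Not at hcon
    choose w hw using hcon
    have h1 : z j = fun i => algebraMap k _ (w i) := funext fun i => (hw i).symm
    have h2 := congrArg (pt G.symm) h1
    rw [hz] at h2
    simp only at h2
    rw [pt_symm_pt] at h2
    have h3 : ∀ i, pt G.symm (fun i => algebraMap k (HahnSeries ℝ k) (w i)) i =
        algebraMap k _ (pt G.symm w i) := by
      intro i
      rw [pt, pt, ← MvPolynomial.aeval_algebraMap_apply]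
      rfl
    have h4 : ∀ i, algebraMap k (HahnSeries ℝ k) (q i) * L.s + algebraMap k _ (q' i) * β j =
        algebraMap k _ (pt G.symm w i) := fun i => (congrFun h2 i).trans (h3 i)
    have h5 : algebraMap k (HahnSeries ℝ k) (q i1 * q' i2 - q i2 * q' i1) * L.s =
        algebraMap k _ (pt G.symm w i1 * q' i2 - pt G.symm w i2 * q' i1) := by
      have e1 := h4 i1
      have e2 := h4 i2
      rw [map_sub, map_sub, map_mul, map_mul, map_mul, map_mul, ← e1, ← e2]
      ring
    have h6 : algebraMap k (HahnSeries ℝ k) (q i1 * q' i2 - q i2 * q' i1) ≠ 0 :=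
      (map_ne_zero_iff _ (algebraMap k (HahnSeries ℝ k)).injective).2 hind
    have h7 := L.lg_mul h6 L.s_ne
    rw [h5, L.lg_const hind, L.lg_s, zero_add] at h7
    have h8 : L.le (algebraMap k (HahnSeries ℝ k)
      (pt G.symm w i1 * q' i2 - pt G.symm w i2 * q' i1)) 0 := le_const _
    have h9 := h8 (by
      rw [← h5]
      exact mul_ne_zero h6 L.s_ne)
    linarith
  obtain ⟨u, hu1, hu2, hu3⟩ := exists_form (L := L) z
  set h : Fin b → HahnSeries ℝ k := fun j => linForm u (z j) with hh
  have hhinj : Function.Injective h := by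
    intro j j' heq
    by_contra hne
    exact hu2 j j' (hzinj j j' hne) heq
  have hhnc : ∀ j, h j ∉ Set.range (algebraMap k (HahnSeries ℝ k)) := fun j => hu3 j (hznc j)
  set M := G (linPoly u) with hM
  -- the two forms are independent
  obtain ⟨j1, hj1, huj1⟩ : ∃ j1, j1 ≠ i0 ∧ u j1 ≠ 0 := by
    by_contra hcon
    push Not at hcon
    have hb0 : 0 < b := by
      rw [hb]
      exact Nat.pos_of_ne_zero hB0
    apply hhnc ⟨0, hb0⟩
    refine ⟨u i0 * c', ?_⟩
    have h1 : z ⟨0, hb0⟩ i0 = algebraMap k _ c' := by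
      have h2 := (hβ (β ⟨0, hb0⟩)).2 ⟨_, rfl⟩
      rw [eval_dirPoly] at h2
      exact h2
    rw [hh]
    simp only [linForm]
    rw [Finset.sum_eq_single i0 (fun i _ hi => by rw [hcon i hi, map_zero, zero_mul])
      (fun h => absurd (Finset.mem_univ _) h), h1, map_mul]
  -- the resultant as a polynomial in two variables
  set r : MvPolynomial (Fin 2) k := resPoly (fun i => MvPolynomial.C (q i) * MvPolynomial.X 0) q'
    B M (MvPolynomial.C c') (MvPolynomial.X 1) with hr
  have hrT : ∀ {T : Type _} [CommRing T] [Algebra k T] (s0 c0 : T),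
      MvPolynomial.aeval ![s0, c0] r = resPoly (fun i => algebraMap k T (q i) * s0) q' B M
        (algebraMap k T c') c0 := by
    intro T _ _ s0 c0
    rw [hr, map_resPoly]
    congr 1
    · funext i
      rw [map_mul, MvPolynomial.algHom_C, MvPolynomial.aeval_X]
      rfl
    · rw [MvPolynomial.algHom_C]
    · rw [MvPolynomial.aeval_X]
      rfl
  set a0 : k := MvPolynomial.eval q' (topForm B) ^ M.totalDegree with ha0
  have ha00 : a0 ≠ 0 := pow_ne_zero _ hq'
  have hval : ∀ c : HahnSeries ℝ k, MvPolynomial.aeval ![L.s, c] r =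
      algebraMap k _ a0 * ∏ j, (h j - c) := by
    intro c
    rw [hrT, resPoly_eq_enum x hB0 hq' M _ c hb hinj hβ]
    congr 1
    refine Finset.prod_congr rfl fun j _ => ?_
    rw [hM, aeval_pt_linPoly]
  obtain ⟨T, hT⟩ := generic_simple hχ hsinj r h ha00 hval hhinj hhnc
  obtain ⟨c1, hc1T, hc1⟩ := exists_const_avoid (L := L) (Finset.univ : Finset (Fin b)) h T
  have hc1' : ∀ j, L.big (h j - algebraMap k _ c1) := fun j => hc1 j (Finset.mem_univ j)
  -- the specialised resultant
  set p : k[X] := MvPolynomial.aeval ![X, C c1] r with hp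
  have hps : aeval L.s p = algebraMap k _ a0 * ∏ j, (h j - algebraMap k _ c1) := by
    rw [hp, map_two, aeval_X, aeval_C]
    exact hval _
  have hpne : p ≠ 0 := by
    intro h0
    rw [h0, map_zero] at hps
    refine mul_ne_zero ?_ (Finset.prod_ne_zero_iff.2 fun j _ => (hc1' j).1) hps.symm
    simpa using ha00
  have hpdeg : (p.natDegree : ℝ) = ∑ j, L.lg (h j - algebraMap k _ c1) := by
    rw [← (lg_aeval_s (L := L) hpne).2, hps, L.lg_mul (by simpa using ha00)
      (Finset.prod_ne_zero_iff.2 fun j _ => (hc1' j).1), L.lg_const ha00, zero_add,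
      lg_prod fun j _ => (hc1' j).1]
  have hpev : ∀ s0 : k, p.eval s0 = MvPolynomial.aeval ![s0, c1] r := by
    intro s0
    have h1 := map_two (aeval s0 : k[X] →ₐ[k] k) r X (C c1)
    rw [aeval_X, aeval_C, ← hp, coe_aeval_eq_eval] at h1
    exact h1
  have hpev' : ∀ s0 : k, (derivative p).eval s0 =
      MvPolynomial.aeval ![s0, c1] (MvPolynomial.pderiv 0 r) := by
    intro s0
    have h1 := chain_rule (Polynomial.derivative' (R := k))
      (MvPolynomial.aeval (R := k) ![(X : k[X]), C c1]) r
    rw [Fin.sum_univ_two, MvPolynomial.aeval_X, MvPolynomial.aeval_X] at h1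
    have h2 : ∀ f : k[X], (Polynomial.derivative' (R := k)) f = derivative f := fun f => rfl
    rw [h2, h2, h2] at h1
    have h3 : derivative p = MvPolynomial.aeval (R := k) ![(X : k[X]), C c1]
        (MvPolynomial.pderiv 0 r) := by
      rw [hp, h1]
      simp
    rw [h3]
    have h4 := map_two (aeval s0 : k[X] →ₐ[k] k) (MvPolynomial.pderiv 0 r) X (C c1)
    rw [aeval_X, aeval_C, coe_aeval_eq_eval] at h4
    exact h4
  have hsep : p.Separable := by
    rw [separable_def, isCoprime_iff_aeval_ne_zero_of_isAlgClosed k k]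
    intro s0
    rw [coe_aeval_eq_eval, hpev, hpev']
    by_cases h1 : MvPolynomial.aeval ![s0, c1] r = 0
    · exact Or.inr (hT c1 hc1T s0 h1)
    · exact Or.inl h1
  have hcardp : p.roots.toFinset.card = p.natDegree := by
    rw [Multiset.toFinset_card_of_nodup (nodup_roots hsep),
      (IsAlgClosed.splits p).natDegree_eq_card_roots]
  -- the points of the plane
  set P := planeSet G 0 q q' (MvPolynomial.X i0 - MvPolynomial.C c')
    (linPoly u - MvPolynomial.C c1) with hPdef
  have hPmem : ∀ s0 y0 : k, (s0, y0) ∈ P ↔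
      (dirPoly (fun i => q i * s0) q' B - C c').eval y0 = 0 ∧
      MvPolynomial.aeval (fun i => q i * s0 + q' i * y0) M - c1 = 0 := by
    intro s0 y0
    have h1 : (fun i => (0 : Fin d → k) i + (s0, y0).1 * q i + (s0, y0).2 * q' i) =
        fun i => q i * s0 + q' i * y0 := by
      funext i
      simp only [Pi.zero_apply]
      ring
    rw [hPdef, planeSet, Set.mem_ofPred_eq, h1, map_sub, map_sub, map_sub, map_sub, eval_sub,
      eval_C, eval_dirPoly]
    have h2 : ∀ c : k, G (MvPolynomial.C c) = MvPolynomial.C c := by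
      intro c
      rw [← MvPolynomial.algebraMap_eq, AlgEquiv.commutes]
    rw [h2, h2, MvPolynomial.eval_C, MvPolynomial.eval_C, ← hBdef, ← hM,
      ← MvPolynomial.coe_aeval_eq_eval]
    rfl
  have hres0 : ∀ s0 : k, p.eval s0 = 0 ↔ ∃ y0, (s0, y0) ∈ P := by
    intro s0
    rw [hpev, hrT, resPoly_eq _ hB0 hq', mul_eq_zero, Multiset.prod_eq_zero_iff,
      Multiset.mem_map]
    have h1 : algebraMap k k (MvPolynomial.eval q' (topForm B) ^ M.totalDegree) ≠ 0 := ha00
    rw [or_iff_right h1]
    refine exists_congr fun y0 => ?_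
    rw [hPmem, mem_roots (natDegree_dirPoly_sub _ hB0 hq' _).2.1, IsRoot.def]
    rfl
  have hPfin : P.Finite := by
    refine Set.Finite.subset (s := ⋃ s0 ∈ (p.roots.toFinset : Set k), (fun y0 => (s0, y0)) ''
      ((dirPoly (fun i => q i * s0) q' B - C c').roots.toFinset : Set k)) ?_ ?_
    · exact Set.Finite.biUnion (Finset.finite_toSet _) fun s0 _ =>
        (Finset.finite_toSet _).image _
    · rintro ⟨s0, y0⟩ hmem
      rw [Set.mem_iUnion₂]
      refine ⟨s0, ?_, y0, ?_, rfl⟩
      · rw [Finset.mem_coe, Multiset.mem_toFinset, mem_roots hpne, IsRoot.def, hres0]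
        exact ⟨y0, hmem⟩
      · rw [Finset.mem_coe, Multiset.mem_toFinset,
          mem_roots (natDegree_dirPoly_sub _ hB0 hq' _).2.1, IsRoot.def]
        exact ((hPmem s0 y0).1 hmem).1
  have hncard : p.natDegree ≤ P.ncard := by
    rw [← hcardp, ← Set.ncard_coe_finset]
    have h1 : (p.roots.toFinset : Set k) ⊆ Prod.fst '' P := by
      intro s0 hs0
      rw [Finset.mem_coe, Multiset.mem_toFinset, mem_roots hpne, IsRoot.def, hres0] at hs0
      obtain ⟨y0, hy0⟩ := hs0
      exact ⟨(s0, y0), hy0, rfl⟩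
    exact (Set.ncard_le_ncard h1 (hPfin.image _)).trans (Set.ncard_image_le hPfin)
  have hDP := hD q q' i1 i2 hind i0 u j1 hj1 huj1 c' c1 hPfin
  refine ⟨fun j => L.fl 0 (h j), fun j => le_fl _ _, fun j i => hu1 j i, ?_⟩
  have h1 : ∑ j, L.fl 0 (h j) ≤ ∑ j, L.lg (h j - algebraMap k _ c1) :=
    Finset.sum_le_sum fun j _ => fl_le (lg_sub_const (hc1' j)) (hc1' j).2
  rw [← hpdeg] at h1
  refine h1.trans (le_trans ?_ hDP)
  exact_mod_cast hncard

end Pool.Agent.H17Dyn
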