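import Pool.Agent.H17Dyn.Val

/-!
# Restricting a polynomial to a line
-/

set_option autoImplicit false

namespace Pool.Agent.H17Dyn

open LgData

section Alg

variable {σ : Type*} [Fintype σ] {k : Type*} [Field k] {B : Type*} [CommRing B] [Algebra k B]

/-- the restriction of `A` to the line `x + y q` -/
noncomputable def dirPoly (x : σ → B) (q : σ → k) (A : MvPolynomial σ k) : Polynomial B :=
  MvPolynomial.aeval (fun i => Polynomial.C (x i) + Polynomial.C (algebraMap k B (q i)) *
    Polynomial.X) A

omit [Fintype σ] in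
lemma eval_dirPoly (x : σ → B) (q : σ → k) (A : MvPolynomial σ k) (y : B) :
    (dirPoly x q A).eval y = MvPolynomial.aeval (fun i => x i + algebraMap k B (q i) * y) A := by
  have h : (Polynomial.evalRingHom y).comp (MvPolynomial.aeval (R := k) (fun i =>
      Polynomial.C (x i) + Polynomial.C (algebraMap k B (q i)) * Polynomial.X)).toRingHom =
      (MvPolynomial.aeval (R := k) (fun i => x i + algebraMap k B (q i) * y)).toRingHom := by
    apply MvPolynomial.ringHom_ext
    · intro c
      simp [Polynomial.algebraMap_apply]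
    · intro i
      simp
  exact congrArg (fun f : MvPolynomial σ k →+* B => f A) h

omit [Fintype σ] in
lemma map_dirPoly {B' : Type*} [CommRing B'] [Algebra k B'] (f : B →ₐ[k] B') (x : σ → B)
    (q : σ → k) (A : MvPolynomial σ k) :
    (dirPoly x q A).map (f : B →+* B') = dirPoly (fun i => f (x i)) q A := by
  have h : (Polynomial.mapRingHom (f : B →+* B')).comp (MvPolynomial.aeval (R := k) (fun i =>
      Polynomial.C (x i) + Polynomial.C (algebraMap k B (q i)) * Polynomial.X)).toRingHom =
      (MvPolynomial.aeval (R := k) (fun i => Polynomial.C (f (x i)) +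
        Polynomial.C (algebraMap k B' (q i)) * Polynomial.X)).toRingHom := by
    apply MvPolynomial.ringHom_ext
    · intro c
      simp [Polynomial.algebraMap_apply]
    · intro i
      simp
  exact congrArg (fun g : MvPolynomial σ k →+* Polynomial B' => g A) h

lemma dirPoly_eq_sum (x : σ → B) (q : σ → k) (A : MvPolynomial σ k) :
    dirPoly x q A = ∑ d ∈ A.support, Polynomial.C (algebraMap k B (A.coeff d)) *
      ∏ i, (Polynomial.C (x i) + Polynomial.C (algebraMap k B (q i)) * Polynomial.X) ^ d i := by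
  rw [dirPoly, MvPolynomial.aeval_def, MvPolynomial.eval₂_eq']
  rfl

/-- `f` has degree at most `n` and its coefficient of degree `n` is `c` -/
def TopC (n : ℕ) (f : Polynomial B) (c : B) : Prop := f.natDegree ≤ n ∧ f.coeff n = c

omit [Fintype σ] [Algebra k B] in
lemma TopC.mul {n n' : ℕ} {f f' : Polynomial B} {c c' : B} (h : TopC n f c)
    (h' : TopC n' f' c') : TopC (n + n') (f * f') (c * c') := by
  refine ⟨Polynomial.natDegree_mul_le.trans (add_le_add h.1 h'.1), ?_⟩
  rw [Polynomial.coeff_mul_add_eq_of_natDegree_le h.1 h'.1, h.2, h'.2]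

lemma TopC.one : TopC 0 (1 : Polynomial B) 1 := ⟨by simp, by simp⟩

lemma TopC.pow {n : ℕ} {f : Polynomial B} {c : B} (h : TopC n f c) (m : ℕ) :
    TopC (m * n) (f ^ m) (c ^ m) := by
  induction m with
  | zero => simpa using TopC.one
  | succ m ih =>
    rw [pow_succ, pow_succ, add_mul, one_mul]
    exact ih.mul h

lemma TopC.prod {ι : Type*} (t : Finset ι) {n : ι → ℕ} {f : ι → Polynomial B} {c : ι → B}
    (h : ∀ i ∈ t, TopC (n i) (f i) (c i)) :
    TopC (∑ i ∈ t, n i) (∏ i ∈ t, f i) (∏ i ∈ t, c i) := by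
  classical
  induction t using Finset.induction_on with
  | empty => simpa using TopC.one
  | insert a t ha ih =>
    rw [Finset.prod_insert ha, Finset.sum_insert ha, Finset.prod_insert ha]
    exact (h a (Finset.mem_insert_self a t)).mul
      (ih fun i hi => h i (Finset.mem_insert_of_mem hi))

lemma topC_linear (x : B) (c : B) :
    TopC 1 (Polynomial.C x + Polynomial.C c * Polynomial.X) c := by
  refine ⟨?_, by simp⟩
  refine (Polynomial.natDegree_add_le _ _).trans (max_le (by simp) ?_)
  exact (Polynomial.natDegree_C_mul_le _ _).trans Polynomial.natDegree_X_le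

lemma topC_monomial (x : σ → B) (q : σ → k) (d : σ →₀ ℕ) :
    TopC (∑ i, d i) (∏ i, (Polynomial.C (x i) + Polynomial.C (algebraMap k B (q i)) *
      Polynomial.X) ^ d i) (algebraMap k B (∏ i, q i ^ d i)) := by
  have := TopC.prod (B := B) Finset.univ (n := fun i => d i * 1)
    (f := fun i => (Polynomial.C (x i) + Polynomial.C (algebraMap k B (q i)) *
      Polynomial.X) ^ d i) (c := fun i => (algebraMap k B (q i)) ^ d i)
    (fun i _ => (topC_linear (x i) (algebraMap k B (q i))).pow (d i))
  simpa only [mul_one, map_prod, map_pow] using this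

omit [Fintype σ] in
lemma sum_le_totalDegree [Fintype σ] {A : MvPolynomial σ k} {d : σ →₀ ℕ} (hd : d ∈ A.support) :
    ∑ i, d i ≤ A.totalDegree := by
  have := MvPolynomial.le_totalDegree hd
  rwa [Finsupp.sum_fintype _ _ (fun _ => rfl)] at this

lemma natDegree_dirPoly_le (x : σ → B) (q : σ → k) (A : MvPolynomial σ k) :
    (dirPoly x q A).natDegree ≤ A.totalDegree := by
  rw [dirPoly_eq_sum]
  refine Polynomial.natDegree_sum_le_of_forall_le _ _ fun d hd => ?_
  refine (Polynomial.natDegree_C_mul_le _ _).trans ?_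
  exact (topC_monomial x q d).1.trans (sum_le_totalDegree hd)

lemma coeff_dirPoly_top (x : σ → B) (q : σ → k) (A : MvPolynomial σ k) {n : ℕ}
    (hn : A.totalDegree ≤ n) :
    (dirPoly x q A).coeff n =
      algebraMap k B (MvPolynomial.eval q (MvPolynomial.homogeneousComponent n A)) := by
  rw [dirPoly_eq_sum, Polynomial.finsetSum_coeff, MvPolynomial.homogeneousComponent_apply,
    map_sum, map_sum, Finset.sum_filter]
  refine Finset.sum_congr rfl fun d hd => ?_
  rw [Polynomial.coeff_C_mul]
  have hdeg : d.degree = ∑ i, d i := by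
    rw [Finsupp.degree_eq_sum]
  have htop := topC_monomial (B := B) x q d
  have hle := (sum_le_totalDegree hd).trans hn
  split_ifs with h
  · rw [hdeg] at h
    rw [← h, htop.2, ← map_mul, MvPolynomial.eval_monomial, Finsupp.prod_fintype]
    intro i
    simp
  · rw [hdeg] at h
    rw [Polynomial.coeff_eq_zero_of_natDegree_lt, mul_zero]
    exact lt_of_le_of_lt htop.1 (lt_of_le_of_ne hle h)

/-- the form of top degree -/
noncomputable def topForm (A : MvPolynomial σ k) : MvPolynomial σ k :=
  MvPolynomial.homogeneousComponent A.totalDegree A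

omit [Fintype σ] in
lemma topForm_ne_zero {A : MvPolynomial σ k} (hA : A ≠ 0) : topForm A ≠ 0 := by
  classical
  obtain ⟨d, hd, hdeg⟩ : ∃ d ∈ A.support, A.totalDegree = d.degree := by
    have hne : A.support.Nonempty := MvPolynomial.support_nonempty.2 hA
    obtain ⟨d, hd, h⟩ := Finset.exists_mem_eq_sup A.support hne (fun s => s.sum fun _ e => e)
    exact ⟨d, hd, h⟩
  intro h0
  have : MvPolynomial.coeff d (topForm A) = MvPolynomial.coeff d A := by
    rw [topForm, MvPolynomial.coeff_homogeneousComponent, if_pos hdeg.symm]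
  rw [h0, MvPolynomial.coeff_zero] at this
  exact MvPolynomial.mem_support_iff.1 hd this.symm

omit [Fintype σ] in
lemma exists_eval_ne_zero [Infinite k] {P : MvPolynomial σ k} (hP : P ≠ 0) :
    ∃ q : σ → k, MvPolynomial.eval q P ≠ 0 := by
  by_contra h
  push Not at h
  exact hP (MvPolynomial.funext fun q => by rw [h q, map_zero])

end Alg

section Size

variable {k K : Type*} [Field k] [Field K] [Algebra k K] {L : LgData k K}

/-- degree at most `n`, and the coefficient of degree `j` has size at most `(n - j) m` -/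
def Bd (L : LgData k K) (m : ℝ) (n : ℕ) (f : Polynomial K) : Prop :=
  f.natDegree ≤ n ∧ ∀ j ≤ n, L.le (f.coeff j) (((n : ℝ) - j) * m)

variable {m : ℝ}

lemma Bd.mul {n n' : ℕ} {f f' : Polynomial K} (h : Bd L m n f) (h' : Bd L m n' f') :
    Bd L m (n + n') (f * f') := by
  refine ⟨Polynomial.natDegree_mul_le.trans (add_le_add h.1 h'.1), fun j _ => ?_⟩
  rw [Polynomial.coeff_mul]
  refine le_sum fun p hp => ?_
  have hp' := Finset.HasAntidiagonal.mem_antidiagonal.1 hp
  rcases le_or_gt p.1 n with h1 | h1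
  · rcases le_or_gt p.2 n' with h2 | h2
    · refine ((h.2 _ h1).mul (h'.2 _ h2)).mono (le_of_eq ?_)
      rw [← hp']
      push_cast
      ring
    · rw [Polynomial.coeff_eq_zero_of_natDegree_lt (lt_of_le_of_lt h'.1 h2), mul_zero]
      exact le_zero _
  · rw [Polynomial.coeff_eq_zero_of_natDegree_lt (lt_of_le_of_lt h.1 h1), zero_mul]
    exact le_zero _

lemma Bd.one : Bd L m 0 1 := by
  refine ⟨by simp, fun j hj => ?_⟩
  obtain rfl : j = 0 := Nat.le_zero.1 hj
  simpa using le_one

lemma Bd.pow {n : ℕ} {f : Polynomial K} (h : Bd L m n f) (e : ℕ) :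
    Bd L m (e * n) (f ^ e) := by
  induction e with
  | zero => simpa using Bd.one
  | succ m ih =>
    rw [pow_succ, add_mul, one_mul]
    exact ih.mul h

lemma Bd.prod {ι : Type*} (t : Finset ι) {n : ι → ℕ} {f : ι → Polynomial K}
    (h : ∀ i ∈ t, Bd L m (n i) (f i)) :
    Bd L m (∑ i ∈ t, n i) (∏ i ∈ t, f i) := by
  classical
  induction t using Finset.induction_on with
  | empty => simpa using Bd.one
  | insert a t ha ih =>
    rw [Finset.prod_insert ha, Finset.sum_insert ha]
    exact (h a (Finset.mem_insert_self a t)).mul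
      (ih fun i hi => h i (Finset.mem_insert_of_mem hi))

lemma Bd.mono (hm : 0 ≤ m) {n n' : ℕ} (hn : n ≤ n') {f : Polynomial K} (h : Bd L m n f) :
    Bd L m n' f := by
  refine ⟨h.1.trans hn, fun j hj => ?_⟩
  rcases le_or_gt j n with h1 | h1
  · refine (h.2 j h1).mono ?_
    have : (n : ℝ) ≤ n' := by exact_mod_cast hn
    exact mul_le_mul_of_nonneg_right (by linarith) hm
  · rw [Polynomial.coeff_eq_zero_of_natDegree_lt (lt_of_le_of_lt h.1 h1)]
    exact le_zero _

lemma Bd.add {n : ℕ} {f f' : Polynomial K} (h : Bd L m n f) (h' : Bd L m n f') :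
    Bd L m n (f + f') := by
  refine ⟨(Polynomial.natDegree_add_le _ _).trans (max_le h.1 h'.1), fun j hj => ?_⟩
  rw [Polynomial.coeff_add]
  exact (h.2 j hj).add (h'.2 j hj)

lemma Bd.neg {n : ℕ} {f : Polynomial K} (h : Bd L m n f) : Bd L m n (-f) := by
  refine ⟨by simpa using h.1, fun j hj => ?_⟩
  rw [Polynomial.coeff_neg]
  exact (h.2 j hj).neg

lemma Bd.sub {n : ℕ} {f f' : Polynomial K} (h : Bd L m n f) (h' : Bd L m n f') :
    Bd L m n (f - f') := by
  rw [sub_eq_add_neg]
  exact h.add h'.neg

lemma Bd.C {c : K} (hc : L.le c 0) : Bd L m 0 (Polynomial.C c) := by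
  refine ⟨by simp, fun j hj => ?_⟩
  obtain rfl : j = 0 := Nat.le_zero.1 hj
  simpa using hc

lemma Bd.sum {ι : Type*} (t : Finset ι) {n : ℕ} {f : ι → Polynomial K}
    (h : ∀ i ∈ t, Bd L m n (f i)) : Bd L m n (∑ i ∈ t, f i) := by
  classical
  induction t using Finset.induction_on with
  | empty => exact ⟨by simp, fun j _ => by simpa using le_zero _⟩
  | insert a t ha ih =>
    rw [Finset.sum_insert ha]
    exact (h a (Finset.mem_insert_self a t)).add
      (ih fun i hi => h i (Finset.mem_insert_of_mem hi))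

lemma bd_linear {x c : K} (hx : L.le x m) (hc : L.le c 0) :
    Bd L m 1 (Polynomial.C x + Polynomial.C c * Polynomial.X) := by
  refine ⟨(topC_linear x c).1, fun j hj => ?_⟩
  interval_cases j
  · simpa using hx
  · simpa using hc

lemma bd_dirPoly {σ : Type*} [Fintype σ] (hm : 0 ≤ m) {x : σ → K} (hx : ∀ i, L.le (x i) m)
    (q : σ → k) {A : MvPolynomial σ k} {n : ℕ} (hn : A.totalDegree ≤ n) :
    Bd L m n (dirPoly x q A) := by
  rw [dirPoly_eq_sum]
  refine Bd.sum _ fun d hd => ?_
  have h1 : Bd L m (∑ i, d i) (∏ i, (Polynomial.C (x i) + Polynomial.C (algebraMap k K (q i)) *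
      Polynomial.X) ^ d i) := by
    have := Bd.prod (L := L) (m := m) Finset.univ (n := fun i => d i * 1)
      (f := fun i => (Polynomial.C (x i) + Polynomial.C (algebraMap k K (q i)) *
        Polynomial.X) ^ d i)
      (fun i _ => (bd_linear (hx i) (le_const (q i))).pow (d i))
    simpa only [mul_one] using this
  have h2 := (Bd.C (m := m) (L := L) (le_const (A.coeff d))).mul h1
  rw [zero_add] at h2
  exact h2.mono hm ((sum_le_totalDegree hd).trans hn)

/-- a polynomial with bounded coefficients is dominated by its leading term at large points -/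
lemma Bd.eval_large {n : ℕ} {f : Polynomial K} (h : Bd L m n f) (h0 : f.coeff n ≠ 0)
    (h1 : L.lg (f.coeff n) = 0) {y : K} (hy : y ≠ 0) (hym : m < L.lg y) :
    f.eval y ≠ 0 ∧ L.lg (f.eval y) = n * L.lg y := by
  have hsum : f.eval y = f.coeff n * y ^ n + ∑ i ∈ Finset.range n, f.coeff i * y ^ i := by
    rw [Polynomial.eval_eq_sum_range' (Nat.lt_succ_of_le h.1), Finset.sum_range_succ, add_comm]
  have hne : f.coeff n * y ^ n ≠ 0 := mul_ne_zero h0 (pow_ne_zero _ hy)
  have hlg : L.lg (f.coeff n * y ^ n) = n * L.lg y := by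
    rw [L.lg_mul h0 (pow_ne_zero _ hy), h1, lg_pow hy, zero_add]
  have key : (∑ i ∈ Finset.range n, f.coeff i * y ^ i) ≠ 0 →
      L.lg (∑ i ∈ Finset.range n, f.coeff i * y ^ i) < L.lg (f.coeff n * y ^ n) := by
    intro hs
    have hb : L.le (∑ i ∈ Finset.range n, f.coeff i * y ^ i)
        (n * L.lg y - (L.lg y - m)) := by
      refine le_sum fun i hi => ?_
      have hi' := Finset.mem_range.1 hi
      refine ((h.2 i hi'.le).mul (le.pow (r := L.lg y) (fun _ => le_rfl) i)).mono ?_
      have h3 : ((i + 1 : ℕ) : ℝ) ≤ n := by exact_mod_cast hi'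
      push_cast at h3
      nlinarith
    have := hb hs
    rw [hlg]
    linarith
  have := lg_add_eq hne key
  rw [← hsum, hlg] at this
  exact this

lemma Bd.root_le {n : ℕ} {f : Polynomial K} (h : Bd L m n f) (h0 : f.coeff n ≠ 0)
    (h1 : L.lg (f.coeff n) = 0) {y : K} (hy : f.eval y = 0) : L.le y m := by
  intro hy0
  by_contra hcon
  push Not at hcon
  exact (h.eval_large h0 h1 hy0 hcon).1 hy

end Size

end Pool.Agent.H17Dyn
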