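import Pool.Agent.H17Dyn.Forms
import Pool.Agent.H17Dyn.Piola
import Pool.Agent.H17Dyn.HDer
import Pool.Agent.H17Dyn.Hahn
import Pool.Agent.H17Dyn.Roots

/-!
# Generic members of a pencil have simple roots
-/

set_option autoImplicit false

attribute [-instance] HahnSeries.powerSeriesAlgebra

namespace Pool.Agent.H17Dyn

open LgData Polynomial

variable {k : Type*} [Field k]

/-- the kernel of a faithful derivation consists of the constants -/
lemma hder_eq_zero {χ : ℝ →+ k} (hχ : Function.Injective χ) {h : HahnSeries ℝ k}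
    (h0 : hder χ h = 0) : h ∈ Set.range (algebraMap k (HahnSeries ℝ k)) := by
  refine ⟨h.coeff 0, ?_⟩
  have hC : (algebraMap k (HahnSeries ℝ k)) (h.coeff 0) = HahnSeries.single 0 (h.coeff 0) := by
    rw [HahnSeries.algebraMap_apply]
    rfl
  ext g
  rw [hC]
  rcases eq_or_ne g 0 with rfl | hg
  · rw [HahnSeries.coeff_single_same]
  · rw [HahnSeries.coeff_single_of_ne hg]
    have h1 : (hder χ h).coeff g = 0 := by
      rw [h0]
      rfl
    rw [coeff_hder] at h1
    have h2 : χ g ≠ 0 := (map_ne_zero_iff _ hχ).2 hg
    exact ((mul_eq_zero.1 h1).resolve_left h2).symm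

section Gen

variable {K : Type*} [Field K] [Algebra k K]

/-- specialisation of the two variables -/
lemma map_two {T T' : Type*} [CommRing T] [Algebra k T] [CommRing T'] [Algebra k T']
    (f : T →ₐ[k] T') (r : MvPolynomial (Fin 2) k) (a b : T) :
    f (MvPolynomial.aeval ![a, b] r) = MvPolynomial.aeval ![f a, f b] r := by
  rw [MvPolynomial.comp_aeval_apply]
  congr 2
  ext i
  fin_cases i <;> rfl

end Gen

/-- the first coordinate as inner variable, the second as outer variable -/
noncomputable def twoVar (r : MvPolynomial (Fin 2) k) : Polynomial (Polynomial k) :=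
  MvPolynomial.aeval ![C X, X] r

lemma twoVar_map_eval {K : Type*} [Field K] [Algebra k K] (r : MvPolynomial (Fin 2) k)
    (s c : K) : ((twoVar r).map ((aeval s : k[X] →ₐ[k] K) : k[X] →+* K)).eval c =
      MvPolynomial.aeval ![s, c] r := by
  let f : Polynomial (Polynomial k) →ₐ[k] K :=
    { (Polynomial.eval₂RingHom ((aeval s : k[X] →ₐ[k] K) : k[X] →+* K) c) with
      commutes' := by
        intro a
        change Polynomial.eval₂ _ c (algebraMap k (Polynomial (Polynomial k)) a) = _
        rw [Polynomial.algebraMap_apply, Polynomial.eval₂_C, Polynomial.algebraMap_apply]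
        simp }
  have h1 : ((twoVar r).map ((aeval s : k[X] →ₐ[k] K) : k[X] →+* K)).eval c = f (twoVar r) :=
    Polynomial.eval_map _ _
  rw [h1, twoVar, map_two]
  congr 2
  ext i
  fin_cases i
  · change Polynomial.eval₂ _ c (C X) = s
    rw [Polynomial.eval₂_C]
    simp
  · change Polynomial.eval₂ _ c X = c
    rw [Polynomial.eval₂_X]

variable [IsAlgClosed k] [CharZero k]

/-- **A pencil whose branches are distinct and nonconstant has generically simple roots.** -/
lemma generic_simple {χ : ℝ →+ k} (hχ : Function.Injective χ) {s : HahnSeries ℝ k}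
    (hs : Function.Injective ((aeval s : k[X] →ₐ[k] HahnSeries ℝ k) : k[X] →+* HahnSeries ℝ k))
    (r : MvPolynomial (Fin 2) k) {b : ℕ} (h : Fin b → HahnSeries ℝ k) {a0 : k} (ha0 : a0 ≠ 0)
    (hr : ∀ c : HahnSeries ℝ k, MvPolynomial.aeval ![s, c] r =
      algebraMap k _ a0 * ∏ j, (h j - c))
    (hinj : Function.Injective h) (hnc : ∀ j, h j ∉ Set.range (algebraMap k (HahnSeries ℝ k))) :
    ∃ T : Finset k, ∀ c, c ∉ T → ∀ s0 : k, MvPolynomial.aeval ![s0, c] r = 0 →
      MvPolynomial.aeval ![s0, c] (MvPolynomial.pderiv 0 r) ≠ 0 := by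
  classical
  set R := twoVar r with hR
  set S := twoVar (MvPolynomial.pderiv 0 r) with hS
  set σ : k[X] →+* HahnSeries ℝ k := ((aeval s : k[X] →ₐ[k] HahnSeries ℝ k) :
    k[X] →+* HahnSeries ℝ k) with hσ
  have ha0' : algebraMap k (HahnSeries ℝ k) a0 ≠ 0 := by simpa using ha0
  have hRK : R.map σ = C (algebraMap k _ a0) * ∏ j, (C (h j) - X) := by
    apply Polynomial.funext
    intro c
    rw [hR, twoVar_map_eval, hr, eval_mul, eval_C, eval_prod]
    simp
  have hRK' : R.map σ = C (algebraMap k _ a0 * (-1) ^ b) * ∏ j, (X - C (h j)) := by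
    rw [hRK, C_mul, mul_assoc]
    congr 1
    have : ∀ j, C (h j) - X = C (-1) * (X - C (h j)) := by
      intro j
      rw [C_neg, C_1]
      ring
    simp_rw [this, Finset.prod_mul_distrib]
    rw [Finset.prod_const, Finset.card_univ, Fintype.card_fin, C_pow]
  have hlc : (R.map σ).leadingCoeff = algebraMap k _ a0 * (-1) ^ b := by
    rw [hRK', leadingCoeff_mul, leadingCoeff_C, (monic_prod_of_monic _ _ fun j _ =>
      monic_X_sub_C (h j)).leadingCoeff, mul_one]
  have hnd : (R.map σ).natDegree = b := by
    rw [hRK', natDegree_C_mul (mul_ne_zero ha0' (pow_ne_zero _ (neg_ne_zero.2 one_ne_zero))),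
      natDegree_prod_of_monic _ _ fun j _ => monic_X_sub_C (h j)]
    simp
  have hRnd : R.natDegree = b := by
    rw [← natDegree_map_eq_of_injective hs R]
    exact hnd
  have hRlc : R.leadingCoeff = C (a0 * (-1) ^ b) := by
    apply hs
    have h1 : σ R.leadingCoeff = (R.map σ).leadingCoeff :=
      (leadingCoeff_map_of_injective hs R).symm
    change σ R.leadingCoeff = σ _
    rw [h1, hlc, hσ]
    simp
  have hroot : ∀ x, (R.map σ).eval x = 0 ↔ ∃ j, h j = x := by
    intro x
    rw [hR, twoVar_map_eval, hr, mul_eq_zero, or_iff_right ha0', Finset.prod_eq_zero_iff]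
    simp [sub_eq_zero]
  -- the eliminant
  set E := resultant R S b S.natDegree with hE
  have hE0 : E ≠ 0 := by
    intro h0
    have h1 := resultant_map_map R S b S.natDegree σ
    rw [← hE, h0, map_zero] at h1
    have h2 := resultant_eq_prod_eval (R.map σ) (S.map σ) S.natDegree natDegree_map_le
      (IsAlgClosed.splits _)
    rw [hnd, h1] at h2
    rcases mul_eq_zero.1 h2.symm with h3 | h3
    · refine pow_ne_zero _ ?_ h3
      rw [hlc]
      exact mul_ne_zero ha0' (pow_ne_zero _ (neg_ne_zero.2 one_ne_zero))
    · rw [Multiset.prod_eq_zero_iff, Multiset.mem_map] at h3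
      obtain ⟨x, hx, hx0⟩ := h3
      have hx' := isRoot_of_mem_roots hx
      rw [IsRoot.def, hroot] at hx'
      obtain ⟨j, rfl⟩ := hx'
      -- derivation along the branch
      rw [hS, twoVar_map_eval] at hx0
      have h4 := chain_rule (hder χ) (MvPolynomial.aeval (R := k) ![s, h j]) r
      rw [Fin.sum_univ_two] at h4
      have h5 : MvPolynomial.aeval ![s, h j] r = 0 := by
        rw [hr, Finset.prod_eq_zero (Finset.mem_univ j) (sub_self _), mul_zero]
      rw [h5, map_zero, hx0, zero_mul, zero_add, MvPolynomial.aeval_X] at h4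
      have h6 : hder χ (h j) ≠ 0 := fun h7 => hnc j (hder_eq_zero hχ h7)
      have h7 : MvPolynomial.aeval ![s, h j] (MvPolynomial.pderiv 1 r) = 0 := by
        rcases mul_eq_zero.1 h4.symm with h8 | h8
        · exact h8
        · exact absurd h8 h6
      -- the derivative of the specialised polynomial
      have h8 : derivative (R.map σ) = (twoVar (MvPolynomial.pderiv 1 r)).map σ := by
        have h9 : ∀ q : MvPolynomial (Fin 2) k, (twoVar q).map σ =
            MvPolynomial.aeval (R := k) ![(C s : (HahnSeries ℝ k)[X]), X] q := by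
          intro q
          apply Polynomial.funext
          intro c
          rw [twoVar_map_eval]
          let f : (HahnSeries ℝ k)[X] →ₐ[k] HahnSeries ℝ k :=
            (Polynomial.aeval (R := HahnSeries ℝ k) c).restrictScalars k
          have h10 := map_two f q (C s) X
          have h11 : f (C s) = s := by simp [f]
          have h12 : f X = c := by simp [f]
          rw [h11, h12] at h10
          rw [← h10]
          exact congrFun (Polynomial.coe_aeval_eq_eval c) _
        rw [hR, h9, h9]
        have h13 := chain_rule ((Polynomial.derivative' (R := HahnSeries ℝ k)).restrictScalars k)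
          (MvPolynomial.aeval (R := k) ![(C s : (HahnSeries ℝ k)[X]), X]) r
        rw [Fin.sum_univ_two, MvPolynomial.aeval_X, MvPolynomial.aeval_X] at h13
        have h14 : ∀ q : (HahnSeries ℝ k)[X],
            ((Polynomial.derivative' (R := HahnSeries ℝ k)).restrictScalars k) q =
              derivative q := fun q => rfl
        rw [h14, h14, h14] at h13
        simpa using h13
      have h15 : (derivative (R.map σ)).eval (h j) = 0 := by
        rw [h8, twoVar_map_eval]
        exact h7
      rw [hRK', derivative_C_mul, eval_mul, eval_C, derivative_prod_finset, eval_finsetSum,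
        Finset.sum_eq_single j] at h15
      · rw [derivative_X_sub_C, mul_one, eval_prod] at h15
        rcases mul_eq_zero.1 h15 with h16 | h16
        · exact mul_ne_zero ha0' (pow_ne_zero _ (neg_ne_zero.2 one_ne_zero)) h16
        · obtain ⟨i, hi, hi0⟩ := Finset.prod_eq_zero_iff.1 h16
          rw [eval_sub, eval_X, eval_C, sub_eq_zero] at hi0
          exact (Finset.ne_of_mem_erase hi) (hinj hi0).symm
      · intro i _ hij
        rw [eval_mul, eval_prod, Finset.prod_eq_zero (Finset.mem_erase.2 ⟨hij.symm,
          Finset.mem_univ j⟩) (by simp), zero_mul]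
      · intro hj
        exact absurd (Finset.mem_univ j) hj
  -- the finite set of exceptional values
  have hev : ∀ (q : MvPolynomial (Fin 2) k) (s0 c : k),
      ((twoVar q).map (Polynomial.evalRingHom s0)).eval c = MvPolynomial.aeval ![s0, c] q := by
    intro q s0 c
    have h1 := twoVar_map_eval (K := k) q s0 c
    have h2 : ((aeval s0 : k[X] →ₐ[k] k) : k[X] →+* k) = Polynomial.evalRingHom s0 := by
      ext <;> simp
    rw [h2] at h1
    exact h1
  have hspec : ∀ s0 : k, (R.map (Polynomial.evalRingHom s0)).natDegree = b ∧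
      R.map (Polynomial.evalRingHom s0) ≠ 0 := by
    intro s0
    have h1 : Polynomial.evalRingHom s0 R.leadingCoeff ≠ 0 := by
      rw [hRlc]
      simpa using ha0
    refine ⟨?_, ?_⟩
    · rw [natDegree_map_of_leadingCoeff_ne_zero _ h1, hRnd]
    · intro h2
      apply h1
      rw [← leadingCoeff_map_of_leadingCoeff_ne_zero _ h1, h2, leadingCoeff_zero]
  refine ⟨E.roots.toFinset.biUnion fun s0 =>
    (R.map (Polynomial.evalRingHom s0)).roots.toFinset, fun c hc s0 h1 h2 => hc ?_⟩
  rw [Finset.mem_biUnion]
  refine ⟨s0, ?_, ?_⟩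
  · rw [Multiset.mem_toFinset, mem_roots hE0, IsRoot.def]
    have h3 := resultant_map_map R S b S.natDegree (Polynomial.evalRingHom s0)
    rw [← hE, Polynomial.coe_evalRingHom] at h3
    rw [← h3]
    have h4 := resultant_eq_prod_eval (R.map (Polynomial.evalRingHom s0))
      (S.map (Polynomial.evalRingHom s0)) S.natDegree natDegree_map_le (IsAlgClosed.splits _)
    rw [(hspec s0).1] at h4
    rw [h4]
    refine mul_eq_zero_of_right _ ?_
    rw [Multiset.prod_eq_zero_iff, Multiset.mem_map]
    refine ⟨c, ?_, ?_⟩
    · rw [mem_roots (hspec s0).2, IsRoot.def, hR, hev]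
      exact h1
    · rw [hS, hev]
      exact h2
  · rw [Multiset.mem_toFinset, mem_roots (hspec s0).2, IsRoot.def, hR, hev]
    exact h1

end Pool.Agent.H17Dyn
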