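import Mathlib

/-!
# Logarithmic absolute values

`LgData k K`: a field extension `K / k` with a real valued non-archimedean logarithmic absolute
value `lg`, trivial on `k`, and an element `s` with `lg s = 1`.
-/

set_option autoImplicit false

namespace Pool.Agent.H17Dyn

/-- A logarithmic non-archimedean absolute value on `K`, trivial on `k`, with an element of
logarithmic absolute value one. -/
structure LgData (k K : Type*) [Field k] [Field K] [Algebra k K] where
  /-- the logarithmic absolute value (junk value at `0`) -/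
  lg : K → ℝ
  lg_mul : ∀ {x y : K}, x ≠ 0 → y ≠ 0 → lg (x * y) = lg x + lg y
  lg_add : ∀ {x y : K}, x ≠ 0 → y ≠ 0 → x + y ≠ 0 → lg (x + y) ≤ max (lg x) (lg y)
  lg_const : ∀ {c : k}, c ≠ 0 → lg (algebraMap k K c) = 0
  /-- an element of logarithmic absolute value one -/
  s : K
  s_ne : s ≠ 0
  lg_s : lg s = 1

namespace LgData

variable {k K : Type*} [Field k] [Field K] [Algebra k K] (L : LgData k K)

lemma lg_one : L.lg 1 = 0 := by
  have := L.lg_const (c := 1) one_ne_zero
  rwa [map_one] at this

lemma lg_neg_one : L.lg (-1) = 0 := by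
  have := L.lg_const (c := -1) (neg_ne_zero.2 one_ne_zero)
  rwa [map_neg, map_one] at this

lemma lg_neg {x : K} : L.lg (-x) = L.lg x := by
  rcases eq_or_ne x 0 with rfl | hx
  · simp
  · rw [← neg_one_mul, L.lg_mul (by simp) hx, L.lg_neg_one, zero_add]

lemma lg_sub_comm (x y : K) : L.lg (x - y) = L.lg (y - x) := by
  rw [← neg_sub, L.lg_neg]

/-- `x` has logarithmic absolute value at most `r` -/
def le (x : K) (r : ℝ) : Prop := x ≠ 0 → L.lg x ≤ r

variable {L}

lemma le_zero (r : ℝ) : L.le 0 r := fun h => absurd rfl h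

lemma le.mono {x : K} {r r' : ℝ} (h : L.le x r) (hr : r ≤ r') : L.le x r' :=
  fun hx => (h hx).trans hr

lemma le.add {x y : K} {r : ℝ} (hx : L.le x r) (hy : L.le y r) : L.le (x + y) r := by
  intro hxy
  rcases eq_or_ne x 0 with rfl | hx0
  · rw [zero_add] at hxy ⊢
    exact hy hxy
  rcases eq_or_ne y 0 with rfl | hy0
  · rw [add_zero] at hxy ⊢
    exact hx hxy
  exact (L.lg_add hx0 hy0 hxy).trans (max_le (hx hx0) (hy hy0))

lemma le.neg {x : K} {r : ℝ} (hx : L.le x r) : L.le (-x) r := by
  intro h
  rw [L.lg_neg]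
  exact hx (neg_ne_zero.1 h)

lemma le.sub {x y : K} {r : ℝ} (hx : L.le x r) (hy : L.le y r) : L.le (x - y) r := by
  rw [sub_eq_add_neg]
  exact hx.add hy.neg

lemma le.mul {x y : K} {r r' : ℝ} (hx : L.le x r) (hy : L.le y r') : L.le (x * y) (r + r') := by
  intro h
  rw [L.lg_mul (left_ne_zero_of_mul h) (right_ne_zero_of_mul h)]
  exact add_le_add (hx (left_ne_zero_of_mul h)) (hy (right_ne_zero_of_mul h))

lemma le_const (c : k) : L.le (algebraMap k K c) 0 := by
  intro h
  rw [L.lg_const]
  rintro rfl
  simp at h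

lemma le_one : L.le 1 0 := fun _ => L.lg_one.le

lemma le.pow {x : K} {r : ℝ} (hx : L.le x r) (n : ℕ) : L.le (x ^ n) (n * r) := by
  induction n with
  | zero => simpa using le_one
  | succ n ih =>
    rw [pow_succ]
    refine (ih.mul hx).mono ?_
    push_cast
    linarith

lemma le_sum {ι : Type*} {t : Finset ι} {f : ι → K} {r : ℝ} (h : ∀ i ∈ t, L.le (f i) r) :
    L.le (∑ i ∈ t, f i) r := by
  classical
  induction t using Finset.induction_on with
  | empty => simpa using le_zero r
  | insert a t ha ih =>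
    rw [Finset.sum_insert ha]
    exact (h a (Finset.mem_insert_self a t)).add
      (ih fun i hi => h i (Finset.mem_insert_of_mem hi))

lemma le_prod {ι : Type*} {t : Finset ι} {f : ι → K} {r : ι → ℝ}
    (h : ∀ i ∈ t, L.le (f i) (r i)) : L.le (∏ i ∈ t, f i) (∑ i ∈ t, r i) := by
  classical
  induction t using Finset.induction_on with
  | empty => simpa using le_one
  | insert a t ha ih =>
    rw [Finset.prod_insert ha, Finset.sum_insert ha]
    exact (h a (Finset.mem_insert_self a t)).mul
      (ih fun i hi => h i (Finset.mem_insert_of_mem hi))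

lemma lg_prod {ι : Type*} {t : Finset ι} {f : ι → K} (h : ∀ i ∈ t, f i ≠ 0) :
    L.lg (∏ i ∈ t, f i) = ∑ i ∈ t, L.lg (f i) := by
  classical
  induction t using Finset.induction_on with
  | empty => simpa using L.lg_one
  | insert a t ha ih =>
    rw [Finset.prod_insert ha, Finset.sum_insert ha, L.lg_mul (h a (Finset.mem_insert_self a t)),
      ih fun i hi => h i (Finset.mem_insert_of_mem hi)]
    exact Finset.prod_ne_zero_iff.2 fun i hi => h i (Finset.mem_insert_of_mem hi)

lemma lg_pow {x : K} (hx : x ≠ 0) (n : ℕ) : L.lg (x ^ n) = n * L.lg x := by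
  induction n with
  | zero => simpa using L.lg_one
  | succ n ih =>
    rw [pow_succ, L.lg_mul (pow_ne_zero _ hx) hx, ih]
    push_cast
    ring

/-- domination: a strictly larger term determines the absolute value of a sum -/
lemma lg_add_eq {x y : K} (hx : x ≠ 0) (hy : y ≠ 0 → L.lg y < L.lg x) :
    x + y ≠ 0 ∧ L.lg (x + y) = L.lg x := by
  rcases eq_or_ne y 0 with rfl | hy0
  · rw [add_zero]
    exact ⟨hx, rfl⟩
  have hlt := hy hy0
  have hne : x + y ≠ 0 := by
    intro h
    have : x = -y := eq_neg_of_add_eq_zero_left h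
    rw [this, L.lg_neg] at hlt
    exact lt_irrefl _ hlt
  refine ⟨hne, le_antisymm ?_ ?_⟩
  · exact (L.lg_add hx hy0 hne).trans (max_le le_rfl hlt.le)
  · have h2 := L.lg_add hne (neg_ne_zero.2 hy0) (by simpa using hx)
    rw [add_neg_cancel_right, L.lg_neg] at h2
    rcases le_max_iff.1 h2 with h3 | h3
    · exact h3
    · exact absurd h3 (not_le.2 hlt)

/-- domination, with a bound for the smaller term -/
lemma lg_add_eq' {x y : K} {r : ℝ} (hx : x ≠ 0) (hy : L.le y r) (hr : r < L.lg x) :
    x + y ≠ 0 ∧ L.lg (x + y) = L.lg x :=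
  lg_add_eq hx fun hy0 => (hy hy0).trans_lt hr

variable (L)

/-- `x` is nonzero with nonnegative logarithmic absolute value -/
def big (x : K) : Prop := x ≠ 0 ∧ 0 ≤ L.lg x

variable {L}

/-- at most one constant is strictly close to a given element -/
lemma small_unique {x : K} {c c' : k} (hc : ¬ L.big (x - algebraMap k K c))
    (hc' : ¬ L.big (x - algebraMap k K c')) : c = c' := by
  by_contra hne
  have h0 : algebraMap k K (c' - c) ≠ 0 := by
    rw [map_ne_zero]
    exact sub_ne_zero.2 (Ne.symm hne)
  have h1 : algebraMap k K (c' - c) = (x - algebraMap k K c) + -(x - algebraMap k K c') := by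
    rw [map_sub]
    ring
  have hlg : L.lg (algebraMap k K (c' - c)) = 0 := L.lg_const (sub_ne_zero.2 (Ne.symm hne))
  unfold big at hc hc'
  push Not at hc hc'
  rcases eq_or_ne (x - algebraMap k K c) 0 with hz | hz
  · rcases eq_or_ne (x - algebraMap k K c') 0 with hz' | hz'
    · rw [hz, hz', neg_zero, add_zero] at h1
      exact h0 h1
    · rw [hz, zero_add] at h1
      rw [h1, L.lg_neg] at hlg
      exact absurd (hc' hz') (by rw [hlg]; exact lt_irrefl _)
  · rcases eq_or_ne (x - algebraMap k K c') 0 with hz' | hz'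
    · rw [hz', neg_zero, add_zero] at h1
      rw [h1] at hlg
      exact absurd (hc hz) (by rw [hlg]; exact lt_irrefl _)
    · have h2 := L.lg_add hz (neg_ne_zero.2 hz') (h1 ▸ h0)
      rw [← h1, hlg, L.lg_neg] at h2
      exact absurd h2 (not_le.2 (max_lt (hc hz) (hc' hz')))

/-- the size of a difference which is not strictly small -/
lemma lg_sub_const {x : K} {c : k} (h : L.big (x - algebraMap k K c)) :
    L.le x (L.lg (x - algebraMap k K c)) := by
  have h1 : x = (x - algebraMap k K c) + algebraMap k K c := by ring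
  rw [h1]
  refine le.add ?_ ((le_const c).mono (by simpa using h.2))
  simp [LgData.le]

lemma exists_const_avoid [Infinite k] {ι : Type*} (t : Finset ι) (f : ι → K) (bad : Finset k) :
    ∃ c : k, c ∉ bad ∧ ∀ i ∈ t, L.big (f i - algebraMap k K c) := by
  classical
  have hfin : {c : k | ∃ i ∈ t, ¬ L.big (f i - algebraMap k K c)}.Finite := by
    have : {c : k | ∃ i ∈ t, ¬ L.big (f i - algebraMap k K c)} =
        ⋃ i ∈ t, {c : k | ¬ L.big (f i - algebraMap k K c)} := by
      ext c
      simp
    rw [this]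
    refine Set.Finite.biUnion t.finite_toSet fun i _ => ?_
    exact Set.Subsingleton.finite fun c hc c' hc' => small_unique hc hc'
  obtain ⟨c, hc⟩ := (hfin.union bad.finite_toSet).infinite_compl.nonempty
  simp only [Set.mem_compl_iff, Set.mem_union, Set.mem_ofPred_eq, Finset.mem_coe, not_or,
    not_exists, not_and, not_not] at hc
  exact ⟨c, hc.2, hc.1⟩

/-- the elements of `k[s]` -/
lemma lg_aeval_s {p : Polynomial k} (hp : p ≠ 0) :
    Polynomial.aeval L.s p ≠ 0 ∧ L.lg (Polynomial.aeval L.s p) = p.natDegree := by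
  have hsum : Polynomial.aeval L.s p = algebraMap k K p.leadingCoeff * L.s ^ p.natDegree +
      ∑ i ∈ Finset.range p.natDegree, algebraMap k K (p.coeff i) * L.s ^ i := by
    rw [Polynomial.aeval_eq_sum_range, Finset.sum_range_succ, add_comm]
    simp only [Algebra.smul_def, Polynomial.coeff_natDegree]
  have hc : p.leadingCoeff ≠ 0 := Polynomial.leadingCoeff_ne_zero.2 hp
  have hlead : algebraMap k K p.leadingCoeff * L.s ^ p.natDegree ≠ 0 :=
    mul_ne_zero (by simpa using hc) (pow_ne_zero _ L.s_ne)
  have hlg : L.lg (algebraMap k K p.leadingCoeff * L.s ^ p.natDegree) = p.natDegree := by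
    rw [L.lg_mul (by simpa using hc) (pow_ne_zero _ L.s_ne), L.lg_const hc,
      lg_pow L.s_ne, L.lg_s]
    ring
  have hle : ∀ i ∈ Finset.range p.natDegree,
      L.le (algebraMap k K (p.coeff i) * L.s ^ i) ((p.natDegree : ℝ) - 1) := by
    intro i hi
    have h1 : L.le (L.s ^ i) (i * 1) := le.pow (fun _ => L.lg_s.le) i
    refine ((le_const _).mul h1).mono ?_
    have : i + 1 ≤ p.natDegree := Finset.mem_range.1 hi
    have : ((i + 1 : ℕ) : ℝ) ≤ p.natDegree := by exact_mod_cast this
    push_cast at this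
    linarith
  rw [hsum]
  have := lg_add_eq' hlead (le_sum hle) (by rw [hlg]; linarith)
  rw [hlg] at this
  exact this

variable (L)

/-- the absolute value truncated from below -/
noncomputable def fl (r : ℝ) (x : K) : ℝ := by
  classical exact if x = 0 then r else max (L.lg x) r

variable {L}

lemma fl_zero (r : ℝ) : L.fl r 0 = r := by simp [fl]

lemma fl_of_ne {r : ℝ} {x : K} (hx : x ≠ 0) : L.fl r x = max (L.lg x) r := by simp [fl, hx]

lemma le_fl (r : ℝ) (x : K) : r ≤ L.fl r x := by
  rcases eq_or_ne x 0 with rfl | hx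
  · rw [fl_zero]
  · rw [fl_of_ne hx]
    exact le_max_right _ _

lemma fl_le {r r' : ℝ} {x : K} (hx : L.le x r') (hr : r ≤ r') : L.fl r x ≤ r' := by
  rcases eq_or_ne x 0 with rfl | h
  · rwa [fl_zero]
  · rw [fl_of_ne h]
    exact max_le (hx h) hr

lemma le_of_fl (r : ℝ) (x : K) : L.le x (L.fl r x) := by
  intro hx
  rw [fl_of_ne hx]
  exact le_max_left _ _

lemma fl_neg (r : ℝ) (x : K) : L.fl r (-x) = L.fl r x := by
  rcases eq_or_ne x 0 with rfl | hx
  · simp
  · rw [fl_of_ne hx, fl_of_ne (neg_ne_zero.2 hx), L.lg_neg]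

lemma fl_mono {r r' : ℝ} (h : r ≤ r') (x : K) : L.fl r x ≤ L.fl r' x :=
  fl_le (le_of_fl _ _) (h.trans (le_fl _ _))

lemma fl_add_le (r : ℝ) (x y : K) : L.fl r (x + y) ≤ max (L.fl r x) (L.fl r y) := by
  refine fl_le ?_ ((le_fl r x).trans (le_max_left _ _))
  exact ((le_of_fl r x).mono (le_max_left _ _)).add ((le_of_fl r y).mono (le_max_right _ _))

lemma fl_continuous (x : K) : Continuous fun r => L.fl r x := by
  rcases eq_or_ne x 0 with rfl | hx
  · simp only [fl_zero]
    exact continuous_id
  · simp only [fl_of_ne hx]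
    exact continuous_const.max continuous_id

end LgData

end Pool.Agent.H17Dyn
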